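import Pool.Agent.Lib.MP_c17912_pr_LN.Base

set_option autoImplicit false

open MeasureTheory ProbabilityTheory Filter
open scoped NNReal ENNReal Topology Real

namespace Pool.Agent.SLE

noncomputable section

namespace EXaux

/-- A continuous periodic function is bounded. -/
theorem bdd {f : ℝ → ℝ} (hf : Continuous f) (hper : Function.Periodic f (2 * π)) :
    ∃ C, ∀ θ, |f θ| ≤ C := by
  obtain ⟨C, hC⟩ := isBounded_iff_forall_norm_le.1
    (hper.isBounded_of_continuous (by positivity) hf)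
  exact ⟨C, fun θ => hC _ (Set.mem_range_self θ)⟩

theorem per_deriv {f : ℝ → ℝ} {c : ℝ} (hper : Function.Periodic f c) :
    Function.Periodic (deriv f) c := by
  intro x
  have h : (fun y => f (y + c)) = f := funext hper
  rw [← deriv_comp_add_const, h]

/-- One integration. -/
theorem step {h h' : ℝ → ℝ} {C : ℝ} (n : ℕ) (hd : ∀ y, HasDerivAt h (h' y) y) (h0 : h 0 = 0)
    (hC : 0 ≤ C) (hb : ∀ y, |h' y| ≤ C * |y| ^ n) (y : ℝ) : |h y| ≤ C * |y| ^ (n + 1) := by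
  have h1 := (convex_Icc (-|y|) |y|).norm_image_sub_le_of_norm_hasDerivWithin_le (f := h)
    (f' := h') (C := C * |y| ^ n) (x := 0) (y := y)
    (fun x _ => (hd x).hasDerivWithinAt) (fun x hx => by
      refine (hb x).trans ?_
      refine mul_le_mul_of_nonneg_left ?_ hC
      exact pow_le_pow_left₀ (abs_nonneg _) (abs_le.2 hx) n)
    ⟨by linarith [abs_nonneg y], abs_nonneg y⟩ ⟨neg_abs_le y, le_abs_self y⟩
  rw [h0, sub_zero, sub_zero, Real.norm_eq_abs, Real.norm_eq_abs] at h1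
  rw [pow_succ, ← mul_assoc]
  exact h1

/-- Taylor expansion of order three. -/
theorem taylor {ψ : ℝ → ℝ} (hψ : ContDiff ℝ 3 ψ) {C : ℝ} (hC : 0 ≤ C)
    (hb : ∀ θ, |deriv (deriv (deriv ψ)) θ| ≤ C) (θ y : ℝ) :
    |ψ (θ + y) - ψ θ - deriv ψ θ * y - deriv (deriv ψ) θ * y ^ 2 / 2| ≤ C * |y| ^ 3 := by
  have h1 : ContDiff ℝ 2 (deriv ψ) := (contDiff_succ_iff_deriv.1 hψ).2.2
  have h2 : ContDiff ℝ 1 (deriv (deriv ψ)) := (contDiff_succ_iff_deriv.1 h1).2.2
  have d0 : ∀ x, HasDerivAt ψ (deriv ψ x) x := fun x =>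
    ((hψ.differentiable (by norm_num)) x).hasDerivAt
  have d1 : ∀ x, HasDerivAt (deriv ψ) (deriv (deriv ψ) x) x := fun x =>
    ((h1.differentiable (by norm_num)) x).hasDerivAt
  have d2 : ∀ x, HasDerivAt (deriv (deriv ψ)) (deriv (deriv (deriv ψ)) x) x := fun x =>
    ((h2.differentiable (by norm_num)) x).hasDerivAt
  have e2 : ∀ y, |deriv (deriv ψ) (θ + y) - deriv (deriv ψ) θ| ≤ C * |y| ^ (0 + 1) := by
    refine step (h := fun y => deriv (deriv ψ) (θ + y) - deriv (deriv ψ) θ)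
      (h' := fun y => deriv (deriv (deriv ψ)) (θ + y)) 0 (fun y => ?_) (by simp) hC
      (fun y => by simpa using hb (θ + y))
    exact ((d2 (θ + y)).comp_const_add θ y).sub_const _
  have e1 : ∀ y, |deriv ψ (θ + y) - deriv ψ θ - deriv (deriv ψ) θ * y| ≤ C * |y| ^ (1 + 1) := by
    refine step (h := fun y => deriv ψ (θ + y) - deriv ψ θ - deriv (deriv ψ) θ * y)
      (h' := fun y => deriv (deriv ψ) (θ + y) - deriv (deriv ψ) θ) 1 (fun y => ?_) (by simp) hC
      (fun y => e2 y)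
    have := (((d1 (θ + y)).comp_const_add θ y).sub_const (deriv ψ θ)).sub
      ((hasDerivAt_id y).const_mul (deriv (deriv ψ) θ))
    exact this.congr_deriv (by simp)
  have e0 : ∀ y, |ψ (θ + y) - ψ θ - deriv ψ θ * y - deriv (deriv ψ) θ * y ^ 2 / 2| ≤
      C * |y| ^ (2 + 1) := by
    refine step (h := fun y => ψ (θ + y) - ψ θ - deriv ψ θ * y - deriv (deriv ψ) θ * y ^ 2 / 2)
      (h' := fun y => deriv ψ (θ + y) - deriv ψ θ - deriv (deriv ψ) θ * y) 2 (fun y => ?_)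
      (by simp) hC (fun y => e1 y)
    have := ((((d0 (θ + y)).comp_const_add θ y).sub_const (ψ θ)).sub
      ((hasDerivAt_id y).const_mul (deriv ψ θ))).sub
      (((hasDerivAt_pow 2 y).const_mul (deriv (deriv ψ) θ)).div_const 2)
    convert! this using 1
    simp
    ring
  exact e0 y

/-- The angle of a product. -/
theorem arg_mul {ψ : ℝ → ℝ} (hper : Function.Periodic ψ (2 * π)) {x y : ℂ} (hx : x ≠ 0)
    (hy : y ≠ 0) : ψ (Complex.arg (x * y)) = ψ (Complex.arg x + Complex.arg y) := by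
  have h := Complex.arg_mul_coe_angle hx hy
  rw [← Real.Angle.coe_add, Real.Angle.angle_eq_iff_two_pi_dvd_sub] at h
  obtain ⟨k, hk⟩ := h
  have h1 : Complex.arg (x * y) = Complex.arg x + Complex.arg y + k * (2 * π) := by linarith
  rw [h1]
  exact hper.int_mul k _

/-- The logarithm. -/
theorem log_est {w : ℂ} (hw : ‖w‖ ≤ 1 / 2) :
    ‖Complex.log (1 + w) - (w - w ^ 2 / 2)‖ ≤ ‖w‖ ^ 3 := by
  have h := Complex.norm_log_sub_logTaylor_le 2 (z := w) (by linarith)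
  have h1 : Complex.logTaylor (2 + 1) w = w - w ^ 2 / 2 := by
    rw [Complex.logTaylor_succ, Complex.logTaylor_succ, Complex.logTaylor_succ,
      Complex.logTaylor_zero]
    simp
    ring
  rw [h1] at h
  refine h.trans ?_
  have h2 : (1 - ‖w‖)⁻¹ ≤ 2 := by
    rw [inv_le_comm₀ (by linarith) (by norm_num)]
    linarith
  have h3 : 0 ≤ ‖w‖ ^ (2 + 1) := by positivity
  have h4 : ‖w‖ ^ (2 + 1) * (1 - ‖w‖)⁻¹ ≤ ‖w‖ ^ (2 + 1) * 2 :=
    mul_le_mul_of_nonneg_left h2 h3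
  push_cast
  have h5 : ‖w‖ ^ (2 + 1) = ‖w‖ ^ 3 := rfl
  rw [h5] at h4 h3 ⊢
  rw [div_le_iff₀ (by norm_num)]
  linarith

/-- The core estimate, in terms of `w = ζ / z`. -/
theorem core {C p q R S T y n : ℝ} {al w L : ℂ} (hC : 0 ≤ C) (hn : n = ‖w‖) (hw : n ≤ 1 / 2)
    (hp : |p| ≤ C) (hq : |q| ≤ C) (hal : al = -1 - (p : ℂ) * Complex.I)
    (hL : ‖L - (w - w ^ 2 / 2)‖ ≤ n ^ 3) (hy : y = L.im) (hLn : ‖L‖ ≤ 3 / 2 * n)
    (hT : |T - (-L.re + p * y + q * y ^ 2 / 2)| ≤ C * |y| ^ 3)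
    (hR : R = (al * w).re) (hS : S = ((-al / 2 - (q : ℂ) / 4) * w ^ 2).re) :
    |T - R - S - q / 4 * n ^ 2| ≤ (1 + 7 * C) * n ^ 3 := by
  have hn0 : 0 ≤ n := by
    rw [hn]
    positivity
  set E : ℂ := L - (w - w ^ 2 / 2) with hE
  have hLE : L = w - w ^ 2 / 2 + E := by
    rw [hE]
    ring
  have hn2 : n ^ 2 = w.re ^ 2 + w.im ^ 2 := by
    rw [hn, Complex.sq_norm, Complex.normSq_apply]
    ring
  have hEre : |E.re| ≤ n ^ 3 := (Complex.abs_re_le_norm E).trans hL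
  have hEim : |E.im| ≤ n ^ 3 := (Complex.abs_im_le_norm E).trans hL
  have hwre : |w.re| ≤ n := by
    rw [hn]
    exact Complex.abs_re_le_norm w
  have hwim : |w.im| ≤ n := by
    rw [hn]
    exact Complex.abs_im_le_norm w
  have hLre : L.re = w.re - (w.re ^ 2 - w.im ^ 2) / 2 + E.re := by
    rw [hLE]
    simp [pow_two]
  have hLim : L.im = w.im - w.re * w.im + E.im := by
    rw [hLE]
    simp [pow_two]
    ring
  have hy1 : |y| ≤ 3 / 2 * n := by
    rw [hy]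
    exact (Complex.abs_im_le_norm L).trans hLn
  have hy3 : |y| ^ 3 ≤ 27 / 8 * n ^ 3 := by
    have := pow_le_pow_left₀ (abs_nonneg y) hy1 3
    calc |y| ^ 3 ≤ (3 / 2 * n) ^ 3 := this
      _ = 27 / 8 * n ^ 3 := by ring
  have hre : R = -w.re + p * w.im := by
    rw [hR, hal]
    simp
  have hse : S = (w.re ^ 2 - w.im ^ 2) / 2 - p * (w.re * w.im)
      - q / 4 * (w.re ^ 2 - w.im ^ 2) := by
    rw [hS, hal]
    have : ((-(-1 - (p : ℂ) * Complex.I) / 2 - (q : ℂ) / 4) * w ^ 2) =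
        (((1 / 2 - q / 4 : ℝ) : ℂ) + ((p / 2 : ℝ) : ℂ) * Complex.I) * (w * w) := by
      push_cast
      ring
    rw [this]
    simp
    ring
  have hn3 : 0 ≤ n ^ 3 := by positivity
  have hys : |y - w.im| ≤ n ^ 2 := by
    rw [hy, hLim]
    have h1 : w.im - w.re * w.im + E.im - w.im = -(w.re * w.im) + E.im := by ring
    rw [h1]
    have h2 : |w.re * w.im| ≤ n ^ 2 / 2 := by
      rw [hn2, abs_le]
      constructor <;> nlinarith [sq_nonneg (w.re + w.im), sq_nonneg (w.re - w.im)]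
    have h3 : n ^ 3 ≤ n ^ 2 / 2 := by nlinarith [sq_nonneg n]
    calc |-(w.re * w.im) + E.im| ≤ |-(w.re * w.im)| + |E.im| := abs_add_le _ _
      _ ≤ n ^ 2 / 2 + n ^ 2 / 2 := by
          rw [abs_neg]
          linarith
      _ = n ^ 2 := by ring
  have hyq : |y ^ 2 - w.im ^ 2| ≤ 5 / 2 * n ^ 3 := by
    have h1 : y ^ 2 - w.im ^ 2 = (y - w.im) * (y + w.im) := by ring
    rw [h1, abs_mul]
    have h2 : |y + w.im| ≤ 5 / 2 * n := by
      calc |y + w.im| ≤ |y| + |w.im| := abs_add_le _ _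
        _ ≤ 5 / 2 * n := by linarith
    calc |y - w.im| * |y + w.im| ≤ n ^ 2 * (5 / 2 * n) :=
          mul_le_mul hys h2 (abs_nonneg _) (by positivity)
      _ = 5 / 2 * n ^ 3 := by ring
  have key : T - R - S - q / 4 * n ^ 2 =
      (T - (-L.re + p * y + q * y ^ 2 / 2)) + (-E.re) + p * E.im + q / 2 * (y ^ 2 - w.im ^ 2) := by
    have : y = w.im - w.re * w.im + E.im := by rw [hy, hLim]
    rw [hre, hse, hn2, hLre]
    linear_combination p * this
  rw [key]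
  have k1 : |(T - (-L.re + p * y + q * y ^ 2 / 2))| ≤ C * (27 / 8 * n ^ 3) :=
    hT.trans (mul_le_mul_of_nonneg_left hy3 hC)
  have k3 : |p * E.im| ≤ C * n ^ 3 := by
    rw [abs_mul]
    exact mul_le_mul hp hEim (abs_nonneg _) hC
  have k4 : |q / 2 * (y ^ 2 - w.im ^ 2)| ≤ C / 2 * (5 / 2 * n ^ 3) := by
    rw [abs_mul]
    refine mul_le_mul ?_ hyq (abs_nonneg _) (by positivity)
    rw [abs_div, abs_two]
    linarith
  have k5 := abs_add_le ((T - (-L.re + p * y + q * y ^ 2 / 2)) + (-E.re) + p * E.im)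
    (q / 2 * (y ^ 2 - w.im ^ 2))
  have k6 := abs_add_le ((T - (-L.re + p * y + q * y ^ 2 / 2)) + (-E.re)) (p * E.im)
  have k7 := abs_add_le (T - (-L.re + p * y + q * y ^ 2 / 2)) (-E.re)
  rw [abs_neg] at k7
  have hCn : 0 ≤ C * n ^ 3 := by positivity
  linarith

end EXaux

/-- EX1. Expansion of `Phi`, with a constant which also bounds `ψ` and its derivatives. -/
theorem phi_exp {ψ : ℝ → ℝ} (hψ : ContDiff ℝ 3 ψ) (hper : Function.Periodic ψ (2 * π)) :
    ∃ C > 0, (∀ θ, |ψ θ| ≤ C) ∧ (∀ θ, |deriv ψ θ| ≤ C) ∧ (∀ θ, |deriv (deriv ψ) θ| ≤ C) ∧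
      ∀ z : ℂ, z ≠ 0 → ∀ ζ : ℂ, ‖ζ‖ ≤ ‖z‖ / 2 →
        |Phi ψ (z + ζ) - Phi ψ z - (P1 ψ z * ζ).re - (P2 ψ z * ζ ^ 2).re
          - P3 ψ z * ‖ζ‖ ^ 2| ≤ C * (‖ζ‖ / ‖z‖) ^ 3 := by
  have h1 : ContDiff ℝ 2 (deriv ψ) := (contDiff_succ_iff_deriv.1 hψ).2.2
  have h2 : ContDiff ℝ 1 (deriv (deriv ψ)) := (contDiff_succ_iff_deriv.1 h1).2.2
  have p1 := EXaux.per_deriv hper
  have p2 := EXaux.per_deriv p1
  have p3 := EXaux.per_deriv p2
  obtain ⟨C0, hC0⟩ := EXaux.bdd hψ.continuous hper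
  obtain ⟨C1, hC1⟩ := EXaux.bdd h1.continuous p1
  obtain ⟨C2, hC2⟩ := EXaux.bdd h2.continuous p2
  obtain ⟨C3, hC3⟩ := EXaux.bdd (h2.continuous_deriv le_rfl) p3
  have n0 : 0 ≤ C0 := (abs_nonneg _).trans (hC0 0)
  have n1 : 0 ≤ C1 := (abs_nonneg _).trans (hC1 0)
  have n2 : 0 ≤ C2 := (abs_nonneg _).trans (hC2 0)
  have n3 : 0 ≤ C3 := (abs_nonneg _).trans (hC3 0)
  set D : ℝ := C0 + C1 + C2 + C3 with hD
  have nD : 0 ≤ D := by positivity
  refine ⟨1 + 7 * D, by positivity, fun θ => (hC0 θ).trans (by linarith),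
    fun θ => (hC1 θ).trans (by linarith), fun θ => (hC2 θ).trans (by linarith), ?_⟩
  intro z hz ζ hζ
  have hz0 : 0 < ‖z‖ := norm_pos_iff.2 hz
  set w : ℂ := ζ / z with hw
  have hwn : ‖w‖ = ‖ζ‖ / ‖z‖ := norm_div _ _
  have hw2 : ‖w‖ ≤ 1 / 2 := by
    rw [hwn, div_le_iff₀ hz0]
    linarith
  have hs : 1 + w ∈ Complex.slitPlane :=
    Complex.mem_slitPlane_of_norm_lt_one (by linarith)
  have hs0 : 1 + w ≠ 0 := Complex.slitPlane_ne_zero hs
  have hzz : z + ζ = z * (1 + w) := by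
    rw [hw]
    field_simp
  set L : ℂ := Complex.log (1 + w) with hL
  have hT : Phi ψ (z + ζ) - Phi ψ z =
      -L.re + (ψ (Complex.arg z + L.im) - ψ (Complex.arg z)) := by
    unfold Phi
    rw [hzz, EXaux.arg_mul hper hz hs0, norm_mul, Real.log_mul hz0.ne' (norm_pos_iff.2 hs0).ne',
      hL, Complex.log_re, Complex.log_im]
    ring
  have hTy := EXaux.taylor hψ nD (fun θ => (hC3 θ).trans (by linarith)) (Complex.arg z) L.im
  have hc := EXaux.core (C := D) (p := deriv ψ (Complex.arg z)) (q := be ψ z)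
    (R := (P1 ψ z * ζ).re) (S := (P2 ψ z * ζ ^ 2).re) (T := Phi ψ (z + ζ) - Phi ψ z)
    (y := L.im) (n := ‖w‖) (al := al ψ z) (w := w) (L := L) nD rfl hw2
    ((hC1 _).trans (by linarith)) ((hC2 _).trans (by linarith)) rfl (EXaux.log_est hw2) rfl
    (Complex.norm_log_one_add_half_le_self hw2) (by
      rw [hT]
      unfold be
      have e : -L.re + (ψ (Complex.arg z + L.im) - ψ (Complex.arg z)) -
          (-L.re + deriv ψ (Complex.arg z) * L.im +
            deriv (deriv ψ) (Complex.arg z) * L.im ^ 2 / 2) =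
          ψ (Complex.arg z + L.im) - ψ (Complex.arg z) - deriv ψ (Complex.arg z) * L.im -
            deriv (deriv ψ) (Complex.arg z) * L.im ^ 2 / 2 := by ring
      rw [e]
      exact hTy)
    (by
      unfold P1
      rw [hw]
      congr 1
      field_simp)
    (by
      unfold P2
      rw [hw]
      congr 1
      field_simp)
  have e3 : P3 ψ z * ‖ζ‖ ^ 2 = be ψ z / 4 * ‖w‖ ^ 2 := by
    unfold P3
    rw [hwn]
    field_simp
  rw [e3, ← hwn]
  exact hc

/-- EX2. `Phi` is continuous outside `0`. -/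
theorem phi_cont {ψ : ℝ → ℝ} (hψ : ContDiff ℝ 3 ψ) (hper : Function.Periodic ψ (2 * π)) :
    ContinuousOn (Phi ψ) {0}ᶜ := by
  have hl : Continuous (hper.lift : Real.Angle → ℝ) :=
    continuous_coinduced_dom.2 hψ.continuous
  intro z hz
  have hz0 : z ≠ 0 := hz
  refine ContinuousAt.continuousWithinAt ?_
  have h1 : ContinuousAt (fun z : ℂ => hper.lift ((Complex.arg z : ℝ) : Real.Angle)) z :=
    hl.continuousAt.comp (Complex.continuousAt_arg_coe_angle hz0)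
  have h2 : ContinuousAt (fun z : ℂ => -Real.log ‖z‖) z :=
    (continuous_norm.continuousAt.log (norm_pos_iff.2 hz0).ne').neg
  exact h2.add h1

/-- EX3. `Phi` is measurable. -/
theorem phi_meas {ψ : ℝ → ℝ} (hψ : ContDiff ℝ 3 ψ) : Measurable (Phi ψ) := by
  unfold Phi
  exact (Real.measurable_log.comp measurable_norm).neg.add
    (hψ.continuous.measurable.comp Complex.measurable_arg)

end

end Pool.Agent.SLE
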