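import Pool.Agent.Lib.MP_c17912_pr_LN.Base

set_option autoImplicit false

open MeasureTheory ProbabilityTheory Filter
open scoped NNReal ENNReal Topology Real

namespace Pool.Agent.SLE

noncomputable section

private theorem GN_inv {z : ℂ} (hz : z ≠ 0) :
    (1 / z ^ 2).re = Real.cos (2 * z.arg) / ‖z‖ ^ 2 ∧
      (1 / z ^ 2).im = -Real.sin (2 * z.arg) / ‖z‖ ^ 2 := by
  have hn : (0:ℝ) < ‖z‖ := norm_pos_iff.2 hz
  have h1 : z.re = ‖z‖ * Real.cos z.arg := by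
    rw [Complex.cos_arg hz]
    field_simp
  have h2 : z.im = ‖z‖ * Real.sin z.arg := by
    rw [Complex.sin_arg]
    field_simp
  have h3 := Real.sin_sq_add_cos_sq z.arg
  have hns : Complex.normSq (z ^ 2) = ‖z‖ ^ 4 := by
    rw [map_pow, Complex.normSq_eq_norm_sq]
    ring
  have hre : (z ^ 2).re = ‖z‖ ^ 2 * Real.cos (2 * z.arg) := by
    rw [pow_two, Complex.mul_re, Real.cos_two_mul]
    generalize hm : z.arg = t at *
    generalize hk : ‖z‖ = n at *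
    rw [h1, h2]
    linear_combination (-n ^ 2) * h3
  have him : (z ^ 2).im = ‖z‖ ^ 2 * Real.sin (2 * z.arg) := by
    rw [pow_two, Complex.mul_im, Real.sin_two_mul]
    generalize hm : z.arg = t at *
    generalize hk : ‖z‖ = n at *
    rw [h1, h2]
    ring
  rw [one_div, Complex.inv_re, Complex.inv_im, hns, hre, him]
  constructor
  · field_simp
  · field_simp

/-- GN1. The generator applied to `Phi`. -/
theorem gen_phi (a b c : ℝ) (ψ : ℝ → ℝ) {z : ℂ} (hz : z ≠ 0) :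
    (2 * P1 ψ z / z).re + (P2 ψ z * sg a b c).re + P3 ψ z * (a + b) =
      (Vth a b c z.arg * deriv (deriv ψ) z.arg / 2 + Bth a b c z.arg * deriv ψ z.arg
        - H1 a b c z.arg) / ‖z‖ ^ 2 := by
  obtain ⟨hre, him⟩ := GN_inv hz
  have hn : (0:ℝ) < ‖z‖ := norm_pos_iff.2 hz
  have e1 : 2 * P1 ψ z / z = 2 * al ψ z * (1 / z ^ 2) := by
    unfold P1
    field_simp
  have e2 : P2 ψ z * sg a b c =
      (-(al ψ z) / 2 - ((be ψ z : ℝ) : ℂ) / 4) * sg a b c * (1 / z ^ 2) := by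
    unfold P2
    field_simp
  rw [e1, e2]
  have hs2 : Real.sin z.arg ^ 2 = (1 - Real.cos (2 * z.arg)) / 2 := by
    rw [Real.cos_two_mul]
    have := Real.sin_sq_add_cos_sq z.arg
    linarith
  have hc2 : Real.cos z.arg ^ 2 = (1 + Real.cos (2 * z.arg)) / 2 := by
    rw [Real.cos_two_mul]
    ring
  have hsc : Real.sin z.arg * Real.cos z.arg = Real.sin (2 * z.arg) / 2 := by
    rw [Real.sin_two_mul]
    ring
  unfold P3 Vth Bth H1 al be sg
  rw [hs2, hc2, hsc]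
  have a1 : (2 * (-1 - ((deriv ψ z.arg : ℝ) : ℂ) * Complex.I) * (1 / z ^ 2)).re =
      -2 * (1 / z ^ 2).re + 2 * deriv ψ z.arg * (1 / z ^ 2).im := by
    generalize 1 / z ^ 2 = u
    simp
  have a2 : ((-(-1 - ((deriv ψ z.arg : ℝ) : ℂ) * Complex.I) / 2 -
      ((deriv (deriv ψ) z.arg : ℝ) : ℂ) / 4) *
      (((a - b : ℝ) : ℂ) + ((2 * c : ℝ) : ℂ) * Complex.I) * (1 / z ^ 2)).re =
      ((1 / 2 - deriv (deriv ψ) z.arg / 4) * (a - b) - deriv ψ z.arg / 2 * (2 * c)) *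
        (1 / z ^ 2).re - ((1 / 2 - deriv (deriv ψ) z.arg / 4) * (2 * c) +
        deriv ψ z.arg / 2 * (a - b)) * (1 / z ^ 2).im := by
    generalize 1 / z ^ 2 = u
    rw [show (-(-1 - ((deriv ψ z.arg : ℝ) : ℂ) * Complex.I) / 2 -
      ((deriv (deriv ψ) z.arg : ℝ) : ℂ) / 4) *
      (((a - b : ℝ) : ℂ) + ((2 * c : ℝ) : ℂ) * Complex.I) =
      (((1 / 2 - deriv (deriv ψ) z.arg / 4) * (a - b) - deriv ψ z.arg / 2 * (2 * c) : ℝ) : ℂ) +
      (((1 / 2 - deriv (deriv ψ) z.arg / 4) * (2 * c) +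
        deriv ψ z.arg / 2 * (a - b) : ℝ) : ℂ) * Complex.I from by
        push_cast
        ring_nf
        rw [Complex.I_sq]
        ring]
    rw [Complex.mul_re]
    simp
  rw [a1, a2, hre, him]
  field_simp
  ring

/-- GN2. The generator applied to `exp (β Phi)`. -/
theorem gen_gg {a b c : ℝ} (ha : 0 ≤ a) (hb : 0 ≤ b) (hc : c ^ 2 ≤ a * b) (ψ : ℝ → ℝ) {β : ℝ}
    (hβ : 0 ≤ β) {z : ℂ} (hz : z ≠ 0) :
    (2 * Q1 β ψ z / z).re + (Q2 β ψ z * sg a b c).re + Q3 β ψ z * (a + b) ≤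
      GG β ψ z * β / ‖z‖ ^ 2 * (Vth a b c z.arg * deriv (deriv ψ) z.arg / 2
        + Bth a b c z.arg * deriv ψ z.arg - H1 a b c z.arg
        + β / 2 * (1 + deriv ψ z.arg ^ 2) * (a + b)) := by
  have hn : (0:ℝ) < ‖z‖ := norm_pos_iff.2 hz
  have h1 := gen_phi a b c ψ hz
  have hG : 0 ≤ GG β ψ z * β := mul_nonneg (Real.exp_pos _).le hβ
  have hP : ‖P1 ψ z‖ ^ 2 = (1 + deriv ψ z.arg ^ 2) / ‖z‖ ^ 2 := by
    unfold P1 al
    rw [norm_div, div_pow]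
    congr 1
    rw [← Complex.normSq_eq_norm_sq, Complex.normSq_apply]
    simp
    ring
  have hsg : ‖sg a b c‖ ≤ a + b := by
    refine abs_le_of_sq_le_sq' ?_ (by linarith) |>.2
    rw [← Complex.normSq_eq_norm_sq, Complex.normSq_apply]
    unfold sg
    simp
    nlinarith
  have hR : (P1 ψ z ^ 2 * sg a b c).re ≤ ‖P1 ψ z‖ ^ 2 * (a + b) := by
    refine (Complex.re_le_norm _).trans ?_
    rw [norm_mul, norm_pow]
    exact mul_le_mul_of_nonneg_left hsg (by positivity)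
  have e1 : (2 * Q1 β ψ z / z).re = GG β ψ z * β * (2 * P1 ψ z / z).re := by
    unfold Q1
    rw [show 2 * (((GG β ψ z * β : ℝ) : ℂ) * P1 ψ z) / z =
      ((GG β ψ z * β : ℝ) : ℂ) * (2 * P1 ψ z / z) from by ring, Complex.re_ofReal_mul]
  have e2 : (Q2 β ψ z * sg a b c).re =
      GG β ψ z * β * ((P2 ψ z * sg a b c).re + β / 4 * (P1 ψ z ^ 2 * sg a b c).re) := by
    unfold Q2
    rw [show ((GG β ψ z * β : ℝ) : ℂ) * (P2 ψ z + ((β : ℝ) : ℂ) / 4 * P1 ψ z ^ 2) * sg a b c =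
      ((GG β ψ z * β : ℝ) : ℂ) * (P2 ψ z * sg a b c +
        ((β / 4 : ℝ) : ℂ) * (P1 ψ z ^ 2 * sg a b c)) from by push_cast; ring,
      Complex.re_ofReal_mul, Complex.add_re, Complex.re_ofReal_mul]
  rw [e1, e2]
  unfold Q3
  have h2 : GG β ψ z * β * (2 * P1 ψ z / z).re +
      GG β ψ z * β * ((P2 ψ z * sg a b c).re + β / 4 * (P1 ψ z ^ 2 * sg a b c).re) +
      GG β ψ z * β * (P3 ψ z + β / 4 * ‖P1 ψ z‖ ^ 2) * (a + b) =
      GG β ψ z * β * (((2 * P1 ψ z / z).re + (P2 ψ z * sg a b c).re + P3 ψ z * (a + b)) +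
        β / 4 * ((P1 ψ z ^ 2 * sg a b c).re + ‖P1 ψ z‖ ^ 2 * (a + b))) := by ring
  rw [h2, h1]
  have h3 : GG β ψ z * β / ‖z‖ ^ 2 * (Vth a b c z.arg * deriv (deriv ψ) z.arg / 2
        + Bth a b c z.arg * deriv ψ z.arg - H1 a b c z.arg
        + β / 2 * (1 + deriv ψ z.arg ^ 2) * (a + b)) =
      GG β ψ z * β * ((Vth a b c z.arg * deriv (deriv ψ) z.arg / 2
        + Bth a b c z.arg * deriv ψ z.arg - H1 a b c z.arg) / ‖z‖ ^ 2 +
        β / 4 * (2 * (‖P1 ψ z‖ ^ 2 * (a + b)))) := by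
    rw [hP]
    field_simp
    ring
  rw [h3]
  refine mul_le_mul_of_nonneg_left ?_ hG
  have h4 : 0 ≤ β / 4 := by positivity
  have h5 := mul_le_mul_of_nonneg_left
    (show (P1 ψ z ^ 2 * sg a b c).re + ‖P1 ψ z‖ ^ 2 * (a + b) ≤ 2 * (‖P1 ψ z‖ ^ 2 * (a + b)) by
      linarith) h4
  linarith

/-- GN3. The real part of `1 / z ^ 2`. -/
theorem re_inv_sq_arg {z : ℂ} (hz : z ≠ 0) : (1 / z ^ 2).re = Real.cos (2 * z.arg) / ‖z‖ ^ 2 :=
  (GN_inv hz).1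

end

end Pool.Agent.SLE
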