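import Pool.Agent.Lib.MP_c17912_pr_LN.AN
import Pool.Agent.Lib.MP_c17912_pr_LN.EX
import Pool.Agent.Lib.MP_c17912_pr_LN.GN
import Pool.Agent.Lib.MP_c17912_pr.Reach
import Pool.Agent.Lib.MP_c17912_pr.Grow

set_option autoImplicit false

open MeasureTheory ProbabilityTheory Filter
open scoped NNReal ENNReal Topology Real

namespace Pool.Agent.SLE

noncomputable section

variable {Ω : Type*} [MeasurableSpace Ω] {μ : Measure Ω} {a b c K : ℝ} {W : ℝ → Ω → ℂ}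

namespace ALAux

/-- Bounds for the coefficients of `Phi`. -/
theorem coef_le {ψ : ℝ → ℝ} {C : ℝ} (h1 : ∀ θ, |deriv ψ θ| ≤ C)
    (h2 : ∀ θ, |deriv (deriv ψ) θ| ≤ C) {δ : ℝ} (hδ : 0 < δ) {z : ℂ} (hz : δ ≤ ‖z‖) :
    ‖P1 ψ z‖ ≤ (1 + C) / δ ∧ ‖P2 ψ z‖ ≤ ((1 + C) / 2 + C / 4) / δ ^ 2 ∧
      |P3 ψ z| ≤ C / 4 / δ ^ 2 := by
  have hz0 : 0 < ‖z‖ := lt_of_lt_of_le hδ hz
  have hC : 0 ≤ C := (abs_nonneg _).trans (h1 0)
  have hal : ‖al ψ z‖ ≤ 1 + C := by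
    unfold al
    refine (norm_sub_le _ _).trans ?_
    rw [norm_neg, norm_one, norm_mul, Complex.norm_I, mul_one, Complex.norm_real,
      Real.norm_eq_abs]
    exact add_le_add_right (h1 _) 1
  have hbe : |be ψ z| ≤ C := h2 _
  have hsq : δ ^ 2 ≤ ‖z‖ ^ 2 := pow_le_pow_left₀ hδ.le hz 2
  refine ⟨?_, ?_, ?_⟩
  · unfold P1
    rw [norm_div]
    exact div_le_div₀ (by linarith) hal hδ hz
  · unfold P2
    rw [norm_div, norm_pow]
    refine div_le_div₀ (by positivity) ?_ (by positivity) hsq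
    refine (norm_sub_le _ _).trans (add_le_add ?_ ?_)
    · rw [norm_div, norm_neg, Complex.norm_two]
      linarith
    · rw [norm_div, Complex.norm_real, Real.norm_eq_abs]
      have e4 : ‖(4 : ℂ)‖ = 4 := by norm_num
      rw [e4]
      linarith
  · unfold P3
    rw [abs_div, abs_div, abs_of_pos (by norm_num : (0 : ℝ) < 4),
      abs_of_nonneg (by positivity : (0 : ℝ) ≤ ‖z‖ ^ 2)]
    refine div_le_div₀ (by positivity) ?_ (by positivity) hsq
    linarith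

/-- The event of one annulus. -/
theorem event [IsProbabilityMeasure μ] (hW : Drv a b c K W μ) {ψ : ℝ → ℝ}
    (hψ : Ang a b c (H1 a b c) 0 ψ) {C : ℝ} (hC : 0 < C) (h0 : ∀ θ, |ψ θ| ≤ C)
    (h1 : ∀ θ, |deriv ψ θ| ≤ C) (h2 : ∀ θ, |deriv (deriv ψ) θ| ≤ C)
    (hE : ∀ z : ℂ, z ≠ 0 → ∀ ζ : ℂ, ‖ζ‖ ≤ ‖z‖ / 2 →
      |Phi ψ (z + ζ) - Phi ψ z - (P1 ψ z * ζ).re - (P2 ψ z * ζ ^ 2).re
        - P3 ψ z * ‖ζ‖ ^ 2| ≤ C * (‖ζ‖ / ‖z‖) ^ 3) (z₀ : ℂ) (l j : ℕ) (hj : 1 ≤ j) :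
    ∃ A : Set Ω, MeasurableSet[Fut W 0] A ∧
      μ A ≤ ENNReal.ofReal
        ((Real.log (4 * 2 ^ l) + 2 * C + |Real.log ‖z₀‖|) / ((j : ℝ) * Real.log 2)) ∧
      ∀ ω ∉ A, ∀ (t : ℝ) (g : ℝ → ℂ), 0 ≤ t → t ≤ 2 ^ l → Sol (fun t => W t ω) z₀ t g →
        (∀ u ∈ Set.Icc 0 t, (1 / 2) ^ j < ‖g u - W u ω‖ ∧ ‖g u - W u ω‖ < 2 ^ l) →
        Real.log (4 * 2 ^ l) + C + Phi ψ (g t - W t ω) ≤ (j : ℝ) * Real.log 2 := by
  set δ : ℝ := (1 / 2) ^ j with hδdef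
  have hδ : 0 < δ := by positivity
  have hδ1 : δ ≤ 1 := pow_le_one₀ (by norm_num) (by norm_num)
  set R : ℝ := 2 ^ l with hRdef
  have hR1 : (1 : ℝ) ≤ R := one_le_pow₀ (by norm_num)
  have hR : 0 < R := by linarith
  have hδR : δ ≤ R := by linarith
  have hlog2 : 0 < Real.log 2 := Real.log_pos (by norm_num)
  have hlogδ : Real.log (δ / 2) = -((j : ℝ) + 1) * Real.log 2 := by
    have e1 : δ / 2 = (1 / 2) ^ (j + 1) := by
      rw [hδdef, pow_succ]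
      ring
    rw [e1, Real.log_pow, one_div, Real.log_inv]
    push_cast
    ring
  have hlog4R : Real.log (4 * R) = 2 * Real.log 2 + Real.log R := by
    rw [Real.log_mul (by norm_num) hR.ne']
    have e4 : (4 : ℝ) = 2 ^ 2 := by norm_num
    rw [e4, Real.log_pow]
    push_cast
    ring
  have hlog2R : Real.log (2 * R) = Real.log 2 + Real.log R :=
    Real.log_mul (by norm_num) hR.ne'
  have hlogR : 0 ≤ Real.log R := Real.log_nonneg hR1
  have hjpos : (0 : ℝ) < j := by exact_mod_cast hj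
  obtain ⟨L, hL⟩ : ∃ L : ℝ, L = Real.log (4 * R) + C := ⟨_, rfl⟩
  obtain ⟨B, hB⟩ : ∃ B : ℝ, B = Real.log (4 * R) + 2 * C + ((j : ℝ) + 1) * Real.log 2 :=
    ⟨_, rfl⟩
  have hB0 : 0 ≤ B := by
    rw [hB, hlog4R]
    positivity
  obtain ⟨F, hF⟩ : ∃ F : ℂ → ℝ, F = fun z => min (max 0 (L + Phi ψ z)) B := ⟨_, rfl⟩
  have hlow : ∀ z : ℂ, δ / 2 ≤ ‖z‖ → ‖z‖ ≤ 2 * R → Real.log 2 ≤ L + Phi ψ z ∧
      L + Phi ψ z ≤ B := by
    intro z hz1 hz2
    have hz0 : 0 < ‖z‖ := lt_of_lt_of_le (by positivity) hz1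
    have e1 : Real.log ‖z‖ ≤ Real.log (2 * R) := Real.log_le_log hz0 hz2
    have e2 : Real.log (δ / 2) ≤ Real.log ‖z‖ := Real.log_le_log (by positivity) hz1
    have e3 := abs_le.1 (h0 z.arg)
    unfold Phi
    rw [hL, hB, hlog4R]
    rw [hlog2R] at e1
    rw [hlogδ] at e2
    constructor <;> linarith [e3.1, e3.2]
  have hFe : ∀ z : ℂ, δ / 2 ≤ ‖z‖ → ‖z‖ ≤ 2 * R → F z = L + Phi ψ z := by
    intro z hz1 hz2
    obtain ⟨e1, e2⟩ := hlow z hz1 hz2
    rw [hF]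
    change min (max 0 (L + Phi ψ z)) B = _
    rw [max_eq_right (by linarith), min_eq_left e2]
  have hFm : Measurable F := by
    rw [hF]
    exact (measurable_const.max (measurable_const.add (phi_meas hψ.smooth))).min
      measurable_const
  have hFc : ContinuousOn F {0}ᶜ := by
    rw [hF]
    exact ContinuousOn.inf (ContinuousOn.sup continuousOn_const
      (continuousOn_const.add (phi_cont hψ.smooth hψ.per))) continuousOn_const
  have hF0 : ∀ z, 0 ≤ F z := by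
    intro z
    rw [hF]
    exact le_min (le_max_left _ _) hB0
  have hFB : ∀ z, F z ≤ B := by
    intro z
    rw [hF]
    exact min_le_right _ _
  have hexp : Exp2 F (P1 ψ) (P2 ψ) (P3 ψ) δ R (C / δ ^ 3) := by
    intro z hz1 hz2 ζ hζ
    have hz0 : 0 < ‖z‖ := lt_of_lt_of_le hδ hz1
    have hzne : z ≠ 0 := norm_pos_iff.1 hz0
    have e1 : ‖z‖ ≤ ‖z + ζ‖ + ‖ζ‖ := by
      have := norm_sub_le (z + ζ) ζ
      rwa [add_sub_cancel_right] at this
    have e2 := norm_add_le z ζ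
    rw [hFe z (by linarith) (by linarith), hFe (z + ζ) (by linarith) (by linarith)]
    have e3 := hE z hzne ζ (by linarith)
    have e4 : L + Phi ψ (z + ζ) - (L + Phi ψ z) = Phi ψ (z + ζ) - Phi ψ z := by ring
    rw [e4]
    refine e3.trans ?_
    have e5 : ‖ζ‖ / ‖z‖ ≤ ‖ζ‖ / δ := div_le_div_of_nonneg_left (norm_nonneg _) hδ hz1
    calc C * (‖ζ‖ / ‖z‖) ^ 3 ≤ C * (‖ζ‖ / δ) ^ 3 :=
          mul_le_mul_of_nonneg_left (pow_le_pow_left₀ (by positivity) e5 3) hC.le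
      _ = C / δ ^ 3 * ‖ζ‖ ^ 3 := by
          rw [div_pow]
          ring
  obtain ⟨M, hM⟩ : ∃ M : ℝ, M = (1 + C) / δ + ((1 + C) / 2 + C / 4) / δ ^ 2 +
      C / 4 / δ ^ 2 := ⟨_, rfl⟩
  have hM1 : 0 ≤ (1 + C) / δ := by positivity
  have hM2 : 0 ≤ ((1 + C) / 2 + C / 4) / δ ^ 2 := by positivity
  have hM3 : 0 ≤ C / 4 / δ ^ 2 := by positivity
  obtain ⟨A, hA1, hA2, hA3⟩ := annulus_gen hW (F := F) (k := fun _ => 0) (A₁ := P1 ψ)
    (A₂ := P2 ψ) (A₃ := P3 ψ) (δ := δ) (R := R) (C := C / δ ^ 3) (B := B)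
    (c₀ := Real.log 2) (M := M) hδ hδR hFm measurable_const hFc continuousOn_const hF0 hFB
    hlog2 hexp (by
      intro z hz1 hz2
      have hz0 : 0 < ‖z‖ := lt_of_lt_of_le hδ hz1
      have hzne : z ≠ 0 := norm_pos_iff.1 hz0
      obtain ⟨e1, e2, e3⟩ := coef_le h1 h2 hδ hz1
      refine ⟨?_, ?_, ?_, ?_, ?_, ?_⟩
      · rw [hFe z (by linarith) (by linarith)]
        exact (hlow z (by linarith) (by linarith)).1
      · rw [hM]
        linarith
      · rw [hM]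
        linarith
      · rw [hM]
        linarith
      · rw [hM, abs_zero]
        linarith
      · rw [zero_mul, add_zero, gen_phi a b c ψ hzne]
        have e4 := hψ.ineq z.arg
        refine div_nonpos_of_nonpos_of_nonneg ?_ (by positivity)
        linarith) (z₀ := z₀) (m := (j : ℝ) * Real.log 2) (by positivity) l
  refine ⟨A, hA1, hA2.trans (ENNReal.ofReal_le_ofReal ?_), ?_⟩
  · refine div_le_div_of_nonneg_right ?_ (by positivity)
    have e1 : F z₀ ≤ max 0 (L + Phi ψ z₀) := by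
      rw [hF]
      exact min_le_left _ _
    refine e1.trans (max_le ?_ ?_)
    · rw [hlog4R]
      positivity
    · unfold Phi
      have e3 := abs_le.1 (h0 z₀.arg)
      have e4 := neg_abs_le (Real.log ‖z₀‖)
      rw [hL]
      linarith [e3.2]
  · intro ω hω t g ht htl hsol hr
    have e1 := hA3 ω hω t g ht htl hsol hr
    simp only [intervalIntegral.integral_zero, Real.exp_zero, one_mul] at e1
    obtain ⟨e2, e3⟩ := hr t ⟨ht, le_rfl⟩
    rw [hFe _ (by linarith) (by linarith), hL] at e1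
    exact e1

/-- A bound of the measures by `v / j` for all large `j`. -/
theorem null {A : Set Ω} {v : ℝ} {j₀ : ℕ}
    (h : ∀ j ≥ j₀, μ A ≤ ENNReal.ofReal (v / ((j : ℝ) * Real.log 2))) : μ A = 0 := by
  refine le_antisymm ?_ bot_le
  have hlog2 : 0 < Real.log 2 := Real.log_pos (by norm_num)
  have h1 : Tendsto (fun j : ℕ => ENNReal.ofReal (v / ((j : ℝ) * Real.log 2))) atTop (𝓝 0) := by
    rw [← ENNReal.ofReal_zero]
    refine ENNReal.tendsto_ofReal ?_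
    exact tendsto_const_nhds.div_atTop
      (tendsto_natCast_atTop_atTop.atTop_mul_const hlog2)
  exact ge_of_tendsto h1 (eventually_atTop.2 ⟨j₀, h⟩)

/-- The first time at which a continuous function is at most `ε`. -/
theorem first {φ : ℝ → ℝ} {s ε : ℝ} (hs : 0 ≤ s) (hφ : ContinuousOn φ (Set.Icc 0 s))
    (h0 : ε < φ 0) (h1 : φ s ≤ ε) :
    ∃ r ∈ Set.Icc 0 s, φ r = ε ∧ ∀ u ∈ Set.Icc 0 r, ε ≤ φ u := by
  set S : Set ℝ := Set.Icc 0 s ∩ φ ⁻¹' (Set.Iic ε) with hS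
  have hSc : IsClosed S := hφ.preimage_isClosed_of_isClosed isClosed_Icc isClosed_Iic
  have hSne : S.Nonempty := ⟨s, ⟨hs, le_rfl⟩, h1⟩
  have hSb : BddBelow S := ⟨0, fun s hs => hs.1.1⟩
  have hmem : sInf S ∈ S := hSc.csInf_mem hSne hSb
  have hge : ∀ r ∈ Set.Icc 0 s, φ r ≤ ε → sInf S ≤ r := fun r hr hr' =>
    csInf_le hSb ⟨hr, hr'⟩
  have hle : φ (sInf S) ≤ ε := hmem.2
  have heq : φ (sInf S) = ε := by
    have h3 : ε ∈ Set.Icc (φ (sInf S)) (φ 0) := ⟨hle, h0.le⟩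
    obtain ⟨r, hr, hr'⟩ := intermediate_value_Icc' hmem.1.1
      (hφ.mono (Set.Icc_subset_Icc_right hmem.1.2)) h3
    have h4 : r = sInf S :=
      le_antisymm hr.2 (hge r ⟨hr.1, hr.2.trans hmem.1.2⟩ (le_of_eq hr'))
    rw [← h4]
    exact hr'
  refine ⟨sInf S, hmem.1, heq, fun u hu => ?_⟩
  rcases lt_or_eq_of_le hu.2 with h5 | h5
  · by_contra hlt
    push Not at hlt
    exact absurd (hge u ⟨hu.1, hu.2.trans hmem.1.2⟩ hlt.le) (not_le.mpr h5)
  · rw [h5]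
    exact heq.ge

end ALAux

open ALAux in
/-- AL. A fixed point is never absorbed. -/
theorem alive_ae [IsProbabilityMeasure μ] (hW : Drv a b c K W μ) {ψ : ℝ → ℝ}
    (hψ : Ang a b c (H1 a b c) 0 ψ) {z₀ : ℂ} (hz₀ : z₀ ≠ 0) :
    ∃ A, MeasurableSet[Fut W 0] A ∧ μ A = 0 ∧ ∀ ω ∉ A, ∀ t : ℝ, 0 ≤ t →
      ∃ g, Sol (fun t => W t ω) z₀ t g := by
  obtain ⟨C, hC, h0, h1, h2, hE⟩ := phi_exp hψ.smooth hψ.per
  have hn : 0 < ‖z₀‖ := norm_pos_iff.2 hz₀
  have hlog2 : 0 < Real.log 2 := Real.log_pos (by norm_num)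
  -- the number `j₀`
  obtain ⟨j₀, hj₀, hj₀'⟩ : ∃ j₀ : ℕ, 1 ≤ j₀ ∧ 2 * (1 / 2 : ℝ) ^ j₀ < ‖z₀‖ := by
    obtain ⟨n, hn'⟩ := exists_pow_lt_of_lt_one (by positivity : 0 < ‖z₀‖ / 2)
      (by norm_num : (1 / 2 : ℝ) < 1)
    refine ⟨n + 1, by omega, ?_⟩
    rw [pow_succ]
    have : (0 : ℝ) < (1 / 2) ^ n := by positivity
    linarith
  have key := fun (l : ℕ) (j : ℕ) => event hW hψ hC h0 h1 h2 hE z₀ l (j + j₀) (by omega)
  choose A hA1 hA2 hA3 using key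
  refine ⟨⋃ l : ℕ, ⋂ j : ℕ, A l j, ?_, ?_, ?_⟩
  · refine @MeasurableSet.iUnion _ _ (Fut W 0) _ _ (fun l => ?_)
    exact @MeasurableSet.iInter _ _ (Fut W 0) _ _ (fun j => hA1 l j)
  · rw [measure_iUnion_null_iff]
    intro l
    refine null (v := Real.log (4 * 2 ^ l) + 2 * C + |Real.log ‖z₀‖|) (j₀ := j₀) fun j hj => ?_
    refine (measure_mono (Set.iInter_subset (A l) (j - j₀))).trans ?_
    have e1 := hA2 l (j - j₀)
    rw [Nat.sub_add_cancel hj] at e1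
    exact e1
  · intro ω hω t ht
    by_contra hcon
    have hU : Continuous fun t => W t ω := hW.cont ω
    have hU0 : W 0 ω = 0 := hW.zero 0 le_rfl ω
    -- a bound of the path
    obtain ⟨mU, hmU⟩ : ∃ mU : ℝ, ∀ s ∈ Set.Icc 0 t, ‖W s ω‖ ≤ mU := by
      obtain ⟨u, hu, hmax⟩ := isCompact_Icc.exists_isMaxOn (⟨0, le_rfl, ht⟩ :
        (Set.Icc (0 : ℝ) t).Nonempty) hU.norm.continuousOn
      exact ⟨‖W u ω‖, fun s hs => hmax hs⟩
    have hlim2 : Tendsto (fun n : ℕ => (2 : ℝ) ^ n) atTop atTop :=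
      tendsto_pow_atTop_atTop_of_one_lt (by norm_num)
    obtain ⟨l, hl1, hl2⟩ := ((hlim2.eventually_gt_atTop (‖z₀‖ + 2 * mU + 3 * √t)).and
      (hlim2.eventually_ge_atTop t)).exists
    simp only [Set.mem_iUnion, Set.mem_iInter, not_exists, not_forall] at hω
    obtain ⟨j, hj⟩ := hω l
    -- the distance
    have hε : (0 : ℝ) < 2 * (1 / 2) ^ (j + j₀) := by positivity
    have hε' : 2 * (1 / 2 : ℝ) ^ (j + j₀) < ‖z₀ - W 0 ω‖ := by
      rw [hU0, sub_zero]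
      refine lt_of_le_of_lt ?_ hj₀'
      refine mul_le_mul_of_nonneg_left ?_ (by norm_num)
      exact pow_le_pow_of_le_one (by norm_num) (by norm_num) (by omega)
    obtain ⟨s, hs, g, hg, hgs⟩ := hull_reach hU ht hcon hε hε'
    have hφ : ContinuousOn (fun u => ‖g u - W u ω‖) (Set.Icc 0 s) :=
      ((FlowAux.contOn hg).sub hU.continuousOn).norm
    have hg0 : g 0 = z₀ := hg.1
    obtain ⟨r, hr, hr1, hr2⟩ := first hs.1 hφ (by rw [hg0]; exact hε') (le_of_eq hgs)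
    have hgr : Sol (fun t => W t ω) z₀ r g := hg.restrict hr.2
    have h3 := hA3 l j ω hj r g hr.1 (by linarith [hr.2, hs.2]) hgr (by
      intro u hu
      have e1 := hr2 u hu
      have e2 : (0 : ℝ) < (1 / 2) ^ (j + j₀) := by positivity
      refine ⟨by linarith, ?_⟩
      have hut : u ≤ t := by linarith [hu.2, hr.2, hs.2]
      have e3 := growth hU hu.1 (hgr.restrict hu.2) (fun v hv => hmU v ⟨hv.1, hv.2.trans hut⟩)
      have e4 : √u ≤ √t := Real.sqrt_le_sqrt hut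
      have e5 : ‖g u - W u ω‖ ≤ ‖z₀‖ + 2 * mU + 3 * √u := e3
      linarith)
    have h4 : Phi ψ (g r - W r ω) =
        -Real.log (2 * (1 / 2) ^ (j + j₀)) + ψ (g r - W r ω).arg := by
      unfold Phi
      rw [hr1]
    have h5 : Real.log (2 * (1 / 2) ^ (j + j₀)) =
        Real.log 2 - ((j + j₀ : ℕ) : ℝ) * Real.log 2 := by
      rw [Real.log_mul (by norm_num) (by positivity), Real.log_pow, one_div, Real.log_inv]
      ring
    have h6 : Real.log (4 * 2 ^ l) = 2 * Real.log 2 + l * Real.log 2 := by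
      rw [Real.log_mul (by norm_num) (by positivity), Real.log_pow]
      have e4 : (4 : ℝ) = 2 ^ 2 := by norm_num
      rw [e4, Real.log_pow]
      push_cast
      ring
    have h7 := abs_le.1 (h0 (g r - W r ω).arg)
    rw [h4, h5, h6] at h3
    have h8 : 0 ≤ (l : ℝ) * Real.log 2 := by positivity
    linarith [h7.1]

end

end Pool.Agent.SLE
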