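import Pool.Agent.Lib.MP_c17912_pr_LN.OS
import Pool.Agent.Lib.MP_c17912_pr.Smg

set_option autoImplicit false

open MeasureTheory ProbabilityTheory Filter
open scoped NNReal ENNReal Topology Real

namespace Pool.Agent.SLE

noncomputable section

variable {Ω : Type*} [MeasurableSpace Ω] {μ : Measure Ω} {a b c K : ℝ} {W : ℝ → Ω → ℂ}

/-- AN. The maximal inequality along the flow, on an annulus, for a general function. -/
theorem annulus_gen [IsProbabilityMeasure μ] (hW : Drv a b c K W μ) {F k : ℂ → ℝ}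
    {A₁ A₂ : ℂ → ℂ} {A₃ : ℂ → ℝ} {δ R C B c₀ M : ℝ} (hδ : 0 < δ) (hδR : δ ≤ R)
    (hFm : Measurable F) (hkm : Measurable k) (hFc : ContinuousOn F {0}ᶜ)
    (hkc : ContinuousOn k {0}ᶜ) (hF0 : ∀ z, 0 ≤ F z) (hFB : ∀ z, F z ≤ B) (hc₀ : 0 < c₀)
    (hexp : Exp2 F A₁ A₂ A₃ δ R C)
    (hann : ∀ z : ℂ, δ ≤ ‖z‖ → ‖z‖ ≤ R → c₀ ≤ F z ∧ ‖A₁ z‖ ≤ M ∧ ‖A₂ z‖ ≤ M ∧
      |A₃ z| ≤ M ∧ |k z| ≤ M ∧
      (2 * A₁ z / z).re + (A₂ z * sg a b c).re + A₃ z * (a + b) + k z * F z ≤ 0)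
    {z₀ : ℂ} {m : ℝ} (hm : 0 < m) (l : ℕ) :
    ∃ A : Set Ω, MeasurableSet[Fut W 0] A ∧ μ A ≤ ENNReal.ofReal (F z₀ / m) ∧
      ∀ ω ∉ A, ∀ (t : ℝ) (g : ℝ → ℂ), 0 ≤ t → t ≤ 2 ^ l → Sol (fun t => W t ω) z₀ t g →
        (∀ u ∈ Set.Icc 0 t, δ < ‖g u - W u ω‖ ∧ ‖g u - W u ω‖ < R) →
        Real.exp (∫ u in (0 : ℝ)..t, k (g u - W u ω)) * F (g t - W t ω) ≤ m := by
  classical
  obtain ⟨C', hC', h₀, hh₀, hone⟩ := one_step_gen (μ := μ) (a := a) (b := b) (c := c) (K := K)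
    hW.a_nonneg hW.b_nonneg hW.K_nonneg hδ hδR hFm hF0 hFB hc₀ hexp hann
  have key : ∀ n : ℕ, ∃ A : Set Ω, MeasurableSet[Fut W 0] A ∧
      ((1 / 2 : ℝ) ^ n ≤ h₀ →
        μ A ≤ ENNReal.ofReal (Real.exp (C' * 2 ^ l * √((1 / 2 : ℝ) ^ n)) * (F z₀ / m)) ∧
        ∀ ω, ∀ j : ℕ, (j : ℝ) * (1 / 2) ^ n ≤ 2 ^ l →
        (∀ i ≤ j, δ ≤ ‖eul (fun t => W t ω) z₀ ((1 / 2) ^ n) i‖ ∧
          ‖eul (fun t => W t ω) z₀ ((1 / 2) ^ n) i‖ ≤ R) →
        m ≤ Real.exp (∑ i ∈ Finset.range j,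
              (1 / 2) ^ n * k (eul (fun t => W t ω) z₀ ((1 / 2) ^ n) i))
          * F (eul (fun t => W t ω) z₀ ((1 / 2) ^ n) j) → ω ∈ A) := by
    intro n
    by_cases hn : (1 / 2 : ℝ) ^ n ≤ h₀
    · set h : ℝ := (1 / 2) ^ n with hhdef
      have hh : 0 < h := by positivity
      have hq : 1 ≤ 1 + C' * (h * √h) := by
        have : 0 ≤ C' * (h * √h) := by positivity
        linarith
      obtain ⟨A, hA1, hA2, hA3⟩ := disc_max hW (h := h) (q := 1 + C' * (h * √h)) (δ := δ) (R := R)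
        (m := m) hh hq hδ hm (k := k) (F := F) hkm hFm hF0 (by
          intro z s' hz1 hz2 hs'
          have hle : s' ≤ s' + h := by linarith
          have e : s' + h - s' = h := by ring
          refine hone h hh hn z hz1 hz2 (fun ω => W (s' + h) ω - W s' ω)
            ((hW.meas _).sub (hW.meas _)) (hW.int4 s' (s' + h) hs' hle)
            (hW.m1x s' (s' + h) hs' hle) (hW.m1y s' (s' + h) hs' hle) ?_ ?_ ?_ ?_
          · have := hW.m2x s' (s' + h) hs' hle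
            rwa [e] at this
          · have := hW.m2y s' (s' + h) hs' hle
            rwa [e] at this
          · have := hW.m2c s' (s' + h) hs' hle
            rwa [e] at this
          · have := hW.m4 s' (s' + h) hs' hle
            rwa [e] at this) z₀ (2 ^ (l + n))
      have hNh : (((2 ^ (l + n) : ℕ) : ℝ)) * h = 2 ^ l := by
        rw [hhdef]
        push_cast
        rw [pow_add, mul_assoc, ← mul_pow]
        norm_num
      refine ⟨A, Blk_le_Fut 0 _ A hA1, fun _ => ⟨?_, ?_⟩⟩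
      · refine hA2.trans (ENNReal.ofReal_le_ofReal ?_)
        have e1 := SmgAux.pow_le_exp hC'.le hh.le (2 ^ (l + n))
        rw [hNh] at e1
        rw [mul_div_assoc]
        exact mul_le_mul_of_nonneg_right e1 (div_nonneg (hF0 _) hm.le)
      · intro ω j hj h1 h2
        refine hA3 ω j ?_ h1 h2
        have h3 : (j : ℝ) * h ≤ ((2 ^ (l + n) : ℕ) : ℝ) * h := by
          rw [hNh]
          exact hj
        have h4 := le_of_mul_le_mul_right h3 hh
        exact_mod_cast h4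
    · exact ⟨∅, @MeasurableSet.empty _ (Fut W 0), fun h => absurd h hn⟩
  choose A hA using key
  have hlim : Tendsto (fun n : ℕ => (1 / 2 : ℝ) ^ n) atTop (𝓝 0) :=
    tendsto_pow_atTop_nhds_zero_of_lt_one (by norm_num) (by norm_num)
  have hev : ∀ᶠ n : ℕ in atTop, (1 / 2 : ℝ) ^ n ≤ h₀ := hlim.eventually (ge_mem_nhds hh₀)
  refine ⟨⋃ N : ℕ, ⋂ n ≥ N, A n, ?_, ?_, ?_⟩
  · refine @MeasurableSet.iUnion _ _ (Fut W 0) _ _ (fun N => ?_)
    refine @MeasurableSet.iInter _ _ (Fut W 0) _ _ (fun n => ?_)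
    exact @MeasurableSet.iInter _ _ (Fut W 0) _ _ (fun _ => (hA n).1)
  · refine SmgAux.measure_liminf_le (u := fun n => ENNReal.ofReal
      (Real.exp (C' * 2 ^ l * √((1 / 2 : ℝ) ^ n)) * (F z₀ / m))) ?_ ?_
    · refine ENNReal.tendsto_ofReal ?_
      have h1 : Tendsto (fun n : ℕ => √((1 / 2 : ℝ) ^ n)) atTop (𝓝 0) := by
        have h0 := (Real.continuous_sqrt.tendsto 0).comp hlim
        rw [Real.sqrt_zero] at h0
        exact h0
      have h2 : Tendsto (fun n : ℕ => Real.exp (C' * 2 ^ l * √((1 / 2 : ℝ) ^ n))) atTop (𝓝 1) := by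
        have h3 : Tendsto (fun n : ℕ => C' * 2 ^ l * √((1 / 2 : ℝ) ^ n)) atTop (𝓝 0) := by
          have h4 := h1.const_mul (C' * 2 ^ l)
          rw [mul_zero] at h4
          exact h4
        have h5 := (Real.continuous_exp.tendsto 0).comp h3
        rw [Real.exp_zero] at h5
        exact h5
      have h6 := h2.mul_const (F z₀ / m)
      rw [one_mul] at h6
      exact h6
    · filter_upwards [hev] with n hn
      exact ((hA n).2 hn).1
  · intro ω hω t g ht htT hsol hr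
    by_contra hcon
    push Not at hcon
    apply hω
    have hE := euler_event (U := fun t => W t ω) (hW.cont ω) (hW.zero 0 le_rfl ω)
      (k := k) (F := F) hkc hFc
      (z := z₀) (g := g) (t := t) (T := 2 ^ l) (δ := δ) (R := R) (m := m) ht htT hδ hsol hr hcon
    obtain ⟨N, hN⟩ := eventually_atTop.1 (hE.and hev)
    refine Set.mem_iUnion.2 ⟨N, ?_⟩
    simp only [Set.mem_iInter]
    intro n hn
    obtain ⟨⟨j, hj1, hj2, hj3⟩, hn2⟩ := hN n hn
    exact ((hA n).2 hn2).2 ω j hj1 hj2 hj3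

end

end Pool.Agent.SLE
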