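import Pool.Agent.Lib.MP_c17912_pr_LN.Base

/-!
# MP_c17912_pr, large noise (project LN, second version): definitions

* `GoodPath2`: a good path (see `GoodPath`) such that in addition, for every point `z` and every
  `k < k1`, at most `Kf η 2^k N` blocks start within `3 η 2^(k+1)` of `z`.
* `ss2`: the probability of the bad events of one scale.
* `Fm`: the function `4 cos 2θ - sin 2θ V'(θ) / V(θ)`.
-/

set_option autoImplicit false

open MeasureTheory ProbabilityTheory Filter
open scoped NNReal ENNReal Topology Real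

namespace Pool.Agent.SLE

noncomputable section

/-- A good path with a bound for the number of blocks which start in each of the discs of
radius `3 η 2^(k+1)`. -/
def GoodPath2 (U : ℝ → ℂ) (N : ℕ) (h r η : ℝ) (L : ℕ) (Kf : ℝ) (k1 : ℕ) : Prop :=
  GoodPath U N h r η L ∧
  ∀ z : ℂ, ∀ k : ℕ, k < k1 → ∀ J : Finset ℕ,
    (∀ j ∈ J, j < N ∧ ‖U ((j : ℝ) * h) - z‖ ≤ 3 * (η * 2 ^ (k + 1))) →
    (J.card : ℝ) ≤ Kf * (η * 2 ^ k) * N

/-- The probability of the bad events of one scale (second version). -/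
def ss2 (n ρ : ℕ) : ℝ :=
  ss n ρ + (n : ℝ) ^ 2 *
    (((mm n ρ : ℝ) ^ 2 / 10 + 9) ^ 2 * (2 * Real.exp (-((n : ℝ) ^ 3 / 160))))

/-- The right hand side of the Poisson equation after the first corrector. -/
def Fm (a b c θ : ℝ) : ℝ :=
  4 * Real.cos (2 * θ) -
    Real.sin (2 * θ) * ((a - b) * Real.sin (2 * θ) - 2 * c * Real.cos (2 * θ)) / Vth a b c θ

/-- The point of the unit circle with angle `2 θ`. -/
def ww (θ : ℝ) : ℂ := Complex.exp (((2 * θ : ℝ) : ℂ) * Complex.I)

end

end Pool.Agent.SLE
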