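import Pool.Agent.Lib.MP_c17912_pr_LN.Base

set_option autoImplicit false

open MeasureTheory ProbabilityTheory Filter
open scoped NNReal ENNReal Topology Real

namespace Pool.Agent.SLE

noncomputable section

/-- BC1. Displacement far away from the tip. -/
theorem far_move {U : ℝ → ℂ} {z : ℂ} {s x y ρ : ℝ} {g : ℝ → ℂ} (hsol : Sol U z s g)
    (hx : 0 ≤ x) (hxy : x ≤ y) (hy : y ≤ s) (hρ : 0 < ρ)
    (hfar : ∀ t ∈ Set.Icc x y, ρ ≤ ‖g t - U t‖) : ‖g y - g x‖ ≤ 2 / ρ * (y - x) := by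
  have h1 : ∀ t ∈ Set.Icc x y, HasDerivWithinAt g (2 / (g t - U t)) (Set.Icc x y) t :=
    fun t ht => (hsol.2.2 t ⟨hx.trans ht.1, ht.2.trans hy⟩).mono (Set.Icc_subset_Icc hx hy)
  have h2 : ∀ t ∈ Set.Icc x y, ‖2 / (g t - U t)‖ ≤ 2 / ρ := by
    intro t ht
    rw [norm_div, Complex.norm_ofNat]
    exact div_le_div_of_nonneg_left zero_le_two hρ (hfar t ht)
  have h3 := Convex.norm_image_sub_le_of_norm_hasDerivWithin_le h1 h2 (convex_Icc x y)
    (Set.left_mem_Icc.2 hxy) (Set.right_mem_Icc.2 hxy)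
  rwa [Real.norm_of_nonneg (sub_nonneg.2 hxy)] at h3

/-- BC2. Displacement when the tip oscillates by at most `r`. -/
theorem block_crude {U : ℝ → ℂ} (hU : Continuous U) {z p : ℂ} {s x y r : ℝ} {g : ℝ → ℂ}
    (hsol : Sol U z s g) (hx : 0 ≤ x) (hxy : x ≤ y) (hy : y ≤ s) (hr : 0 < r)
    (hosc : ∀ t ∈ Set.Icc x y, ‖U t - p‖ ≤ r) (h : 2 * (y - x) ≤ r ^ 2) :
    ‖g y - g x‖ ≤ 5 * r := by
  have hcont : ContinuousOn g (Set.Icc x y) := fun t ht =>
    ((hsol.2.2 t ⟨hx.trans ht.1, ht.2.trans hy⟩).mono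
      (Set.Icc_subset_Icc hx hy)).continuousWithinAt
  have hnorm : ContinuousOn (fun t => ‖g t - p‖) (Set.Icc x y) :=
    (hcont.sub continuousOn_const).norm
  have hsmall : 2 / r * (y - x) ≤ r := by
    rw [div_mul_eq_mul_div, div_le_iff₀ hr]
    nlinarith
  have hfar : ∀ t ∈ Set.Icc x y, 2 * r ≤ ‖g t - p‖ → r ≤ ‖g t - U t‖ := by
    intro t ht h2
    have h3 : ‖g t - p‖ ≤ ‖g t - U t‖ + ‖U t - p‖ := by
      have h4 := norm_add_le (g t - U t) (U t - p)
      rwa [sub_add_sub_cancel] at h4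
    have h5 := hosc t ht
    linarith
  rcases (Set.Icc x y ∩ (fun t => ‖g t - p‖) ⁻¹' Set.Iic (2 * r)).eq_empty_or_nonempty with
    hS | hS
  · have h1 : ∀ t ∈ Set.Icc x y, r ≤ ‖g t - U t‖ := by
      intro t ht
      refine hfar t ht ?_
      by_contra h2
      have h3 : t ∈ (Set.Icc x y ∩ (fun t => ‖g t - p‖) ⁻¹' Set.Iic (2 * r)) :=
        ⟨ht, (not_le.1 h2).le⟩
      rw [hS] at h3
      exact h3
    have h2 := far_move hsol hx hxy hy hr h1
    linarith
  · have hcl : IsClosed (Set.Icc x y ∩ (fun t => ‖g t - p‖) ⁻¹' Set.Iic (2 * r)) :=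
      hnorm.preimage_isClosed_of_isClosed isClosed_Icc isClosed_Iic
    have hcp : IsCompact (Set.Icc x y ∩ (fun t => ‖g t - p‖) ⁻¹' Set.Iic (2 * r)) :=
      isCompact_Icc.of_isClosed_subset hcl Set.inter_subset_left
    obtain ⟨u₁, hu₁, hmin⟩ := hcp.exists_isLeast hS
    obtain ⟨u₂, hu₂, hmax⟩ := hcp.exists_isGreatest hS
    have h12 : u₁ ≤ u₂ := hmin hu₂
    have hA : ‖g u₁ - g x‖ ≤ 2 / r * (u₁ - x) := by
      rcases hu₁.1.1.eq_or_lt with he | hlt
      · rw [← he]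
        simp
      · refine far_move hsol hx hu₁.1.1 (hu₁.1.2.trans hy) hr ?_
        intro t ht
        have hty : t ∈ Set.Icc x y := ⟨ht.1, ht.2.trans hu₁.1.2⟩
        refine hfar t hty ?_
        have hclos : closure (Set.Ico x u₁) = Set.Icc x u₁ := closure_Ico hlt.ne
        refine le_on_closure (s := Set.Ico x u₁) (f := fun _ => 2 * r)
          (g := fun t => ‖g t - p‖) ?_ continuousOn_const ?_ ?_
        · intro w hw
          by_contra h2
          have h3 : w ∈ (Set.Icc x y ∩ (fun t => ‖g t - p‖) ⁻¹' Set.Iic (2 * r)) :=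
            ⟨⟨hw.1, hw.2.le.trans hu₁.1.2⟩, (not_le.1 h2).le⟩
          exact absurd (hmin h3) (not_le.2 hw.2)
        · rw [hclos]
          exact hnorm.mono (Set.Icc_subset_Icc_right hu₁.1.2)
        · rw [hclos]
          exact ht
    have hB : ‖g y - g u₂‖ ≤ 2 / r * (y - u₂) := by
      rcases hu₂.1.2.eq_or_lt with he | hlt
      · rw [he]
        simp
      · refine far_move hsol (hx.trans hu₂.1.1) hu₂.1.2 hy hr ?_
        intro t ht
        have hty : t ∈ Set.Icc x y := ⟨hu₂.1.1.trans ht.1, ht.2⟩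
        refine hfar t hty ?_
        have hclos : closure (Set.Ioc u₂ y) = Set.Icc u₂ y := closure_Ioc hlt.ne
        refine le_on_closure (s := Set.Ioc u₂ y) (f := fun _ => 2 * r)
          (g := fun t => ‖g t - p‖) ?_ continuousOn_const ?_ ?_
        · intro w hw
          by_contra h2
          have h3 : w ∈ (Set.Icc x y ∩ (fun t => ‖g t - p‖) ⁻¹' Set.Iic (2 * r)) :=
            ⟨⟨hu₂.1.1.trans hw.1.le, hw.2⟩, (not_le.1 h2).le⟩
          exact absurd (hmax h3) (not_le.2 hw.1)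
        · rw [hclos]
          exact hnorm.mono (Set.Icc_subset_Icc_left hu₂.1.1)
        · rw [hclos]
          exact ht
    have hM : ‖g u₂ - g u₁‖ ≤ 4 * r := by
      have h2 : ‖g u₂ - g u₁‖ ≤ ‖g u₂ - p‖ + ‖g u₁ - p‖ := by
        have h3 := norm_sub_le (g u₂ - p) (g u₁ - p)
        rwa [sub_sub_sub_cancel_right] at h3
      have h4 : ‖g u₂ - p‖ ≤ 2 * r := hu₂.2
      have h5 : ‖g u₁ - p‖ ≤ 2 * r := hu₁.2
      linarith
    have hT : ‖g y - g x‖ ≤ ‖g y - g u₂‖ + ‖g u₂ - g u₁‖ + ‖g u₁ - g x‖ := by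
      have h2 : g y - g x = (g y - g u₂) + (g u₂ - g u₁) + (g u₁ - g x) := by ring
      rw [h2]
      exact norm_add₃_le
    have h2r : 0 ≤ 2 / r := (div_pos zero_lt_two hr).le
    have hsum : 2 / r * (y - u₂) + 2 / r * (u₁ - x) ≤ 2 / r * (y - x) := by
      rw [← mul_add]
      exact mul_le_mul_of_nonneg_left (by linarith) h2r
    linarith

end

end Pool.Agent.SLE
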