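import Pool.Agent.Lib.MP_c17912_pr.Defs2
import Pool.Agent.Lib.MP_c17912_pr.Gau
import Pool.Agent.Lib.MP_c17912_pr.Markov
import Pool.Agent.Lib.MP_c17912_pr.DrvSub
import Pool.Agent.Lib.MP_c17912_pr.Flow

/-!
# MP_c17912_pr, large noise (project LN): definitions

* `Ell a b c lam`: all eigenvalues of the covariance matrix are at least `lam`.
* `GoodPath U N h r η L`: the path `U` oscillates by at most `r` on each of the `N` blocks of
  length `h`, and for every point `z` at most `L` blocks start within `3 η` of `z`.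
* `DispOn U T η cut`: all solutions which stay at distance at least `cut` of the tip are displaced
  by at most `η` up to time `T`.
* `DispP μ a b c K T η cut p`: the same for all driving processes, outside an event of
  probability at most `p`.
* `Vth, Bth, H1, Ang, HasAng`: the generator of the angle of `Z = g - W` and its sub-solutions.
* `Phi, al, be`: the function `-log |z| + ψ (arg z)` and its coefficients; `Exp2`: second order
  expansion of a function on an annulus.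
-/

set_option autoImplicit false

open MeasureTheory ProbabilityTheory Filter
open scoped NNReal ENNReal Topology Real

namespace Pool.Agent.SLE

noncomputable section

variable {Ω : Type*} [MeasurableSpace Ω]

/-- All eigenvalues of the covariance matrix are at least `lam`. -/
def Ell (a b c lam : ℝ) : Prop :=
  ∀ u v : ℝ, lam * (u ^ 2 + v ^ 2) ≤ a * u ^ 2 + 2 * c * u * v + b * v ^ 2

theorem Ell.le_a {a b c lam : ℝ} (h : Ell a b c lam) : lam ≤ a := by
  have := h 1 0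
  linarith

theorem Ell.le_b {a b c lam : ℝ} (h : Ell a b c lam) : lam ≤ b := by
  have := h 0 1
  linarith

theorem Ell.det0 {a b c lam : ℝ} (h : Ell a b c lam) : c ^ 2 ≤ (a - lam) * (b - lam) := by
  rcases h.le_a.eq_or_lt with ha | ha
  · have h1 : ∀ u v : ℝ, 0 ≤ 2 * c * u * v + (b - lam) * v ^ 2 := by
      intro u v
      have := h u v
      rw [← ha] at this
      nlinarith
    have h2 : c = 0 := by
      by_contra hc
      have h3 := h1 (-(b - lam + 1) * c⁻¹) 1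
      have h4 : 2 * c * (-(b - lam + 1) * c⁻¹) * 1 = -2 * (b - lam + 1) := by
        field_simp
      rw [h4] at h3
      have h5 := h.le_b
      linarith
    rw [h2, ha]
    simp
  · have h1 := h (-c) (a - lam)
    have h2 : 0 < a - lam := by linarith
    have h3 : 0 ≤ (a - lam) * ((a - lam) * (b - lam) - c ^ 2) := by nlinarith
    have h4 := nonneg_of_mul_nonneg_right h3 h2
    linarith

theorem Ell.det {a b c lam : ℝ} (h : Ell a b c lam) (hl : 0 ≤ lam) :
    lam * (a + b) / 2 ≤ a * b - c ^ 2 := by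
  have h1 := h.det0
  have h2 := h.le_a
  have h3 := h.le_b
  nlinarith

/-- The path oscillates by at most `r` on each of the `N` blocks of length `h`, and for every
point `z` at most `L` blocks start within `3 η` of `z`. -/
def GoodPath (U : ℝ → ℂ) (N : ℕ) (h r η : ℝ) (L : ℕ) : Prop :=
  (∀ j : ℕ, j < N → ∀ t ∈ Set.Icc ((j : ℝ) * h) (((j : ℝ) + 1) * h),
    ‖U t - U ((j : ℝ) * h)‖ ≤ r) ∧
  ∀ z : ℂ, ∀ J : Finset ℕ, (∀ j ∈ J, j < N ∧ ‖U ((j : ℝ) * h) - z‖ ≤ 3 * η) → J.card ≤ L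

/-- Solutions at distance at least `cut` of the tip are displaced by at most `η` up to time `T`. -/
def DispOn (U : ℝ → ℂ) (T η cut : ℝ) : Prop :=
  ∀ (z : ℂ) (s : ℝ) (g : ℝ → ℂ), 0 ≤ s → s ≤ T → Sol U z s g →
    (∀ u ∈ Set.Icc 0 s, cut ≤ ‖g u - U u‖) → ‖g s - z‖ ≤ η

/-- `DispOn` outside an event of probability at most `p`, for all driving processes. -/
def DispP (μ : Measure Ω) (a b c K T η cut p : ℝ) : Prop :=
  ∀ W : ℝ → Ω → ℂ, Gau a b c K W μ → ∃ A, MeasurableSet[Blk W 0 T] A ∧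
    μ A ≤ ENNReal.ofReal p ∧ ∀ ω ∉ A, DispOn (fun t => W t ω) T η cut

/-- Variance of the angle (half the second order coefficient of the generator). -/
def Vth (a b c θ : ℝ) : ℝ :=
  a * Real.sin θ ^ 2 - 2 * c * (Real.sin θ * Real.cos θ) + b * Real.cos θ ^ 2

/-- Drift of the angle. -/
def Bth (a b c θ : ℝ) : ℝ :=
  -2 * Real.sin (2 * θ) + ((a - b) * Real.sin (2 * θ) - 2 * c * Real.cos (2 * θ)) / 2

/-- Drift of the logarithm of the distance to the tip. -/
def H1 (a b c θ : ℝ) : ℝ :=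
  2 * Real.cos (2 * θ) - ((a - b) * Real.cos (2 * θ) + 2 * c * Real.sin (2 * θ)) / 2

/-- Sub-solutions of the Poisson equation of the angle. -/
structure Ang (a b c : ℝ) (H : ℝ → ℝ) (m : ℝ) (ψ : ℝ → ℝ) : Prop where
  smooth : ContDiff ℝ 3 ψ
  per : Function.Periodic ψ (2 * π)
  ineq : ∀ θ, Vth a b c θ * deriv (deriv ψ) θ / 2 + Bth a b c θ * deriv ψ θ ≤ H θ - m

/-- The two sub-solutions which are needed for the transience. -/
def HasAng (a b c : ℝ) : Prop :=
  (∃ ψ, Ang a b c (H1 a b c) 0 ψ) ∧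
    ∃ ψ, ∃ m > 0, Ang a b c (fun θ => H1 a b c θ + 2 * Real.cos (2 * θ)) m ψ

/-- The complex number `a - b + 2 c i` (the bracket of the driving process). -/
def sg (a b c : ℝ) : ℂ := ((a - b : ℝ) : ℂ) + ((2 * c : ℝ) : ℂ) * Complex.I

/-- The function `-log |z| + ψ (arg z)`. -/
def Phi (ψ : ℝ → ℝ) (z : ℂ) : ℝ := -Real.log ‖z‖ + ψ (Complex.arg z)

/-- The coefficient of the linear part of `Phi`. -/
def al (ψ : ℝ → ℝ) (z : ℂ) : ℂ := -1 - ((deriv ψ (Complex.arg z) : ℝ) : ℂ) * Complex.I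

/-- The second derivative in the direction of the angle. -/
def be (ψ : ℝ → ℝ) (z : ℂ) : ℝ := deriv (deriv ψ) (Complex.arg z)

/-- Coefficients of the expansion of `Phi ψ`. -/
def P1 (ψ : ℝ → ℝ) (z : ℂ) : ℂ := al ψ z / z
/-- Coefficients of the expansion of `Phi ψ`. -/
def P2 (ψ : ℝ → ℝ) (z : ℂ) : ℂ := (-(al ψ z) / 2 - ((be ψ z : ℝ) : ℂ) / 4) / z ^ 2
/-- Coefficients of the expansion of `Phi ψ`. -/
def P3 (ψ : ℝ → ℝ) (z : ℂ) : ℝ := be ψ z / 4 / ‖z‖ ^ 2

/-- The function `exp (β Phi)`. -/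
def GG (β : ℝ) (ψ : ℝ → ℝ) (z : ℂ) : ℝ := Real.exp (β * Phi ψ z)

/-- Coefficients of the expansion of `GG β ψ`. -/
def Q1 (β : ℝ) (ψ : ℝ → ℝ) (z : ℂ) : ℂ := ((GG β ψ z * β : ℝ) : ℂ) * P1 ψ z
/-- Coefficients of the expansion of `GG β ψ`. -/
def Q2 (β : ℝ) (ψ : ℝ → ℝ) (z : ℂ) : ℂ :=
  ((GG β ψ z * β : ℝ) : ℂ) * (P2 ψ z + ((β : ℝ) : ℂ) / 4 * P1 ψ z ^ 2)
/-- Coefficients of the expansion of `GG β ψ`. -/
def Q3 (β : ℝ) (ψ : ℝ → ℝ) (z : ℂ) : ℝ := GG β ψ z * β * (P3 ψ z + β / 4 * ‖P1 ψ z‖ ^ 2)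

/-- Second order expansion of a function on an annulus. -/
def Exp2 (F : ℂ → ℝ) (A₁ A₂ : ℂ → ℂ) (A₃ : ℂ → ℝ) (δ R C : ℝ) : Prop :=
  ∀ z : ℂ, δ ≤ ‖z‖ → ‖z‖ ≤ R → ∀ ζ : ℂ, ‖ζ‖ ≤ δ / 2 →
    |F (z + ζ) - F z - (A₁ z * ζ).re - (A₂ z * ζ ^ 2).re - A₃ z * ‖ζ‖ ^ 2| ≤ C * ‖ζ‖ ^ 3

/-- The parameters of the displacement theorem. -/
def mm (n ρ : ℕ) : ℕ := ρ * n ^ 8

/-- The parameter of the exponential moment. -/
def xx (n ρ : ℕ) : ℝ := 1 / (32 * ρ * n ^ 4 * (1 + 2 * Real.log (mm n ρ)))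

/-- The probability of the bad events of one scale. -/
def ss (n ρ : ℕ) : ℝ :=
  (mm n ρ : ℝ) ^ 2 * (4 * Real.exp (-((n : ℝ) ^ 4 / 1600))) +
    ((mm n ρ : ℝ) ^ 2 / 10 + 9) ^ 2 * (2 / (1 + xx n ρ) ^ (mm n ρ / 4))

end

end Pool.Agent.SLE
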