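import Pool.Agent.Lib.MP_c17912_pr_LN.EX

set_option autoImplicit false

open MeasureTheory ProbabilityTheory Filter
open scoped NNReal ENNReal Topology Real

namespace Pool.Agent.SLE

noncomputable section

namespace FB

private theorem exp3 (y : ℝ) : |Real.exp y - 1 - y - y ^ 2 / 2| ≤ |y| ^ 3 * Real.exp |y| := by
  have h := Complex.norm_exp_sub_sum_le_norm_mul_exp (y : ℂ) 3
  have e : Complex.exp (y : ℂ) - ∑ m ∈ Finset.range 3, (y : ℂ) ^ m / (m.factorial : ℂ)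
      = ((Real.exp y - 1 - y - y ^ 2 / 2 : ℝ) : ℂ) := by
    simp only [Finset.sum_range_succ, Finset.sum_range_zero, Nat.factorial]
    push_cast
    ring
  rw [e, Complex.norm_real, Complex.norm_real, Real.norm_eq_abs, Real.norm_eq_abs] at h
  exact h

private theorem sq_re (w : ℂ) : w.re ^ 2 = (‖w‖ ^ 2 + (w ^ 2).re) / 2 := by
  rw [← Complex.normSq_eq_norm_sq, Complex.normSq_apply, pow_two w, Complex.mul_re]
  ring

/-- The expansion with numbers. -/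
private theorem core {g G β A T t D p3 : ℝ} {p1 p2 ζ : ℂ} (hβ : 0 < β) (hg : 0 ≤ g) (hgG : g ≤ G)
    (hA : 0 ≤ A) (h1 : ‖p1‖ ≤ A) (h2 : ‖p2‖ ≤ A) (h3 : |p3| ≤ A) (ht : ‖ζ‖ = t) (htT : t ≤ T)
    (hD : |D - (p1 * ζ).re - (p2 * ζ ^ 2).re - p3 * t ^ 2| ≤ A * t ^ 3) :
    |g * Real.exp (β * D) - g - (((g * β : ℝ) : ℂ) * p1 * ζ).re
      - (((g * β : ℝ) : ℂ) * (p2 + ((β : ℝ) : ℂ) / 4 * p1 ^ 2) * ζ ^ 2).re
      - g * β * (p3 + β / 4 * ‖p1‖ ^ 2) * t ^ 2| ≤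
      G * ((β * (A * (1 + T) ^ 2)) ^ 3 * Real.exp (β * (A * (1 + T) ^ 2) * T) + β * A
        + β ^ 2 * (A * (A * (1 + T) ^ 2) * (2 + T))) * t ^ 3 := by
  have ht0 : 0 ≤ t := ht ▸ norm_nonneg ζ
  have hT0 : 0 ≤ T := ht0.trans htT
  set B := A * (1 + T) ^ 2 with hB
  have hB0 : 0 ≤ B := by positivity
  have hAB : A ≤ B := by
    rw [hB]
    nlinarith [mul_nonneg hA hT0, mul_nonneg (mul_nonneg hA hT0) hT0]
  -- bounds
  have b1 : |(p1 * ζ).re| ≤ A * t := by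
    refine (Complex.abs_re_le_norm _).trans ?_
    rw [norm_mul, ht]
    exact mul_le_mul_of_nonneg_right h1 ht0
  have b2 : |(p2 * ζ ^ 2).re| ≤ A * t ^ 2 := by
    refine (Complex.abs_re_le_norm _).trans ?_
    rw [norm_mul, norm_pow, ht]
    exact mul_le_mul_of_nonneg_right h2 (by positivity)
  have b3 : |p3 * t ^ 2| ≤ A * t ^ 2 := by
    rw [abs_mul, abs_of_nonneg (by positivity : (0 : ℝ) ≤ t ^ 2)]
    exact mul_le_mul_of_nonneg_right h3 (by positivity)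
  set l := (p1 * ζ).re with hl
  set q := (p2 * ζ ^ 2).re with hq
  have hDl : |D - l| ≤ A * (2 + T) * t ^ 2 := by
    have e : D - l = (D - l - q - p3 * t ^ 2) + (q + p3 * t ^ 2) := by ring
    rw [e]
    have h := abs_add_le (D - l - q - p3 * t ^ 2) (q + p3 * t ^ 2)
    have h' := abs_add_le q (p3 * t ^ 2)
    have h4 : A * t ^ 3 ≤ A * T * t ^ 2 := by
      have : A * t ^ 3 = A * t ^ 2 * t := by ring
      rw [this]
      have h5 := mul_le_mul_of_nonneg_left htT (by positivity : 0 ≤ A * t ^ 2)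
      nlinarith
    nlinarith
  have hDabs : |D| ≤ B * t := by
    have h := abs_add_le (D - l) l
    have e : D - l + l = D := by ring
    rw [e] at h
    have h4 : A * (2 + T) * t ^ 2 ≤ A * (2 + T) * T * t := by
      have h5 := mul_le_mul_of_nonneg_left htT (by positivity : 0 ≤ A * (2 + T) * t)
      nlinarith
    have h6 : A * (2 + T) * T * t + A * t = B * t := by
      rw [hB]; ring
    linarith
  have hsq : |D ^ 2 - l ^ 2| ≤ 2 * (A * B * (2 + T)) * t ^ 3 := by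
    have e : D ^ 2 - l ^ 2 = (D - l) * (D + l) := by ring
    rw [e, abs_mul]
    have h5 : |D + l| ≤ 2 * B * t := by
      have h := abs_add_le D l
      have h6 : A * t ≤ B * t := mul_le_mul_of_nonneg_right hAB ht0
      linarith
    calc |D - l| * |D + l| ≤ (A * (2 + T) * t ^ 2) * (2 * B * t) :=
          mul_le_mul hDl h5 (abs_nonneg _) (by positivity)
      _ = _ := by ring
  have hexp : |Real.exp (β * D) - 1 - β * D - (β * D) ^ 2 / 2| ≤
      (β * B) ^ 3 * Real.exp (β * B * T) * t ^ 3 := by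
    have hy : |β * D| ≤ β * B * t := by
      rw [abs_mul, abs_of_pos hβ]
      have := mul_le_mul_of_nonneg_left hDabs hβ.le
      linarith
    have hy2 : |β * D| ≤ β * B * T := hy.trans
      (mul_le_mul_of_nonneg_left htT (by positivity))
    refine (exp3 _).trans ?_
    calc |β * D| ^ 3 * Real.exp |β * D| ≤ (β * B * t) ^ 3 * Real.exp (β * B * T) := by
          gcongr
      _ = _ := by ring
  have hl2 : l ^ 2 = (‖p1‖ ^ 2 * t ^ 2 + (p1 ^ 2 * ζ ^ 2).re) / 2 := by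
    rw [hl, sq_re, norm_mul, ht, mul_pow, mul_pow]
  -- algebra
  have e1 : (((g * β : ℝ) : ℂ) * p1 * ζ).re = g * β * l := by
    rw [mul_assoc, Complex.re_ofReal_mul]
  have e2 : (((g * β : ℝ) : ℂ) * (p2 + ((β : ℝ) : ℂ) / 4 * p1 ^ 2) * ζ ^ 2).re
      = g * β * (q + β / 4 * (p1 ^ 2 * ζ ^ 2).re) := by
    have : ((g * β : ℝ) : ℂ) * (p2 + ((β : ℝ) : ℂ) / 4 * p1 ^ 2) * ζ ^ 2
        = ((g * β : ℝ) : ℂ) * (p2 * ζ ^ 2 + (((β / 4 : ℝ)) : ℂ) * (p1 ^ 2 * ζ ^ 2)) := by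
      push_cast
      ring
    rw [this, Complex.re_ofReal_mul, Complex.add_re, Complex.re_ofReal_mul]
  rw [e1, e2]
  have e3 : g * Real.exp (β * D) - g - g * β * l - g * β * (q + β / 4 * (p1 ^ 2 * ζ ^ 2).re)
      - g * β * (p3 + β / 4 * ‖p1‖ ^ 2) * t ^ 2
      = g * ((Real.exp (β * D) - 1 - β * D - (β * D) ^ 2 / 2)
        + β * (D - l - q - p3 * t ^ 2) + β ^ 2 / 2 * (D ^ 2 - l ^ 2)) := by
    rw [hl2]
    ring
  rw [e3, abs_mul, abs_of_nonneg hg]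
  have hsum : |(Real.exp (β * D) - 1 - β * D - (β * D) ^ 2 / 2)
        + β * (D - l - q - p3 * t ^ 2) + β ^ 2 / 2 * (D ^ 2 - l ^ 2)| ≤
      ((β * B) ^ 3 * Real.exp (β * B * T) + β * A + β ^ 2 * (A * B * (2 + T))) * t ^ 3 := by
    have h := abs_add_three (Real.exp (β * D) - 1 - β * D - (β * D) ^ 2 / 2)
      (β * (D - l - q - p3 * t ^ 2)) (β ^ 2 / 2 * (D ^ 2 - l ^ 2))
    have h4 : |β * (D - l - q - p3 * t ^ 2)| ≤ β * (A * t ^ 3) := by
      rw [abs_mul, abs_of_pos hβ]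
      exact mul_le_mul_of_nonneg_left hD hβ.le
    have h5 : |β ^ 2 / 2 * (D ^ 2 - l ^ 2)| ≤ β ^ 2 / 2 * (2 * (A * B * (2 + T)) * t ^ 3) := by
      rw [abs_mul, abs_of_nonneg (by positivity : (0 : ℝ) ≤ β ^ 2 / 2)]
      exact mul_le_mul_of_nonneg_left hsq (by positivity)
    nlinarith
  have hG0 : 0 ≤ G := hg.trans hgG
  calc g * |(Real.exp (β * D) - 1 - β * D - (β * D) ^ 2 / 2)
        + β * (D - l - q - p3 * t ^ 2) + β ^ 2 / 2 * (D ^ 2 - l ^ 2)|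
      ≤ G * (((β * B) ^ 3 * Real.exp (β * B * T) + β * A + β ^ 2 * (A * B * (2 + T))) * t ^ 3) :=
        mul_le_mul hgG hsum (abs_nonneg _) hG0
    _ = _ := by ring

end FB

/-- FB. Expansion of `exp (β Phi)` on an annulus, with bounds for the coefficients. -/
theorem gg_exp {ψ : ℝ → ℝ} (hψ : ContDiff ℝ 3 ψ) (hper : Function.Periodic ψ (2 * π)) {β : ℝ}
    (hβ : 0 < β) {δ R : ℝ} (hδ : 0 < δ) (hδR : δ ≤ R) :
    ∃ C > 0, Exp2 (GG β ψ) (Q1 β ψ) (Q2 β ψ) (Q3 β ψ) δ R C ∧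
      ∀ z : ℂ, δ ≤ ‖z‖ → ‖z‖ ≤ R →
        ‖Q1 β ψ z‖ ≤ C ∧ ‖Q2 β ψ z‖ ≤ C ∧ |Q3 β ψ z| ≤ C := by
  obtain ⟨C₁, hC₁, hψ0, hψ1, hψ2, hexp⟩ := phi_exp hψ hper
  -- constants
  set A : ℝ := (1 + C₁) / δ + (1 + C₁) / δ ^ 2 + C₁ / δ ^ 3 with hA
  have hA0 : 0 ≤ A := by positivity
  have hA1 : (1 + C₁) / δ ≤ A := by
    rw [hA]
    have : 0 ≤ (1 + C₁) / δ ^ 2 := by positivity
    have : 0 ≤ C₁ / δ ^ 3 := by positivity
    linarith
  have hA2 : (1 + C₁) / δ ^ 2 ≤ A := by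
    rw [hA]
    have : 0 ≤ (1 + C₁) / δ := by positivity
    have : 0 ≤ C₁ / δ ^ 3 := by positivity
    linarith
  have hA3 : C₁ / δ ^ 3 ≤ A := by
    rw [hA]
    have : 0 ≤ (1 + C₁) / δ := by positivity
    have : 0 ≤ (1 + C₁) / δ ^ 2 := by positivity
    linarith
  set G : ℝ := Real.exp (β * (|Real.log δ| + |Real.log R| + C₁)) with hG
  have hG0 : 0 < G := Real.exp_pos _
  set K : ℝ := G * ((β * (A * (1 + δ / 2) ^ 2)) ^ 3 *
    Real.exp (β * (A * (1 + δ / 2) ^ 2) * (δ / 2)) + β * A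
        + β ^ 2 * (A * (A * (1 + δ / 2) ^ 2) * (2 + δ / 2))) with hK
  have hK0 : 0 ≤ K := by positivity
  set L : ℝ := G * β * (A + β / 4 * A ^ 2) with hL
  have hL0 : 0 ≤ L := by positivity
  -- bounds of the coefficients of `Phi`
  have hal : ∀ z : ℂ, ‖al ψ z‖ ≤ 1 + C₁ := by
    intro z
    unfold al
    refine (norm_sub_le _ _).trans ?_
    rw [norm_neg, norm_one, norm_mul, Complex.norm_I, mul_one, Complex.norm_real, Real.norm_eq_abs]
    linarith [hψ1 (Complex.arg z)]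
  have hbe : ∀ z : ℂ, |be ψ z| ≤ C₁ := fun z => hψ2 _
  have hP1 : ∀ z : ℂ, δ ≤ ‖z‖ → ‖P1 ψ z‖ ≤ A := by
    intro z hz
    unfold P1
    rw [norm_div]
    refine le_trans ?_ hA1
    gcongr
    exact hal z
  have hP2 : ∀ z : ℂ, δ ≤ ‖z‖ → ‖P2 ψ z‖ ≤ A := by
    intro z hz
    unfold P2
    rw [norm_div, norm_pow]
    refine le_trans ?_ hA2
    have h1 : ‖-(al ψ z) / 2 - ((be ψ z : ℝ) : ℂ) / 4‖ ≤ 1 + C₁ := by
      refine (norm_sub_le _ _).trans ?_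
      rw [norm_div, norm_neg, norm_div, Complex.norm_real, Real.norm_eq_abs]
      have h2 : ‖(2 : ℂ)‖ = 2 := by norm_num
      have h4 : ‖(4 : ℂ)‖ = 4 := by norm_num
      rw [h2, h4]
      linarith [hal z, hbe z]
    gcongr
  have hP3 : ∀ z : ℂ, δ ≤ ‖z‖ → |P3 ψ z| ≤ A := by
    intro z hz
    unfold P3
    rw [abs_div, abs_div, abs_of_nonneg (by positivity : (0 : ℝ) ≤ ‖z‖ ^ 2)]
    refine le_trans ?_ hA2
    have h1 : |be ψ z| / |(4 : ℝ)| ≤ 1 + C₁ := by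
      rw [abs_of_pos (by norm_num : (0 : ℝ) < 4)]
      linarith [hbe z]
    gcongr
  have hGG0 : ∀ z : ℂ, 0 ≤ GG β ψ z := fun z => (Real.exp_pos _).le
  have hGG : ∀ z : ℂ, δ ≤ ‖z‖ → ‖z‖ ≤ R → GG β ψ z ≤ G := by
    intro z hz hzR
    unfold GG
    rw [hG]
    apply Real.exp_le_exp.2
    apply mul_le_mul_of_nonneg_left _ hβ.le
    unfold Phi
    have h0 : 0 < ‖z‖ := hδ.trans_le hz
    have h1 : Real.log δ ≤ Real.log ‖z‖ := Real.log_le_log hδ hz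
    have h2 : Real.log ‖z‖ ≤ Real.log R := Real.log_le_log h0 hzR
    have h3 := neg_abs_le (Real.log δ)
    have h4 := abs_nonneg (Real.log R)
    have h5 := (le_abs_self _).trans (hψ0 (Complex.arg z))
    linarith
  refine ⟨K + L + 1, by positivity, ?_, ?_⟩
  · intro z hz hzR ζ hζ
    have h0 : 0 < ‖z‖ := hδ.trans_le hz
    have hz0 : z ≠ 0 := norm_pos_iff.1 h0
    have h1 := hexp z hz0 ζ (hζ.trans (by linarith))
    have h2 : C₁ * (‖ζ‖ / ‖z‖) ^ 3 ≤ A * ‖ζ‖ ^ 3 := by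
      have h3 : C₁ * (‖ζ‖ / ‖z‖) ^ 3 ≤ C₁ * (‖ζ‖ / δ) ^ 3 := by gcongr
      have h4 : C₁ * (‖ζ‖ / δ) ^ 3 = C₁ / δ ^ 3 * ‖ζ‖ ^ 3 := by
        rw [div_pow]
        ring
      rw [h4] at h3
      exact h3.trans (mul_le_mul_of_nonneg_right hA3 (by positivity))
    have h5 := FB.core (g := GG β ψ z) (G := G) (β := β) (A := A) (T := δ / 2) (t := ‖ζ‖)
      (D := Phi ψ (z + ζ) - Phi ψ z) (p3 := P3 ψ z) (p1 := P1 ψ z) (p2 := P2 ψ z) (ζ := ζ)
      hβ (hGG0 z) (hGG z hz hzR) hA0 (hP1 z hz) (hP2 z hz) (hP3 z hz) rfl hζ (h1.trans h2)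
    have h6 : GG β ψ (z + ζ) = GG β ψ z * Real.exp (β * (Phi ψ (z + ζ) - Phi ψ z)) := by
      unfold GG
      rw [← Real.exp_add]
      congr 1
      ring
    rw [h6]
    unfold Q1 Q2 Q3
    refine h5.trans ?_
    rw [← hK]
    exact mul_le_mul_of_nonneg_right (by linarith) (by positivity)
  · intro z hz hzR
    have g0 := hGG0 z
    have g1 := hGG z hz hzR
    have p1 := hP1 z hz
    have p2 := hP2 z hz
    have p3 := hP3 z hz
    have n1 : 0 ≤ ‖P1 ψ z‖ := norm_nonneg _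
    have s1 : ‖P1 ψ z‖ ^ 2 ≤ A ^ 2 := by gcongr
    refine ⟨?_, ?_, ?_⟩
    · unfold Q1
      rw [norm_mul, Complex.norm_real, Real.norm_eq_abs, abs_of_nonneg (by positivity)]
      have h : GG β ψ z * β * ‖P1 ψ z‖ ≤ G * β * A := by gcongr
      have h' : G * β * A ≤ L := by
        rw [hL]
        have : 0 ≤ G * β * (β / 4 * A ^ 2) := by positivity
        nlinarith
      linarith
    · unfold Q2
      rw [norm_mul, Complex.norm_real, Real.norm_eq_abs, abs_of_nonneg (by positivity)]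
      have h1 : ‖P2 ψ z + ((β : ℝ) : ℂ) / 4 * P1 ψ z ^ 2‖ ≤ A + β / 4 * A ^ 2 := by
        refine (norm_add_le _ _).trans ?_
        rw [norm_mul, norm_div, Complex.norm_real, Real.norm_eq_abs, abs_of_pos hβ, norm_pow]
        have h4 : ‖(4 : ℂ)‖ = 4 := by norm_num
        rw [h4]
        gcongr
      have h : GG β ψ z * β * ‖P2 ψ z + ((β : ℝ) : ℂ) / 4 * P1 ψ z ^ 2‖ ≤ L := by
        rw [hL]
        gcongr
      linarith
    · unfold Q3
      rw [abs_mul, abs_of_nonneg (by positivity : 0 ≤ GG β ψ z * β)]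
      have h1 : |P3 ψ z + β / 4 * ‖P1 ψ z‖ ^ 2| ≤ A + β / 4 * A ^ 2 := by
        refine (abs_add_le _ _).trans ?_
        rw [abs_of_nonneg (by positivity : 0 ≤ β / 4 * ‖P1 ψ z‖ ^ 2)]
        gcongr
      have h : GG β ψ z * β * |P3 ψ z + β / 4 * ‖P1 ψ z‖ ^ 2| ≤ L := by
        rw [hL]
        gcongr
      linarith

end

end Pool.Agent.SLE
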