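import Pool.Agent.Lib.MP_c17912_pr_LN.AN
import Pool.Agent.Lib.MP_c17912_pr_LN.FB
import Pool.Agent.Lib.MP_c17912_pr_LN.GN

set_option autoImplicit false

open MeasureTheory ProbabilityTheory Filter
open scoped NNReal ENNReal Topology Real

namespace Pool.Agent.SLE

noncomputable section

variable {Ω : Type*} [MeasurableSpace Ω] {μ : Measure Ω} {a b c K : ℝ} {W : ℝ → Ω → ℂ}

namespace DEAux

/-- The potential. -/
def kd (β t : ℝ) (z : ℂ) : ℝ := -β * (2 / z ^ 2).re + β * t / ‖z‖ ^ 2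

theorem continuousOn_kd (β t : ℝ) : ContinuousOn (kd β t) {0}ᶜ := by
  unfold kd
  refine ContinuousOn.add (ContinuousOn.mul continuousOn_const ?_) ?_
  · refine Complex.continuous_re.comp_continuousOn ?_
    refine ContinuousOn.div continuousOn_const (continuousOn_id.pow 2) ?_
    intro z hz
    exact pow_ne_zero 2 hz
  · refine ContinuousOn.div continuousOn_const (continuous_norm.continuousOn.pow 2) ?_
    intro z hz
    exact pow_ne_zero 2 (norm_ne_zero_iff.2 hz)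

theorem measurable_kd (β t : ℝ) : Measurable (kd β t) := by
  unfold kd
  refine Measurable.add (Measurable.mul measurable_const ?_) ?_
  · exact Complex.measurable_re.comp (measurable_const.div (measurable_id.pow_const 2))
  · exact measurable_const.div (measurable_norm.pow_const 2)

theorem kd_le {β t δ : ℝ} (hβ : 0 ≤ β) (ht : 0 ≤ t) (hδ : 0 < δ) {z : ℂ} (hz : δ ≤ ‖z‖) :
    |kd β t z| ≤ β * (2 + t) / δ ^ 2 := by
  have hz0 : 0 < ‖z‖ := lt_of_lt_of_le hδ hz
  have h1 : |(2 / z ^ 2).re| ≤ 2 / ‖z‖ ^ 2 := by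
    refine (Complex.abs_re_le_norm _).trans ?_
    rw [norm_div, norm_pow, Complex.norm_two]
  have h2 : |kd β t z| ≤ β * (2 + t) / ‖z‖ ^ 2 := by
    unfold kd
    refine (abs_add_le _ _).trans ?_
    rw [abs_mul, abs_neg, abs_of_nonneg hβ,
      abs_of_nonneg (by positivity : (0 : ℝ) ≤ β * t / ‖z‖ ^ 2)]
    calc β * |(2 / z ^ 2).re| + β * t / ‖z‖ ^ 2 ≤ β * (2 / ‖z‖ ^ 2) + β * t / ‖z‖ ^ 2 :=
          add_le_add_left (mul_le_mul_of_nonneg_left h1 hβ) _
      _ = β * (2 + t) / ‖z‖ ^ 2 := by ring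
  refine h2.trans ?_
  exact div_le_div_of_nonneg_left (by positivity) (by positivity)
    (pow_le_pow_left₀ hδ.le hz 2)

/-- The events for one annulus. -/
theorem one {m : ℝ} {ψ : ℝ → ℝ} (ha : 0 ≤ a) (hb : 0 ≤ b) (hc : c ^ 2 ≤ a * b)
    (hψ : Ang a b c (fun θ => H1 a b c θ + 2 * Real.cos (2 * θ)) m ψ)
    {C β t : ℝ} (h0 : ∀ θ, |ψ θ| ≤ C) (h1 : ∀ θ, |deriv ψ θ| ≤ C)
    (hβ : 0 < β) (hβm : β * ((1 + C ^ 2) * (a + b)) ≤ m) (ht : 0 < t) (htm : t ≤ m / 2)
    [IsProbabilityMeasure μ] (hW : Drv a b c K W μ) (z₀ : ℂ) {q : ℝ} (hq : 0 < q) (l : ℕ) :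
    ∃ A : Set Ω, MeasurableSet[Fut W 0] A ∧ μ A ≤ ENNReal.ofReal (GG β ψ z₀ / q) ∧
      ∀ ω ∉ A, ∀ (s : ℝ) (g : ℝ → ℂ), 0 ≤ s → s ≤ 2 ^ l → Sol (fun t => W t ω) z₀ s g →
        (∀ u ∈ Set.Icc 0 s, (1 / 2) ^ l < ‖g u - W u ω‖ ∧ ‖g u - W u ω‖ < 2 ^ l) →
        Real.exp (∫ u in (0 : ℝ)..s, kd β t (g u - W u ω)) * GG β ψ (g s - W s ω) ≤ q := by
  set δ : ℝ := (1 / 2) ^ l with hδdef
  have hδ : 0 < δ := by positivity
  set R : ℝ := 2 ^ l with hRdef
  have hR : 0 < R := by positivity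
  have hδR : δ ≤ R := by
    have h1 : δ ≤ 1 := pow_le_one₀ (by norm_num) (by norm_num)
    have h2 : (1 : ℝ) ≤ R := one_le_pow₀ (by norm_num)
    linarith
  obtain ⟨B, hB⟩ : ∃ B : ℝ, B = Real.exp (β * (C - Real.log (δ / 2))) := ⟨_, rfl⟩
  obtain ⟨F, hF⟩ : ∃ F : ℂ → ℝ, F = fun z => min (GG β ψ z) B := ⟨_, rfl⟩
  have hFe : ∀ z : ℂ, δ / 2 ≤ ‖z‖ → F z = GG β ψ z := by
    intro z hz
    have hz0 : 0 < ‖z‖ := lt_of_lt_of_le (by positivity) hz
    rw [hF]
    change min (GG β ψ z) B = _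
    refine min_eq_left ?_
    rw [hB]
    unfold GG
    rw [Real.exp_le_exp]
    refine mul_le_mul_of_nonneg_left ?_ hβ.le
    unfold Phi
    have e1 : Real.log (δ / 2) ≤ Real.log ‖z‖ := Real.log_le_log (by positivity) hz
    have e2 := abs_le.1 (h0 z.arg)
    linarith [e2.2]
  have hGc : ContinuousOn (GG β ψ) {0}ᶜ := by
    unfold GG
    exact Real.continuous_exp.comp_continuousOn
      (continuousOn_const.mul (phi_cont hψ.smooth hψ.per))
  have hGm : Measurable (GG β ψ) := by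
    unfold GG
    exact Real.measurable_exp.comp (measurable_const.mul (phi_meas hψ.smooth))
  have hFm : Measurable F := by
    rw [hF]
    exact hGm.min measurable_const
  have hFc : ContinuousOn F {0}ᶜ := by
    rw [hF]
    exact ContinuousOn.inf hGc continuousOn_const
  have hF0 : ∀ z, 0 ≤ F z := by
    intro z
    rw [hF, hB]
    exact le_min (Real.exp_pos _).le (Real.exp_pos _).le
  have hFB : ∀ z, F z ≤ B := by
    intro z
    rw [hF]
    exact min_le_right _ _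
  obtain ⟨D, hD, hexp, hco⟩ := gg_exp hψ.smooth hψ.per hβ hδ hδR
  have hexp' : Exp2 F (Q1 β ψ) (Q2 β ψ) (Q3 β ψ) δ R D := by
    intro z hz1 hz2 ζ hζ
    have e1 : ‖z‖ ≤ ‖z + ζ‖ + ‖ζ‖ := by
      have := norm_sub_le (z + ζ) ζ
      rwa [add_sub_cancel_right] at this
    rw [hFe z (by linarith), hFe (z + ζ) (by linarith)]
    exact hexp z hz1 hz2 ζ hζ
  have hk0 : 0 ≤ β * (2 + t) / δ ^ 2 := by positivity
  obtain ⟨A, hA1, hA2, hA3⟩ := annulus_gen hW (F := F) (k := kd β t) (A₁ := Q1 β ψ)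
    (A₂ := Q2 β ψ) (A₃ := Q3 β ψ) (δ := δ) (R := R) (C := D) (B := B)
    (c₀ := Real.exp (β * (-Real.log R - C))) (M := D + β * (2 + t) / δ ^ 2) hδ hδR hFm
    (measurable_kd β t) hFc (continuousOn_kd β t) hF0 hFB (Real.exp_pos _) hexp' (by
      intro z hz1 hz2
      have hz0 : 0 < ‖z‖ := lt_of_lt_of_le hδ hz1
      have hzne : z ≠ 0 := norm_pos_iff.1 hz0
      obtain ⟨e1, e2, e3⟩ := hco z hz1 hz2
      rw [hFe z (by linarith)]
      refine ⟨?_, ?_, ?_, ?_, ?_, ?_⟩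
      · unfold GG
        rw [Real.exp_le_exp]
        refine mul_le_mul_of_nonneg_left ?_ hβ.le
        unfold Phi
        have e4 : Real.log ‖z‖ ≤ Real.log R := Real.log_le_log hz0 hz2
        have e5 := abs_le.1 (h0 z.arg)
        linarith [e5.1]
      · linarith
      · linarith
      · linarith
      · have := kd_le hβ.le ht.le hδ hz1
        linarith
      · have e4 := gen_gg ha hb hc ψ hβ.le hzne
        have e5 := hψ.ineq z.arg
        have e6 : kd β t z = β / ‖z‖ ^ 2 * (-(2 * Real.cos (2 * z.arg)) + t) := by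
          unfold kd
          have e7 : (2 / z ^ 2).re = 2 * (1 / z ^ 2).re := by
            have e8 : (2 : ℂ) / z ^ 2 = ((2 : ℝ) : ℂ) * (1 / z ^ 2) := by
              push_cast
              ring
            rw [e8, Complex.re_ofReal_mul]
          rw [e7, re_inv_sq_arg hzne]
          ring
        have e9 : kd β t z * GG β ψ z =
            GG β ψ z * β / ‖z‖ ^ 2 * (-(2 * Real.cos (2 * z.arg)) + t) := by
          rw [e6]
          ring
        have e10 : (1 + deriv ψ z.arg ^ 2) ≤ 1 + C ^ 2 := by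
          have := h1 z.arg
          have e11 : deriv ψ z.arg ^ 2 ≤ C ^ 2 := by
            rw [← sq_abs (deriv ψ z.arg)]
            exact pow_le_pow_left₀ (abs_nonneg _) this 2
          linarith
        have e11 : β / 2 * (1 + deriv ψ z.arg ^ 2) * (a + b) ≤ m / 2 := by
          have e12 : β / 2 * (1 + deriv ψ z.arg ^ 2) * (a + b) ≤
              β / 2 * (1 + C ^ 2) * (a + b) := by
            refine mul_le_mul_of_nonneg_right ?_ (by positivity)
            exact mul_le_mul_of_nonneg_left e10 (by positivity)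
          have e13 : β / 2 * (1 + C ^ 2) * (a + b) = β * ((1 + C ^ 2) * (a + b)) / 2 := by
            ring
          linarith
        have e14 : 0 ≤ GG β ψ z * β / ‖z‖ ^ 2 := by
          unfold GG
          positivity
        have e15 : GG β ψ z * β / ‖z‖ ^ 2 * (Vth a b c z.arg * deriv (deriv ψ) z.arg / 2
            + Bth a b c z.arg * deriv ψ z.arg - H1 a b c z.arg
            + β / 2 * (1 + deriv ψ z.arg ^ 2) * (a + b)) +
            GG β ψ z * β / ‖z‖ ^ 2 * (-(2 * Real.cos (2 * z.arg)) + t) ≤ 0 := by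
          rw [← mul_add]
          refine mul_nonpos_of_nonneg_of_nonpos e14 ?_
          linarith
        rw [e9]
        linarith) (z₀ := z₀) (m := q) hq l
  refine ⟨A, hA1, hA2.trans (ENNReal.ofReal_le_ofReal ?_), ?_⟩
  · refine div_le_div_of_nonneg_right ?_ hq.le
    rw [hF]
    exact min_le_left _ _
  · intro ω hω s g hs hsl hsol hr
    have e1 := hA3 ω hω s g hs hsl hsol hr
    rw [hFe _ (by have := (hr s ⟨hs, le_rfl⟩).1; linarith)] at e1
    exact e1

/-- Logarithms of the inequality for the exponential. -/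
theorem final {β t C q I τ x p y : ℝ} (hβ : 0 < β) (hx : 0 < x) (hp : 0 < p)
    (hq : q = Real.exp (β * (Real.log p - C))) (hy : -C ≤ y)
    (h : Real.exp (-β * I + β * t * τ) * Real.exp (β * (-Real.log x + y)) ≤ q) :
    Real.exp (-I) ≤ p * x * Real.exp (-t * τ) := by
  rw [hq, ← Real.exp_add, Real.exp_le_exp] at h
  have h1 : β * (-I + t * τ - Real.log x + y) ≤ β * (Real.log p - C) := by
    have e : β * (-I + t * τ - Real.log x + y) = -β * I + β * t * τ + β * (-Real.log x + y) := by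
      ring
    rw [e]
    exact h
  have h2 := le_of_mul_le_mul_left h1 hβ
  have h3 : -I ≤ Real.log p + Real.log x + -t * τ := by linarith
  calc Real.exp (-I) ≤ Real.exp (Real.log p + Real.log x + -t * τ) := Real.exp_le_exp.2 h3
    _ = p * x * Real.exp (-t * τ) := by
      rw [Real.exp_add, Real.exp_add, Real.exp_log hp, Real.exp_log hx]

end DEAux

open DEAux in
/-- DE. The derivative of the flow compared with the distance to the tip. -/
theorem der_event {m : ℝ} {ψ : ℝ → ℝ} (ha : 0 ≤ a) (hb : 0 ≤ b) (hc : c ^ 2 ≤ a * b)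
    (hψ : Ang a b c (fun θ => H1 a b c θ + 2 * Real.cos (2 * θ)) m ψ) (hm : 0 < m) :
    ∃ β > (0 : ℝ), ∃ t > 0, t ≤ 2 ∧ ∃ C > 0, ∀ (K : ℝ) (μ : Measure Ω) [IsProbabilityMeasure μ]
      (W : ℝ → Ω → ℂ), Drv a b c K W μ → ∀ z₀ : ℂ, z₀ ≠ 0 → ∀ M : ℝ, 0 < M →
        ∃ A, MeasurableSet[Fut W 0] A ∧ μ A ≤ ENNReal.ofReal (C / M ^ β) ∧
          ∀ ω ∉ A, ∀ (s : ℝ) (g : ℝ → ℂ), 0 ≤ s → Sol (fun t => W t ω) z₀ s g →
            Real.exp (-∫ u in (0 : ℝ)..s, (2 / (g u - W u ω) ^ 2).re)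
              ≤ M / ‖z₀‖ * ‖g s - W s ω‖ *
                Real.exp (-t * ∫ u in (0 : ℝ)..s, 1 / ‖g u - W u ω‖ ^ 2) := by
  obtain ⟨C, hC, h0, h1, h2, -⟩ := phi_exp hψ.smooth hψ.per
  have hD : 0 < (1 + C ^ 2) * (a + b) + 1 := by positivity
  obtain ⟨t, htdef⟩ : ∃ t : ℝ, t = min 2 (m / 2) := ⟨_, rfl⟩
  obtain ⟨β, hβdef⟩ : ∃ β : ℝ, β = min 1 (m / ((1 + C ^ 2) * (a + b) + 1)) := ⟨_, rfl⟩
  have ht : 0 < t := by
    rw [htdef]
    exact lt_min (by norm_num) (by positivity)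
  have hβ : 0 < β := by
    rw [hβdef]
    exact lt_min (by norm_num) (by positivity)
  have hβm : β * ((1 + C ^ 2) * (a + b)) ≤ m := by
    have e1 : β ≤ m / ((1 + C ^ 2) * (a + b) + 1) := by
      rw [hβdef]
      exact min_le_right _ _
    rw [le_div_iff₀ hD] at e1
    linarith
  have htm : t ≤ m / 2 := by
    rw [htdef]
    exact min_le_right _ _
  refine ⟨β, hβ, t, ht, by rw [htdef]; exact min_le_left _ _, Real.exp (2 * β * C),
    Real.exp_pos _, ?_⟩
  intro K μ _ W hW z₀ hz₀ M hM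
  have hn : 0 < ‖z₀‖ := norm_pos_iff.2 hz₀
  have hp : 0 < M / ‖z₀‖ := by positivity
  obtain ⟨q, hq⟩ : ∃ q : ℝ, q = Real.exp (β * (Real.log (M / ‖z₀‖) - C)) := ⟨_, rfl⟩
  have hq0 : 0 < q := by
    rw [hq]
    exact Real.exp_pos _
  have hGq : GG β ψ z₀ / q ≤ Real.exp (2 * β * C) / M ^ β := by
    rw [hq, div_le_div_iff₀ (Real.exp_pos _) (Real.rpow_pos_of_pos hM _)]
    unfold GG Phi
    rw [Real.rpow_def_of_pos hM, ← Real.exp_add, ← Real.exp_add, Real.exp_le_exp,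
      Real.log_div hM.ne' hn.ne']
    have e1 := (abs_le.1 (h0 z₀.arg)).2
    have e2 : β * ψ z₀.arg ≤ β * C := mul_le_mul_of_nonneg_left e1 hβ.le
    linarith
  have key := fun l : ℕ => one ha hb hc hψ h0 h1 hβ hβm ht htm hW z₀ hq0 l
  choose A hA1 hA2 hA3 using key
  refine ⟨⋃ N : ℕ, ⋂ n ≥ N, A n, ?_, ?_, ?_⟩
  · refine @MeasurableSet.iUnion _ _ (Fut W 0) _ _ (fun N => ?_)
    refine @MeasurableSet.iInter _ _ (Fut W 0) _ _ (fun n => ?_)
    exact @MeasurableSet.iInter _ _ (Fut W 0) _ _ (fun _ => hA1 n)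
  · refine (SmgAux.measure_liminf_le tendsto_const_nhds (Eventually.of_forall hA2)).trans ?_
    exact ENNReal.ofReal_le_ofReal hGq
  · intro ω hω s g hs hsol
    by_contra hcon
    apply hω
    have hg : ContinuousOn g (Set.Icc 0 s) := fun u hu => (hsol.2.2 u hu).continuousWithinAt
    have hX : ContinuousOn (fun u => g u - W u ω) (Set.Icc 0 s) :=
      hg.sub (hW.cont ω).continuousOn
    have hcont : ContinuousOn (fun u => ‖g u - W u ω‖) (Set.Icc 0 s) := hX.norm
    have hne : (Set.Icc 0 s).Nonempty := ⟨0, le_rfl, hs⟩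
    obtain ⟨u₁, hu₁, hmin⟩ := isCompact_Icc.exists_isMinOn hne hcont
    obtain ⟨u₂, hu₂, hmax⟩ := isCompact_Icc.exists_isMaxOn hne hcont
    have hpos : 0 < ‖g u₁ - W u₁ ω‖ := norm_pos_iff.2 (sub_ne_zero.2 (hsol.2.1 u₁ hu₁))
    have hlim : Tendsto (fun n : ℕ => (1 / 2 : ℝ) ^ n) atTop (𝓝 0) :=
      tendsto_pow_atTop_nhds_zero_of_lt_one (by norm_num) (by norm_num)
    have hlim2 : Tendsto (fun n : ℕ => (2 : ℝ) ^ n) atTop atTop :=
      tendsto_pow_atTop_atTop_of_one_lt (by norm_num)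
    obtain ⟨N, hN⟩ := eventually_atTop.1 (((hlim.eventually (gt_mem_nhds hpos)).and
      (hlim2.eventually_gt_atTop ‖g u₂ - W u₂ ω‖)).and (hlim2.eventually_ge_atTop s))
    refine Set.mem_iUnion.2 ⟨N, ?_⟩
    simp only [Set.mem_iInter]
    intro l hln
    obtain ⟨⟨h3, h4⟩, h5⟩ := hN l hln
    by_contra hωl
    apply hcon
    have h6 := hA3 l ω hωl s g hs h5 hsol (fun u hu =>
      ⟨lt_of_lt_of_le h3 (hmin hu), lt_of_le_of_lt (hmax hu) h4⟩)
    have hXne : ∀ u ∈ Set.Icc 0 s, g u - W u ω ≠ 0 := fun u hu =>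
      sub_ne_zero.2 (hsol.2.1 u hu)
    have hI1 : IntervalIntegrable (fun u => (2 / (g u - W u ω) ^ 2).re) volume 0 s := by
      apply ContinuousOn.intervalIntegrable
      rw [Set.uIcc_of_le hs]
      refine Complex.continuous_re.comp_continuousOn ?_
      exact continuousOn_const.div (hX.pow 2) fun u hu => pow_ne_zero 2 (hXne u hu)
    have hI2 : IntervalIntegrable (fun u => 1 / ‖g u - W u ω‖ ^ 2) volume 0 s := by
      apply ContinuousOn.intervalIntegrable
      rw [Set.uIcc_of_le hs]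
      exact continuousOn_const.div (hcont.pow 2) fun u hu =>
        pow_ne_zero 2 (norm_ne_zero_iff.2 (hXne u hu))
    have h7 : (∫ u in (0 : ℝ)..s, kd β t (g u - W u ω)) =
        -β * (∫ u in (0 : ℝ)..s, (2 / (g u - W u ω) ^ 2).re) +
          β * t * ∫ u in (0 : ℝ)..s, 1 / ‖g u - W u ω‖ ^ 2 := by
      rw [← intervalIntegral.integral_const_mul, ← intervalIntegral.integral_const_mul,
        ← intervalIntegral.integral_add (hI1.const_mul _) (hI2.const_mul _)]
      refine intervalIntegral.integral_congr fun u _ => ?_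
      unfold kd
      ring
    rw [h7] at h6
    exact final hβ (norm_pos_iff.2 (hXne s ⟨hs, le_rfl⟩)) hp hq
      (abs_le.1 (h0 (g s - W s ω).arg)).1 h6

end

end Pool.Agent.SLE
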