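import Pool.Agent.Lib.MP_c17912_pr_LN.Base
import Pool.Agent.Lib.MP_c17912_pr.Maxi

set_option autoImplicit false

open MeasureTheory ProbabilityTheory Filter
open scoped NNReal ENNReal Topology Real

namespace Pool.Agent.SLE

noncomputable section

variable {Ω : Type*} [MeasurableSpace Ω] {μ : Measure Ω} {a b c K : ℝ} {W : ℝ → Ω → ℂ}

namespace GMAux

/-- The component of the process in the direction `(u, v)`. -/
def Y (W : ℝ → Ω → ℂ) (u v t : ℝ) (ω : Ω) : ℝ := u * (W t ω).re + v * (W t ω).im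

/-- The increment of the component. -/
def Di (W : ℝ → Ω → ℂ) (u v s t : ℝ) (ω : Ω) : ℝ :=
  u * (W t ω - W s ω).re + v * (W t ω - W s ω).im

omit [MeasurableSpace Ω] in
lemma Y_add (u v s t : ℝ) (ω : Ω) : Y W u v t ω = Y W u v s ω + Di W u v s t ω := by
  simp only [Y, Di, Complex.sub_re, Complex.sub_im]
  ring

lemma Y_eq (hW : Drv a b c K W μ) (u v t : ℝ) (ω : Ω) : Y W u v t ω = Di W u v 0 t ω := by
  simp only [Y, Di, MaxiAux.W0 hW, sub_zero]

lemma q_nonneg (ha : 0 ≤ a) (hb : 0 ≤ b) (hc : c ^ 2 ≤ a * b) (u v : ℝ) :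
    0 ≤ a * u ^ 2 + 2 * c * u * v + b * v ^ 2 := by
  have h1 : (2 * c * u * v) ^ 2 ≤ (a * u ^ 2 + b * v ^ 2) ^ 2 := by
    have h2 : c ^ 2 * (u * v) ^ 2 ≤ a * b * (u * v) ^ 2 :=
      mul_le_mul_of_nonneg_right hc (sq_nonneg _)
    nlinarith [sq_nonneg (a * u ^ 2 - b * v ^ 2)]
  have h3 : 0 ≤ a * u ^ 2 + b * v ^ 2 := by positivity
  have h4 := abs_le_of_sq_le_sq' h1 h3
  linarith [h4.1]

lemma q_le (ha : 0 ≤ a) (hb : 0 ≤ b) (hc : c ^ 2 ≤ a * b) {u v : ℝ} (huv : u ^ 2 + v ^ 2 = 1) :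
    a * u ^ 2 + 2 * c * u * v + b * v ^ 2 ≤ a + b := by
  have h1 := q_nonneg (c := -c) hb ha (by rw [neg_sq]; linarith) u v
  nlinarith

lemma mgf_Di (hW : Gau a b c K W μ) {s t : ℝ} (hs : 0 ≤ s) (hst : s ≤ t)
    (u v θ : ℝ) : ∫ ω, Real.exp (θ * Di W u v s t ω) ∂μ =
      Real.exp ((t - s) * (a * u ^ 2 + 2 * c * u * v + b * v ^ 2) * θ ^ 2 / 2) := by
  have h1 := mgf_gaussianReal (hW.gauss s t hs hst u v).map_eq θ
  rw [mgf, Real.coe_toNNReal _ (mul_nonneg (sub_nonneg.2 hst)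
    (q_nonneg hW.a_nonneg hW.b_nonneg hW.c_sq u v)), zero_mul, zero_add] at h1
  exact h1

lemma int_Di (hW : Gau a b c K W μ) {s t : ℝ} (hs : 0 ≤ s) (hst : s ≤ t)
    (u v θ : ℝ) : Integrable (fun ω => Real.exp (θ * Di W u v s t ω)) μ := by
  by_contra h
  have h1 := mgf_Di hW hs hst u v θ
  rw [integral_undef h] at h1
  exact (Real.exp_pos _).ne h1

lemma meas_Y (hW : Drv a b c K W μ) {t r : ℝ} (ht : 0 ≤ t) (htr : t ≤ r) (u v : ℝ) :
    Measurable[Blk W 0 r] (Y W u v t) := by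
  have h := MaxiAux.meas_Blk hW ht htr
  exact ((Complex.measurable_re.comp h).const_mul u).add
    ((Complex.measurable_im.comp h).const_mul v)

omit [MeasurableSpace Ω] in
lemma meas_Di {s t : ℝ} (hst : s ≤ t) (u v : ℝ) : Measurable[Fut W s] (Di W u v s t) := by
  have h := MaxiAux.meas_Fut (W := W) hst
  exact ((Complex.measurable_re.comp h).const_mul u).add
    ((Complex.measurable_im.comp h).const_mul v)

/-- The exponential is a submartingale. -/
lemma sub_step [IsProbabilityMeasure μ] (hW : Gau a b c K W μ) {s t : ℝ} (hs : 0 ≤ s)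
    (hst : s ≤ t) {S : Set Ω} (hS : MeasurableSet[Blk W 0 s] S) (u v θ : ℝ) :
    ∫ ω in S, Real.exp (θ * Y W u v s ω) ∂μ ≤ ∫ ω in S, Real.exp (θ * Y W u v t ω) ∂μ := by
  have hS' : MeasurableSet S := Blk_le hW.toDrv 0 s S hS
  have hX : Measurable[Blk W 0 s] fun ω => Real.exp (θ * Y W u v s ω) :=
    Real.measurable_exp.comp ((meas_Y hW.toDrv hs le_rfl u v).const_mul θ)
  have hD : Measurable[Fut W s] fun ω => Real.exp (θ * Di W u v s t ω) :=
    Real.measurable_exp.comp ((meas_Di hst u v).const_mul θ)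
  have hind : Measurable[Blk W 0 s] (S.indicator fun ω => Real.exp (θ * Y W u v s ω)) :=
    hX.indicator hS
  have h1 : IndepFun (S.indicator fun ω => Real.exp (θ * Y W u v s ω))
      (fun ω => Real.exp (θ * Di W u v s t ω)) μ := by
    rw [IndepFun_iff_Indep]
    refine indep_of_indep_of_le_left (indep_of_indep_of_le_right (indep_Blk_Fut hW.toDrv hs) ?_) ?_
    · exact hD.comap_le
    · exact hind.comap_le
  have h2 := h1.integral_fun_mul_eq_mul_integral
    (hind.mono (Blk_le hW.toDrv 0 s) le_rfl).aestronglyMeasurable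
    (hD.mono (Fut_le hW.toDrv s) le_rfl).aestronglyMeasurable
  rw [mgf_Di hW hs hst] at h2
  have h3 : ∫ ω in S, Real.exp (θ * Y W u v t ω) ∂μ =
      ∫ ω, (S.indicator fun ω => Real.exp (θ * Y W u v s ω)) ω *
        Real.exp (θ * Di W u v s t ω) ∂μ := by
    rw [← integral_indicator hS']
    congr 1
    funext ω
    by_cases hω : ω ∈ S
    · rw [Set.indicator_of_mem hω, Set.indicator_of_mem hω, ← Real.exp_add, Y_add u v s t]
      congr 1
      ring
    · rw [Set.indicator_of_notMem hω, Set.indicator_of_notMem hω, zero_mul]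
  rw [h3, h2, integral_indicator hS']
  have h4 : 0 ≤ ∫ ω in S, Real.exp (θ * Y W u v s ω) ∂μ :=
    integral_nonneg fun ω => (Real.exp_pos _).le
  have h5 : 1 ≤ Real.exp ((t - s) * (a * u ^ 2 + 2 * c * u * v + b * v ^ 2) * θ ^ 2 / 2) := by
    refine Real.one_le_exp ?_
    have := mul_nonneg (sub_nonneg.2 hst) (q_nonneg hW.a_nonneg hW.b_nonneg hW.c_sq u v)
    positivity
  nlinarith

lemma submart [IsProbabilityMeasure μ] (hW : Gau a b c K W μ) {h : ℝ} (hh : 0 ≤ h)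
    (u v θ : ℝ) : Submartingale (fun (i : ℕ) ω => Real.exp (θ * Y W u v (i * h) ω))
      (MaxiAux.filt hW.toDrv hh) μ := by
  refine submartingale_of_setIntegral_le_succ ?_ ?_ ?_
  · intro i
    have h1 : Measurable[Blk W 0 (i * h)] fun ω => Real.exp (θ * Y W u v (i * h) ω) :=
      Real.measurable_exp.comp ((meas_Y hW.toDrv (by positivity) le_rfl u v).const_mul θ)
    exact h1.stronglyMeasurable
  · intro i
    have := int_Di hW (le_refl (0 : ℝ)) (t := i * h) (by positivity) u v θ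
    simpa only [Y_eq hW.toDrv] using this
  · intro i s hs
    refine sub_step hW (by positivity) ?_ hs u v θ
    push_cast
    nlinarith

/-- The event that the bound fails on the grid. -/
def An (W : ℝ → Ω → ℂ) (u v T x : ℝ) (n : ℕ) : Set Ω :=
  {ω | ∃ k ≤ 2 ^ n, x < Y W u v ((k : ℕ) * (T / 2 ^ n)) ω}

lemma An_meas (hW : Drv a b c K W μ) (u v : ℝ) {T x : ℝ} (hT : 0 < T) (n : ℕ) :
    MeasurableSet[Blk W 0 T] (An W u v T x n) := by
  have h1 : An W u v T x n = ⋃ k ∈ Finset.range (2 ^ n + 1),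
      {ω | x < Y W u v ((k : ℕ) * (T / 2 ^ n)) ω} := by
    ext ω
    simp [An]
  rw [h1]
  refine @Finset.measurableSet_biUnion _ _ (Blk W 0 T) _ _ fun k hk => ?_
  have hk' : (k : ℝ) ≤ 2 ^ n := by
    have := Finset.mem_range.1 hk
    exact_mod_cast Nat.lt_succ_iff.1 this
  have hle : (k : ℝ) * (T / 2 ^ n) ≤ T := by
    have : (k : ℝ) * (T / 2 ^ n) ≤ 2 ^ n * (T / 2 ^ n) := by gcongr
    rwa [mul_div_cancel₀ _ (by positivity)] at this
  have h2 := meas_Y hW (t := (k : ℝ) * (T / 2 ^ n)) (by positivity) hle u v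
  exact h2 measurableSet_Ioi

lemma An_bound [IsProbabilityMeasure μ] (hW : Gau a b c K W μ) {u v T x S : ℝ} (hT : 0 < T)
    (hx : 0 < x) (hS : 0 < S) (hab : a + b ≤ S) (huv : u ^ 2 + v ^ 2 = 1) (n : ℕ) :
    μ (An W u v T x n) ≤ ENNReal.ofReal (Real.exp (-(x ^ 2 / (2 * S * T)))) := by
  have hh : 0 ≤ T / 2 ^ n := by positivity
  set θ : ℝ := x / (S * T) with hθ
  have hθ0 : 0 < θ := by positivity
  have h1 := maximal_ineq (submart hW hh u v θ) (fun i ω => (Real.exp_pos _).le)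
    (ε := ⟨Real.exp (θ * x), (Real.exp_pos _).le⟩) (2 ^ n)
  set f : ℕ → Ω → ℝ := fun i ω => Real.exp (θ * Y W u v ((i : ℕ) * (T / 2 ^ n)) ω) with hf
  have e1 : ((2 ^ n : ℕ) : ℝ) * (T / 2 ^ n) = T := by
    push_cast
    exact mul_div_cancel₀ _ (by positivity)
  have hi : Integrable (fun ω => Real.exp (θ * Y W u v T ω)) μ := by
    have := int_Di hW (le_refl (0 : ℝ)) hT.le u v θ
    simpa only [Y_eq hW.toDrv] using this
  have h2 : An W u v T x n ⊆ {ω | ((⟨Real.exp (θ * x), (Real.exp_pos _).le⟩ : ℝ≥0) : ℝ) ≤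
      (Finset.range (2 ^ n + 1)).sup' Finset.nonempty_range_add_one fun k => f k ω} := by
    rintro ω ⟨k, hk, hk'⟩
    show Real.exp (θ * x) ≤ _
    refine le_trans ?_ (Finset.le_sup' (fun k => f k ω) (Finset.mem_range.2 (Nat.lt_succ_of_le hk)))
    simp only [hf]
    gcongr
  have h4 : ∫ ω, Real.exp (θ * Y W u v T ω) ∂μ ≤ Real.exp (S * T * θ ^ 2 / 2) := by
    simp only [Y_eq hW.toDrv]
    rw [mgf_Di hW le_rfl hT.le, sub_zero]
    refine Real.exp_le_exp.2 ?_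
    have h5 := (q_le hW.a_nonneg hW.b_nonneg hW.c_sq huv).trans hab
    have h6 := mul_le_mul_of_nonneg_left h5 hT.le
    have h7 := mul_le_mul_of_nonneg_right h6 (sq_nonneg θ)
    linarith
  have h3 : ENNReal.ofReal (Real.exp (θ * x)) * μ (An W u v T x n) ≤
      ENNReal.ofReal (Real.exp (S * T * θ ^ 2 / 2)) := by
    refine le_trans ?_ (h1.trans ?_)
    · rw [ENNReal.ofReal_eq_coe_nnreal (Real.exp_pos _).le]
      exact mul_le_mul_right (measure_mono h2) _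
    · apply ENNReal.ofReal_le_ofReal
      refine le_trans ?_ h4
      simp only [e1]
      exact setIntegral_le_integral hi (ae_of_all _ fun ω => (Real.exp_pos _).le)
  have h8 : Real.exp (-(x ^ 2 / (2 * S * T))) =
      Real.exp (S * T * θ ^ 2 / 2) / Real.exp (θ * x) := by
    rw [← Real.exp_sub]
    congr 1
    rw [hθ]
    field_simp
    ring
  rw [h8, ENNReal.ofReal_div_of_pos (Real.exp_pos _)]
  rw [ENNReal.le_div_iff_mul_le (Or.inl (by positivity)) (Or.inl ENNReal.ofReal_ne_top), mul_comm]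
  exact h3

omit [MeasurableSpace Ω] in
lemma An_mono (W : ℝ → Ω → ℂ) (u v T x : ℝ) : Monotone (An W u v T x) := by
  refine monotone_nat_of_le_succ fun n => ?_
  rintro ω ⟨k, hk, hk'⟩
  refine ⟨2 * k, by rw [pow_succ]; omega, ?_⟩
  have : ((2 * k : ℕ) : ℝ) * (T / 2 ^ (n + 1)) = (k : ℝ) * (T / 2 ^ n) := by
    push_cast
    rw [pow_succ]
    field_simp
  rw [this]
  exact hk'

/-- A continuous function which is at most `x` on the dyadic grid. -/
lemma le_of_grid {f : ℝ → ℝ} (hf : Continuous f) {T x : ℝ} (hT : 0 < T)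
    (h : ∀ n k : ℕ, k ≤ 2 ^ n → f ((k : ℕ) * (T / 2 ^ n)) ≤ x) {t : ℝ}
    (ht : t ∈ Set.Icc 0 T) : f t ≤ x := by
  have hseq : Tendsto (fun n : ℕ => ((⌊t * 2 ^ n / T⌋₊ : ℕ) : ℝ) * (T / 2 ^ n)) atTop (𝓝 t) := by
    have h0 : Tendsto (fun n : ℕ => T / 2 ^ n) atTop (𝓝 0) := by
      have := (tendsto_pow_atTop_nhds_zero_of_lt_one (r := (1 / 2 : ℝ)) (by norm_num)
        (by norm_num)).const_mul T
      simpa [div_eq_mul_inv] using this
    have h1 : Tendsto (fun n : ℕ => t - T / 2 ^ n) atTop (𝓝 t) := by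
      simpa using tendsto_const_nhds.sub h0
    refine tendsto_of_tendsto_of_tendsto_of_le_of_le h1 tendsto_const_nhds (fun n => ?_)
      (fun n => ?_)
    · have h2 := Nat.lt_floor_add_one (t * 2 ^ n / T)
      have h3 : t * 2 ^ n / T * (T / 2 ^ n) = t := by field_simp
      have h4 : t * 2 ^ n / T * (T / 2 ^ n) ≤
          (((⌊t * 2 ^ n / T⌋₊ : ℕ) : ℝ) + 1) * (T / 2 ^ n) := by
        gcongr
      simp only
      linarith
    · have h2 := Nat.floor_le (div_nonneg (mul_nonneg ht.1 (by positivity : (0 : ℝ) ≤ 2 ^ n)) hT.le)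
      have h3 : t * 2 ^ n / T * (T / 2 ^ n) = t := by field_simp
      have h4 : ((⌊t * 2 ^ n / T⌋₊ : ℕ) : ℝ) * (T / 2 ^ n) ≤ t * 2 ^ n / T * (T / 2 ^ n) := by
        gcongr
      simp only
      linarith
  refine le_of_tendsto' ((hf.tendsto t).comp hseq) fun n => h n _ ?_
  have h1 : t * 2 ^ n / T ≤ 2 ^ n := by
    rw [div_le_iff₀ hT, mul_comm]
    gcongr
    exact ht.2
  have h2 : ((⌊t * 2 ^ n / T⌋₊ : ℕ) : ℝ) ≤ 2 ^ n :=
    (Nat.floor_le (div_nonneg (mul_nonneg ht.1 (by positivity)) hT.le)).trans h1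
  exact_mod_cast h2

/-- The bound in one direction. -/
lemma one_dir [IsProbabilityMeasure μ] (hW : Gau a b c K W μ) {u v T x S : ℝ} (hT : 0 < T)
    (hx : 0 < x) (hS : 0 < S) (hab : a + b ≤ S) (huv : u ^ 2 + v ^ 2 = 1) :
    ∃ A, MeasurableSet[Blk W 0 T] A ∧
      μ A ≤ ENNReal.ofReal (Real.exp (-(x ^ 2 / (2 * S * T)))) ∧
      ∀ ω ∉ A, ∀ t ∈ Set.Icc 0 T, u * (W t ω).re + v * (W t ω).im ≤ x := by
  refine ⟨⋃ n, An W u v T x n, ?_, ?_, ?_⟩
  · exact @MeasurableSet.iUnion _ _ (Blk W 0 T) _ _ fun n => An_meas hW.toDrv u v hT n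
  · rw [(An_mono W u v T x).measure_iUnion]
    exact iSup_le fun n => An_bound hW hT hx hS hab huv n
  · intro ω hω t ht
    have hc : Continuous fun t => Y W u v t ω :=
      (continuous_const.mul (Complex.continuous_re.comp (hW.cont ω))).add
        (continuous_const.mul (Complex.continuous_im.comp (hW.cont ω)))
    refine le_of_grid hc hT (fun n k hk => ?_) ht
    by_contra hcon
    exact hω (Set.mem_iUnion.2 ⟨n, k, hk, not_le.1 hcon⟩)

end GMAux

open GMAux in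
/-- GM. Maximal inequality with a Gaussian tail. -/
theorem maximal_gauss [IsProbabilityMeasure μ] (hW : Gau a b c K W μ) {T l S : ℝ} (hT : 0 < T)
    (hl : 0 < l) (hS : 0 < S) (hab : a + b ≤ S) :
    ∃ A, MeasurableSet[Blk W 0 T] A ∧
      μ A ≤ ENNReal.ofReal (4 * Real.exp (-(l ^ 2 / (4 * S * T)))) ∧
      ∀ ω ∉ A, ∀ t ∈ Set.Icc 0 T, ‖W t ω‖ ≤ l := by
  have h2 : (0 : ℝ) < Real.sqrt 2 := Real.sqrt_pos.2 (by norm_num)
  have hx : 0 < l / Real.sqrt 2 := by positivity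
  have hx2 : (l / Real.sqrt 2) ^ 2 = l ^ 2 / 2 := by
    rw [div_pow, Real.sq_sqrt (by norm_num)]
  obtain ⟨A₁, m₁, p₁, b₁⟩ := one_dir hW (u := 1) (v := 0) hT hx hS hab (by norm_num)
  obtain ⟨A₂, m₂, p₂, b₂⟩ := one_dir hW (u := -1) (v := 0) hT hx hS hab (by norm_num)
  obtain ⟨A₃, m₃, p₃, b₃⟩ := one_dir hW (u := 0) (v := 1) hT hx hS hab (by norm_num)
  obtain ⟨A₄, m₄, p₄, b₄⟩ := one_dir hW (u := 0) (v := -1) hT hx hS hab (by norm_num)
  have e : (l / Real.sqrt 2) ^ 2 / (2 * S * T) = l ^ 2 / (4 * S * T) := by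
    rw [hx2]
    field_simp
    ring
  rw [e] at p₁ p₂ p₃ p₄
  refine ⟨(A₁ ∪ A₂) ∪ (A₃ ∪ A₄), ?_, ?_, ?_⟩
  · exact @MeasurableSet.union _ (Blk W 0 T) _ _ (@MeasurableSet.union _ (Blk W 0 T) _ _ m₁ m₂)
      (@MeasurableSet.union _ (Blk W 0 T) _ _ m₃ m₄)
  · have h3 : ENNReal.ofReal (4 * Real.exp (-(l ^ 2 / (4 * S * T)))) =
        (ENNReal.ofReal (Real.exp (-(l ^ 2 / (4 * S * T)))) +
          ENNReal.ofReal (Real.exp (-(l ^ 2 / (4 * S * T))))) +
        (ENNReal.ofReal (Real.exp (-(l ^ 2 / (4 * S * T)))) +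
          ENNReal.ofReal (Real.exp (-(l ^ 2 / (4 * S * T))))) := by
      have h4 := (Real.exp_pos (-(l ^ 2 / (4 * S * T)))).le
      rw [← ENNReal.ofReal_add h4 h4, ← ENNReal.ofReal_add (add_nonneg h4 h4) (add_nonneg h4 h4)]
      congr 1
      ring
    rw [h3]
    refine (measure_union_le _ _).trans (add_le_add ?_ ?_)
    · exact (measure_union_le _ _).trans (add_le_add p₁ p₂)
    · exact (measure_union_le _ _).trans (add_le_add p₃ p₄)
  · intro ω hω t ht
    simp only [Set.mem_union, not_or] at hω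
    obtain ⟨⟨n₁, n₂⟩, n₃, n₄⟩ := hω
    have g₁ := b₁ ω n₁ t ht
    have g₂ := b₂ ω n₂ t ht
    have g₃ := b₃ ω n₃ t ht
    have g₄ := b₄ ω n₄ t ht
    have q₁ : (W t ω).re ^ 2 ≤ l ^ 2 / 2 := by
      rw [← hx2]
      refine sq_le_sq' ?_ ?_ <;> linarith
    have q₂ : (W t ω).im ^ 2 ≤ l ^ 2 / 2 := by
      rw [← hx2]
      refine sq_le_sq' ?_ ?_ <;> linarith
    refine abs_le_of_sq_le_sq' ?_ hl.le |>.2
    rw [MaxiAux.norm_sq]
    linarith

end

end Pool.Agent.SLE
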