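import Pool.Agent.Lib.MP_c17912_pr_LN.NR
import Pool.Agent.Lib.MP_c17912_pr_LN.GM

set_option autoImplicit false

open MeasureTheory ProbabilityTheory Filter
open scoped NNReal ENNReal Topology Real

namespace Pool.Agent.SLE

noncomputable section

variable {Ω : Type*} [MeasurableSpace Ω] {μ : Measure Ω} {a b c K : ℝ} {W : ℝ → Ω → ℂ}

/-- GE. The good event of one scale. -/
theorem good_event [IsProbabilityMeasure μ] (hW : Gau a b c K W μ) {h r η d x S : ℝ} {N L : ℕ}
    (hN : 1 ≤ N) (hh : 0 < h) (hr : 0 < r) (hη : 0 < η) (hd : 0 < d)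
    (hdet : d ^ 2 ≤ a * b - c ^ 2) (hS : 0 < S) (hab : a + b ≤ S) (hx : 0 ≤ x)
    (hxm : x * ((4 * η) ^ 2 / (d * h) * (1 + Real.log N)) ≤ 1 / 2) :
    ∃ A, MeasurableSet[Blk W 0 (N * h)] A ∧
      μ A ≤ ENNReal.ofReal ((N : ℝ) * (4 * Real.exp (-(r ^ 2 / (4 * S * h)))) +
        (2 * ((N : ℝ) * r) / η + 9) ^ 2 * (2 / (1 + x) ^ L)) ∧
      ∀ ω ∉ A, GoodPath (fun t => W t ω) N h r η L := by
  have hjh : ∀ j : ℕ, (0 : ℝ) ≤ j * h := fun j => by positivity
  have hosc : ∀ j : ℕ, ∃ A, MeasurableSet[Blk W (j * h) (j * h + h)] A ∧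
      μ A ≤ ENNReal.ofReal (4 * Real.exp (-(r ^ 2 / (4 * S * h)))) ∧
      ∀ ω ∉ A, ∀ t ∈ Set.Icc 0 h, ‖W (j * h + t) ω - W (j * h) ω‖ ≤ r := by
    intro j
    obtain ⟨A, hA1, hA2, hA3⟩ := maximal_gauss (hW.subP (hjh j) one_pos) hh hr hS hab
    refine ⟨A, ?_, hA2, ?_⟩
    · have h1 := Blk_sub_le (W := W) (hjh j) one_pos h
      rw [one_pow, one_mul] at h1
      exact h1 _ hA1
    · intro ω hω t ht
      have h1 := hA3 ω hω t ht
      simp only [subP, psub, inv_one, one_smul, one_pow, one_mul, max_eq_left ht.1] at h1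
      exact h1
  choose A hA1 hA2 hA3 using hosc
  obtain ⟨B, hB1, hB2, hB3⟩ := near_all hW (R₀ := (N : ℝ) * r) (L := L) hN hh hη hd hdet
    (by positivity) hx hxm
  refine ⟨B ∪ ⋃ j ∈ Finset.range N, A j, ?_, ?_, ?_⟩
  · refine @MeasurableSet.union Ω (Blk W 0 (N * h)) _ _ hB1 ?_
    refine @Finset.measurableSet_biUnion Ω ℕ (Blk W 0 (N * h)) A _ fun j hj => ?_
    refine Blk_le_Blk (hjh j) ?_ _ (hA1 j)
    have h1 : (j : ℝ) + 1 ≤ N := by
      have := Finset.mem_range.1 hj
      exact_mod_cast this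
    nlinarith
  · have hU : μ (⋃ j ∈ Finset.range N, A j) ≤
        ENNReal.ofReal ((N : ℝ) * (4 * Real.exp (-(r ^ 2 / (4 * S * h))))) := by
      refine (measure_biUnion_finset_le _ _).trans ?_
      refine (Finset.sum_le_sum fun j _ => hA2 j).trans (le_of_eq ?_)
      rw [Finset.sum_const, Finset.card_range, nsmul_eq_mul,
        ENNReal.ofReal_mul (Nat.cast_nonneg N), ENNReal.ofReal_natCast]
    refine (measure_union_le _ _).trans ?_
    rw [ENNReal.ofReal_add (by positivity) (by positivity), add_comm]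
    exact add_le_add hU hB2
  · intro ω hω
    rw [Set.mem_union, not_or] at hω
    obtain ⟨hωB, hωA⟩ := hω
    have hωA' : ∀ j < N, ω ∉ A j := by
      intro j hj hmem
      exact hωA (Set.mem_biUnion (Finset.mem_range.2 hj) hmem)
    have hpos : ∀ j : ℕ, j ≤ N → ‖W ((j : ℝ) * h) ω‖ ≤ (j : ℝ) * r := by
      intro j
      induction j with
      | zero =>
        intro _
        rw [hW.zero _ (by simp)]
        simp
      | succ j ih =>
        intro hj
        have h1 := ih (by omega)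
        have h2 := hA3 j ω (hωA' j (by omega)) h ⟨hh.le, le_rfl⟩
        have h3 : ((j + 1 : ℕ) : ℝ) * h = (j : ℝ) * h + h := by push_cast; ring
        have h4 : W ((j : ℝ) * h + h) ω =
            (W ((j : ℝ) * h + h) ω - W ((j : ℝ) * h) ω) + W ((j : ℝ) * h) ω := by ring
        rw [h3, h4]
        refine (norm_add_le _ _).trans ?_
        push_cast
        linarith
    refine ⟨fun j hj t ht => ?_, fun z J hJ => ?_⟩
    · have h1 := hA3 j ω (hωA' j hj) (t - (j : ℝ) * h)
        ⟨by linarith [ht.1], by linarith [ht.2]⟩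
      have h2 : (j : ℝ) * h + (t - (j : ℝ) * h) = t := by ring
      rw [h2] at h1
      exact h1
    · refine hB3 ω hωB (fun j hj => (hpos j hj).trans ?_) z J fun j hj =>
        ⟨(hJ j hj).1.le, (hJ j hj).2⟩
      exact mul_le_mul_of_nonneg_right (by exact_mod_cast hj) hr.le

end

end Pool.Agent.SLE
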