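import Pool.Agent.Lib.MP_c17912_pr_LN.ST
import Pool.Agent.Lib.MP_c17912_pr.Smg

set_option autoImplicit false

open MeasureTheory ProbabilityTheory Filter
open scoped NNReal ENNReal Topology Real

namespace Pool.Agent.SLE

noncomputable section

variable {Ω : Type*} [MeasurableSpace Ω] {μ : Measure Ω} {a b c K : ℝ}

private theorem IN_zero {T η p : ℝ} (h0 : 2 * T ≤ η) : DispP μ a b c K T η 1 p := by
  intro W _
  refine ⟨∅, @MeasurableSet.empty _ (Blk W 0 T), ?_, ?_⟩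
  · rw [measure_empty]
    exact zero_le
  · intro ω _ z s g hs hsT hsol hcut
    have h1 := far_move hsol le_rfl hs le_rfl one_pos hcut
    rw [hsol.1, div_one, sub_zero] at h1
    linarith

private theorem IN_mono {T η cut p q : ℝ} (hpq : p ≤ q) (h : DispP μ a b c K T η cut p) :
    DispP μ a b c K T η cut q := by
  intro W hW
  obtain ⟨A, h1, h2, h3⟩ := h W hW
  exact ⟨A, h1, h2.trans (ENNReal.ofReal_le_ofReal hpq), h3⟩

open SmgAux in
private theorem IN_all {T η p : ℝ} {m : ℕ} (hm : 2 ≤ m)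
    (h : ∀ k : ℕ, DispP μ a b c K T η (1 / (m : ℝ) ^ k) p) : DispP μ a b c K T η 0 p := by
  intro W hW
  have key := fun k : ℕ => h k W hW
  choose A hA1 hA2 hA3 using key
  refine ⟨⋃ N : ℕ, ⋂ n ≥ N, A n, ?_, ?_, ?_⟩
  · refine @MeasurableSet.iUnion _ _ (Blk W 0 T) _ _ (fun N => ?_)
    refine @MeasurableSet.iInter _ _ (Blk W 0 T) _ _ (fun n => ?_)
    exact @MeasurableSet.iInter _ _ (Blk W 0 T) _ _ (fun _ => hA1 n)
  · exact measure_liminf_le tendsto_const_nhds (Eventually.of_forall hA2)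
  · intro ω hω z s g hs hsT hsol _
    obtain ⟨d, hd, hdg⟩ := FlowAux.exists_lower (hW.cont ω) hsol
    have hm1 : (1 : ℝ) < m := by exact_mod_cast (show 1 < m by omega)
    have hlim : Tendsto (fun n : ℕ => 1 / (m : ℝ) ^ n) atTop (𝓝 0) := by
      have h1 := tendsto_pow_atTop_nhds_zero_of_lt_one (r := ((m : ℝ))⁻¹)
        (inv_nonneg.2 (by linarith)) (inv_lt_one_of_one_lt₀ hm1)
      refine h1.congr (fun n => ?_)
      rw [inv_pow, one_div]
    obtain ⟨N, hN⟩ := Filter.eventually_atTop.1 (hlim.eventually (ge_mem_nhds hd))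
    have h2 : ∃ k ≥ N, ω ∉ A k := by
      by_contra hcon
      refine hω (Set.mem_iUnion.2 ⟨N, ?_⟩)
      simp only [Set.mem_iInter]
      intro n hn
      by_contra h3
      exact hcon ⟨n, hn, h3⟩
    obtain ⟨k, hk, hωk⟩ := h2
    exact hA3 k ω hωk z s g hs hsT hsol (fun u hu => (hN k hk).trans (hdg u hu))

/-- IN. The displacement theorem without cut off. -/
theorem disp_all [IsProbabilityMeasure μ] {T η p s₁ r : ℝ} {m L : ℕ} (hm : 2 ≤ m)
    (hT : 0 < T) (hη : 0 < η) (hr : 0 < r) (hrη : r ≤ η) (hp : 0 ≤ p) (hs₁ : 0 ≤ s₁)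
    (h0 : 2 * T ≤ η) (h1 : 2 / η * T + L * (η / m) + 5 * r < η)
    (h2 : 2 * (T / (m : ℝ) ^ 2) ≤ r ^ 2) (h3 : s₁ + (m : ℝ) ^ 4 * p ^ 2 ≤ p)
    (hG : ∀ W : ℝ → Ω → ℂ, Gau a b c K W μ → ∃ A, MeasurableSet[Blk W 0 T] A ∧
      μ A ≤ ENNReal.ofReal s₁ ∧
      ∀ ω ∉ A, GoodPath (fun t => W t ω) (m ^ 2) (T / (m : ℝ) ^ 2) r η L) :
    DispP μ a b c K T η 0 p := by
  refine IN_all hm (fun k => ?_)
  induction k with
  | zero =>
    rw [pow_zero, div_one]
    exact IN_zero h0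
  | succ k ih =>
    have h4 := disp_step (by omega) hT hη hr hrη hp hs₁ h1 h2 hG ih
    rw [div_div, ← pow_succ] at h4
    exact IN_mono h3 h4

end

end Pool.Agent.SLE
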