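import Pool.Agent.Lib.MP_c17912_pr_LN.NU
import Pool.Agent.Lib.MP_c17912_pr_LN.GE
import Pool.Agent.Lib.MP_c17912_pr_LN.IN

set_option autoImplicit false

open MeasureTheory ProbabilityTheory Filter
open scoped NNReal ENNReal Topology Real

namespace Pool.Agent.SLE

noncomputable section

universe u

private theorem DF_xx_nonneg (n ρ : ℕ) : 0 ≤ xx n ρ := by
  unfold xx
  have h : 0 ≤ Real.log (mm n ρ : ℝ) := Real.log_natCast_nonneg _
  positivity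

private theorem DF_ss_nonneg (n ρ : ℕ) : 0 ≤ ss n ρ := by
  unfold ss
  have h := DF_xx_nonneg n ρ
  positivity

private theorem DF_disp {Ω : Type u} [MeasurableSpace Ω] {μ : Measure Ω}
    [IsProbabilityMeasure μ] {a b c K lam S η : ℝ} {n ρ : ℕ} (hn10 : 10 ≤ n) (hρ1 : 1 ≤ ρ)
    (hlam0 : 0 < lam) (hS : S = a + b) (hS2 : 2 * lam ≤ S)
    (hη : η = 1 / ((ρ : ℝ) * (n : ℝ) ^ 6)) (hρl : 2 * S / lam ≤ (ρ : ℝ) ^ 2)
    (hρu : (ρ : ℝ) ^ 2 ≤ 8 * S / lam) (hn12 : 64 * (n : ℝ) ^ 12 ≤ lam)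
    (hs4 : 4 * (mm n ρ : ℝ) ^ 4 * ss n ρ ≤ 1) (hE : Ell a b c lam) :
    DispP μ a b c K (1 / S) η 0 (2 * ss n ρ) := by
  have hS0 : 0 < S := by linarith
  have hρR : (1 : ℝ) ≤ ρ := by exact_mod_cast hρ1
  have hρ0 : (0 : ℝ) < ρ := by linarith
  have hnR : (10 : ℝ) ≤ n := by exact_mod_cast hn10
  have hn0 : (0 : ℝ) < n := by linarith
  have hη0 : 0 < η := by rw [hη]; positivity
  have hmR : (mm n ρ : ℝ) = (ρ : ℝ) * (n : ℝ) ^ 8 := by
    unfold mm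
    push_cast
    ring
  have hm10 : (10 : ℝ) ≤ mm n ρ := by
    rw [hmR]
    have h1 : (n : ℝ) ^ 1 ≤ (n : ℝ) ^ 8 := pow_le_pow_right₀ (by linarith) (by norm_num)
    have h2 : (10 : ℝ) ≤ (n : ℝ) ^ 8 := by linarith
    nlinarith
  have hm2 : 2 ≤ mm n ρ := by
    have : (2 : ℝ) ≤ mm n ρ := by linarith
    exact_mod_cast this
  obtain ⟨m, hm⟩ : ∃ m : ℝ, m = (mm n ρ : ℝ) := ⟨_, rfl⟩
  have hm0 : 0 < m := by rw [hm]; linarith
  have hηm : η * m = (n : ℝ) ^ 2 := by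
    rw [hη, hm, hmR]
    field_simp
  have hη2 : η ^ 2 = 1 / ((ρ : ℝ) ^ 2 * (n : ℝ) ^ 12) := by
    rw [hη]
    field_simp
  have hη1 : η ≤ 1 := by
    rw [hη, div_le_one (by positivity)]
    have h1 : (1 : ℝ) ≤ (n : ℝ) ^ 6 := one_le_pow₀ (by linarith)
    nlinarith
  have h8 : 8 * ((ρ : ℝ) ^ 2 * (n : ℝ) ^ 12) ≤ S := by
    have h1 : (ρ : ℝ) ^ 2 * lam ≤ 8 * S := (le_div_iff₀ hlam0).mp hρu
    have h2 : (ρ : ℝ) ^ 2 * (64 * (n : ℝ) ^ 12) ≤ (ρ : ℝ) ^ 2 * lam :=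
      mul_le_mul_of_nonneg_left hn12 (by positivity)
    linarith
  have hT8 : 1 / S ≤ η ^ 2 / 8 := by
    rw [hη2, div_le_div_iff₀ hS0 (by norm_num), div_mul_eq_mul_div,
      le_div_iff₀ (by positivity)]
    linarith
  have hL : (((mm n ρ / 4 : ℕ)) : ℝ) ≤ m / 4 := by
    rw [hm]
    exact_mod_cast Nat.cast_div_le
  have hsS := DF_ss_nonneg n ρ
  have hlogm : 0 ≤ Real.log (mm n ρ : ℝ) := Real.log_natCast_nonneg _
  have hηη : η ^ 2 ≤ η := by nlinarith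
  refine disp_all (m := mm n ρ) (L := mm n ρ / 4) (s₁ := ss n ρ) (r := η / 20) hm2
    (by positivity) hη0 (by positivity) (by linarith) (by positivity) hsS ?_ ?_ ?_ ?_ ?_
  · linarith
  · rw [← hm]
    have h1 : 2 / η * (1 / S) ≤ η / 4 := by
      rw [div_mul_eq_mul_div, div_le_iff₀ hη0]
      nlinarith
    have h2 : (((mm n ρ / 4 : ℕ)) : ℝ) * (η / m) ≤ η / 4 := by
      calc (((mm n ρ / 4 : ℕ)) : ℝ) * (η / m) ≤ m / 4 * (η / m) :=
            mul_le_mul_of_nonneg_right hL (by positivity)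
        _ = η / 4 := by field_simp
    linarith
  · rw [← hm]
    have h1 : 2 * (1 / S / m ^ 2) ≤ η ^ 2 / (4 * m ^ 2) := by
      rw [← mul_div_assoc, div_le_div_iff₀ (by positivity) (by positivity)]
      have : 2 * (1 / S) ≤ η ^ 2 / 4 := by linarith
      have hm2' : 0 ≤ m ^ 2 := by positivity
      nlinarith
    have h2 : η ^ 2 / (4 * m ^ 2) ≤ (η / 20) ^ 2 := by
      rw [div_le_iff₀ (by positivity)]
      have h3 : (100 : ℝ) ≤ m ^ 2 := by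
        rw [← hm] at hm10
        nlinarith
      have h4 : 0 ≤ η ^ 2 := by positivity
      nlinarith
    exact h1.trans h2
  · rw [← hm] at hs4 ⊢
    have h1 : 4 * m ^ 4 * ss n ρ * ss n ρ ≤ 1 * ss n ρ :=
      mul_le_mul_of_nonneg_right hs4 hsS
    nlinarith
  · intro W hW
    have hd0 : 0 < Real.sqrt (lam * S / 2) := Real.sqrt_pos.mpr (by positivity)
    have hdsq : Real.sqrt (lam * S / 2) ^ 2 = lam * S / 2 := Real.sq_sqrt (by positivity)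
    have hdet : Real.sqrt (lam * S / 2) ^ 2 ≤ a * b - c ^ 2 := by
      rw [hdsq, hS]
      exact hE.det hlam0.le
    obtain ⟨d, hd⟩ : ∃ d : ℝ, d = Real.sqrt (lam * S / 2) := ⟨_, rfl⟩
    rw [← hd] at hd0 hdsq hdet
    have hSd : S ≤ ρ * d := by
      refine abs_le_of_sq_le_sq' ?_ (by positivity) |>.2
      rw [mul_pow, hdsq]
      have h1 : 2 * S ≤ (ρ : ℝ) ^ 2 * lam := (div_le_iff₀ hlam0).mp hρl
      nlinarith
    have hxm : xx n ρ * ((4 * η) ^ 2 / (d * (1 / S / (mm n ρ : ℝ) ^ 2)) *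
        (1 + Real.log ((mm n ρ ^ 2 : ℕ) : ℝ))) ≤ 1 / 2 := by
      rw [Nat.cast_pow, Real.log_pow]
      push_cast
      have h1 : (4 * η) ^ 2 / (d * (1 / S / (mm n ρ : ℝ) ^ 2)) ≤ 16 * (ρ * (n : ℝ) ^ 4) := by
        rw [← hm]
        have e : (4 * η) ^ 2 / (d * (1 / S / m ^ 2)) = 16 * (η * m) ^ 2 * S / d := by
          field_simp
          ring
        rw [e, hηm, div_le_iff₀ hd0]
        have h2 : 0 ≤ 16 * ((n : ℝ) ^ 2) ^ 2 := by positivity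
        calc 16 * ((n : ℝ) ^ 2) ^ 2 * S ≤ 16 * ((n : ℝ) ^ 2) ^ 2 * (ρ * d) :=
              mul_le_mul_of_nonneg_left hSd h2
          _ = 16 * (ρ * (n : ℝ) ^ 4) * d := by ring
      have h3 : 0 < 1 + 2 * Real.log (mm n ρ : ℝ) := by linarith
      calc xx n ρ * ((4 * η) ^ 2 / (d * (1 / S / (mm n ρ : ℝ) ^ 2)) *
            (1 + 2 * Real.log (mm n ρ : ℝ)))
          ≤ xx n ρ * (16 * (ρ * (n : ℝ) ^ 4) * (1 + 2 * Real.log (mm n ρ : ℝ))) :=
            mul_le_mul_of_nonneg_left (mul_le_mul_of_nonneg_right h1 h3.le)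
              (DF_xx_nonneg n ρ)
        _ = 1 / 2 := by
            unfold xx
            field_simp
            ring
    obtain ⟨A, hA1, hA2, hA3⟩ := good_event hW (N := mm n ρ ^ 2) (L := mm n ρ / 4)
      (h := 1 / S / (mm n ρ : ℝ) ^ 2) (r := η / 20) (η := η) (d := d) (x := xx n ρ) (S := S)
      (Nat.one_le_pow _ _ (by omega)) (by rw [← hm]; positivity) (by positivity) hη0 hd0 hdet
      hS0 hS.ge (DF_xx_nonneg n ρ) hxm
    refine ⟨A, ?_, ?_, hA3⟩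
    · have e : (((mm n ρ ^ 2 : ℕ)) : ℝ) * (1 / S / (mm n ρ : ℝ) ^ 2) = 1 / S := by
        rw [Nat.cast_pow, ← hm]
        field_simp
      rw [e] at hA1
      exact hA1
    · refine hA2.trans (le_of_eq ?_)
      congr 1
      unfold ss
      rw [Nat.cast_pow, ← hm]
      have e1 : (η / 20) ^ 2 / (4 * S * (1 / S / m ^ 2)) = (n : ℝ) ^ 4 / 1600 := by
        have : (n : ℝ) ^ 4 = (η * m) ^ 2 := by rw [hηm]; ring
        rw [this]
        field_simp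
        ring
      have e2 : 2 * (m ^ 2 * (η / 20)) / η = m ^ 2 / 10 := by
        field_simp
        ring
      rw [e1, e2]

/-- DF. The displacement theorem. -/
theorem disp_final (A₀ p₀ : ℝ) (hp₀ : 0 < p₀) : ∃ κ₀ > (0 : ℝ), ∀ (Ω : Type u)
    [MeasurableSpace Ω] (μ : Measure Ω) [IsProbabilityMeasure μ] (a b c K lam : ℝ), κ₀ ≤ lam →
    Ell a b c lam → a + b ≤ Real.exp (lam ^ (1 / 7 : ℝ)) →
    ∃ T₁ > 0, A₀ ≤ a * T₁ ∧ ∀ W : ℝ → Ω → ℂ, Gau a b c K W μ →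
      ∃ A, MeasurableSet[Blk W 0 T₁] A ∧ μ A ≤ ENNReal.ofReal p₀ ∧
        ∀ ω ∉ A, ∀ (z : ℂ) (s : ℝ) (g : ℝ → ℂ), 0 ≤ s → s ≤ T₁ →
          Sol (fun t => W t ω) z s g → ‖g s - z‖ ≤ 1 := by
  obtain ⟨n₀, hn₀2, hone⟩ := num_one p₀ hp₀
  obtain ⟨κ₀, hκ₀, htwo⟩ := num_two (max n₀ (max 10 ⌈|A₀|⌉₊))
  refine ⟨κ₀, hκ₀, ?_⟩
  intro Ω _ μ _ a b c K lam hlam hE hab
  have hlam0 : 0 < lam := hκ₀.trans_le hlam
  have hla := hE.le_a
  have hlb := hE.le_b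
  obtain ⟨n, ρ, hn, hρ1, hρl, hρu, hn12, hlog⟩ := htwo lam (a + b) hlam (by linarith) hab
  have hnn₀ : n₀ ≤ n := (le_max_left _ _).trans hn
  have hn10 : 10 ≤ n := (le_max_left _ _).trans ((le_max_right _ _).trans hn)
  have hnA : A₀ ≤ n := (le_abs_self A₀).trans ((Nat.le_ceil _).trans (by
    exact_mod_cast (le_max_right _ _).trans ((le_max_right _ _).trans hn)))
  obtain ⟨hs4, hs2⟩ := hone n hnn₀ ρ hρ1 hlog
  obtain ⟨S, hS⟩ : ∃ S : ℝ, S = a + b := ⟨_, rfl⟩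
  rw [← hS] at hρl hρu
  have hS2 : 2 * lam ≤ S := by linarith
  have hS0 : 0 < S := by linarith
  have hρR : (1 : ℝ) ≤ ρ := by exact_mod_cast hρ1
  have hρ0 : (0 : ℝ) < ρ := by linarith
  have hnR : (10 : ℝ) ≤ n := by exact_mod_cast hn10
  have hn0 : (0 : ℝ) < n := by linarith
  obtain ⟨η, hη⟩ : ∃ η : ℝ, η = 1 / ((ρ : ℝ) * (n : ℝ) ^ 6) := ⟨_, rfl⟩
  have hη0 : 0 < η := by rw [hη]; positivity
  have hsS : 0 ≤ ss n ρ := DF_ss_nonneg n ρ
  have hD : DispP μ a b c K (1 / S) η 0 (2 * ss n ρ) :=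
    DF_disp hn10 hρ1 hlam0 hS hS2 hη hρl hρu hn12 hs4 hE
  have haT : A₀ ≤ a * (1 / S / η ^ 2) := by
    have h1 : 2 * S ≤ (ρ : ℝ) ^ 2 * lam := (div_le_iff₀ hlam0).mp hρl
    have h2 : a * (1 / S / η ^ 2) = a * ((ρ : ℝ) ^ 2 * (n : ℝ) ^ 12) / S := by
      rw [hη]
      field_simp
    have h3 : (n : ℝ) ≤ 2 * (n : ℝ) ^ 12 := by
      have h4 : (n : ℝ) ^ 1 ≤ (n : ℝ) ^ 12 := pow_le_pow_right₀ (by linarith) (by norm_num)
      have h5 : (0 : ℝ) ≤ (n : ℝ) ^ 12 := by positivity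
      linarith
    rw [h2, le_div_iff₀ hS0]
    have h6 : (ρ : ℝ) ^ 2 * lam * (n : ℝ) ^ 12 ≤ a * ((ρ : ℝ) ^ 2 * (n : ℝ) ^ 12) := by
      have : 0 ≤ (a - lam) * ((ρ : ℝ) ^ 2 * (n : ℝ) ^ 12) :=
        mul_nonneg (by linarith) (by positivity)
      linarith
    have h7 : 2 * S * (n : ℝ) ^ 12 ≤ (ρ : ℝ) ^ 2 * lam * (n : ℝ) ^ 12 :=
      mul_le_mul_of_nonneg_right h1 (by positivity)
    have h8 : A₀ * S ≤ 2 * (n : ℝ) ^ 12 * S :=
      mul_le_mul_of_nonneg_right (hnA.trans h3) hS0.le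
    linarith
  have hT0 : 0 < 1 / S := by positivity
  refine ⟨1 / S / η ^ 2, by positivity, haT, ?_⟩
  intro W hW
  have hi : (0 : ℝ) < 1 / η := by positivity
  obtain ⟨A, hAm, hAμ, hA⟩ := hD (subP W 0 (1 / η)) (hW.subP le_rfl hi)
  refine ⟨A, ?_, hAμ.trans (ENNReal.ofReal_le_ofReal hs2), ?_⟩
  · have h := Blk_sub_le (W := W) (le_refl (0 : ℝ)) hi (1 / S)
    have e : 0 + (1 / η) ^ 2 * (1 / S) = 1 / S / η ^ 2 := by
      field_simp
      ring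
    rw [e] at h
    exact h A hAm
  · intro ω hω z s g hs hsT hg
    have h := hg.shift le_rfl hs hi
    have h1 := hA ω hω _ _ _ (by positivity) (by
      rw [sub_zero, div_le_iff₀ (by positivity)]
      refine hsT.trans (le_of_eq ?_)
      field_simp) h (fun u _ => norm_nonneg _)
    have e1 : 0 + (1 / η) ^ 2 * ((s - 0) / (1 / η) ^ 2) = s := by
      field_simp
      ring
    rw [e1, ← smul_sub, hg.1, norm_smul, one_div, inv_inv, Real.norm_eq_abs,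
      abs_of_pos hη0] at h1
    have e2 : g s - (fun t => W t ω) 0 - (z - (fun t => W t ω) 0) = g s - z := by ring
    rw [e2] at h1
    have h2 : η * ‖g s - z‖ ≤ η * 1 := by linarith
    exact le_of_mul_le_mul_left h2 hη0

end

end Pool.Agent.SLE
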