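import Pool.Agent.Lib.MP_c17912_pr_LN.NRo
import Pool.Agent.Lib.MP_c17912_pr_LN.GE

set_option autoImplicit false

open MeasureTheory ProbabilityTheory Filter
open scoped NNReal ENNReal Topology Real

namespace Pool.Agent.SLE

noncomputable section

variable {Ω : Type*} [MeasurableSpace Ω] {μ : Measure Ω} {a b c K : ℝ} {W : ℝ → Ω → ℂ}

private theorem GE2_exp {x : ℝ} (hx : 0 ≤ x) (hx1 : x ≤ 1) : Real.exp (x / 2) ≤ 1 + x := by
  have h1 := Real.abs_exp_sub_one_sub_id_le (x := x / 2) (by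
    rw [abs_of_nonneg (by linarith)]
    linarith)
  have h2 := (abs_le.1 h1).2
  nlinarith

private theorem GE2_pr {η Kf N : ℝ} {k : ℕ} (hηN : 1 ≤ η * N) (hη : 0 < η) (hN : 0 < N)
    (hKf : 1 ≤ Kf) :
    2 / (1 + 1 / (20 * (η * 2 ^ (k + 1)) * N)) ^ ⌊Kf * (η * 2 ^ k) * N⌋₊ ≤
      2 * Real.exp (-(Kf / 160)) := by
  obtain ⟨x, hx⟩ : ∃ x, x = 1 / (20 * (η * 2 ^ (k + 1)) * N) := ⟨_, rfl⟩
  obtain ⟨y, hy⟩ : ∃ y, y = Kf * (η * 2 ^ k) * N := ⟨_, rfl⟩
  have hp : (1 : ℝ) ≤ 2 ^ k := one_le_pow₀ one_le_two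
  have hxy : x * y = Kf / 40 := by
    rw [hx, hy, pow_succ]
    field_simp
    norm_num
  have h1 : 1 ≤ η * N * 2 ^ k := by nlinarith
  have hx0 : 0 < x := by rw [hx]; positivity
  have hx1 : x ≤ 1 := by
    rw [hx, div_le_one (by positivity), pow_succ]
    nlinarith
  have hy1 : 1 ≤ y := by
    have h2 : y = Kf * (η * N * 2 ^ k) := by rw [hy]; ring
    rw [h2]
    nlinarith
  rw [← hx, ← hy]
  have hf1 : (1 : ℝ) ≤ (⌊y⌋₊ : ℝ) := by
    exact_mod_cast Nat.le_floor (by exact_mod_cast hy1)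
  have hf2 := Nat.lt_floor_add_one y
  have h3 : Real.exp (Kf / 160) ≤ (1 + x) ^ ⌊y⌋₊ := by
    calc Real.exp (Kf / 160) ≤ Real.exp ((⌊y⌋₊ : ℝ) * (x / 2)) := by
          refine Real.exp_le_exp.2 ?_
          have h4 : y / 2 ≤ (⌊y⌋₊ : ℝ) := by linarith
          have h5 : x * (y / 2) ≤ x * (⌊y⌋₊ : ℝ) := mul_le_mul_of_nonneg_left h4 hx0.le
          have h6 : x * (y / 2) = Kf / 80 := by
            rw [← mul_div_assoc, hxy]
            ring
          linarith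
      _ = Real.exp (x / 2) ^ ⌊y⌋₊ := by rw [Real.exp_nat_mul]
      _ ≤ (1 + x) ^ ⌊y⌋₊ := pow_le_pow_left₀ (Real.exp_pos _).le (GE2_exp hx0.le hx1) _
  rw [Real.exp_neg, ← div_eq_mul_inv]
  exact div_le_div_of_nonneg_left zero_le_two (Real.exp_pos _) h3

/-- GE2. The good event of one scale, with the numbers of visits of all the large discs. -/
theorem good_event_two [IsProbabilityMeasure μ] (hW : Gau a b c K W μ) {h r η d x S Kf : ℝ}
    {N L k1 : ℕ} (hN : 1 ≤ N) (hh : 0 < h) (hr : 0 < r) (hη : 0 < η) (hd : 0 < d)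
    (hdet : d ^ 2 ≤ a * b - c ^ 2) (hS : 0 < S) (hab : a + b = S) (hx : 0 ≤ x)
    (hxm : x * ((4 * η) ^ 2 / (d * h) * (1 + Real.log N)) ≤ 1 / 2)
    (hSh : S * h * N = 1) (hηN : 1 ≤ η * N) (hKf : 1 ≤ Kf) :
    ∃ A, MeasurableSet[Blk W 0 (N * h)] A ∧
      μ A ≤ ENNReal.ofReal ((N : ℝ) * (4 * Real.exp (-(r ^ 2 / (4 * S * h)))) +
        (2 * ((N : ℝ) * r) / η + 9) ^ 2 * (2 / (1 + x) ^ L) +
        (k1 : ℝ) * ((2 * ((N : ℝ) * r) / η + 9) ^ 2 * (2 * Real.exp (-(Kf / 160))))) ∧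
      ∀ ω ∉ A, GoodPath2 (fun t => W t ω) N h r η L Kf k1 := by
  have hN0 : (0 : ℝ) < N := by
    have : (1 : ℝ) ≤ N := by exact_mod_cast hN
    linarith
  obtain ⟨A, hA1, hA2, hA3⟩ := good_event hW (L := L) hN hh hr hη hd hdet hS hab.le hx hxm
  have hBk : ∀ k : ℕ, ∃ B, MeasurableSet[Blk W 0 (N * h)] B ∧
      μ B ≤ ENNReal.ofReal ((2 * ((N : ℝ) * r) / η + 9) ^ 2 * (2 * Real.exp (-(Kf / 160)))) ∧
      ∀ ω ∉ B, (∀ j : ℕ, j ≤ N → ‖W ((j : ℝ) * h) ω‖ ≤ (N : ℝ) * r) → ∀ z : ℂ,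
        ∀ J : Finset ℕ, (∀ j ∈ J, j ≤ N ∧ ‖W ((j : ℝ) * h) ω - z‖ ≤ 3 * (η * 2 ^ (k + 1))) →
          (J.card : ℝ) ≤ Kf * (η * 2 ^ k) * N := by
    intro k
    have hηk : 0 < η * 2 ^ (k + 1) := by positivity
    obtain ⟨B, hB1, hB2, hB3⟩ := near_all_one hW (h := h) (η := η * 2 ^ (k + 1))
      (x := 1 / (20 * (η * 2 ^ (k + 1)) * N)) (R₀ := (N : ℝ) * r)
      (L := ⌊Kf * (η * 2 ^ k) * N⌋₊) hN hh hηk (by rw [hab]; exact hS) (by positivity)
      (by positivity) (by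
        rw [hab, show S * h = 1 / N by field_simp; linarith, Real.sqrt_div zero_le_one,
          Real.sqrt_one]
        have h1 := Real.mul_self_sqrt hN0.le
        have h2 : 10 * (η * 2 ^ (k + 1)) * √(N : ℝ) / (1 / √(N : ℝ)) =
            10 * (η * 2 ^ (k + 1)) * N := by
          rw [div_div_eq_mul_div, div_one, mul_assoc, h1]
        rw [h2]
        refine le_of_eq ?_
        field_simp
        norm_num)
    refine ⟨B, hB1, hB2.trans (ENNReal.ofReal_le_ofReal ?_), fun ω hω h1 z J hJ => ?_⟩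
    · refine mul_le_mul ?_ (GE2_pr hηN hη hN0 hKf) (by positivity) (by positivity)
      refine pow_le_pow_left₀ (by positivity) ?_ 2
      have h1 : η ≤ η * 2 ^ (k + 1) := le_mul_of_one_le_right hη.le (one_le_pow₀ one_le_two)
      have h2 : 2 * ((N : ℝ) * r) / (η * 2 ^ (k + 1)) ≤ 2 * ((N : ℝ) * r) / η :=
        div_le_div_of_nonneg_left (by positivity) hη h1
      linarith
    · have h2 := hB3 ω hω h1 z J hJ
      have h3 : (J.card : ℝ) ≤ (⌊Kf * (η * 2 ^ k) * N⌋₊ : ℝ) := by exact_mod_cast h2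
      exact h3.trans (Nat.floor_le (by positivity))
  choose B hB1 hB2 hB3 using hBk
  refine ⟨A ∪ ⋃ k ∈ Finset.range k1, B k, ?_, ?_, ?_⟩
  · refine @MeasurableSet.union Ω (Blk W 0 (N * h)) _ _ hA1 ?_
    exact @Finset.measurableSet_biUnion Ω ℕ (Blk W 0 (N * h)) B _ fun k _ => hB1 k
  · have hU : μ (⋃ k ∈ Finset.range k1, B k) ≤ ENNReal.ofReal
        ((k1 : ℝ) * ((2 * ((N : ℝ) * r) / η + 9) ^ 2 * (2 * Real.exp (-(Kf / 160))))) := by
      refine (measure_biUnion_finset_le _ _).trans ?_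
      refine (Finset.sum_le_sum fun k _ => hB2 k).trans (le_of_eq ?_)
      rw [Finset.sum_const, Finset.card_range, nsmul_eq_mul,
        ENNReal.ofReal_mul (Nat.cast_nonneg k1), ENNReal.ofReal_natCast]
    refine (measure_union_le _ _).trans ?_
    rw [ENNReal.ofReal_add (by positivity) (by positivity)]
    exact add_le_add hA2 hU
  · intro ω hω
    rw [Set.mem_union, not_or] at hω
    obtain ⟨hωA, hωB⟩ := hω
    have hωB' : ∀ k < k1, ω ∉ B k := by
      intro k hk hmem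
      exact hωB (Set.mem_biUnion (Finset.mem_range.2 hk) hmem)
    have hG := hA3 ω hωA
    have hpos : ∀ j : ℕ, j ≤ N → ‖W ((j : ℝ) * h) ω‖ ≤ (j : ℝ) * r := by
      intro j
      induction j with
      | zero =>
        intro _
        rw [hW.zero _ (by simp)]
        simp
      | succ j ih =>
        intro hj
        have h1 := ih (by omega)
        have h2 := hG.1 j (by omega) (((j : ℝ) + 1) * h) ⟨by nlinarith, le_rfl⟩
        have h4 : W (((j : ℝ) + 1) * h) ω =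
            (W (((j : ℝ) + 1) * h) ω - W ((j : ℝ) * h) ω) + W ((j : ℝ) * h) ω := by ring
        push_cast
        rw [h4]
        refine (norm_add_le _ _).trans ?_
        simp only at h2
        linarith
    refine ⟨hG, fun z k hk J hJ => ?_⟩
    refine hB3 k ω (hωB' k hk) (fun j hj => (hpos j hj).trans ?_) z J fun j hj =>
      ⟨(hJ j hj).1.le, (hJ j hj).2⟩
    exact mul_le_mul_of_nonneg_right (by exact_mod_cast hj) hr.le

end

end Pool.Agent.SLE
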