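import Pool.Agent.Lib.MP_c17912_pr_LN.BC

set_option autoImplicit false

open MeasureTheory ProbabilityTheory Filter
open scoped NNReal ENNReal Topology Real

namespace Pool.Agent.SLE

noncomputable section

/-- DT. The deterministic displacement lemma. -/
theorem disp_det {U : ℝ → ℂ} (hU : Continuous U) {z : ℂ} {s h r η κ : ℝ} {g : ℝ → ℂ} {N L : ℕ}
    (hh : 0 < h) (hs : 0 ≤ s) (hsT : s ≤ N * h) (hsol : Sol U z s g) (hη : 0 < η) (hr : 0 < r)
    (hrη : r ≤ η) (hκ : 0 ≤ κ) (hgp : GoodPath U N h r η L)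
    (hgood : ∃ j₀ : ℕ, ∀ j : ℕ, j < N → j ≠ j₀ →
      ∀ u ∈ Set.Icc ((j : ℝ) * h) (((j : ℝ) + 1) * h), u ≤ s → ‖g u - g ((j : ℝ) * h)‖ ≤ κ)
    (h1 : 2 / η * (N * h) + L * κ + 5 * r < η) (h2 : 2 * h ≤ r ^ 2) : ‖g s - z‖ ≤ η := by
  classical
  by_contra hcon
  rw [not_le] at hcon
  obtain ⟨j₀, hj₀⟩ := hgood
  have hcont : ContinuousOn g (Set.Icc 0 s) := fun t ht => (hsol.2.2 t ht).continuousWithinAt
  have hnorm : ContinuousOn (fun t => ‖g t - z‖) (Set.Icc 0 s) :=
    (hcont.sub continuousOn_const).norm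
  have hcl : IsClosed (Set.Icc 0 s ∩ (fun t => ‖g t - z‖) ⁻¹' Set.Ici η) :=
    hnorm.preimage_isClosed_of_isClosed isClosed_Icc isClosed_Ici
  have hcp : IsCompact (Set.Icc 0 s ∩ (fun t => ‖g t - z‖) ⁻¹' Set.Ici η) :=
    isCompact_Icc.of_isClosed_subset hcl Set.inter_subset_left
  have hne : (Set.Icc 0 s ∩ (fun t => ‖g t - z‖) ⁻¹' Set.Ici η).Nonempty :=
    ⟨s, ⟨hs, le_rfl⟩, hcon.le⟩
  obtain ⟨v, hv, hmin⟩ := hcp.exists_isLeast hne
  have hv0 : 0 ≤ v := hv.1.1
  have hvs : v ≤ s := hv.1.2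
  have hvη : η ≤ ‖g v - z‖ := hv.2
  have hvpos : 0 < v := by
    rcases hv0.eq_or_lt with he | hlt
    · exfalso
      rw [← he, hsol.1, sub_self, norm_zero] at hvη
      linarith
    · exact hlt
  have hle : ∀ t ∈ Set.Icc 0 v, ‖g t - z‖ ≤ η := by
    intro t ht
    have hclos : closure (Set.Ico 0 v) = Set.Icc 0 v := closure_Ico hvpos.ne
    refine le_on_closure (s := Set.Ico 0 v) (f := fun t => ‖g t - z‖)
      (g := fun _ => η) ?_ ?_ continuousOn_const ?_
    · intro w hw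
      by_contra h3
      rw [not_le] at h3
      have h4 : w ∈ (Set.Icc 0 s ∩ (fun t => ‖g t - z‖) ⁻¹' Set.Ici η) :=
        ⟨⟨hw.1, hw.2.le.trans hvs⟩, h3.le⟩
      exact absurd (hmin h4) (not_le.2 hw.2)
    · rw [hclos]
      exact hnorm.mono (Set.Icc_subset_Icc_right hvs)
    · rw [hclos]
      exact ht
  have h2η : 0 ≤ 2 / η := (div_pos zero_lt_two hη).le
  let τ : ℕ → ℝ := fun j => min ((j : ℝ) * h) v
  have hτ0 : τ 0 = 0 := by
    show min (((0 : ℕ) : ℝ) * h) v = 0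
    rw [Nat.cast_zero, zero_mul]
    exact min_eq_left hv0
  have hτN : τ N = v := min_eq_right (hvs.trans hsT)
  have hmono : ∀ j, τ j ≤ τ (j + 1) := by
    intro j
    refine min_le_min ?_ le_rfl
    refine mul_le_mul_of_nonneg_right ?_ hh.le
    rw [Nat.cast_succ]
    linarith
  have hterm : ∀ j ∈ Finset.range N, ‖g (τ (j + 1)) - g (τ j)‖ ≤
      2 / η * (τ (j + 1) - τ j) + ((if ‖U ((j : ℝ) * h) - z‖ ≤ 3 * η then κ else 0) +
        (if j = j₀ then 5 * r else 0)) := by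
    intro j hj
    have hjN : j < N := Finset.mem_range.1 hj
    have hnn1 : (0 : ℝ) ≤ if ‖U ((j : ℝ) * h) - z‖ ≤ 3 * η then κ else 0 := by
      split_ifs
      · exact hκ
      · exact le_rfl
    have hnn2 : (0 : ℝ) ≤ if j = j₀ then 5 * r else 0 := by
      split_ifs
      · linarith
      · exact le_rfl
    have hnn3 : 0 ≤ 2 / η * (τ (j + 1) - τ j) := mul_nonneg h2η (sub_nonneg.2 (hmono j))
    rcases le_or_gt v ((j : ℝ) * h) with hcase | hcase
    · have e1 : τ j = v := min_eq_right hcase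
      have e2 : τ (j + 1) = v := le_antisymm (min_le_right _ _) (e1 ▸ hmono j)
      rw [e1, e2, sub_self, norm_zero, sub_self, mul_zero]
      linarith
    · have e1 : τ j = (j : ℝ) * h := min_eq_left hcase.le
      have hx0 : 0 ≤ (j : ℝ) * h := mul_nonneg (Nat.cast_nonneg j) hh.le
      have hxy : (j : ℝ) * h ≤ τ (j + 1) := e1 ▸ hmono j
      have hyv : τ (j + 1) ≤ v := min_le_right _ _
      have hyh : τ (j + 1) ≤ ((j : ℝ) + 1) * h :=
        (min_le_left (((j + 1 : ℕ) : ℝ) * h) v).trans (le_of_eq (by rw [Nat.cast_succ]))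
      have hys : τ (j + 1) ≤ s := hyv.trans hvs
      have hosc : ∀ t ∈ Set.Icc ((j : ℝ) * h) (τ (j + 1)), ‖U t - U ((j : ℝ) * h)‖ ≤ r :=
        fun t ht => hgp.1 j hjN t ⟨ht.1, ht.2.trans hyh⟩
      rw [e1]
      rw [e1] at hnn3
      by_cases hnear : ‖U ((j : ℝ) * h) - z‖ ≤ 3 * η
      · rw [if_pos hnear]
        by_cases hj0 : j = j₀
        · rw [if_pos hj0]
          have h3 := block_crude hU hsol hx0 hxy hys hr hosc (by nlinarith)
          linarith
        · rw [if_neg hj0]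
          have h3 := hj₀ j hjN hj0 (τ (j + 1)) ⟨hxy, hyh⟩ hys
          linarith
      · have h3 := far_move hsol hx0 hxy hys hη (fun t ht => by
          have h4 : ‖U ((j : ℝ) * h) - z‖ ≤ ‖g t - U t‖ + ‖U t - U ((j : ℝ) * h)‖ +
              ‖g t - z‖ := by
            have h5 : U ((j : ℝ) * h) - z = -(g t - U t) + -(U t - U ((j : ℝ) * h)) +
                (g t - z) := by ring
            rw [h5]
            refine (norm_add₃_le).trans ?_
            rw [norm_neg, norm_neg]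
          have h6 := hosc t ht
          have h7 := hle t ⟨hx0.trans ht.1, ht.2.trans hyv⟩
          rw [not_le] at hnear
          linarith)
        linarith
  have hsum : ‖g v - z‖ ≤ ∑ j ∈ Finset.range N, ‖g (τ (j + 1)) - g (τ j)‖ := by
    have h3 := Finset.sum_range_sub (fun j => g (τ j)) N
    rw [hτN, hτ0, hsol.1] at h3
    rw [← h3]
    exact norm_sum_le _ _
  have htot := hsum.trans (Finset.sum_le_sum hterm)
  rw [Finset.sum_add_distrib, Finset.sum_add_distrib, ← Finset.mul_sum,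
    Finset.sum_range_sub (fun j => τ j) N, hτN, hτ0, sub_zero] at htot
  have hA : 2 / η * v ≤ 2 / η * (N * h) := mul_le_mul_of_nonneg_left (hvs.trans hsT) h2η
  have hB : ∑ j ∈ Finset.range N, (if ‖U ((j : ℝ) * h) - z‖ ≤ 3 * η then κ else 0) ≤ L * κ := by
    rw [← Finset.sum_filter, Finset.sum_const, nsmul_eq_mul]
    refine mul_le_mul_of_nonneg_right ?_ hκ
    have h3 := hgp.2 z ((Finset.range N).filter fun j => ‖U ((j : ℝ) * h) - z‖ ≤ 3 * η)
      (fun j hj => by
        rw [Finset.mem_filter, Finset.mem_range] at hj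
        exact hj)
    exact_mod_cast h3
  have hC : ∑ j ∈ Finset.range N, (if j = j₀ then 5 * r else 0) ≤ 5 * r := by
    rw [Finset.sum_ite_eq' (Finset.range N) j₀ (fun _ => 5 * r)]
    split_ifs
    · exact le_rfl
    · linarith
  linarith

end

end Pool.Agent.SLE
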