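import Pool.Agent.Lib.MP_c17912_pr.Gau
import Pool.Agent.Lib.MP_c17912_pr_LN.Base

/-!
# MP_c17912_pr, large noise: from the continuous modification to the given Brownian motion
-/

set_option autoImplicit false

open MeasureTheory ProbabilityTheory
open scoped NNReal ENNReal

namespace Pool.Agent.SLE

/-- Two paths which agree for nonnegative times have the same solutions. -/
theorem LN_sol_congr {U V : ℝ → ℂ} (h : ∀ t, 0 ≤ t → U t = V t) {z : ℂ} {t : ℝ} {g : ℝ → ℂ}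
    (hs : Sol U z t g) : Sol V z t g := by
  refine ⟨hs.1, fun s hs' => ?_, fun s hs' => ?_⟩
  · rw [← h s hs'.1]
    exact hs.2.1 s hs'
  · rw [← h s hs'.1]
    exact hs.2.2 s hs'

theorem LN_hull_congr {U V : ℝ → ℂ} (h : ∀ t, 0 ≤ t → U t = V t) (t : ℝ) :
    hull U t = hull V t := by
  ext z
  have h' : ∀ t, 0 ≤ t → V t = U t := fun t ht => (h t ht).symm
  constructor
  · rintro hz ⟨g, hg⟩
    exact hz ⟨g, LN_sol_congr h' hg⟩
  · rintro hz ⟨g, hg⟩
    exact hz ⟨g, LN_sol_congr h hg⟩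

theorem LN_transient_congr {U V : ℝ → ℂ} (h : ∀ t, 0 ≤ t → U t = V t) (hU : Transient U) :
    Transient V := by
  intro R hR
  obtain ⟨T, hT, hT'⟩ := hU R hR
  refine ⟨T, hT, fun t ht => ?_⟩
  rw [← LN_hull_congr h, ← LN_hull_congr h]
  exact hT' t ht

/-- It suffices to prove the transience for the continuous modification. -/
theorem LN_transient {Ω : Type*} [MeasurableSpace Ω] {μ : Measure Ω} [IsProbabilityMeasure μ]
    {a b c : ℝ} (ha : 0 ≤ a) (hb : 0 ≤ b) (hc : c ^ 2 ≤ a * b) {W : ℝ≥0 → Ω → ℂ}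
    (hW : PlanarBM a b c W μ)
    (H : ∀ (K : ℝ) (B : ℝ → Ω → ℂ), Gau a b c K B μ → ∀ᵐ ω ∂μ, Transient (fun t => B t ω)) :
    ∀ᵐ ω ∂μ, Transient (fun t : ℝ => W t.toNNReal ω) := by
  obtain ⟨K, B, hB, hBW⟩ := hW.exists_gau ha hb hc
  filter_upwards [H K B hB, hBW] with ω h1 h2
  exact LN_transient_congr h2 h1

end Pool.Agent.SLE
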