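import Pool.Agent.Lib.MP_c17912_pr_LN.Base
import Pool.Agent.Lib.MP_c17912_pr.Quad

set_option autoImplicit false

open MeasureTheory ProbabilityTheory Filter
open scoped NNReal ENNReal Topology Real

namespace Pool.Agent.SLE

noncomputable section

variable {Ω : Type*} [MeasurableSpace Ω] {μ : Measure Ω} {a b c K : ℝ} {W : ℝ → Ω → ℂ}

namespace IBAux

/-- the coordinates of `e D` are jointly Gaussian -/
private theorem gauss2 [IsProbabilityMeasure μ] {D : Ω → ℂ} (hD : Measurable D) (e : ℂ)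
    (q : ℝ → ℝ → ℝ≥0) (hg : ∀ u v : ℝ, HasLaw (fun ω => u * (D ω).re + v * (D ω).im)
      (gaussianReal 0 (q u v)) μ) :
    HasGaussianLaw (fun ω => ((e * D ω).re, (e * D ω).im)) μ := by
  have hm : Measurable fun ω => ((e * D ω).re, (e * D ω).im) :=
    (Complex.measurable_re.comp (measurable_const.mul hD)).prodMk
      (Complex.measurable_im.comp (measurable_const.mul hD))
  refine ⟨isGaussian_of_map_eq_gaussianReal fun L => ?_⟩
  refine ⟨0, q (L (1, 0) * e.re + L (0, 1) * e.im) (L (0, 1) * e.re - L (1, 0) * e.im), ?_⟩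
  rw [← (hg _ _).map_eq, Measure.map_map L.measurable hm]
  congr 1
  funext ω
  have h1 : ∀ x y : ℝ, L (x, y) = x * L (1, 0) + y * L (0, 1) := by
    intro x y
    have h2 : ((x, y) : ℝ × ℝ) = x • ((1, 0) : ℝ × ℝ) + y • ((0, 1) : ℝ × ℝ) := by
      simp
    rw [h2, map_add, map_smul, map_smul]
    rfl
  rw [Function.comp_apply, h1, Complex.mul_re, Complex.mul_im]
  ring

/-- the probability of an interval -/
private theorem interval {v : ℝ} (hv : 0 < v) {X : Ω → ℝ} (hX : Measurable X)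
    (hl : HasLaw X (gaussianReal 0 (Real.toNNReal v)) μ) (p ρ : ℝ) :
    μ {ω | |X ω - p| ≤ ρ} ≤ ENNReal.ofReal (2 * ρ / √(2 * π * v)) := by
  have hv0 : Real.toNNReal v ≠ 0 := (Real.toNNReal_pos.2 hv).ne'
  have h1 : {ω | |X ω - p| ≤ ρ} = X ⁻¹' Set.Icc (p - ρ) (p + ρ) := by
    ext ω
    simp only [Set.mem_ofPred_eq, Set.mem_preimage, Set.mem_Icc, abs_le]
    constructor
    · rintro ⟨h2, h3⟩
      exact ⟨by linarith, by linarith⟩
    · rintro ⟨h2, h3⟩
      exact ⟨by linarith, by linarith⟩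
  rw [h1, ← Measure.map_apply hX measurableSet_Icc, hl.map_eq, gaussianReal_apply _ hv0]
  have h2 : ∀ x, gaussianPDF 0 (Real.toNNReal v) x ≤ ENNReal.ofReal ((√(2 * π * v))⁻¹) := by
    intro x
    unfold gaussianPDF
    apply ENNReal.ofReal_le_ofReal
    rw [gaussianPDFReal_def, Real.coe_toNNReal _ hv.le]
    have h3 : 0 ≤ (√(2 * π * v))⁻¹ := by positivity
    have h4 : Real.exp (-(x - 0) ^ 2 / (2 * v)) ≤ 1 := by
      rw [Real.exp_le_one_iff]
      apply div_nonpos_of_nonpos_of_nonneg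
      · have := sq_nonneg (x - 0)
        linarith
      · linarith
    calc (√(2 * π * v))⁻¹ * Real.exp (-(x - 0) ^ 2 / (2 * v)) ≤ (√(2 * π * v))⁻¹ * 1 :=
          mul_le_mul_of_nonneg_left h4 h3
      _ = (√(2 * π * v))⁻¹ := mul_one _
  calc ∫⁻ x in Set.Icc (p - ρ) (p + ρ), gaussianPDF 0 (Real.toNNReal v) x
      ≤ ∫⁻ _ in Set.Icc (p - ρ) (p + ρ), ENNReal.ofReal ((√(2 * π * v))⁻¹) :=
        lintegral_mono fun x => h2 x
    _ = ENNReal.ofReal (2 * ρ / √(2 * π * v)) := by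
        rw [setLIntegral_const, Real.volume_Icc, ← ENNReal.ofReal_mul (by positivity)]
        congr 1
        ring

end IBAux

open IBAux in
/-- IB. Probability that an increment lies in a given disc. -/
theorem incr_ball [IsProbabilityMeasure μ] (hW : Gau a b c K W μ) {s t d ρ : ℝ} (hs : 0 ≤ s)
    (hst : s < t) (hd : 0 < d) (hdet : d ^ 2 ≤ a * b - c ^ 2) (hρ : 0 ≤ ρ) (y : ℂ) :
    μ {ω | ‖W t ω - W s ω - y‖ ≤ ρ} ≤ ENNReal.ofReal (ρ ^ 2 / (d * (t - s))) := by
  obtain ⟨e, he, hre⟩ := QuadAux.exists_axis a b c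
  obtain ⟨D, hDdef⟩ : ∃ D : Ω → ℂ, D = fun ω => W t ω - W s ω := ⟨_, rfl⟩
  have hD : Measurable D := by
    rw [hDdef]
    exact (hW.meas t).sub (hW.meas s)
  have hg : ∀ u v : ℝ, HasLaw (fun ω => u * (D ω).re + v * (D ω).im)
      (gaussianReal 0 (Real.toNNReal ((t - s) * (a * u ^ 2 + 2 * c * u * v + b * v ^ 2)))) μ := by
    rw [hDdef]
    exact hW.gauss s t hs hst.le
  have hτ : 0 < t - s := by linarith
  obtain ⟨e₁, he₁⟩ : ∃ x : ℝ, x = e.re := ⟨_, rfl⟩
  obtain ⟨e₂, he₂⟩ : ∃ x : ℝ, x = e.im := ⟨_, rfl⟩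
  have hn : e₁ ^ 2 + e₂ ^ 2 = 1 := by
    have h3 := Complex.sq_norm e
    rw [he, Complex.normSq_apply, ← he₁, ← he₂] at h3
    nlinarith
  have hk : (a - b) * (e₁ * e₂) + c * (e₁ ^ 2 - e₂ ^ 2) = 0 := by
    have h3 := hre
    rw [Complex.mul_im, pow_two] at h3
    simp only [Complex.add_im, Complex.add_re, Complex.ofReal_re, Complex.ofReal_im,
      Complex.mul_re, Complex.mul_im, Complex.I_re, Complex.I_im, ← he₁, ← he₂] at h3
    nlinarith
  obtain ⟨v₁, hv₁⟩ : ∃ x : ℝ, x = a * e₁ ^ 2 - 2 * c * (e₁ * e₂) + b * e₂ ^ 2 := ⟨_, rfl⟩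
  obtain ⟨v₂, hv₂⟩ : ∃ x : ℝ, x = a * e₂ ^ 2 + 2 * c * (e₁ * e₂) + b * e₁ ^ 2 := ⟨_, rfl⟩
  have hdet' : v₁ * v₂ = a * b - c ^ 2 := by
    have h3 : v₁ * v₂ = (a * b - c ^ 2) * (e₁ ^ 2 + e₂ ^ 2) ^ 2 +
        ((a - b) * (e₁ * e₂) + c * (e₁ ^ 2 - e₂ ^ 2)) ^ 2 := by
      rw [hv₁, hv₂]
      ring
    rw [h3, hn, hk]
    ring
  have hd2 : 0 < d ^ 2 := by positivity
  have ha0 : 0 < a := by
    rcases hW.a_nonneg.eq_or_lt with h3 | h3
    · exfalso
      rw [← h3] at hdet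
      nlinarith [sq_nonneg c]
    · exact h3
  have hv1' : 0 ≤ v₁ := by
    have h3 : 0 ≤ a * v₁ := by
      have h4 : a * v₁ = (a * e₁ - c * e₂) ^ 2 + (a * b - c ^ 2) * e₂ ^ 2 := by
        rw [hv₁]
        ring
      rw [h4]
      have h5 : 0 ≤ (a * b - c ^ 2) * e₂ ^ 2 := mul_nonneg (by linarith) (sq_nonneg _)
      have h6 := sq_nonneg (a * e₁ - c * e₂)
      linarith
    exact nonneg_of_mul_nonneg_right h3 ha0
  have hv2' : 0 ≤ v₂ := by
    have h3 : 0 ≤ a * v₂ := by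
      have h4 : a * v₂ = (a * e₂ + c * e₁) ^ 2 + (a * b - c ^ 2) * e₁ ^ 2 := by
        rw [hv₂]
        ring
      rw [h4]
      have h5 : 0 ≤ (a * b - c ^ 2) * e₁ ^ 2 := mul_nonneg (by linarith) (sq_nonneg _)
      have h6 := sq_nonneg (a * e₂ + c * e₁)
      linarith
    exact nonneg_of_mul_nonneg_right h3 ha0
  have hv12 : 0 < v₁ * v₂ := by rw [hdet']; linarith
  have hv1 : 0 < v₁ := by
    rcases hv1'.eq_or_lt with h3 | h3
    · rw [← h3, zero_mul] at hv12
      exact absurd hv12 (lt_irrefl _)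
    · exact h3
  have hv2 : 0 < v₂ := by
    rcases hv2'.eq_or_lt with h3 | h3
    · rw [← h3, mul_zero] at hv12
      exact absurd hv12 (lt_irrefl _)
    · exact h3
  obtain ⟨X, hXdef⟩ : ∃ X : Ω → ℝ, X = fun ω => (e * D ω).re := ⟨_, rfl⟩
  obtain ⟨Y, hYdef⟩ : ∃ Y : Ω → ℝ, Y = fun ω => (e * D ω).im := ⟨_, rfl⟩
  have hXm : Measurable X := by
    rw [hXdef]
    exact Complex.measurable_re.comp (measurable_const.mul hD)
  have hYm : Measurable Y := by
    rw [hYdef]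
    exact Complex.measurable_im.comp (measurable_const.mul hD)
  have hX' : X = fun ω => e₁ * (D ω).re + (-e₂) * (D ω).im := by
    rw [hXdef, he₁, he₂]
    funext ω
    rw [Complex.mul_re]
    ring
  have hY' : Y = fun ω => e₂ * (D ω).re + e₁ * (D ω).im := by
    rw [hYdef, he₁, he₂]
    funext ω
    rw [Complex.mul_im]
    ring
  have hXl : HasLaw X (gaussianReal 0 (Real.toNNReal ((t - s) * v₁))) μ := by
    have h3 := hg e₁ (-e₂)
    rw [← hX'] at h3
    have h4 : a * e₁ ^ 2 + 2 * c * e₁ * -e₂ + b * (-e₂) ^ 2 = v₁ := by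
      rw [hv₁]
      ring
    rwa [h4] at h3
  have hYl : HasLaw Y (gaussianReal 0 (Real.toNNReal ((t - s) * v₂))) μ := by
    have h3 := hg e₂ e₁
    rw [← hY'] at h3
    have h4 : a * e₂ ^ 2 + 2 * c * e₂ * e₁ + b * e₁ ^ 2 = v₂ := by
      rw [hv₂]
      ring
    rwa [h4] at h3
  have hXY : HasGaussianLaw (fun ω => (X ω, Y ω)) μ := by
    rw [hXdef, hYdef]
    exact gauss2 hD e _ hg
  have hLp : ∀ {Z : Ω → ℝ} {v : ℝ≥0}, HasLaw Z (gaussianReal 0 v) μ → MemLp Z 2 μ := by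
    intro Z v hZ
    have : HasGaussianLaw Z μ := ⟨by rw [hZ.map_eq]; infer_instance⟩
    exact this.memLp_two
  have hre2 : MemLp (fun ω => (D ω).re) 2 μ := by
    have h3 := hLp (hg 1 0)
    simpa using h3
  have him2 : MemLp (fun ω => (D ω).im) 2 μ := by
    have h3 := hLp (hg 0 1)
    simpa using h3
  have hindep : IndepFun X Y μ := by
    refine hXY.indepFun_of_covariance_eq_zero ?_
    rw [covariance_eq_sub (hLp hXl) (hLp hYl)]
    have m1 : ∫ ω, (D ω).re ∂μ = 0 := by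
      rw [hDdef]
      exact hW.m1x s t hs hst.le
    have m2 : ∫ ω, (D ω).im ∂μ = 0 := by
      rw [hDdef]
      exact hW.m1y s t hs hst.le
    have i1 : Integrable (fun ω => (D ω).re) μ := hre2.integrable (by norm_num)
    have i2 : Integrable (fun ω => (D ω).im) μ := him2.integrable (by norm_num)
    have j1 : Integrable (fun ω => (D ω).re ^ 2) μ := hre2.integrable_sq
    have j2 : Integrable (fun ω => (D ω).im ^ 2) μ := him2.integrable_sq
    have j3 : Integrable (fun ω => (D ω).re * (D ω).im) μ := hre2.integrable_mul him2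
    have mX : ∫ ω, X ω ∂μ = 0 := by
      rw [hX', integral_add (i1.const_mul _) (i2.const_mul _), integral_const_mul,
        integral_const_mul, m1, m2]
      ring
    have q1 : ∫ ω, (D ω).re ^ 2 ∂μ = a * (t - s) := by
      rw [hDdef]
      exact hW.m2x s t hs hst.le
    have q2 : ∫ ω, (D ω).im ^ 2 ∂μ = b * (t - s) := by
      rw [hDdef]
      exact hW.m2y s t hs hst.le
    have q3 : ∫ ω, (D ω).re * (D ω).im ∂μ = c * (t - s) := by
      rw [hDdef]
      exact hW.m2c s t hs hst.le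
    have mXY : ∫ ω, (X * Y) ω ∂μ = 0 := by
      have h3 : (fun ω => (X * Y) ω) = fun ω => ((e₁ * e₂) * (D ω).re ^ 2 +
          (e₁ ^ 2 - e₂ ^ 2) * ((D ω).re * (D ω).im)) + (-(e₁ * e₂)) * (D ω).im ^ 2 := by
        funext ω
        rw [Pi.mul_apply, hX', hY']
        ring
      have j4 : Integrable (fun ω => (e₁ * e₂) * (D ω).re ^ 2 +
          (e₁ ^ 2 - e₂ ^ 2) * ((D ω).re * (D ω).im)) μ := (j1.const_mul _).add (j3.const_mul _)
      rw [h3, integral_add j4 (j2.const_mul _),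
        integral_add (j1.const_mul _) (j3.const_mul _), integral_const_mul,
        integral_const_mul, integral_const_mul, q1, q2, q3]
      linear_combination (t - s) * hk
    rw [mX, mXY]
    ring
  have hsub : {ω | ‖W t ω - W s ω - y‖ ≤ ρ} ⊆
      {ω | |X ω - (e * y).re| ≤ ρ} ∩ {ω | |Y ω - (e * y).im| ≤ ρ} := by
    intro ω hω
    have h3 : ‖D ω - y‖ ≤ ρ := by
      rw [hDdef]
      exact hω
    have h4 : ‖e * D ω - e * y‖ ≤ ρ := by
      rw [← mul_sub, norm_mul, he, one_mul]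
      exact h3
    have h5 : |(e * D ω - e * y).re| ≤ ρ := (Complex.abs_re_le_norm _).trans h4
    have h6 : |(e * D ω - e * y).im| ≤ ρ := (Complex.abs_im_le_norm _).trans h4
    rw [Complex.sub_re] at h5
    rw [Complex.sub_im] at h6
    rw [hXdef, hYdef]
    exact ⟨h5, h6⟩
  have hprod : μ ({ω | |X ω - (e * y).re| ≤ ρ} ∩ {ω | |Y ω - (e * y).im| ≤ ρ}) =
      μ {ω | |X ω - (e * y).re| ≤ ρ} * μ {ω | |Y ω - (e * y).im| ≤ ρ} := by
    have m1 : MeasurableSet {x : ℝ | |x - (e * y).re| ≤ ρ} :=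
      measurableSet_le (by fun_prop) measurable_const
    have m2 : MeasurableSet {x : ℝ | |x - (e * y).im| ≤ ρ} :=
      measurableSet_le (by fun_prop) measurable_const
    exact hindep.measure_inter_preimage_eq_mul _ _ m1 m2
  have hA1 := interval (μ := μ) (mul_pos hτ hv1) hXm hXl (e * y).re ρ
  have hA2 := interval (μ := μ) (mul_pos hτ hv2) hYm hYl (e * y).im ρ
  calc μ {ω | ‖W t ω - W s ω - y‖ ≤ ρ}
      ≤ μ ({ω | |X ω - (e * y).re| ≤ ρ} ∩ {ω | |Y ω - (e * y).im| ≤ ρ}) := measure_mono hsub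
    _ = μ {ω | |X ω - (e * y).re| ≤ ρ} * μ {ω | |Y ω - (e * y).im| ≤ ρ} := hprod
    _ ≤ ENNReal.ofReal (2 * ρ / √(2 * π * ((t - s) * v₁))) *
        ENNReal.ofReal (2 * ρ / √(2 * π * ((t - s) * v₂))) := mul_le_mul' hA1 hA2
    _ ≤ ENNReal.ofReal (ρ ^ 2 / (d * (t - s))) := by
        rw [← ENNReal.ofReal_mul (by positivity)]
        apply ENNReal.ofReal_le_ofReal
        have hp1 : 0 < 2 * π * ((t - s) * v₁) := by positivity
        have hp2 : 0 < 2 * π * ((t - s) * v₂) := by positivity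
        have h3 : 4 * (d * (t - s)) ≤ √(2 * π * ((t - s) * v₁)) *
            √(2 * π * ((t - s) * v₂)) := by
          rw [← Real.sqrt_mul hp1.le]
          apply Real.le_sqrt_of_sq_le
          have h4 : (2 * π * ((t - s) * v₁)) * (2 * π * ((t - s) * v₂)) =
              (4 * π ^ 2) * ((t - s) ^ 2 * (v₁ * v₂)) := by ring
          have h5 : (4 * (d * (t - s))) ^ 2 = 16 * ((t - s) ^ 2 * d ^ 2) := by ring
          have h6 : d ^ 2 ≤ v₁ * v₂ := by rw [hdet']; exact hdet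
          have h7 : (t - s) ^ 2 * d ^ 2 ≤ (t - s) ^ 2 * (v₁ * v₂) :=
            mul_le_mul_of_nonneg_left h6 (sq_nonneg _)
          have h8 : 16 ≤ 4 * π ^ 2 := by nlinarith [Real.pi_gt_three]
          have h9 : 0 ≤ (t - s) ^ 2 * (v₁ * v₂) := by positivity
          rw [h4, h5]
          nlinarith
        rw [div_mul_div_comm, div_le_div_iff₀ (by positivity) (by positivity)]
        have h4 : 0 ≤ ρ ^ 2 := sq_nonneg _
        have h5 : 2 * ρ * (2 * ρ) * (d * (t - s)) = ρ ^ 2 * (4 * (d * (t - s))) := by ring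
        rw [h5]
        exact mul_le_mul_of_nonneg_left h3 h4

end

end Pool.Agent.SLE
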