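import Pool.Agent.Lib.MP_c17912_pr_LN.B2

set_option autoImplicit false

open MeasureTheory ProbabilityTheory Filter
open scoped NNReal ENNReal Topology Real

namespace Pool.Agent.SLE

noncomputable section

variable {Ω : Type*} [MeasurableSpace Ω] {μ : Measure Ω} {a b c K : ℝ} {W : ℝ → Ω → ℂ}

/-- the probability of an interval -/
private theorem IBo_interval {v : ℝ} (hv : 0 < v) {X : Ω → ℝ} (hX : Measurable X)
    (hl : HasLaw X (gaussianReal 0 (Real.toNNReal v)) μ) (p ρ : ℝ) :
    μ {ω | |X ω - p| ≤ ρ} ≤ ENNReal.ofReal (2 * ρ / √(2 * π * v)) := by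
  have hv0 : Real.toNNReal v ≠ 0 := (Real.toNNReal_pos.2 hv).ne'
  have h1 : {ω | |X ω - p| ≤ ρ} = X ⁻¹' Set.Icc (p - ρ) (p + ρ) := by
    ext ω
    simp only [Set.mem_ofPred_eq, Set.mem_preimage, Set.mem_Icc, abs_le]
    constructor
    · rintro ⟨h2, h3⟩
      exact ⟨by linarith, by linarith⟩
    · rintro ⟨h2, h3⟩
      exact ⟨by linarith, by linarith⟩
  rw [h1, ← Measure.map_apply hX measurableSet_Icc, hl.map_eq, gaussianReal_apply _ hv0]
  have h2 : ∀ x, gaussianPDF 0 (Real.toNNReal v) x ≤ ENNReal.ofReal ((√(2 * π * v))⁻¹) := by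
    intro x
    unfold gaussianPDF
    apply ENNReal.ofReal_le_ofReal
    rw [gaussianPDFReal_def, Real.coe_toNNReal _ hv.le]
    have h3 : 0 ≤ (√(2 * π * v))⁻¹ := by positivity
    have h4 : Real.exp (-(x - 0) ^ 2 / (2 * v)) ≤ 1 := by
      rw [Real.exp_le_one_iff]
      apply div_nonpos_of_nonpos_of_nonneg
      · have := sq_nonneg (x - 0)
        linarith
      · linarith
    calc (√(2 * π * v))⁻¹ * Real.exp (-(x - 0) ^ 2 / (2 * v)) ≤ (√(2 * π * v))⁻¹ * 1 :=
          mul_le_mul_of_nonneg_left h4 h3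
      _ = (√(2 * π * v))⁻¹ := mul_one _
  calc ∫⁻ x in Set.Icc (p - ρ) (p + ρ), gaussianPDF 0 (Real.toNNReal v) x
      ≤ ∫⁻ _ in Set.Icc (p - ρ) (p + ρ), ENNReal.ofReal ((√(2 * π * v))⁻¹) :=
        lintegral_mono fun x => h2 x
    _ = ENNReal.ofReal (2 * ρ / √(2 * π * v)) := by
        rw [setLIntegral_const, Real.volume_Icc, ← ENNReal.ofReal_mul (by positivity)]
        congr 1
        ring

/-- IBo. Probability that an increment lies in a given disc, one dimensional bound. -/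
theorem incr_ball_one [IsProbabilityMeasure μ] (hW : Gau a b c K W μ) {s t ρ : ℝ} (hs : 0 ≤ s)
    (hst : s < t) (hS : 0 < a + b) (hρ : 0 ≤ ρ) (y : ℂ) :
    μ {ω | ‖W t ω - W s ω - y‖ ≤ ρ} ≤
      ENNReal.ofReal (5 / 4 * ρ / √((a + b) * (t - s))) := by
  have hτ : 0 < t - s := by linarith
  have hB : 0 < (a + b) * (t - s) := mul_pos hS hτ
  have key : ∀ v : ℝ, (a + b) / 2 ≤ v → ∀ X : Ω → ℝ, Measurable X →
      HasLaw X (gaussianReal 0 (Real.toNNReal ((t - s) * v))) μ → ∀ p : ℝ,
      {ω | ‖W t ω - W s ω - y‖ ≤ ρ} ⊆ {ω | |X ω - p| ≤ ρ} →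
      μ {ω | ‖W t ω - W s ω - y‖ ≤ ρ} ≤
        ENNReal.ofReal (5 / 4 * ρ / √((a + b) * (t - s))) := by
    intro v hv X hX hl p hsub
    have hv0 : 0 < v := by linarith
    have hvt : 0 < (t - s) * v := mul_pos hτ hv0
    refine (measure_mono hsub).trans ((IBo_interval hvt hX hl p ρ).trans
      (ENNReal.ofReal_le_ofReal ?_))
    have hpi := Real.pi_gt_three
    have hA : 0 < 2 * π * ((t - s) * v) := by positivity
    have h1 : 8 / 5 * √((a + b) * (t - s)) ≤ √(2 * π * ((t - s) * v)) := by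
      apply Real.le_sqrt_of_sq_le
      rw [mul_pow, Real.sq_sqrt hB.le]
      have h2 : (a + b) * (t - s) ≤ 2 * ((t - s) * v) := by
        have h3 : (t - s) * ((a + b) / 2) ≤ (t - s) * v := mul_le_mul_of_nonneg_left hv hτ.le
        linarith
      have h4 : 3 * (2 * ((t - s) * v)) ≤ π * (2 * ((t - s) * v)) :=
        mul_le_mul_of_nonneg_right hpi.le (by positivity)
      linarith
    have h2 : 0 < √((a + b) * (t - s)) := Real.sqrt_pos.2 hB
    have h3 : 0 < √(2 * π * ((t - s) * v)) := Real.sqrt_pos.2 hA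
    rw [div_le_div_iff₀ h3 h2]
    have h4 := mul_le_mul_of_nonneg_left h1 hρ
    linarith
  have hmD : Measurable fun ω => W t ω - W s ω := (hW.meas t).sub (hW.meas s)
  rcases le_total b a with hab | hab
  · refine key a (by linarith) (fun ω => (W t ω - W s ω).re) (Complex.measurable_re.comp hmD)
      ?_ y.re fun ω hω => ?_
    · have h1 := hW.gauss s t hs hst.le 1 0
      simpa using h1
    · have h1 : |(W t ω - W s ω - y).re| ≤ ρ := (Complex.abs_re_le_norm _).trans hω
      rw [Complex.sub_re] at h1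
      exact h1
  · refine key b (by linarith) (fun ω => (W t ω - W s ω).im) (Complex.measurable_im.comp hmD)
      ?_ y.im fun ω hω => ?_
    · have h1 := hW.gauss s t hs hst.le 0 1
      simpa using h1
    · have h1 : |(W t ω - W s ω - y).im| ≤ ρ := (Complex.abs_im_le_norm _).trans hω
      rw [Complex.sub_im] at h1
      exact h1

end

end Pool.Agent.SLE
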