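import Pool.Agent.Lib.MP_c17912_pr_LN.Base
import Pool.Agent.Lib.MP_c17912_pr.Disc

set_option autoImplicit false

open MeasureTheory ProbabilityTheory Filter
open scoped NNReal ENNReal Topology Real

namespace Pool.Agent.SLE

noncomputable section

variable {Ω : Type*} [MeasurableSpace Ω] {μ : Measure Ω} {a b c K : ℝ} {W : ℝ → Ω → ℂ}

namespace KhAux

/-- The factor of a visit. -/
def fac (x : ℝ) (D : Set ℂ) : ℂ → ℝ≥0∞ := D.indicator fun _ => ENNReal.ofReal x

/-- The product over the visits after time `i`. -/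
def pp (W : ℝ → Ω → ℂ) (h x : ℝ) (D : Set ℂ) (N i : ℕ) (w : ℂ) (ω : Ω) : ℝ≥0∞ :=
  ∏ l ∈ Finset.Ioc i N, (1 + fac x D (w + (W ((l : ℝ) * h) ω - W ((i : ℝ) * h) ω)))

theorem fac_meas (x : ℝ) {D : Set ℂ} (hD : MeasurableSet D) : Measurable (fac x D) :=
  measurable_const.indicator hD

theorem ident (f : ℕ → ℝ≥0∞) {i N : ℕ} (hN : i ≤ N) :
    ∏ l ∈ Finset.Ioc i N, (1 + f l) =
      1 + ∑ j ∈ Finset.Ioc i N, f j * ∏ l ∈ Finset.Ioc j N, (1 + f l) := by
  induction N, hN using Nat.le_induction with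
  | base => simp
  | succ N hN ih =>
    rw [Finset.prod_Ioc_succ_top hN, Finset.sum_Ioc_succ_top hN, ih]
    have h1 : ∑ j ∈ Finset.Ioc i N, f j * ∏ l ∈ Finset.Ioc j (N + 1), (1 + f l) =
        (∑ j ∈ Finset.Ioc i N, f j * ∏ l ∈ Finset.Ioc j N, (1 + f l)) * (1 + f (N + 1)) := by
      rw [Finset.sum_mul]
      refine Finset.sum_congr rfl fun j hj => ?_
      rw [Finset.prod_Ioc_succ_top (Finset.mem_Ioc.1 hj).2]
      ring
    rw [h1]
    simp only [Finset.Ioc_self, Finset.prod_empty]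
    ring

omit [MeasurableSpace Ω] in
theorem term_eq (W : ℝ → Ω → ℂ) (h x : ℝ) (D : Set ℂ) (N i j : ℕ) (w : ℂ) (ω : Ω) :
    fac x D (w + (W ((j : ℝ) * h) ω - W ((i : ℝ) * h) ω)) *
      ∏ l ∈ Finset.Ioc j N, (1 + fac x D (w + (W ((l : ℝ) * h) ω - W ((i : ℝ) * h) ω))) =
    fac x D (w + (W ((j : ℝ) * h) ω - W ((i : ℝ) * h) ω)) *
      pp W h x D N j (w + (W ((j : ℝ) * h) ω - W ((i : ℝ) * h) ω)) ω := by
  unfold pp
  congr 1
  refine Finset.prod_congr rfl fun l _ => ?_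
  congr 2
  ring

theorem term_le [IsProbabilityMeasure μ] (hW : Drv a b c K W μ) {h : ℝ} (hh : 0 < h) {D : Set ℂ}
    (hD : MeasurableSet D) {N : ℕ} {x : ℝ} {i j : ℕ} (hij : i ≤ j)
    (hj : ∀ w, ∫⁻ ω, pp W h x D N j w ω ∂μ ≤ 2) (w : ℂ) :
    ∫⁻ ω, fac x D (w + (W ((j : ℝ) * h) ω - W ((i : ℝ) * h) ω)) *
      pp W h x D N j (w + (W ((j : ℝ) * h) ω - W ((i : ℝ) * h) ω)) ω ∂μ ≤
    ENNReal.ofReal x * 2 *
      μ {ω | w + (W ((j : ℝ) * h) ω - W ((i : ℝ) * h) ω) ∈ D} := by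
  have hjh : (0 : ℝ) ≤ j * h := by positivity
  have hih : (0 : ℝ) ≤ i * h := by positivity
  have hijh : (i : ℝ) * h ≤ j * h :=
    mul_le_mul_of_nonneg_right (by exact_mod_cast hij) hh.le
  have hle : Blk W 0 (j * h) ≤ (inferInstance : MeasurableSpace Ω) := Blk_le hW _ _
  -- the future
  obtain ⟨Z, hZ⟩ : ∃ Z : Ω → ℕ → ℂ, Z = fun ω l =>
      W (((max j l : ℕ) : ℝ) * h) ω - W ((j : ℝ) * h) ω := ⟨_, rfl⟩
  have hZF : Measurable[Fut W (j * h)] Z := by
    rw [hZ]
    refine @measurable_pi_lambda Ω ℕ (fun _ => ℂ) (Fut W (j * h)) _ _ fun l => ?_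
    rw [measurable_iff_comap_le]
    refine le_iSup (fun r : Set.Ici ((j : ℝ) * h) =>
      MeasurableSpace.comap (fun ω => W r ω - W (j * h) ω) inferInstance)
      ⟨((max j l : ℕ) : ℝ) * h, ?_⟩
    simp only [Set.mem_Ici]
    exact mul_le_mul_of_nonneg_right (by exact_mod_cast le_max_left j l) hh.le
  have hZm : Measurable Z := by
    rw [hZ]
    exact measurable_pi_lambda _ fun l => (hW.meas _).sub (hW.meas _)
  -- the past
  obtain ⟨Y, hY⟩ : ∃ Y : Ω → ℂ, Y = fun ω => w + (W ((j : ℝ) * h) ω - W ((i : ℝ) * h) ω) :=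
    ⟨_, rfl⟩
  have hYB : Measurable[Blk W 0 (j * h)] Y := by
    rw [hY]
    exact (DiscAux.incr_meas hih hijh hjh le_rfl).const_add w
  have hYm : Measurable Y := hYB.mono hle le_rfl
  have hind : IndepFun Y Z μ := by
    have h1 := indep_Blk_Fut hW hjh
    rw [IndepFun_iff_Indep]
    exact indep_of_indep_of_le_left (indep_of_indep_of_le_right h1
      (measurable_iff_comap_le.1 hZF)) (measurable_iff_comap_le.1 hYB)
  have hprod := (indepFun_iff_map_prod_eq_prod_map_map hYm.aemeasurable hZm.aemeasurable).1 hind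
  have hfac := fac_meas x hD
  -- the integrand
  obtain ⟨g, hg⟩ : ∃ g : ℂ × (ℕ → ℂ) → ℝ≥0∞, g = fun p =>
      ∏ l ∈ Finset.Ioc j N, (1 + fac x D (p.1 + p.2 l)) := ⟨_, rfl⟩
  have hgm : Measurable g := by
    rw [hg]
    refine Finset.measurable_prod _ fun l _ => measurable_const.add (hfac.comp ?_)
    exact measurable_fst.add ((measurable_pi_apply l).comp measurable_snd)
  obtain ⟨f, hf⟩ : ∃ f : ℂ × (ℕ → ℂ) → ℝ≥0∞, f = fun p => fac x D p.1 * g p := ⟨_, rfl⟩
  have hfm : Measurable f := by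
    rw [hf]
    exact (hfac.comp measurable_fst).mul hgm
  have hpg : ∀ (y : ℂ) (ω : Ω), pp W h x D N j y ω = g (y, Z ω) := by
    intro y ω
    rw [hg, hZ]
    unfold pp
    refine Finset.prod_congr rfl fun l hl => ?_
    have h1 : max j l = l := max_eq_right (Finset.mem_Ioc.1 hl).1.le
    simp only [h1]
  have e1 : ∫⁻ ω, fac x D (w + (W ((j : ℝ) * h) ω - W ((i : ℝ) * h) ω)) *
      pp W h x D N j (w + (W ((j : ℝ) * h) ω - W ((i : ℝ) * h) ω)) ω ∂μ =
      ∫⁻ ω, f (Y ω, Z ω) ∂μ := by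
    refine lintegral_congr fun ω => ?_
    rw [hpg, hf, hY]
  have e2 : ∫⁻ ω, f (Y ω, Z ω) ∂μ = ∫⁻ y, fac x D y * ∫⁻ ω, pp W h x D N j y ω ∂μ ∂(μ.map Y) := by
    have h1 : ∫⁻ ω, f (Y ω, Z ω) ∂μ = ∫⁻ p, f p ∂(μ.map fun ω => (Y ω, Z ω)) :=
      (lintegral_map hfm (hYm.prodMk hZm)).symm
    have : IsProbabilityMeasure (μ.map Z) := Measure.isProbabilityMeasure_map hZm.aemeasurable
    have : IsProbabilityMeasure (μ.map Y) := Measure.isProbabilityMeasure_map hYm.aemeasurable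
    rw [h1, hprod, lintegral_prod _ hfm.aemeasurable]
    refine lintegral_congr fun y => ?_
    have hgy : Measurable fun z => g (y, z) := hgm.comp measurable_prodMk_left
    rw [hf]
    simp only
    rw [lintegral_const_mul _ hgy, lintegral_map hgy hZm]
    congr 1
    exact lintegral_congr fun ω => (hpg y ω).symm
  rw [e1, e2]
  calc ∫⁻ y, fac x D y * ∫⁻ ω, pp W h x D N j y ω ∂μ ∂(μ.map Y)
      ≤ ∫⁻ y, fac x D y * 2 ∂(μ.map Y) := lintegral_mono fun y => mul_le_mul_right (hj y) _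
    _ = ENNReal.ofReal x * 2 * μ {ω | w + (W ((j : ℝ) * h) ω - W ((i : ℝ) * h) ω) ∈ D} := by
      rw [lintegral_mul_const _ hfac]
      unfold fac
      rw [lintegral_indicator hD, setLIntegral_const, Measure.map_apply hYm hD, hY]
      have h2 : (fun ω => w + (W ((j : ℝ) * h) ω - W ((i : ℝ) * h) ω)) ⁻¹' D =
        {ω | w + (W ((j : ℝ) * h) ω - W ((i : ℝ) * h) ω) ∈ D} := rfl
      rw [h2]
      ring

omit [MeasurableSpace Ω] in
theorem pp_meas {h : ℝ} (hh : 0 < h) {D : Set ℂ} (hD : MeasurableSet D) (x : ℝ) (N i : ℕ)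
    (w : ℂ) : Measurable[Blk W 0 (N * h)] (pp W h x D N i w) := by
  unfold pp
  refine Finset.measurable_prod _ fun l hl => ?_
  have h1 := Finset.mem_Ioc.1 hl
  have hi : (i : ℝ) * h ≤ N * h :=
    mul_le_mul_of_nonneg_right (by exact_mod_cast h1.1.le.trans h1.2) hh.le
  have hl' : (l : ℝ) * h ≤ N * h :=
    mul_le_mul_of_nonneg_right (by exact_mod_cast h1.2) hh.le
  have h2 : Measurable[Blk W 0 (N * h)] (fun ω => W ((l : ℝ) * h) ω - W ((i : ℝ) * h) ω) :=
    DiscAux.incr_meas (by positivity) hi (by positivity) hl'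
  have h3 : Measurable (fun z : ℂ => 1 + fac x D (w + z)) :=
    measurable_const.add ((fac_meas x hD).comp (measurable_const_add w))
  exact h3.comp h2

theorem main_le [IsProbabilityMeasure μ] (hW : Drv a b c K W μ) {h : ℝ} (hh : 0 < h) {D : Set ℂ}
    (hD : MeasurableSet D) {N : ℕ} {x m : ℝ} (hx : 0 ≤ x) (hxm : x * m ≤ 1 / 2)
    (hsum : ∀ i < N, ∀ w : ℂ, ∑ j ∈ Finset.Ioc i N,
      μ {ω | w + (W ((j : ℝ) * h) ω - W ((i : ℝ) * h) ω) ∈ D} ≤ ENNReal.ofReal m) :
    ∀ k i : ℕ, i + k = N → ∀ w, ∫⁻ ω, pp W h x D N i w ω ∂μ ≤ 2 := by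
  intro k
  induction k using Nat.strong_induction_on with
  | _ k ih =>
    intro i hik w
    have hiN : i ≤ N := by omega
    have hm1 : ∀ j w, Measurable (pp W h x D N j w) := fun j w =>
      (pp_meas hh hD x N j w).mono (Blk_le hW _ _) le_rfl
    have hfac := fac_meas x hD
    have e0 : ∀ ω, pp W h x D N i w ω = 1 + ∑ j ∈ Finset.Ioc i N,
        fac x D (w + (W ((j : ℝ) * h) ω - W ((i : ℝ) * h) ω)) *
          pp W h x D N j (w + (W ((j : ℝ) * h) ω - W ((i : ℝ) * h) ω)) ω := by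
      intro ω
      have h1 := ident (fun l => fac x D (w + (W ((l : ℝ) * h) ω - W ((i : ℝ) * h) ω))) hiN
      unfold pp at h1 ⊢
      rw [h1]
      congr 1
      refine Finset.sum_congr rfl fun j _ => ?_
      exact term_eq W h x D N i j w ω
    have hmt : ∀ j ∈ Finset.Ioc i N, Measurable (fun ω =>
        fac x D (w + (W ((j : ℝ) * h) ω - W ((i : ℝ) * h) ω)) *
          pp W h x D N j (w + (W ((j : ℝ) * h) ω - W ((i : ℝ) * h) ω)) ω) := by
      intro j _
      have hd : ∀ s t : ℝ, Measurable (fun ω => w + (W s ω - W t ω)) := fun s t =>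
        ((hW.meas s).sub (hW.meas t)).const_add w
      refine (hfac.comp (hd _ _)).mul ?_
      unfold pp
      refine Finset.measurable_prod _ fun l _ => measurable_const.add (hfac.comp ?_)
      exact (hd _ _).add ((hW.meas _).sub (hW.meas _))
    calc ∫⁻ ω, pp W h x D N i w ω ∂μ
        = ∫⁻ ω, (1 + ∑ j ∈ Finset.Ioc i N,
          fac x D (w + (W ((j : ℝ) * h) ω - W ((i : ℝ) * h) ω)) *
          pp W h x D N j (w + (W ((j : ℝ) * h) ω - W ((i : ℝ) * h) ω)) ω) ∂μ :=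
          lintegral_congr e0
      _ = 1 + ∑ j ∈ Finset.Ioc i N, ∫⁻ ω,
          fac x D (w + (W ((j : ℝ) * h) ω - W ((i : ℝ) * h) ω)) *
          pp W h x D N j (w + (W ((j : ℝ) * h) ω - W ((i : ℝ) * h) ω)) ω ∂μ := by
          rw [lintegral_add_left measurable_const, lintegral_finsetSum _ hmt]
          simp
      _ ≤ 1 + ∑ j ∈ Finset.Ioc i N, ENNReal.ofReal x * 2 *
          μ {ω | w + (W ((j : ℝ) * h) ω - W ((i : ℝ) * h) ω) ∈ D} := by
          refine add_le_add le_rfl (Finset.sum_le_sum fun j hj => ?_)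
          have h1 := Finset.mem_Ioc.1 hj
          refine term_le hW hh hD h1.1.le ?_ w
          exact ih (N - j) (by omega) j (by omega)
      _ ≤ 1 + 1 := by
          refine add_le_add le_rfl ?_
          rw [← Finset.mul_sum]
          rcases hiN.eq_or_lt with h1 | h1
          · rw [h1]
            simp
          · calc _ ≤ ENNReal.ofReal x * 2 * ENNReal.ofReal m :=
                  mul_le_mul_right (hsum i h1 w) _
              _ = ENNReal.ofReal (x * m * 2) := by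
                  rw [ENNReal.ofReal_mul' (by norm_num : (0 : ℝ) ≤ 2), ENNReal.ofReal_mul hx]
                  rw [ENNReal.ofReal_ofNat]
                  ring
              _ ≤ 1 := by
                  rw [ENNReal.ofReal_le_one]
                  linarith
      _ = 2 := one_add_one_eq_two

end KhAux

open KhAux in
/-- KH. Khasminskii's lemma: number of the visits to a set `D`. -/
theorem khas [IsProbabilityMeasure μ] (hW : Drv a b c K W μ) {h : ℝ} (hh : 0 < h) {D : Set ℂ}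
    (hD : MeasurableSet D) {N : ℕ} {x m : ℝ} (hx : 0 ≤ x) (hm : 0 ≤ m) (hxm : x * m ≤ 1 / 2)
    (hsum : ∀ i < N, ∀ w : ℂ, ∑ j ∈ Finset.Ioc i N,
      μ {ω | w + (W ((j : ℝ) * h) ω - W ((i : ℝ) * h) ω) ∈ D} ≤ ENNReal.ofReal m) (L : ℕ) :
    ∃ A, MeasurableSet[Blk W 0 (N * h)] A ∧ μ A ≤ ENNReal.ofReal (2 / (1 + x) ^ L) ∧
      ∀ ω ∉ A, ∀ J : Finset ℕ, (∀ j ∈ J, 1 ≤ j ∧ j ≤ N ∧ W ((j : ℝ) * h) ω ∈ D) →
        J.card < L := by
  have hpm := pp_meas (W := W) hh hD x N 0 0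
  have hle : Blk W 0 (N * h) ≤ (inferInstance : MeasurableSpace Ω) := Blk_le hW _ _
  refine ⟨{ω | (1 + ENNReal.ofReal x) ^ L ≤ pp W h x D N 0 0 ω}, ?_, ?_, ?_⟩
  · exact hpm measurableSet_Ici
  · have h1 := meas_ge_le_lintegral_div (μ := μ) (hpm.mono hle le_rfl).aemeasurable
      (ε := (1 + ENNReal.ofReal x) ^ L) (pow_ne_zero _ (by simp))
      (ENNReal.pow_ne_top (by simp))
    refine h1.trans ?_
    have h2 := main_le hW hh hD hx hxm hsum N 0 (by simp) 0
    have h3 : ENNReal.ofReal (2 / (1 + x) ^ L) = 2 / (1 + ENNReal.ofReal x) ^ L := by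
      rw [ENNReal.ofReal_div_of_pos (by positivity), ENNReal.ofReal_pow (by positivity),
        ENNReal.ofReal_add (by norm_num) hx, ENNReal.ofReal_one, ENNReal.ofReal_ofNat]
    rw [h3]
    exact ENNReal.div_le_div_right h2 _
  · intro ω hω J hJ
    by_contra hcon
    apply hω
    simp only [not_lt] at hcon
    have hJs : J ⊆ Finset.Ioc 0 N := by
      intro j hj
      have h1 := hJ j hj
      rw [Finset.mem_Ioc]
      omega
    calc (1 + ENNReal.ofReal x) ^ L ≤ (1 + ENNReal.ofReal x) ^ J.card :=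
          pow_le_pow_right₀ (by simp) hcon
      _ = ∏ j ∈ J, (1 + fac x D (0 + (W ((j : ℝ) * h) ω - W (((0 : ℕ) : ℝ) * h) ω))) := by
          rw [← Finset.prod_const]
          refine Finset.prod_congr rfl fun j hj => ?_
          have h1 : W (((0 : ℕ) : ℝ) * h) ω = 0 := hW.zero _ (by simp) ω
          have h2 : (0 : ℂ) + (W ((j : ℝ) * h) ω - W (((0 : ℕ) : ℝ) * h) ω) ∈ D := by
            rw [h1, sub_zero, zero_add]
            exact (hJ j hj).2.2
          unfold fac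
          rw [Set.indicator_of_mem h2]
      _ ≤ pp W h x D N 0 0 ω := by
          unfold pp
          exact Finset.prod_le_prod_of_subset_of_one_le' hJs fun j _ _ => by simp

end

end Pool.Agent.SLE
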