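import Pool.Agent.Lib.MP_c17912_pr_LN.PE

set_option autoImplicit false

open MeasureTheory Filter
open scoped Topology Real

namespace Pool.Agent.SLE

noncomputable section

namespace LAAux

open PEAux

/-- The variance of the angle for a diagonal matrix. -/
def V (a b x : ℝ) : ℝ := a * Real.sin x ^ 2 + b * Real.cos x ^ 2

theorem V_pos {a b : ℝ} (ha : 0 < a) (hb : 0 < b) (x : ℝ) : 0 < V a b x := by
  have h := Real.sin_sq_add_cos_sq x
  unfold V
  rcases (sq_nonneg (Real.sin x)).eq_or_lt with h0 | h0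
  · rw [← h0] at h ⊢
    have : Real.cos x ^ 2 = 1 := by linarith
    rw [this]
    linarith
  · have h1 := mul_pos ha h0
    have h2 := mul_nonneg hb.le (sq_nonneg (Real.cos x))
    linarith

theorem V_smooth (a b : ℝ) (n : ℕ) : ContDiff ℝ n (V a b) := by
  unfold V
  fun_prop

theorem V_per (a b : ℝ) : Function.Periodic (V a b) π := by
  intro x
  unfold V
  rw [Real.sin_add_pi, Real.cos_add_pi]
  ring

theorem V_deriv (a b x : ℝ) : HasDerivAt (V a b) ((a - b) * Real.sin (2 * x)) x := by
  have h1 := ((Real.hasDerivAt_sin x).pow 2).const_mul a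
  have h2 := ((Real.hasDerivAt_cos x).pow 2).const_mul b
  refine (h1.add h2).congr_deriv ?_
  rw [Real.sin_two_mul]
  simp only [Nat.cast_ofNat]
  ring

theorem V_neg (a b x : ℝ) : V a b (-x) = V a b x := by
  unfold V
  rw [Real.sin_neg, Real.cos_neg]
  ring

/-- The logarithmic derivative of the integrating factor. -/
def f (a b x : ℝ) : ℝ := -4 * Real.sin (2 * x) / V a b x

theorem f_smooth {a b : ℝ} (ha : 0 < a) (hb : 0 < b) (n : ℕ) : ContDiff ℝ n (f a b) := by
  unfold f
  refine ContDiff.div ?_ (V_smooth a b n) fun x => (V_pos ha hb x).ne'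
  fun_prop

theorem f_per (a b : ℝ) : Function.Periodic (f a b) π := by
  intro x
  unfold f
  rw [V_per a b x, show 2 * (x + π) = 2 * x + 2 * π by ring, Real.sin_add_two_pi]

theorem f_odd (a b x : ℝ) : f a b (-x) = -f a b x := by
  unfold f
  rw [V_neg, show 2 * (-x) = -(2 * x) by ring, Real.sin_neg]
  ring

theorem f_int (a b : ℝ) : ∫ x in (0 : ℝ)..π, f a b x = 0 := by
  have h1 := (f_per a b).intervalIntegral_add_eq 0 (-(π / 2))
  rw [zero_add, show -(π / 2) + π = π / 2 by ring] at h1
  rw [h1]
  have h2 := intervalIntegral.integral_comp_neg (a := -(π / 2)) (b := π / 2) (f a b)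
  rw [neg_neg] at h2
  simp only [f_odd, intervalIntegral.integral_neg] at h2
  linarith

/-- The integrating factor. -/
def E (a b x : ℝ) : ℝ := Real.exp (∫ t in (0 : ℝ)..x, f a b t)

theorem E_pos (a b x : ℝ) : 0 < E a b x := Real.exp_pos _

theorem E_smooth {a b : ℝ} (ha : 0 < a) (hb : 0 < b) (n : ℕ) : ContDiff ℝ n (E a b) :=
  Real.contDiff_exp.comp (prim_smooth (f_smooth ha hb) n)

theorem E_per {a b : ℝ} (ha : 0 < a) (hb : 0 < b) : Function.Periodic (E a b) π := by
  intro x
  have h := prim_periodic (f_smooth ha hb 0).continuous (f_per a b) (f_int a b) x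
  unfold E
  rw [show (∫ t in (0 : ℝ)..(x + π), f a b t) = ∫ t in (0 : ℝ)..x, f a b t from h]

theorem E_deriv {a b : ℝ} (ha : 0 < a) (hb : 0 < b) (x : ℝ) :
    HasDerivAt (E a b) (E a b x * f a b x) x :=
  (prim_deriv (f_smooth ha hb 0).continuous x).exp

/-- The constant of the Poisson equation is positive. -/
theorem num_pos {a b : ℝ} (ha : 0 < a) (hb : 0 < b) :
    0 < ∫ x in (0 : ℝ)..π, Real.cos (2 * x) * E a b x := by
  have hEc : Continuous (E a b) := (E_smooth ha hb 0).continuous
  have hVc : Continuous (V a b) := (V_smooth a b 0).continuous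
  have c1 : Continuous fun x => Real.cos (2 * x) * E a b x := by fun_prop
  have c2 : Continuous fun x => 2 * Real.sin (2 * x) ^ 2 * E a b x / V a b x :=
    Continuous.div (by fun_prop) hVc fun x => (V_pos ha hb x).ne'
  have hd : ∀ x : ℝ, HasDerivAt (fun x => Real.sin (2 * x) / 2 * E a b x)
      (Real.cos (2 * x) * E a b x - 2 * Real.sin (2 * x) ^ 2 * E a b x / V a b x) x := by
    intro x
    have h1 : HasDerivAt (fun x : ℝ => 2 * x) 2 x := by
      simpa using (hasDerivAt_id x).const_mul (2 : ℝ)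
    have h2 : HasDerivAt (fun x : ℝ => Real.sin (2 * x) / 2) (Real.cos (2 * x) * 2 / 2) x :=
      h1.sin.div_const 2
    refine (h2.mul (E_deriv ha hb x)).congr_deriv ?_
    unfold f
    have := (V_pos ha hb x).ne'
    field_simp
    ring
  have hI := intervalIntegral.integral_eq_sub_of_hasDerivAt (a := 0) (b := π)
    (fun x _ => hd x) ((c1.sub c2).intervalIntegrable _ _)
  rw [intervalIntegral.integral_sub (c1.intervalIntegrable _ _) (c2.intervalIntegrable _ _)] at hI
  have h3 : Real.sin (2 * π) = 0 := Real.sin_two_pi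
  rw [h3] at hI
  simp only [mul_zero, Real.sin_zero, zero_div, zero_mul, sub_zero] at hI
  have h4 : 0 < ∫ x in (0 : ℝ)..π, 2 * Real.sin (2 * x) ^ 2 * E a b x / V a b x := by
    refine intervalIntegral.integral_pos Real.pi_pos c2.continuousOn ?_ ?_
    · intro x _
      have h5 := E_pos a b x
      have h6 := V_pos ha hb x
      positivity
    · refine ⟨π / 4, ⟨by positivity, by linarith [Real.pi_pos]⟩, ?_⟩
      have h5 := E_pos a b (π / 4)
      have h6 := V_pos ha hb (π / 4)
      rw [show 2 * (π / 4) = π / 2 by ring, Real.sin_pi_div_two]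
      positivity
  linarith

/-- The solution of the Poisson equation. -/
theorem poisson {a b : ℝ} (ha : 0 < a) (hb : 0 < b) :
    ∃ (ψ : ℝ → ℝ) (h : ℝ), 0 < h ∧ (∀ n : ℕ, ContDiff ℝ n ψ) ∧ Function.Periodic ψ π ∧
      ∀ x, Vth a b 0 x * deriv (deriv ψ) x / 2 + Bth a b 0 x * deriv ψ x =
        Real.cos (2 * x) - h := by
  have hEc : Continuous (E a b) := (E_smooth ha hb 0).continuous
  have c1 : Continuous fun x => Real.cos (2 * x) * E a b x := by fun_prop
  obtain ⟨D, hD⟩ : ∃ D : ℝ, D = ∫ x in (0 : ℝ)..π, E a b x := ⟨_, rfl⟩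
  have hDpos : 0 < D := by
    rw [hD]
    exact intervalIntegral.intervalIntegral_pos_of_pos (hEc.intervalIntegrable _ _)
      (fun x => E_pos a b x) Real.pi_pos
  obtain ⟨N, hN⟩ : ∃ N : ℝ, N = ∫ x in (0 : ℝ)..π, Real.cos (2 * x) * E a b x := ⟨_, rfl⟩
  have hNpos : 0 < N := by
    rw [hN]
    exact num_pos ha hb
  have hUd : ∀ x, HasDerivAt (fun x => V a b x * E a b x / 2)
      (((a - b) * Real.sin (2 * x) - 4 * Real.sin (2 * x)) * E a b x / 2) x := by
    intro x
    refine (((V_deriv a b x).mul (E_deriv ha hb x)).div_const 2).congr_deriv ?_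
    unfold f
    have := (V_pos ha hb x).ne'
    field_simp
    ring
  obtain ⟨ψ, C₀, h1, h2, -, h3, -⟩ := per_solve (U := fun x => V a b x * E a b x / 2)
    (G := fun x => (Real.cos (2 * x) - N / D) * E a b x)
    (fun n => ((V_smooth a b n).mul (E_smooth ha hb n)).div_const 2)
    (fun n => ContDiff.mul (by fun_prop) (E_smooth ha hb n))
    (fun x => by
      change V a b (x + π) * E a b (x + π) / 2 = V a b x * E a b x / 2
      rw [V_per a b x, E_per ha hb x])
    (fun x => by
      change (Real.cos (2 * (x + π)) - N / D) * E a b (x + π) =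
        (Real.cos (2 * x) - N / D) * E a b x
      rw [E_per ha hb x, show 2 * (x + π) = 2 * x + 2 * π by ring, Real.cos_add_two_pi])
    (fun x => by
      have := V_pos ha hb x
      have := E_pos a b x
      positivity)
    (by
      simp only [sub_mul]
      rw [intervalIntegral.integral_sub (c1.intervalIntegrable _ _)
        ((hEc.const_mul _).intervalIntegrable _ _), intervalIntegral.integral_const_mul,
        ← hN, ← hD]
      field_simp
      ring)
  refine ⟨ψ, N / D, div_pos hNpos hDpos, h1, h2, fun x => ?_⟩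
  have h4 := h3 x
  rw [(hUd x).deriv] at h4
  have h5 := E_pos a b x
  have h6 : E a b x * (Vth a b 0 x * deriv (deriv ψ) x / 2 + Bth a b 0 x * deriv ψ x) =
      E a b x * (Real.cos (2 * x) - N / D) := by
    have h7 : Vth a b 0 x = V a b x := by
      unfold Vth V
      ring
    rw [h7, mul_comm (E a b x) (Real.cos (2 * x) - N / D), ← h4]
    unfold Bth
    ring
  exact mul_left_cancel₀ h5.ne' h6

theorem ang_scale {a b c : ℝ} {H : ℝ → ℝ} {m k : ℝ} {ψ : ℝ → ℝ}
    (hs : ∀ n : ℕ, ContDiff ℝ n ψ) (hp : Function.Periodic ψ π)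
    (h : ∀ x, k * (Vth a b c x * deriv (deriv ψ) x / 2 + Bth a b c x * deriv ψ x) ≤ H x - m) :
    Ang a b c H m (fun x => k * ψ x) := by
  have hd1 : deriv (fun x => k * ψ x) = fun x => k * deriv ψ x := by
    funext x
    exact deriv_const_mul k ((hs 1).differentiable (by simp)).differentiableAt
  have hs1 : ContDiff ℝ 1 (deriv ψ) := by
    have h2 : ContDiff ℝ (1 + 1) ψ := by
      have := hs 2
      norm_num at this ⊢
      exact this
    exact (contDiff_succ_iff_deriv.1 h2).2.2
  have hd2 : deriv (fun x => k * deriv ψ x) = fun x => k * deriv (deriv ψ) x := by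
    funext x
    exact deriv_const_mul k (hs1.differentiable (by simp)).differentiableAt
  refine ⟨contDiff_const.mul (hs 3), ?_, ?_⟩
  · intro x
    have h1 := hp.nat_mul 2 x
    norm_num at h1
    change k * ψ (x + 2 * π) = k * ψ x
    rw [h1]
  · intro x
    rw [hd1, hd2]
    refine le_trans (le_of_eq ?_) (h x)
    ring

end LAAux

open LAAux in
/-- LA. The sub-solutions for a diagonal covariance matrix. -/
theorem hasAng_diag {a b : ℝ} (ha : 0 < a) (hb : 0 < b) (hab : a - b ≤ 4) :
    HasAng a b 0 := by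
  obtain ⟨ψ, h, hh, hs, hp, he⟩ := poisson ha hb
  refine ⟨⟨fun x => (4 - (a - b)) / 2 * ψ x, ang_scale hs hp fun x => ?_⟩,
    ⟨fun x => (8 - (a - b)) / 2 * ψ x, (8 - (a - b)) / 2 * h, ?_,
      ang_scale hs hp fun x => ?_⟩⟩
  · rw [he x]
    unfold H1
    have h1 : 0 ≤ (4 - (a - b)) / 2 * h := mul_nonneg (by linarith) hh.le
    linarith
  · exact mul_pos (by linarith) hh
  · rw [he x]
    unfold H1
    linarith

end

end Pool.Agent.SLE
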