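import Pool.Agent.Lib.MP_c17912_pr_LN.PE

set_option autoImplicit false

open MeasureTheory Filter
open scoped Topology Real

namespace Pool.Agent.SLE

noncomputable section

namespace LBAux

theorem V_two (a b c θ : ℝ) : 2 * Vth a b c θ =
    (a + b) + (b - a) * Real.cos (2 * θ) - 2 * c * Real.sin (2 * θ) := by
  unfold Vth
  have h1 := Real.sin_sq_add_cos_sq θ
  rw [Real.cos_two_mul', Real.sin_two_mul]
  linear_combination (a + b) * h1

theorem V_lower {a b c lam : ℝ} (hE : Ell a b c lam) (θ : ℝ) : lam ≤ Vth a b c θ := by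
  have h1 := hE (Real.sin θ) (-Real.cos θ)
  have h2 : (Real.sin θ) ^ 2 + (-Real.cos θ) ^ 2 = 1 := by
    rw [neg_sq]
    exact Real.sin_sq_add_cos_sq θ
  rw [h2, mul_one] at h1
  unfold Vth
  nlinarith [h1]

theorem V_upper {a b c lam : ℝ} (hE : Ell a b c lam) (hl : 0 < lam) (θ : ℝ) :
    Vth a b c θ ≤ a + b := by
  have h1 := hE (Real.cos θ) (Real.sin θ)
  have h2 := Real.sin_sq_add_cos_sq θ
  have h3 : (Real.cos θ) ^ 2 + (Real.sin θ) ^ 2 = 1 := by linarith
  rw [h3, mul_one] at h1
  have h4 : Vth a b c θ = a + b - (a * Real.cos θ ^ 2 + 2 * c * Real.cos θ * Real.sin θ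
      + b * Real.sin θ ^ 2) := by
    unfold Vth
    linear_combination (a + b) * h2
  rw [h4]
  linarith

theorem V_eq (a b c : ℝ) : Vth a b c =
    fun θ => ((a + b) + (b - a) * Real.cos (2 * θ) - 2 * c * Real.sin (2 * θ)) / 2 := by
  funext θ
  have := V_two a b c θ
  linarith

theorem hasDeriv_two (x : ℝ) : HasDerivAt (fun θ : ℝ => 2 * θ) 2 x := by
  simpa using (hasDerivAt_id x).const_mul (2 : ℝ)

theorem hd_cos (x : ℝ) : HasDerivAt (fun θ : ℝ => Real.cos (2 * θ)) (-Real.sin (2 * x) * 2) x :=
  (Real.hasDerivAt_cos (2 * x)).comp x (hasDeriv_two x)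

theorem hd_sin (x : ℝ) : HasDerivAt (fun θ : ℝ => Real.sin (2 * θ)) (Real.cos (2 * x) * 2) x :=
  (Real.hasDerivAt_sin (2 * x)).comp x (hasDeriv_two x)

theorem V_deriv (a b c x : ℝ) : HasDerivAt (Vth a b c)
    ((a - b) * Real.sin (2 * x) - 2 * c * Real.cos (2 * x)) x := by
  rw [V_eq]
  have h1 := ((((hd_cos x).const_mul (b - a)).const_add (a + b)).sub
    ((hd_sin x).const_mul (2 * c))).div_const 2
  exact h1.congr_deriv (by ring)

theorem V_cont (a b c : ℝ) : Continuous (Vth a b c) := by
  rw [V_eq]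
  fun_prop

theorem V_pi (a b c : ℝ) : Vth a b c π = Vth a b c 0 := by
  have h1 := V_two a b c π
  have h2 := V_two a b c 0
  rw [Real.cos_two_pi, Real.sin_two_pi] at h1
  rw [mul_zero, Real.cos_zero, Real.sin_zero] at h2
  linarith

/-- The integral of `2 cos 2θ log (S - 2 c sin 2θ)` over a period. -/
theorem int_log {S c : ℝ} (hpos : ∀ θ : ℝ, 0 < S - 2 * c * Real.sin (2 * θ)) :
    ∫ θ in (0 : ℝ)..π, 2 * Real.cos (2 * θ) * Real.log (S - 2 * c * Real.sin (2 * θ)) = 0 := by
  rcases eq_or_ne c 0 with rfl | hc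
  · have h1 : ∀ x ∈ Set.uIcc 0 π, HasDerivAt (fun θ : ℝ => Real.sin (2 * θ) * Real.log S)
        (2 * Real.cos (2 * x) * Real.log (S - 2 * 0 * Real.sin (2 * x))) x := by
      intro x _
      have h2 := (hd_sin x).mul_const (Real.log S)
      refine h2.congr_deriv ?_
      rw [mul_zero, zero_mul, sub_zero]
      ring
    rw [intervalIntegral.integral_eq_sub_of_hasDerivAt h1]
    · simp
    · apply Continuous.intervalIntegrable
      have h3 : Continuous fun x : ℝ => 2 * Real.cos (2 * x) * Real.log S := by fun_prop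
      convert h3 using 2
      simp
  · have hd : ∀ x : ℝ, HasDerivAt (fun θ : ℝ => S - 2 * c * Real.sin (2 * θ))
        (-(2 * c * (Real.cos (2 * x) * 2))) x := by
      intro x
      exact ((hd_sin x).const_mul (2 * c)).const_sub S
    have h1 : ∀ x ∈ Set.uIcc 0 π, HasDerivAt (fun θ : ℝ =>
        -(1 / (2 * c)) * ((S - 2 * c * Real.sin (2 * θ)) *
          Real.log (S - 2 * c * Real.sin (2 * θ)) - (S - 2 * c * Real.sin (2 * θ))))
        (2 * Real.cos (2 * x) * Real.log (S - 2 * c * Real.sin (2 * x))) x := by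
      intro x _
      have h2 := (((hd x).mul ((hd x).log (hpos x).ne')).sub (hd x)).const_mul (-(1 / (2 * c)))
      refine h2.congr_deriv ?_
      have h3 := (hpos x).ne'
      field_simp
      ring
    rw [intervalIntegral.integral_eq_sub_of_hasDerivAt h1]
    · rw [Real.sin_two_pi, mul_zero, mul_zero, Real.sin_zero, mul_zero, sub_self]
    · apply Continuous.intervalIntegrable
      have h4 : Continuous fun x : ℝ => S - 2 * c * Real.sin (2 * x) := by fun_prop
      exact (by fun_prop : Continuous fun x : ℝ => 2 * Real.cos (2 * x)).mul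
        (h4.log fun x => (hpos x).ne')

/-- The pointwise inequality. -/
theorem pt_log {A y S k t : ℝ} (hA : 0 < A) (hAS : A ≤ 2 * S) (hy : y = t * k) (ht : 0 < t)
    (hAy : 0 < A + y) (hAyS : A + y ≤ 2 * S) :
    k * Real.log A + t * k ^ 2 / (2 * S) ≤ k * Real.log (A + y) := by
  have hS : 0 < 2 * S := lt_of_lt_of_le hA hAS
  have h0 : Real.log (A + y) - Real.log A = Real.log ((A + y) / A) := by
    rw [Real.log_div hAy.ne' hA.ne']
  rcases le_or_gt 0 k with hk | hk
  · have hy0 : 0 ≤ y := by rw [hy]; positivity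
    have h1 : 1 - ((A + y) / A)⁻¹ ≤ Real.log ((A + y) / A) :=
      Real.one_sub_inv_le_log_of_pos (by positivity)
    have h2 : 1 - ((A + y) / A)⁻¹ = y / (A + y) := by
      rw [inv_div]
      field_simp
      ring
    have h3 : y / (2 * S) ≤ y / (A + y) := by
      apply div_le_div_of_nonneg_left hy0 hAy hAyS
    have h4 : y / (2 * S) ≤ Real.log (A + y) - Real.log A := by
      rw [h0]; linarith
    have h5 := mul_le_mul_of_nonneg_left h4 hk
    have h6 : k * (y / (2 * S)) = t * k ^ 2 / (2 * S) := by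
      rw [hy]; ring
    rw [h6] at h5
    linarith [mul_sub k (Real.log (A + y)) (Real.log A)]
  · have h1 : Real.log ((A + y) / A) ≤ (A + y) / A - 1 :=
      Real.log_le_sub_one_of_pos (by positivity)
    have h2 : (A + y) / A - 1 = y / A := by
      field_simp
      ring
    have h4 : Real.log (A + y) - Real.log A ≤ y / A := by
      rw [h0]; linarith
    have h5 := mul_le_mul_of_nonpos_left h4 hk.le
    have h6 : k * (y / A) = t * k ^ 2 / A := by
      rw [hy]; ring
    have h7 : t * k ^ 2 / (2 * S) ≤ t * k ^ 2 / A := by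
      apply div_le_div_of_nonneg_left (by positivity) hA hAS
    rw [h6] at h5
    linarith [mul_sub k (Real.log (A + y)) (Real.log A)]

theorem int_cos_sq : ∫ θ in (0 : ℝ)..π, Real.cos (2 * θ) ^ 2 = π / 2 := by
  have h1 : ∀ x ∈ Set.uIcc 0 π, HasDerivAt (fun θ : ℝ => θ / 2 + Real.sin (2 * θ) * Real.cos (2 * θ) / 4)
      (Real.cos (2 * x) ^ 2) x := by
    intro x _
    have h2 := ((hasDerivAt_id x).div_const 2).add (((hd_sin x).mul (hd_cos x)).div_const 4)
    refine h2.congr_deriv ?_
    have h3 := Real.sin_sq_add_cos_sq (2 * x)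
    linear_combination (-(1 : ℝ) / 2) * h3
  rw [intervalIntegral.integral_eq_sub_of_hasDerivAt h1]
  · simp
  · apply Continuous.intervalIntegrable
    fun_prop

theorem int_cos : ∫ θ in (0 : ℝ)..π, 2 * Real.cos (2 * θ) = 0 := by
  have h1 : ∀ x ∈ Set.uIcc 0 π, HasDerivAt (fun θ : ℝ => Real.sin (2 * θ))
      (2 * Real.cos (2 * x)) x := by
    intro x _
    have h2 := hd_sin x
    rw [mul_comm] at h2
    exact h2
  rw [intervalIntegral.integral_eq_sub_of_hasDerivAt h1]
  · simp
  · apply Continuous.intervalIntegrable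
    fun_prop

end LBAux

open LBAux in
/-- LB. The first corrector and its mean effect. -/
theorem mean_lower {a b c lam δ C₁ : ℝ} (hE : Ell a b c lam) (hl : 0 < lam) (hδ : 0 < δ)
    (hab : δ * (a + b) ≤ b - a) {u : ℝ → ℝ} (hu : Continuous u)
    (h1 : ∀ θ, Vth a b c θ * u θ / 2 = Real.sin (2 * θ)
      - ((a - b) * Real.sin (2 * θ) - 2 * c * Real.cos (2 * θ)) / 4 + C₁)
    (h0 : ∫ θ in (0 : ℝ)..π, u θ = 0) :
    |C₁| ≤ 1 ∧ δ * π / 2 ≤ ∫ θ in (0 : ℝ)..π, 2 * Real.sin (2 * θ) * u θ ∧
      ∀ x ∈ Set.Icc 0 π, |∫ θ in (0 : ℝ)..x, 2 * Real.sin (2 * θ) * u θ| ≤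
        8 * π / lam + (1 + 2 * π) * Real.log ((a + b) / lam) := by
  have hVl := V_lower hE
  have hVu := V_upper hE hl
  have hVp : ∀ θ, 0 < Vth a b c θ := fun θ => lt_of_lt_of_le hl (hVl θ)
  have hVc := V_cont a b c
  have hS : 0 < a + b := lt_of_lt_of_le (hVp 0) (hVu 0)
  have hSl : lam ≤ a + b := le_trans (hVl 0) (hVu 0)
  have ht : 0 < b - a := lt_of_lt_of_le (mul_pos hδ hS) hab
  obtain ⟨D, hD⟩ : ∃ D : ℝ → ℝ, D = fun θ =>
    (a - b) * Real.sin (2 * θ) - 2 * c * Real.cos (2 * θ) := ⟨_, rfl⟩
  have hDc : Continuous D := by rw [hD]; fun_prop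
  have hVd : ∀ x, HasDerivAt (Vth a b c) (D x) x := by
    intro x
    rw [hD]
    exact V_deriv a b c x
  -- the formula for `u`
  have hu1 : ∀ θ, u θ = 2 * ((Real.sin (2 * θ) + C₁) / Vth a b c θ)
      - (1 / 2) * (D θ / Vth a b c θ) := by
    intro θ
    have h2 := h1 θ
    have h3 := (hVp θ).ne'
    rw [hD]
    field_simp
    linarith
  obtain ⟨F, hF⟩ : ∃ F : ℝ → ℝ, F = fun θ => (Real.sin (2 * θ) + C₁) / Vth a b c θ := ⟨_, rfl⟩
  have hFc : Continuous F := by
    rw [hF]
    exact (by fun_prop : Continuous fun θ : ℝ => Real.sin (2 * θ) + C₁).div hVc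
      fun θ => (hVp θ).ne'
  obtain ⟨E, hEd⟩ : ∃ E : ℝ → ℝ, E = fun θ => D θ / Vth a b c θ := ⟨_, rfl⟩
  have hEc : Continuous E := by
    rw [hEd]
    exact hDc.div hVc fun θ => (hVp θ).ne'
  have hu2 : ∀ θ, u θ = 2 * F θ - (1 / 2) * E θ := by
    intro θ
    rw [hF, hEd]
    exact hu1 θ
  -- (1)
  have hlog : ∀ x, HasDerivAt (fun θ => Real.log (Vth a b c θ / lam)) (E x) x := by
    intro x
    have h2 := ((hVd x).div_const lam).log (by
      have := hVp x
      positivity)
    refine h2.congr_deriv ?_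
    rw [hEd]
    have h3 := (hVp x).ne'
    field_simp
  have hE0 : ∫ θ in (0 : ℝ)..π, E θ = 0 := by
    rw [intervalIntegral.integral_eq_sub_of_hasDerivAt (fun x _ => hlog x)
      (hEc.intervalIntegrable _ _), V_pi, sub_self]
  have hF0 : ∫ θ in (0 : ℝ)..π, F θ = 0 := by
    have h2 : ∫ θ in (0 : ℝ)..π, u θ = 2 * (∫ θ in (0 : ℝ)..π, F θ)
        - (1 / 2) * ∫ θ in (0 : ℝ)..π, E θ := by
      rw [← intervalIntegral.integral_const_mul, ← intervalIntegral.integral_const_mul,
        ← intervalIntegral.integral_sub]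
      · exact intervalIntegral.integral_congr fun θ _ => hu2 θ
      · exact (continuous_const.mul hFc).intervalIntegrable _ _
      · exact (continuous_const.mul hEc).intervalIntegrable _ _
    rw [h0, hE0] at h2
    linarith
  have hC : |C₁| ≤ 1 := by
    rw [abs_le]
    constructor
    · by_contra hcon
      push Not at hcon
      have h2 : 0 < ∫ θ in (0 : ℝ)..π, -F θ := by
        apply intervalIntegral.intervalIntegral_pos_of_pos
        · exact hFc.neg.intervalIntegrable _ _
        · intro θ
          rw [hF]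
          have h3 := Real.sin_le_one (2 * θ)
          have h4 : (Real.sin (2 * θ) + C₁) / Vth a b c θ < 0 :=
            div_neg_of_neg_of_pos (by linarith) (hVp θ)
          simp only
          linarith
        · exact Real.pi_pos
      rw [intervalIntegral.integral_neg, hF0] at h2
      simp at h2
    · by_contra hcon
      push Not at hcon
      have h2 : 0 < ∫ θ in (0 : ℝ)..π, F θ := by
        apply intervalIntegral.intervalIntegral_pos_of_pos
        · exact hFc.intervalIntegrable _ _
        · intro θ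
          rw [hF]
          have h3 := Real.neg_one_le_sin (2 * θ)
          exact div_pos (by linarith) (hVp θ)
        · exact Real.pi_pos
      rw [hF0] at h2
      exact lt_irrefl _ h2
  -- the logarithm
  obtain ⟨G, hG⟩ : ∃ G : ℝ → ℝ, G = fun θ => Real.log (Vth a b c θ / lam) := ⟨_, rfl⟩
  have hGc : Continuous G := by
    rw [hG]
    exact (hVc.div_const lam).log fun θ => by
      have := hVp θ
      positivity
  have hG0 : ∀ θ, 0 ≤ G θ := by
    intro θ
    rw [hG]
    apply Real.log_nonneg
    rw [le_div_iff₀ hl, one_mul]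
    exact hVl θ
  have hG1 : ∀ θ, G θ ≤ Real.log ((a + b) / lam) := by
    intro θ
    rw [hG]
    apply Real.log_le_log
    · have := hVp θ
      positivity
    · exact div_le_div_of_nonneg_right (hVu θ) hl.le
  have hL0 : 0 ≤ Real.log ((a + b) / lam) := le_trans (hG0 0) (hG1 0)
  -- integration by parts
  have hparts : ∀ x : ℝ, ∫ θ in (0 : ℝ)..x, Real.sin (2 * θ) * E θ =
      Real.sin (2 * x) * G x - ∫ θ in (0 : ℝ)..x, 2 * Real.cos (2 * θ) * G θ := by
    intro x
    have h2 : ∀ y ∈ Set.uIcc 0 x, HasDerivAt (fun θ => Real.sin (2 * θ) * G θ)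
        (2 * Real.cos (2 * y) * G y + Real.sin (2 * y) * E y) y := by
      intro y _
      have h3 := (hd_sin y).mul (show HasDerivAt G (E y) y by rw [hG]; exact hlog y)
      exact h3.congr_deriv (by ring)
    have i1 : IntervalIntegrable (fun θ => 2 * Real.cos (2 * θ) * G θ) volume 0 x :=
      ((by fun_prop : Continuous fun θ : ℝ => 2 * Real.cos (2 * θ)).mul hGc).intervalIntegrable _ _
    have i2 : IntervalIntegrable (fun θ => Real.sin (2 * θ) * E θ) volume 0 x :=
      ((by fun_prop : Continuous fun θ : ℝ => Real.sin (2 * θ)).mul hEc).intervalIntegrable _ _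
    have h4 := intervalIntegral.integral_eq_sub_of_hasDerivAt h2 (i1.add i2)
    rw [intervalIntegral.integral_add i1 i2] at h4
    rw [mul_zero, Real.sin_zero, zero_mul, sub_zero] at h4
    linarith
  -- the splitting
  have hsplit : ∀ x : ℝ, ∫ θ in (0 : ℝ)..x, 2 * Real.sin (2 * θ) * u θ =
      (∫ θ in (0 : ℝ)..x, 4 * (Real.sin (2 * θ) * F θ)) -
        ∫ θ in (0 : ℝ)..x, Real.sin (2 * θ) * E θ := by
    intro x
    rw [← intervalIntegral.integral_sub]
    · apply intervalIntegral.integral_congr
      intro θ _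
      simp only
      rw [hu2 θ]
      ring
    · exact (continuous_const.mul ((by fun_prop : Continuous fun θ : ℝ =>
        Real.sin (2 * θ)).mul hFc)).intervalIntegrable _ _
    · exact ((by fun_prop : Continuous fun θ : ℝ => Real.sin (2 * θ)).mul hEc).intervalIntegrable _ _
  refine ⟨hC, ?_, ?_⟩
  · -- (2)
    rw [hsplit π, hparts π, Real.sin_two_pi, zero_mul, zero_sub, sub_neg_eq_add]
    have h2 : 0 ≤ ∫ θ in (0 : ℝ)..π, 4 * (Real.sin (2 * θ) * F θ) := by
      have h3 : ∫ θ in (0 : ℝ)..π, 4 * (Real.sin (2 * θ) * F θ) =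
          (∫ θ in (0 : ℝ)..π, 4 * ((Real.sin (2 * θ) + C₁) * F θ))
            - 4 * C₁ * ∫ θ in (0 : ℝ)..π, F θ := by
        rw [← intervalIntegral.integral_const_mul, ← intervalIntegral.integral_sub]
        · apply intervalIntegral.integral_congr
          intro θ _
          simp only
          ring
        · exact (continuous_const.mul ((by fun_prop : Continuous fun θ : ℝ =>
            Real.sin (2 * θ) + C₁).mul hFc)).intervalIntegrable _ _
        · exact (continuous_const.mul hFc).intervalIntegrable _ _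
      rw [h3, hF0, mul_zero, sub_zero]
      apply intervalIntegral.integral_nonneg Real.pi_pos.le
      intro θ _
      rw [hF]
      have h4 : (Real.sin (2 * θ) + C₁) * ((Real.sin (2 * θ) + C₁) / Vth a b c θ) =
          (Real.sin (2 * θ) + C₁) ^ 2 / Vth a b c θ := by ring
      simp only
      rw [h4]
      have := hVp θ
      positivity
    have h5 : δ * π / 2 ≤ ∫ θ in (0 : ℝ)..π, 2 * Real.cos (2 * θ) * G θ := by
      have hA : ∀ θ, 0 < (a + b) - 2 * c * Real.sin (2 * θ) := by
        intro θ
        have h6 := V_two a b c θ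
        have h7 := V_two a b c (π / 2 - θ)
        have h8 : 2 * (π / 2 - θ) = π - 2 * θ := by ring
        rw [h8, Real.cos_pi_sub, Real.sin_pi_sub] at h7
        have h9 := hVp θ
        have h10 := hVp (π / 2 - θ)
        linarith
      have hA2 : ∀ θ, (a + b) - 2 * c * Real.sin (2 * θ) ≤ 2 * (a + b) := by
        intro θ
        have h6 := V_two a b c θ
        have h7 := V_two a b c (π / 2 - θ)
        have h8 : 2 * (π / 2 - θ) = π - 2 * θ := by ring
        rw [h8, Real.cos_pi_sub, Real.sin_pi_sub] at h7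
        have h9 := hVu θ
        have h10 := hVu (π / 2 - θ)
        linarith
      have hpt : ∀ θ, 2 * Real.cos (2 * θ) * Real.log ((a + b) - 2 * c * Real.sin (2 * θ))
          + (b - a) / (a + b) * Real.cos (2 * θ) ^ 2
            - Real.log (2 * lam) * (2 * Real.cos (2 * θ)) ≤ 2 * Real.cos (2 * θ) * G θ := by
        intro θ
        have h6 := V_two a b c θ
        have h7 : (a + b) - 2 * c * Real.sin (2 * θ) + (b - a) * Real.cos (2 * θ) =
          2 * Vth a b c θ := by linarith
        have h8 := pt_log (hA θ) (hA2 θ) (rfl : (b - a) * Real.cos (2 * θ) = _) ht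
          (by rw [h7]; have := hVp θ; positivity) (by rw [h7]; have := hVu θ; linarith)
        rw [h7] at h8
        have h9 : G θ = Real.log (2 * Vth a b c θ) - Real.log (2 * lam) := by
          rw [hG]
          simp only
          rw [Real.log_div (hVp θ).ne' hl.ne', Real.log_mul two_ne_zero (hVp θ).ne',
            Real.log_mul two_ne_zero hl.ne']
          ring
        rw [h9]
        have h10 : (b - a) * Real.cos (2 * θ) ^ 2 / (2 * (a + b)) =
            (b - a) / (a + b) * Real.cos (2 * θ) ^ 2 / 2 := by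
          field_simp
        rw [h10] at h8
        nlinarith [h8]
      have i1 : IntervalIntegrable (fun θ => 2 * Real.cos (2 * θ) *
          Real.log ((a + b) - 2 * c * Real.sin (2 * θ))) volume 0 π := by
        apply Continuous.intervalIntegrable
        exact (by fun_prop : Continuous fun θ : ℝ => 2 * Real.cos (2 * θ)).mul
          ((by fun_prop : Continuous fun θ : ℝ => (a + b) - 2 * c * Real.sin (2 * θ)).log
            fun θ => (hA θ).ne')
      have i2 : IntervalIntegrable (fun θ => (b - a) / (a + b) * Real.cos (2 * θ) ^ 2)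
          volume 0 π := by
        apply Continuous.intervalIntegrable
        fun_prop
      have i3 : IntervalIntegrable (fun θ => Real.log (2 * lam) * (2 * Real.cos (2 * θ)))
          volume 0 π := by
        apply Continuous.intervalIntegrable
        fun_prop
      have i4 : IntervalIntegrable (fun θ => 2 * Real.cos (2 * θ) * G θ) volume 0 π :=
        ((by fun_prop : Continuous fun θ : ℝ => 2 * Real.cos (2 * θ)).mul
          hGc).intervalIntegrable _ _
      have h11 := intervalIntegral.integral_mono_on Real.pi_pos.le ((i1.add i2).sub i3) i4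
        fun θ _ => hpt θ
      rw [intervalIntegral.integral_sub (i1.add i2) i3, intervalIntegral.integral_add i1 i2,
        int_log hA, intervalIntegral.integral_const_mul, int_cos_sq,
        intervalIntegral.integral_const_mul, int_cos, mul_zero, sub_zero, zero_add] at h11
      have h12 : δ ≤ (b - a) / (a + b) := by
        rw [le_div_iff₀ hS]
        exact hab
      have h13 := Real.pi_pos
      nlinarith [h11, mul_le_mul_of_nonneg_right h12 h13.le]
    linarith
  · -- (3)
    intro x hx
    rw [hsplit x, hparts x]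
    have h2 : |∫ θ in (0 : ℝ)..x, 4 * (Real.sin (2 * θ) * F θ)| ≤ 8 / lam * |x - 0| := by
      rw [← Real.norm_eq_abs]
      apply intervalIntegral.norm_integral_le_of_norm_le_const
      intro θ _
      rw [hF, Real.norm_eq_abs]
      simp only
      rw [abs_mul, abs_mul, abs_div, abs_of_pos (hVp θ)]
      have h3 := Real.abs_sin_le_one (2 * θ)
      have h4 : |Real.sin (2 * θ) + C₁| ≤ 2 := by
        refine le_trans (abs_add_le _ _) ?_
        linarith
      have h5 : |Real.sin (2 * θ) + C₁| / Vth a b c θ ≤ 2 / lam := by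
        apply div_le_div₀ (by norm_num) h4 hl (hVl θ)
      have h6 : 0 ≤ |Real.sin (2 * θ) + C₁| / Vth a b c θ := by
        have := hVp θ
        positivity
      have h7 : |Real.sin (2 * θ)| * (|Real.sin (2 * θ) + C₁| / Vth a b c θ) ≤ 1 * (2 / lam) :=
        mul_le_mul h3 h5 h6 zero_le_one
      have h8 : |(4 : ℝ)| = 4 := by norm_num
      rw [h8]
      calc 4 * (|Real.sin (2 * θ)| * (|Real.sin (2 * θ) + C₁| / Vth a b c θ))
          ≤ 4 * (1 * (2 / lam)) := by linarith
        _ = 8 / lam := by ring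
    have h9 : |∫ θ in (0 : ℝ)..x, 2 * Real.cos (2 * θ) * G θ| ≤
        2 * Real.log ((a + b) / lam) * |x - 0| := by
      rw [← Real.norm_eq_abs]
      apply intervalIntegral.norm_integral_le_of_norm_le_const
      intro θ _
      rw [Real.norm_eq_abs, abs_mul, abs_mul, abs_of_nonneg (hG0 θ)]
      have h3 := Real.abs_cos_le_one (2 * θ)
      have h8 : |(2 : ℝ)| = 2 := by norm_num
      rw [h8]
      have h10 : 2 * |Real.cos (2 * θ)| ≤ 2 := by linarith
      exact mul_le_mul h10 (hG1 θ) (hG0 θ) (by norm_num)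
    have h10 : |Real.sin (2 * x) * G x| ≤ Real.log ((a + b) / lam) := by
      rw [abs_mul, abs_of_nonneg (hG0 x)]
      calc |Real.sin (2 * x)| * G x ≤ 1 * Real.log ((a + b) / lam) :=
            mul_le_mul (Real.abs_sin_le_one _) (hG1 x) (hG0 x) zero_le_one
        _ = _ := one_mul _
    rw [sub_zero, abs_of_nonneg hx.1] at h2 h9
    have h11 : 8 / lam * x ≤ 8 * π / lam := by
      have : 8 / lam * x ≤ 8 / lam * π := mul_le_mul_of_nonneg_left hx.2 (by positivity)
      calc 8 / lam * x ≤ 8 / lam * π := this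
        _ = 8 * π / lam := by ring
    have h12 : 2 * Real.log ((a + b) / lam) * x ≤ 2 * Real.log ((a + b) / lam) * π :=
      mul_le_mul_of_nonneg_left hx.2 (by positivity)
    have h13 : ∀ p q r : ℝ, |p - (q - r)| ≤ |p| + |q| + |r| := by
      intro p q r
      have e1 := abs_sub p (q - r)
      have e2 := abs_sub q r
      linarith
    refine le_trans (h13 _ _ _) ?_
    nlinarith [h2, h9, h10, h11, h12]

end

end Pool.Agent.SLE
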