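import Pool.Agent.Lib.MP_c17912_pr_LN.LB

set_option autoImplicit false

open MeasureTheory Filter
open scoped Topology Real

namespace Pool.Agent.SLE

noncomputable section

private theorem LC_deriv {f : ℝ → ℝ} (h : ∀ n : ℕ, ContDiff ℝ n f) (n : ℕ) :
    ContDiff ℝ n (deriv f) := by
  have h1 : ContDiff ℝ ((n : WithTop ℕ∞) + 1) f := by exact_mod_cast h (n + 1)
  exact (contDiff_succ_iff_deriv.1 h1).2.2

private theorem LC_diff {f : ℝ → ℝ} (h : ∀ n : ℕ, ContDiff ℝ n f) : Differentiable ℝ f := by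
  have h1 : ContDiff ℝ 1 f := by exact_mod_cast h 1
  exact h1.differentiable (by norm_num)

private theorem LC_cont {f : ℝ → ℝ} (h : ∀ n : ℕ, ContDiff ℝ n f) : Continuous f :=
  (LC_diff h).continuous

private theorem LC_per_deriv {f : ℝ → ℝ} {p : ℝ} (h : Function.Periodic f p) :
    Function.Periodic (deriv f) p := by
  intro x
  have h1 : (fun y => f (y + p)) = f := funext h
  have h2 := deriv_comp_add_const f p x
  rw [← h2, h1]

private theorem LC_V_lower {a b c lam : ℝ} (hE : Ell a b c lam) (θ : ℝ) :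
    lam ≤ Vth a b c θ := by
  have h := hE (Real.sin θ) (-Real.cos θ)
  have h1 := Real.sin_sq_add_cos_sq θ
  unfold Vth
  have h2 : lam * (Real.sin θ ^ 2 + (-Real.cos θ) ^ 2) = lam := by
    rw [neg_sq, h1, mul_one]
  rw [h2] at h
  linarith

private theorem LC_V_smooth (a b c : ℝ) (n : ℕ) :
    ContDiff ℝ n (fun θ => Vth a b c θ / 2) := by
  unfold Vth
  have hs : ContDiff ℝ n Real.sin := Real.contDiff_sin
  have hc : ContDiff ℝ n Real.cos := Real.contDiff_cos
  fun_prop

private theorem LC_V_per (a b c : ℝ) :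
    Function.Periodic (fun θ => Vth a b c θ / 2) π := by
  intro θ
  simp only [Vth, Real.sin_add_pi, Real.cos_add_pi]
  ring

private theorem LC_V_hasDeriv (a b c θ : ℝ) :
    HasDerivAt (fun θ => Vth a b c θ / 2)
      (((a - b) * Real.sin (2 * θ) - 2 * c * Real.cos (2 * θ)) / 2) θ := by
  have hs := Real.hasDerivAt_sin θ
  have hc := Real.hasDerivAt_cos θ
  have h := ((((hs.pow 2).const_mul a).sub ((hs.mul hc).const_mul (2 * c))).add
    ((hc.pow 2).const_mul b)).div_const 2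
  refine (h.congr_deriv ?_)
  rw [Real.sin_two_mul, Real.cos_two_mul']
  simp
  ring

private theorem LC_H1_int (a b c x : ℝ) :
    ∫ t in (0 : ℝ)..x, H1 a b c t = Real.sin (2 * x)
      - ((a - b) * Real.sin (2 * x) - 2 * c * Real.cos (2 * x)) / 4 - c / 2 := by
  have hs : ∀ t : ℝ, HasDerivAt (fun t => Real.sin (2 * t)) (Real.cos (2 * t) * 2) t := by
    intro t
    have h1 : HasDerivAt (fun t : ℝ => 2 * t) 2 t := by
      simpa using (hasDerivAt_id t).const_mul (2 : ℝ)
    exact h1.sin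
  have hc : ∀ t : ℝ, HasDerivAt (fun t => Real.cos (2 * t)) (-Real.sin (2 * t) * 2) t := by
    intro t
    have h1 : HasDerivAt (fun t : ℝ => 2 * t) 2 t := by
      simpa using (hasDerivAt_id t).const_mul (2 : ℝ)
    exact h1.cos
  have hd : ∀ t ∈ Set.uIcc 0 x, HasDerivAt (fun x => Real.sin (2 * x)
      - ((a - b) * Real.sin (2 * x) - 2 * c * Real.cos (2 * x)) / 4) (H1 a b c t) t := by
    intro t _
    have h := (hs t).sub ((((hs t).const_mul (a - b)).sub ((hc t).const_mul (2 * c))).div_const 4)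
    refine h.congr_deriv ?_
    unfold H1
    ring
  have hi : IntervalIntegrable (H1 a b c) volume 0 x := by
    have hcont : Continuous (H1 a b c) := by
      unfold H1
      fun_prop
    exact hcont.intervalIntegrable 0 x
  rw [intervalIntegral.integral_eq_sub_of_hasDerivAt hd hi]
  simp
  ring

private theorem LC_cos_int (x : ℝ) :
    ∫ t in (0 : ℝ)..x, 2 * Real.cos (2 * t) = Real.sin (2 * x) := by
  have hd : ∀ t ∈ Set.uIcc 0 x,
      HasDerivAt (fun x => Real.sin (2 * x)) (2 * Real.cos (2 * t)) t := by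
    intro t _
    have h1 : HasDerivAt (fun t : ℝ => 2 * t) 2 t := by
      simpa using (hasDerivAt_id t).const_mul (2 : ℝ)
    have h := h1.sin
    refine h.congr_deriv ?_
    ring
  have hi : IntervalIntegrable (fun t => 2 * Real.cos (2 * t)) volume 0 x := by
    have hcont : Continuous (fun t => 2 * Real.cos (2 * t)) := by fun_prop
    exact hcont.intervalIntegrable 0 x
  rw [intervalIntegral.integral_eq_sub_of_hasDerivAt hd hi]
  simp

private theorem LC_H1_smooth (a b c : ℝ) (n : ℕ) : ContDiff ℝ n (H1 a b c) := by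
  have hs : ContDiff ℝ n Real.sin := Real.contDiff_sin
  have hc : ContDiff ℝ n Real.cos := Real.contDiff_cos
  have h2 : ContDiff ℝ n (fun θ : ℝ => 2 * θ) := by fun_prop
  have hs2 := hs.comp h2
  have hc2 := hc.comp h2
  have h := (contDiff_const (c := (2 : ℝ))).mul hc2 |>.sub
    (((contDiff_const (c := a - b)).mul hc2).add
      ((contDiff_const (c := 2 * c)).mul hs2) |>.div_const 2)
  exact h

private theorem LC_sin_two_per (θ : ℝ) : Real.sin (2 * (θ + π)) = Real.sin (2 * θ) := by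
  rw [mul_add, Real.sin_add_two_pi]

private theorem LC_cos_two_per (θ : ℝ) : Real.cos (2 * (θ + π)) = Real.cos (2 * θ) := by
  rw [mul_add, Real.cos_add_two_pi]

/-- The size of `κ₀`. -/
private theorem LC_kappa {δ lam S : ℝ} (hδ : 0 < δ) (h1 : 1 ≤ lam) (h2 : (2144 / δ) ^ 2 ≤ lam)
    (hS : 0 < S) (hS2 : S ≤ Real.exp (lam ^ (1 / 7 : ℝ))) :
    16 * (8 * π / lam + (1 + 2 * π) * Real.log (S / lam)) / lam + 8 / lam ≤ δ / 4 := by
  have hl : 0 < lam := by linarith
  have hlog : Real.log (S / lam) ≤ lam ^ (1 / 7 : ℝ) := by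
    rw [Real.log_div hS.ne' hl.ne']
    have h3 : 0 ≤ Real.log lam := Real.log_nonneg h1
    have h4 : Real.log S ≤ lam ^ (1 / 7 : ℝ) := by
      rw [← Real.log_exp (lam ^ (1 / 7 : ℝ))]
      exact Real.log_le_log hS hS2
    linarith
  have hx1 : 1 ≤ lam ^ (1 / 7 : ℝ) := Real.one_le_rpow h1 (by norm_num)
  have hx2 : lam ^ (1 / 7 : ℝ) ≤ Real.sqrt lam := by
    rw [Real.sqrt_eq_rpow]
    exact Real.rpow_le_rpow_of_exponent_le h1 (by norm_num)
  set X := lam ^ (1 / 7 : ℝ) with hX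
  have hpi := Real.pi_pos
  have hpi2 := Real.pi_lt_d2
  have h5 : 8 * π / lam ≤ 8 * π := by
    rw [div_le_iff₀ hl]
    nlinarith
  have h6 : 8 * π / lam + (1 + 2 * π) * Real.log (S / lam) ≤ 33 * X := by
    have : (1 + 2 * π) * Real.log (S / lam) ≤ (1 + 2 * π) * X :=
      mul_le_mul_of_nonneg_left hlog (by positivity)
    nlinarith
  have h7 : 2144 / δ ≤ Real.sqrt lam := Real.le_sqrt_of_sq_le h2
  have h8 : Real.sqrt lam * Real.sqrt lam = lam := Real.mul_self_sqrt hl.le
  have h9 : 536 * Real.sqrt lam ≤ δ / 4 * lam := by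
    have h10 : 2144 ≤ Real.sqrt lam * δ := by
      rwa [div_le_iff₀ hδ] at h7
    have h11 : 0 ≤ Real.sqrt lam := Real.sqrt_nonneg _
    have h12 : 536 * Real.sqrt lam ≤ (Real.sqrt lam * δ) / 4 * Real.sqrt lam := by
      nlinarith
    have h13 : (Real.sqrt lam * δ) / 4 * Real.sqrt lam
        = δ / 4 * (Real.sqrt lam * Real.sqrt lam) := by
      ring
    rw [h13, h8] at h12
    exact h12
  rw [← add_div, div_le_iff₀ hl]
  nlinarith

/-- Algebra of the operator. -/
private theorem LC_op {a b c θ : ℝ} {ψ : ℝ → ℝ} {G : ℝ}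
    (h : deriv (fun θ => Vth a b c θ / 2) θ * deriv ψ θ
      + (fun θ => Vth a b c θ / 2) θ * deriv (deriv ψ) θ = G) :
    Vth a b c θ * deriv (deriv ψ) θ / 2 + Bth a b c θ * deriv ψ θ
      = G - 2 * Real.sin (2 * θ) * deriv ψ θ := by
  rw [(LC_V_hasDeriv a b c θ).deriv] at h
  rw [← h]
  unfold Bth
  ring

/-- LC. The sub-solutions for large noise in the cone `δ (a + b) ≤ b - a`. -/
theorem hasAng_gen (δ : ℝ) (hδ : 0 < δ) : ∃ κ₀ > (0 : ℝ), ∀ a b c lam : ℝ, κ₀ ≤ lam →
    Ell a b c lam → a + b ≤ Real.exp (lam ^ (1 / 7 : ℝ)) → δ * (a + b) ≤ b - a →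
    HasAng a b c := by
  refine ⟨max 1 ((2144 / δ) ^ 2), lt_max_of_lt_left one_pos, ?_⟩
  intro a b c lam hlam hE hS hab
  have hl1 : 1 ≤ lam := le_trans (le_max_left _ _) hlam
  have hl2 : (2144 / δ) ^ 2 ≤ lam := le_trans (le_max_right _ _) hlam
  have hl : 0 < lam := by linarith
  have hSpos : 0 < a + b := by
    have h1 := hE.le_a
    have h2 := hE.le_b
    linarith
  have hκ := LC_kappa hδ hl1 hl2 hSpos hS
  have hpi := Real.pi_pos
  set g₀ := 8 * π / lam + (1 + 2 * π) * Real.log ((a + b) / lam) with hg₀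
  have hVpos : ∀ x, 0 < (fun θ => Vth a b c θ / 2) x := by
    intro x
    have := LC_V_lower hE x
    show 0 < Vth a b c x / 2
    linarith
  -- the first corrector
  obtain ⟨ψA, C₀, hA1, hA2, hA3, hA4, -⟩ := per_solve (LC_V_smooth a b c) (LC_H1_smooth a b c)
    (LC_V_per a b c) (fun θ => by simp only [H1, LC_sin_two_per, LC_cos_two_per]) hVpos
    (by rw [LC_H1_int]; simp; ring)
  have hA1' := LC_deriv hA1
  have hucont : Continuous (deriv ψA) := LC_cont hA1'
  have hu1 : ∀ θ, Vth a b c θ * deriv ψA θ / 2 = Real.sin (2 * θ)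
      - ((a - b) * Real.sin (2 * θ) - 2 * c * Real.cos (2 * θ)) / 4 + (C₀ - c / 2) := by
    intro θ
    have h := hA3 θ
    rw [LC_H1_int] at h
    have h' : Vth a b c θ / 2 * deriv ψA θ = Real.sin (2 * θ)
      - ((a - b) * Real.sin (2 * θ) - 2 * c * Real.cos (2 * θ)) / 4 - c / 2 + C₀ := h
    linarith
  have hu0 : ∫ θ in (0 : ℝ)..π, deriv ψA θ = 0 := by
    rw [intervalIntegral.integral_deriv_eq_sub (fun x _ => (LC_diff hA1) x)
      (hucont.intervalIntegrable 0 π)]
    have := hA2 0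
    rw [zero_add] at this
    rw [this, sub_self]
  obtain ⟨-, hm, hg⟩ := mean_lower hE hl hδ hab hucont hu1 hu0
  rw [← hg₀] at hg
  set M := ∫ θ in (0 : ℝ)..π, 2 * Real.sin (2 * θ) * deriv ψA θ with hM
  have hMg : |M| ≤ g₀ := hg π ⟨hpi.le, le_rfl⟩
  have hg₀nn : 0 ≤ g₀ := le_trans (abs_nonneg _) hMg
  have hm1 : δ / 2 ≤ M / π := by
    rw [le_div_iff₀ hpi]
    linarith
  -- the second corrector
  have hGBs : ∀ n : ℕ, ContDiff ℝ n (fun θ => 2 * Real.sin (2 * θ) * deriv ψA θ - M / π) := by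
    intro n
    have hs : ContDiff ℝ n Real.sin := Real.contDiff_sin
    have h2 : ContDiff ℝ n (fun θ : ℝ => 2 * θ) := by fun_prop
    have hs2 := hs.comp h2
    exact (((contDiff_const (c := (2 : ℝ))).mul hs2).mul (hA1' n)).sub contDiff_const
  have hGBint : ∀ x, ∫ θ in (0 : ℝ)..x, (2 * Real.sin (2 * θ) * deriv ψA θ - M / π)
      = (∫ θ in (0 : ℝ)..x, 2 * Real.sin (2 * θ) * deriv ψA θ) - M / π * x := by
    intro x
    have hc1 : Continuous (fun θ => 2 * Real.sin (2 * θ) * deriv ψA θ) := by fun_prop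
    rw [intervalIntegral.integral_sub (hc1.intervalIntegrable 0 x) intervalIntegrable_const,
      intervalIntegral.integral_const]
    simp
    ring
  obtain ⟨ψB, C₁, hB1, hB2, hB3, hB4, hB5⟩ := per_solve (LC_V_smooth a b c) hGBs
    (LC_V_per a b c) (fun θ => by simp only [LC_sin_two_per, LC_per_deriv hA2 θ]) hVpos
    (by rw [hGBint, ← hM]; field_simp; ring)
  have hB6 : ∀ x, |deriv ψB x| ≤ 8 * g₀ / lam := by
    intro x
    have h1 := (hB5 (2 * g₀) (by
      intro y hy
      rw [hGBint]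
      have h2 := hg y hy
      have h3 : |M / π * y| ≤ g₀ := by
        rw [abs_mul, abs_div, abs_of_pos hpi, abs_of_nonneg hy.1]
        have h4 : |M| / π * y ≤ |M| / π * π := mul_le_mul_of_nonneg_left hy.2 (by positivity)
        rw [div_mul_cancel₀ _ hpi.ne'] at h4
        linarith
      calc |(∫ θ in (0 : ℝ)..y, 2 * Real.sin (2 * θ) * deriv ψA θ) - M / π * y|
          ≤ |∫ θ in (0 : ℝ)..y, 2 * Real.sin (2 * θ) * deriv ψA θ| + |M / π * y| := abs_sub _ _
        _ ≤ 2 * g₀ := by linarith)).2 x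
    have h2 := LC_V_lower hE x
    have h3 : |Vth a b c x / 2 * deriv ψB x| ≤ 2 * (2 * g₀) := h1
    rw [abs_mul, abs_of_pos (by linarith : (0 : ℝ) < Vth a b c x / 2)] at h3
    rw [le_div_iff₀ hl]
    have h4 := abs_nonneg (deriv ψB x)
    nlinarith
  -- the third corrector
  obtain ⟨ψC, C₂, hC1, hC2, hC3, hC4, hC5⟩ := per_solve (G := fun θ => 2 * Real.cos (2 * θ))
    (LC_V_smooth a b c) (by
      intro n
      have hs : ContDiff ℝ n Real.cos := Real.contDiff_cos
      have h2 : ContDiff ℝ n (fun θ : ℝ => 2 * θ) := by fun_prop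
      exact (contDiff_const (c := (2 : ℝ))).mul (hs.comp h2))
    (LC_V_per a b c) (fun θ => by simp only [LC_cos_two_per]) hVpos
    (by rw [LC_cos_int]; exact Real.sin_two_pi)
  have hC6 : ∀ x, |deriv ψC x| ≤ 4 / lam := by
    intro x
    have h1 := (hC5 1 (by
      intro y hy
      rw [LC_cos_int]
      exact Real.abs_sin_le_one _)).2 x
    have h2 := LC_V_lower hE x
    have h3 : |Vth a b c x / 2 * deriv ψC x| ≤ 2 * 1 := h1
    rw [abs_mul, abs_of_pos (by linarith : (0 : ℝ) < Vth a b c x / 2)] at h3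
    rw [le_div_iff₀ hl]
    have h4 := abs_nonneg (deriv ψC x)
    nlinarith
  have dA := LC_diff hA1
  have dB := LC_diff hB1
  have dC := LC_diff hC1
  have dA' := LC_diff hA1'
  have dB' := LC_diff (LC_deriv hB1)
  have dC' := LC_diff (LC_deriv hC1)
  have dAB : deriv (fun x => ψA x + ψB x) = fun x => deriv ψA x + deriv ψB x :=
    funext fun x => deriv_fun_add (dA x) (dB x)
  have dAB2 : deriv (fun x => deriv ψA x + deriv ψB x)
      = fun x => deriv (deriv ψA) x + deriv (deriv ψB) x :=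
    funext fun x => deriv_fun_add (dA' x) (dB' x)
  have dABC : deriv (fun x => ψA x + ψB x + ψC x)
      = fun x => deriv ψA x + deriv ψB x + deriv ψC x := by
    funext x
    exact (((dA x).hasDerivAt.add (dB x).hasDerivAt).add (dC x).hasDerivAt).deriv
  have dABC2 : deriv (fun x => deriv ψA x + deriv ψB x + deriv ψC x)
      = fun x => deriv (deriv ψA) x + deriv (deriv ψB) x + deriv (deriv ψC) x := by
    funext x
    exact (((dA' x).hasDerivAt.add (dB' x).hasDerivAt).add (dC' x).hasDerivAt).deriv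
  have opA : ∀ θ, Vth a b c θ * deriv (deriv ψA) θ / 2 + Bth a b c θ * deriv ψA θ
      = H1 a b c θ - 2 * Real.sin (2 * θ) * deriv ψA θ := fun θ => LC_op (hA4 θ)
  have opB : ∀ θ, Vth a b c θ * deriv (deriv ψB) θ / 2 + Bth a b c θ * deriv ψB θ
      = 2 * Real.sin (2 * θ) * deriv ψA θ - M / π - 2 * Real.sin (2 * θ) * deriv ψB θ :=
    fun θ => LC_op (hB4 θ)
  have opC : ∀ θ, Vth a b c θ * deriv (deriv ψC) θ / 2 + Bth a b c θ * deriv ψC θ
      = 2 * Real.cos (2 * θ) - 2 * Real.sin (2 * θ) * deriv ψC θ :=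
    fun θ => LC_op (hC4 θ)
  have bB : ∀ θ, -(2 * Real.sin (2 * θ) * deriv ψB θ) ≤ 16 * g₀ / lam := by
    intro θ
    have h1 : |2 * Real.sin (2 * θ) * deriv ψB θ| ≤ 2 * (8 * g₀ / lam) := by
      rw [abs_mul, abs_mul, abs_two]
      have h2 := Real.abs_sin_le_one (2 * θ)
      have h3 := hB6 θ
      have h4 := abs_nonneg (deriv ψB θ)
      have h5 := abs_nonneg (Real.sin (2 * θ))
      nlinarith
    have h6 := neg_abs_le (2 * Real.sin (2 * θ) * deriv ψB θ)
    have h7 : 2 * (8 * g₀ / lam) = 16 * g₀ / lam := by ring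
    linarith
  have bC : ∀ θ, -(2 * Real.sin (2 * θ) * deriv ψC θ) ≤ 8 / lam := by
    intro θ
    have h1 : |2 * Real.sin (2 * θ) * deriv ψC θ| ≤ 2 * (4 / lam) := by
      rw [abs_mul, abs_mul, abs_two]
      have h2 := Real.abs_sin_le_one (2 * θ)
      have h3 := hC6 θ
      have h4 := abs_nonneg (deriv ψC θ)
      have h5 := abs_nonneg (Real.sin (2 * θ))
      nlinarith
    have h6 := neg_abs_le (2 * Real.sin (2 * θ) * deriv ψC θ)
    have h7 : 2 * (4 / lam) = 8 / lam := by ring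
    linarith
  have h8l : 0 < 8 / lam := by positivity
  refine ⟨⟨fun x => ψA x + ψB x, ?_, ?_, ?_⟩,
    ⟨fun x => ψA x + ψB x + ψC x, δ / 4, by positivity, ?_, ?_, ?_⟩⟩
  · have h1 : ContDiff ℝ 3 ψA := by exact_mod_cast hA1 3
    have h2 : ContDiff ℝ 3 ψB := by exact_mod_cast hB1 3
    exact h1.add h2
  · have h1 := hA2.nat_mul 2
    have h2 := hB2.nat_mul 2
    exact_mod_cast h1.add h2
  · intro θ
    rw [dAB, dAB2]
    have h1 := opA θ
    have h2 := opB θ
    have h3 := bB θ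
    show Vth a b c θ * (deriv (deriv ψA) θ + deriv (deriv ψB) θ) / 2
      + Bth a b c θ * (deriv ψA θ + deriv ψB θ) ≤ H1 a b c θ - 0
    nlinarith
  · have h1 : ContDiff ℝ 3 ψA := by exact_mod_cast hA1 3
    have h2 : ContDiff ℝ 3 ψB := by exact_mod_cast hB1 3
    have h3 : ContDiff ℝ 3 ψC := by exact_mod_cast hC1 3
    exact (h1.add h2).add h3
  · have h1 := hA2.nat_mul 2
    have h2 := hB2.nat_mul 2
    have h3 := hC2.nat_mul 2
    exact_mod_cast (h1.add h2).add h3
  · intro θ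
    rw [dABC, dABC2]
    have h1 := opA θ
    have h2 := opB θ
    have h3 := bB θ
    have h4 := opC θ
    have h5 := bC θ
    show Vth a b c θ * (deriv (deriv ψA) θ + deriv (deriv ψB) θ + deriv (deriv ψC) θ) / 2
      + Bth a b c θ * (deriv ψA θ + deriv ψB θ + deriv ψC θ)
        ≤ (H1 a b c θ + 2 * Real.cos (2 * θ)) - δ / 4
    nlinarith

end

end Pool.Agent.SLE
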