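import Pool.Agent.Lib.MP_c17912_pr_LN.B2
import Mathlib.Analysis.Complex.CauchyIntegral

set_option autoImplicit false

open MeasureTheory Filter
open scoped Topology Real

namespace Pool.Agent.SLE

noncomputable section

namespace LD1Aux

theorem ww_eq (θ : ℝ) : ww θ = circleMap 0 1 (2 * θ) := by
  simp [ww, circleMap]

theorem cauchy2 {f : ℂ → ℂ} {R : ℝ} (hR : 1 < R)
    (hf : DifferentiableOn ℂ f (Metric.ball 0 R)) {s : ℂ} (hs : ‖s‖ < 1) :
    ∫ x in (0 : ℝ)..2 * π, f (circleMap 0 1 x) * (circleMap 0 1 x / (circleMap 0 1 x - s))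
      = 2 * π * f s := by
  have hsub : Metric.closedBall (0 : ℂ) 1 ⊆ Metric.ball 0 R :=
    Metric.closedBall_subset_ball hR
  have hsub2 : Metric.ball (0 : ℂ) 1 ⊆ Metric.ball 0 R :=
    Metric.ball_subset_closedBall.trans hsub
  have h := Complex.circleIntegral_sub_inv_smul_of_differentiable_on_off_countable
    (R := 1) (c := 0) (w := s) (f := f) (s := ∅) Set.countable_empty
    (by rw [mem_ball_zero_iff]; exact hs) (hf.continuousOn.mono hsub)
    (fun x hx => hf.differentiableAt (Metric.isOpen_ball.mem_nhds (hsub2 hx.1)))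
  rw [circleIntegral] at h
  have e : ∀ x : ℝ, deriv (circleMap 0 1) x • ((circleMap 0 1 x - s)⁻¹ • f (circleMap 0 1 x))
      = Complex.I * (f (circleMap 0 1 x) * (circleMap 0 1 x / (circleMap 0 1 x - s))) := by
    intro x
    rw [deriv_circleMap, smul_eq_mul, smul_eq_mul, div_eq_mul_inv]
    ring
  simp only [e] at h
  rw [intervalIntegral.integral_const_mul, smul_eq_mul] at h
  have h2 : Complex.I * (∫ x in (0 : ℝ)..2 * π,
      f (circleMap 0 1 x) * (circleMap 0 1 x / (circleMap 0 1 x - s)))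
      = Complex.I * (2 * π * f s) := by
    rw [h]
    ring
  exact mul_left_cancel₀ Complex.I_ne_zero h2

end LD1Aux

open LD1Aux

/-- LD1. The Cauchy formula on the unit circle. -/
theorem mean_cauchy {f : ℂ → ℂ} {R : ℝ} (hR : 1 < R)
    (hf : DifferentiableOn ℂ f (Metric.ball 0 R)) {s : ℂ} (hs : ‖s‖ < 1) :
    ∫ θ in (0 : ℝ)..π, f (ww θ) * (ww θ / (ww θ - s)) = π * f s := by
  have h := cauchy2 hR hf hs
  have h3 := intervalIntegral.integral_comp_mul_left (a := 0) (b := π)
    (fun x => f (circleMap 0 1 x) * (circleMap 0 1 x / (circleMap 0 1 x - s)))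
    (two_ne_zero (α := ℝ))
  rw [mul_zero, h] at h3
  simp only [ww_eq]
  rw [h3, Complex.real_smul]
  push_cast
  ring

/-- LD1. The mean value property on the unit circle. -/
theorem mean_hol {f : ℂ → ℂ} {R : ℝ} (hR : 1 < R)
    (hf : DifferentiableOn ℂ f (Metric.ball 0 R)) :
    ∫ θ in (0 : ℝ)..π, f (ww θ) = π * f 0 := by
  have h := mean_cauchy hR hf (s := 0) (by rw [norm_zero]; exact one_pos)
  rw [← h]
  congr 1
  funext θ
  have h0 : ww θ ≠ 0 := Complex.exp_ne_zero _
  rw [sub_zero, div_self h0, mul_one]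

end

end Pool.Agent.SLE
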