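import Pool.Agent.Lib.MP_c17912_pr_LN.LD1

set_option autoImplicit false

open MeasureTheory Filter
open scoped Topology Real ComplexConjugate

namespace Pool.Agent.SLE

noncomputable section

/-- The function `-log (1 - conj s w) / conj s` on the unit circle. -/
def hh (s : ℂ) (θ : ℝ) : ℂ := -Complex.log (1 - conj s * ww θ) / conj s

/-- The function `2 w + 2 (1 - conj s ^ 2) w / (1 - conj s w)` on the unit circle. -/
def HH (s : ℂ) (θ : ℝ) : ℂ :=
  2 * ww θ + 2 * (1 - conj s ^ 2) * (ww θ / (1 - conj s * ww θ))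

private theorem LD2_norm (θ : ℝ) : ‖ww θ‖ = 1 := by
  unfold ww
  exact Complex.norm_exp_ofReal_mul_I _

private theorem LD2_ne (θ : ℝ) : ww θ ≠ 0 := Complex.exp_ne_zero _

private theorem LD2_cont : Continuous ww := by
  unfold ww
  fun_prop

/-- the radius -/
private theorem LD2_R {s : ℂ} (hs : ‖s‖ < 1) : 1 < 2 / (1 + ‖s‖) := by
  have h0 := norm_nonneg s
  rw [lt_div_iff₀ (by linarith)]
  linarith

private theorem LD2_lt {s w : ℂ} (hs : ‖s‖ < 1) (hw : w ∈ Metric.ball (0 : ℂ) (2 / (1 + ‖s‖))) :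
    ‖conj s * w‖ < 1 := by
  have h0 := norm_nonneg s
  rw [mem_ball_zero_iff] at hw
  rw [norm_mul, RCLike.norm_conj]
  rcases h0.eq_or_lt with h1 | h1
  · rw [← h1, zero_mul]
    exact one_pos
  · have h2 : ‖s‖ * ‖w‖ < ‖s‖ * (2 / (1 + ‖s‖)) := mul_lt_mul_of_pos_left hw h1
    have h3 : ‖s‖ * (2 / (1 + ‖s‖)) ≤ 1 := by
      rw [mul_div_assoc', div_le_one (by linarith)]
      linarith
    linarith

private theorem LD2_slit {z : ℂ} (hz : ‖z‖ < 1) : 1 - z ∈ Complex.slitPlane := by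
  refine Or.inl ?_
  rw [Complex.sub_re, Complex.one_re]
  have := Complex.re_le_norm z
  linarith

private theorem LD2_mem {s : ℂ} (hs : ‖s‖ < 1) (θ : ℝ) :
    ww θ ∈ Metric.ball (0 : ℂ) (2 / (1 + ‖s‖)) := by
  rw [mem_ball_zero_iff, LD2_norm]
  exact LD2_R hs

private theorem LD2_diffH {s : ℂ} (hs : ‖s‖ < 1) :
    DifferentiableOn ℂ (fun w : ℂ => 2 * w + 2 * (1 - conj s ^ 2) * (w / (1 - conj s * w)))
      (Metric.ball 0 (2 / (1 + ‖s‖))) := by
  intro w hw
  have h1 : 1 - conj s * w ≠ 0 := Complex.slitPlane_ne_zero (LD2_slit (LD2_lt hs hw))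
  exact DifferentiableAt.differentiableWithinAt (by fun_prop (disch := assumption))

private theorem LD2_diffh {s : ℂ} (hs : ‖s‖ < 1) :
    DifferentiableOn ℂ (fun w : ℂ => -Complex.log (1 - conj s * w) / conj s)
      (Metric.ball 0 (2 / (1 + ‖s‖))) := by
  intro w hw
  have h1 : 1 - conj s * w ∈ Complex.slitPlane := LD2_slit (LD2_lt hs hw)
  have h2 : DifferentiableAt ℂ (fun w : ℂ => 1 - conj s * w) w := by fun_prop
  exact ((h2.clog h1).neg.div_const _).differentiableWithinAt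

private theorem LD2_comp {s : ℂ} (hs : ‖s‖ < 1) {f : ℂ → ℂ}
    (hf : DifferentiableOn ℂ f (Metric.ball 0 (2 / (1 + ‖s‖)))) :
    Continuous fun θ : ℝ => f (ww θ) := by
  rw [← continuousOn_univ]
  exact hf.continuousOn.comp LD2_cont.continuousOn fun θ _ => LD2_mem hs θ

/-- LD2. The integral of the real part of `HH`. -/
theorem int_HH {s : ℂ} (hs : ‖s‖ < 1) : ∫ θ in (0 : ℝ)..π, (HH s θ).re = 0 := by
  have hc := LD2_comp hs (LD2_diffH hs)
  have h1 := Complex.reCLM.intervalIntegral_comp_comm (hc.intervalIntegrable (μ := volume) 0 π)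
  have h2 := mean_hol (LD2_R hs) (LD2_diffH hs)
  rw [h2] at h1
  simpa [HH] using h1

/-- LD2. The integral of the product of the real parts of `hh` and `HH`. -/
theorem int_hh_HH {s : ℂ} (hs0 : s ≠ 0) (hs : ‖s‖ < 1) :
    ∫ θ in (0 : ℝ)..π, (hh s θ).re * (HH s θ).re =
      π * (1 + (1 - (s ^ 2).re) * (-Real.log (1 - ‖s‖ ^ 2) / ‖s‖ ^ 2)) := by
  obtain ⟨h, hh'⟩ : ∃ h : ℂ → ℂ, h = fun w : ℂ => -Complex.log (1 - conj s * w) / conj s :=
    ⟨_, rfl⟩
  obtain ⟨H, hH'⟩ : ∃ H : ℂ → ℂ,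
    H = fun w : ℂ => 2 * w + 2 * (1 - conj s ^ 2) * (w / (1 - conj s * w)) := ⟨_, rfl⟩
  have dh : DifferentiableOn ℂ h (Metric.ball 0 (2 / (1 + ‖s‖))) := by
    rw [hh']
    exact LD2_diffh hs
  have dH : DifferentiableOn ℂ H (Metric.ball 0 (2 / (1 + ‖s‖))) := by
    rw [hH']
    exact LD2_diffH hs
  have hR := LD2_R hs
  have hcs : conj s ≠ 0 := (map_ne_zero _).2 hs0
  have h0 : h 0 = 0 := by
    rw [hh']
    simp
  have H0 : H 0 = 0 := by
    rw [hH']
    simp
  have hball : Metric.ball (0 : ℂ) (2 / (1 + ‖s‖)) ∈ 𝓝 (0 : ℂ) :=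
    Metric.ball_mem_nhds _ (by linarith)
  have dk : DifferentiableOn ℂ (dslope h 0) (Metric.ball 0 (2 / (1 + ‖s‖))) :=
    (Complex.differentiableOn_dslope hball).2 dh
  have k0 : dslope h 0 0 = 1 := by
    rw [dslope_same, hh']
    have h1 : HasDerivAt (fun w : ℂ => 1 - conj s * w) (-(conj s)) 0 := by
      simpa using ((hasDerivAt_id (0 : ℂ)).const_mul (conj s)).const_sub 1
    have h2 : HasDerivAt (fun w : ℂ => -Complex.log (1 - conj s * w) / conj s)
        (-(-(conj s) / (1 - conj s * 0)) / conj s) 0 :=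
      (h1.clog (by simp)).neg.div_const (conj s)
    rw [h2.deriv]
    simp [hcs]
  have kw : ∀ θ, dslope h 0 (ww θ) = h (ww θ) / ww θ := by
    intro θ
    rw [dslope_of_ne _ (LD2_ne θ), slope_def_field, h0]
    simp
  -- the integrals
  have i1 := mean_hol hR (dh.mul dH)
  have i2 := mean_hol hR dk
  have i3 := mean_cauchy hR dh hs
  have i4 := mean_hol hR dh
  rw [h0, mul_zero] at i4
  rw [k0, mul_one] at i2
  have i1' : ∫ θ in (0 : ℝ)..π, h (ww θ) * H (ww θ) = 0 := by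
    have h1 : ∫ θ in (0 : ℝ)..π, (h * H) (ww θ) = π * (h * H) 0 := i1
    rw [Pi.mul_apply, h0, zero_mul, mul_zero] at h1
    exact h1
  have c1 : IntervalIntegrable (fun θ : ℝ => h (ww θ) * H (ww θ)) volume 0 π :=
    (LD2_comp hs (dh.mul dH)).intervalIntegrable (μ := volume) 0 π
  have c2 := (LD2_comp hs dk).intervalIntegrable (μ := volume) 0 π
  have c4 := LD2_comp hs dh
  have hws : ∀ θ, ww θ - s ≠ 0 := by
    intro θ h1
    have h2 : ‖ww θ‖ = ‖s‖ := by rw [sub_eq_zero.1 h1]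
    rw [LD2_norm] at h2
    linarith
  have c3 : Continuous fun θ : ℝ => h (ww θ) * (ww θ / (ww θ - s)) :=
    c4.mul (LD2_cont.div (LD2_cont.sub continuous_const) hws)
  have c5 : IntervalIntegrable (fun θ : ℝ => h (ww θ) * (ww θ / (ww θ - s)) - h (ww θ))
      volume 0 π := (c3.sub c4).intervalIntegrable 0 π
  -- the pointwise formula
  have key : ∀ θ : ℝ, (hh s θ).re * (HH s θ).re = Complex.reCLM ((1 / 2 : ℂ) *
      (h (ww θ) * H (ww θ) + (2 * dslope h 0 (ww θ) + 2 * (1 - s ^ 2) * (1 / s) *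
        (h (ww θ) * (ww θ / (ww θ - s)) - h (ww θ))))) := by
    intro θ
    have hhs : hh s θ = h (ww θ) := by rw [hh']; rfl
    have hHs : HH s θ = H (ww θ) := by rw [hH']; rfl
    have hconj : conj (ww θ) = (ww θ)⁻¹ := by
      rw [Complex.inv_def, Complex.normSq_eq_norm_sq, LD2_norm]
      simp
    have e1 : h (ww θ) * conj (H (ww θ)) = 2 * dslope h 0 (ww θ) + 2 * (1 - s ^ 2) * (1 / s) *
        (h (ww θ) * (ww θ / (ww θ - s)) - h (ww θ)) := by
      rw [kw, hH']
      have e2 : conj (2 * ww θ + 2 * (1 - conj s ^ 2) * (ww θ / (1 - conj s * ww θ))) =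
          2 / ww θ + 2 * (1 - s ^ 2) / (ww θ - s) := by
        simp only [map_add, map_mul, map_sub, map_div₀, map_pow, map_one, map_ofNat,
          Complex.conj_conj, hconj]
        have e3 : (ww θ)⁻¹ / (1 - s * (ww θ)⁻¹) = 1 / (ww θ - s) := by
          have e4 : 1 - s * (ww θ)⁻¹ = (ww θ - s) / ww θ := by
            rw [sub_div, div_self (LD2_ne θ), div_eq_mul_inv]
          rw [e4, inv_div_left, ← one_div, one_div, one_div, mul_comm]
          field_simp [LD2_ne θ, hws θ]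
        rw [e3]
        ring
      show h (ww θ) * conj (2 * ww θ + 2 * (1 - conj s ^ 2) *
        (ww θ / (1 - conj s * ww θ))) = _
      rw [e2]
      have h5 := hws θ
      have h6 := LD2_ne θ
      field_simp
      ring
    rw [← e1, hhs, hHs]
    simp only [Complex.reCLM_apply, Complex.mul_re, Complex.add_re, Complex.conj_re,
      Complex.conj_im, Complex.add_im, Complex.mul_im]
    norm_num
    ring
  have hint : ∫ θ in (0 : ℝ)..π, ((1 / 2 : ℂ) *
      (h (ww θ) * H (ww θ) + (2 * dslope h 0 (ww θ) + 2 * (1 - s ^ 2) * (1 / s) *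
        (h (ww θ) * (ww θ / (ww θ - s)) - h (ww θ))))) =
      (1 / 2 : ℂ) * (0 + (2 * π + 2 * (1 - s ^ 2) * (1 / s) * (π * h s - 0))) := by
    rw [intervalIntegral.integral_const_mul, intervalIntegral.integral_add c1
      ((c2.const_mul 2).add (c5.const_mul _)),
      intervalIntegral.integral_add (c2.const_mul 2) (c5.const_mul _),
      intervalIntegral.integral_const_mul, intervalIntegral.integral_const_mul,
      intervalIntegral.integral_sub (c3.intervalIntegrable 0 π) (c4.intervalIntegrable 0 π),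
      i1', i2, i3, i4]
  have hcont : IntervalIntegrable (fun θ : ℝ => (1 / 2 : ℂ) *
      (h (ww θ) * H (ww θ) + (2 * dslope h 0 (ww θ) + 2 * (1 - s ^ 2) * (1 / s) *
        (h (ww θ) * (ww θ / (ww θ - s)) - h (ww θ))))) volume 0 π :=
    (c1.add ((c2.const_mul 2).add (c5.const_mul _))).const_mul _
  simp only [key]
  rw [Complex.reCLM.intervalIntegral_comp_comm hcont, hint]
  have hs2 : conj s * s = ((‖s‖ ^ 2 : ℝ) : ℂ) := by
    rw [Complex.conj_mul']
    push_cast
    rfl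
  have hns : (0 : ℝ) < ‖s‖ ^ 2 := by
    have := norm_pos_iff.2 hs0
    positivity
  have hns1 : ‖s‖ ^ 2 < 1 := by
    have := norm_nonneg s
    nlinarith
  have hhs : h s = ((-Real.log (1 - ‖s‖ ^ 2) : ℝ) : ℂ) / conj s := by
    rw [hh']
    show -Complex.log (1 - conj s * s) / conj s = _
    rw [hs2, ← Complex.ofReal_one, ← Complex.ofReal_sub, ← Complex.ofReal_log (by linarith),
      Complex.ofReal_neg]
  have hfin : (1 / 2 : ℂ) * (0 + (2 * π + 2 * (1 - s ^ 2) * (1 / s) * (π * h s - 0))) =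
      ((π : ℝ) : ℂ) * (1 + (1 - s ^ 2) *
        ((-Real.log (1 - ‖s‖ ^ 2) / ‖s‖ ^ 2 : ℝ) : ℂ)) := by
    rw [Complex.ofReal_div, ← hs2, hhs]
    field_simp
    ring
  rw [hfin, Complex.reCLM_apply, Complex.re_ofReal_mul, Complex.add_re, Complex.one_re,
    mul_comm (1 - s ^ 2), Complex.re_ofReal_mul, Complex.sub_re, Complex.one_re]
  ring

end

end Pool.Agent.SLE
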