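import Pool.Agent.Lib.MP_c17912_pr_LN.LD2
import Pool.Agent.Lib.MP_c17912_pr_LN.LB

set_option autoImplicit false

open MeasureTheory Filter
open scoped Topology Real ComplexConjugate

namespace Pool.Agent.SLE

noncomputable section

private theorem LD3_re (θ : ℝ) : (ww θ).re = Real.cos (2 * θ) := by
  unfold ww
  exact Complex.exp_ofReal_mul_I_re _

private theorem LD3_im (θ : ℝ) : (ww θ).im = Real.sin (2 * θ) := by
  unfold ww
  exact Complex.exp_ofReal_mul_I_im _

private theorem LD3_data {a b c lam : ℝ} (hl : 0 < lam) (hE : Ell a b c lam) :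
    ∃ κ p q : ℝ, 0 < κ ∧ a + b ≤ 4 * κ ∧ 2 * κ ≤ a + b ∧ a - b = 4 * κ * p ∧
      2 * c = 4 * κ * q ∧ (a + b) / 2 = κ * (1 + p ^ 2 + q ^ 2) ∧ p ^ 2 + q ^ 2 < 1 := by
  have ha := hE.le_a
  have hb := hE.le_b
  have hD := hE.det hl.le
  have hS : 0 < a + b := by linarith
  have hD0 : 0 < a * b - c ^ 2 := by
    have : 0 < lam * (a + b) / 2 := by positivity
    linarith
  obtain ⟨r, hr⟩ : ∃ r, r = Real.sqrt (a * b - c ^ 2) := ⟨_, rfl⟩
  have hr0 : 0 < r := by rw [hr]; exact Real.sqrt_pos.2 hD0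
  have hr2 : r ^ 2 = a * b - c ^ 2 := by rw [hr]; exact Real.sq_sqrt hD0.le
  have hrS : 2 * r ≤ a + b := by
    by_contra h
    rw [not_le] at h
    nlinarith [sq_nonneg (a - b), sq_nonneg c]
  obtain ⟨κ, hκ⟩ : ∃ κ, κ = (a + b + 2 * r) / 4 := ⟨_, rfl⟩
  have hκ0 : 0 < κ := by rw [hκ]; positivity
  have e1 : (a + b) / 2 = κ * (1 + ((a - b) / (4 * κ)) ^ 2 + (2 * c / (4 * κ)) ^ 2) := by
    have e2 : 8 * κ * (a + b) = 16 * κ ^ 2 + (a - b) ^ 2 + 4 * c ^ 2 := by
      rw [hκ]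
      linear_combination (-4) * hr2
    field_simp
    linear_combination 2 * e2
  refine ⟨κ, (a - b) / (4 * κ), 2 * c / (4 * κ), hκ0, by rw [hκ]; linarith,
    by rw [hκ]; linarith, by field_simp, by field_simp, e1, ?_⟩
  have e3 : κ * (1 + ((a - b) / (4 * κ)) ^ 2 + (2 * c / (4 * κ)) ^ 2) < κ * 2 := by
    rw [← e1, hκ]
    linarith
  have e4 := lt_of_mul_lt_mul_left e3 hκ0.le
  linarith

private theorem LD3_V {a b c κ p q : ℝ} (h1 : a - b = 4 * κ * p) (h2 : 2 * c = 4 * κ * q)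
    (h3 : (a + b) / 2 = κ * (1 + p ^ 2 + q ^ 2)) (x : ℝ) : Vth a b c x =
      κ * (1 + p ^ 2 + q ^ 2 - 2 * p * Real.cos (2 * x) - 2 * q * Real.sin (2 * x)) := by
  have h4 := LBAux.V_two a b c x
  linear_combination h4 / 2 + h3 - Real.cos (2 * x) / 2 * h1 - Real.sin (2 * x) / 2 * h2

private theorem LD3_div {p q x : ℝ}
    (hn : 0 < 1 + p ^ 2 + q ^ 2 - 2 * p * Real.cos (2 * x) - 2 * q * Real.sin (2 * x)) :
    ww x / (1 - conj (⟨p, q⟩ : ℂ) * ww x) =
      ⟨(Real.cos (2 * x) - p) /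
        (1 + p ^ 2 + q ^ 2 - 2 * p * Real.cos (2 * x) - 2 * q * Real.sin (2 * x)),
      (Real.sin (2 * x) - q) /
        (1 + p ^ 2 + q ^ 2 - 2 * p * Real.cos (2 * x) - 2 * q * Real.sin (2 * x))⟩ := by
  have h1 := Real.sin_sq_add_cos_sq (2 * x)
  have hre : (1 - conj (⟨p, q⟩ : ℂ) * ww x).re =
      1 - (p * Real.cos (2 * x) + q * Real.sin (2 * x)) := by
    simp [Complex.mul_re, LD3_re, LD3_im]
  have him : (1 - conj (⟨p, q⟩ : ℂ) * ww x).im =
      -(p * Real.sin (2 * x) - q * Real.cos (2 * x)) := by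
    simp [Complex.mul_im, LD3_re, LD3_im]
    ring
  have hz : (1 - conj (⟨p, q⟩ : ℂ) * ww x) ≠ 0 := by
    intro h0
    have h2 : Complex.normSq (1 - conj (⟨p, q⟩ : ℂ) * ww x) = 0 := by rw [h0, map_zero]
    rw [Complex.normSq_apply, hre, him] at h2
    nlinarith
  obtain ⟨n, hn'⟩ : ∃ n, n = 1 + p ^ 2 + q ^ 2 - 2 * p * Real.cos (2 * x) -
    2 * q * Real.sin (2 * x) := ⟨_, rfl⟩
  rw [← hn'] at hn ⊢
  have hn0 := hn.ne'
  rw [div_eq_iff hz]
  apply Complex.ext
  · rw [Complex.mul_re, hre, him, LD3_re]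
    field_simp
    rw [hn']
    linear_combination (-p) * h1
  · rw [Complex.mul_im, hre, him, LD3_im]
    field_simp
    rw [hn']
    linear_combination (-q) * h1

private theorem LD3_HH {a b c κ p q : ℝ} (hκ : 0 < κ) (h1 : a - b = 4 * κ * p)
    (h2 : 2 * c = 4 * κ * q) (h3 : (a + b) / 2 = κ * (1 + p ^ 2 + q ^ 2)) (x : ℝ)
    (hV : 0 < Vth a b c x) : Fm a b c x + 2 * p = (HH ⟨p, q⟩ x).re := by
  have hV' := LD3_V h1 h2 h3 x
  have hn : 0 < 1 + p ^ 2 + q ^ 2 - 2 * p * Real.cos (2 * x) - 2 * q * Real.sin (2 * x) := by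
    rw [hV'] at hV
    exact pos_of_mul_pos_right hV hκ.le
  unfold Fm HH
  rw [hV', LD3_div hn, h1, h2]
  have h4 := Real.sin_sq_add_cos_sq (2 * x)
  obtain ⟨C, hC⟩ : ∃ C, C = Real.cos (2 * x) := ⟨_, rfl⟩
  obtain ⟨S, hS⟩ : ∃ S, S = Real.sin (2 * x) := ⟨_, rfl⟩
  simp only [Complex.add_re, Complex.mul_re, Complex.mul_im, Complex.sub_re, Complex.sub_im,
    Complex.one_re, Complex.one_im, pow_two, Complex.conj_re, Complex.conj_im, LD3_re, LD3_im,
    Complex.re_ofNat, Complex.im_ofNat]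
  simp only [pow_two] at h4 hn
  rw [← hC, ← hS] at h4 hn ⊢
  obtain ⟨n, hn'⟩ : ∃ n, n = 1 + p * p + q * q - 2 * p * C - 2 * q * S := ⟨_, rfl⟩
  rw [← hn'] at hn ⊢
  have hn0 := hn.ne'
  have hκ0 := hκ.ne'
  field_simp
  rw [hn']
  linear_combination (-4 * p) * h4

/-- integration by parts on a period -/
private theorem LD3_parts {f f' G g : ℝ → ℝ} (hf : ∀ x, HasDerivAt f (f' x) x)
    (hG : ∀ x, HasDerivAt G (g x) x) (hf' : Continuous f') (hg : Continuous g)
    (h1 : f π = f 0) (h2 : G π = G 0) :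
    ∫ x in (0 : ℝ)..π, f' x * G x = -∫ x in (0 : ℝ)..π, f x * g x := by
  rw [intervalIntegral.integral_mul_deriv_eq_deriv_mul (fun x _ => hf x) (fun x _ => hG x)
    (hf'.intervalIntegrable _ _) (hg.intervalIntegrable _ _), h1, h2]
  ring

/-- the second corrector, with a primitive `f` -/
private theorem LD3_key {V u f f' g : ℝ → ℝ} {q : ℝ} (hu : Continuous u)
    (hf : ∀ x, HasDerivAt f (f' x) x) (hf' : Continuous f') (hg : Continuous g)
    (hG : ∀ x, HasDerivAt (fun x => V x / 2 * u x) (g x) x)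
    (hVf : ∀ x, V x / 2 * f' x = -2 * Real.sin (2 * x) + 2 * q)
    (h1 : f π = f 0) (h2 : V π / 2 * u π = V 0 / 2 * u 0) (h0 : ∫ x in (0 : ℝ)..π, u x = 0) :
    ∫ x in (0 : ℝ)..π, 2 * Real.sin (2 * x) * u x = ∫ x in (0 : ℝ)..π, f x * g x := by
  have hGc : Continuous (fun x => V x / 2 * u x) :=
    continuous_iff_continuousAt.2 fun x => (hG x).continuousAt
  have e1 : ∀ x, 2 * Real.sin (2 * x) * u x = 2 * q * u x - f' x * (V x / 2 * u x) := by
    intro x
    linear_combination u x * hVf x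
  have i1 : IntervalIntegrable (fun x => 2 * q * u x) volume 0 π :=
    (continuous_const.mul hu).intervalIntegrable _ _
  have i2 : IntervalIntegrable (fun x => f' x * (V x / 2 * u x)) volume 0 π :=
    (hf'.mul hGc).intervalIntegrable _ _
  simp only [e1]
  rw [intervalIntegral.integral_sub i1 i2, intervalIntegral.integral_const_mul, h0, mul_zero,
    zero_sub, LD3_parts hf hG hf' hg h1 h2, neg_neg]

private theorem LD3_ww_deriv (x : ℝ) : HasDerivAt ww (ww x * (2 * Complex.I)) x := by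
  have h1 : HasDerivAt (fun θ : ℝ => ((2 * θ : ℝ) : ℂ) * Complex.I) (2 * Complex.I) x := by
    have h2 := (((hasDerivAt_id x).const_mul (2 : ℝ)).ofReal_comp).mul_const Complex.I
    simpa using h2
  exact h1.cexp

private theorem LD3_hh {p q : ℝ} (hs : (⟨p, q⟩ : ℂ) ≠ 0) (hpq : p ^ 2 + q ^ 2 < 1) (x : ℝ)
    (hn : 0 < 1 + p ^ 2 + q ^ 2 - 2 * p * Real.cos (2 * x) - 2 * q * Real.sin (2 * x)) :
    HasDerivAt (fun x => (hh ⟨p, q⟩ x).re) (-2 * ((Real.sin (2 * x) - q) /
      (1 + p ^ 2 + q ^ 2 - 2 * p * Real.cos (2 * x) - 2 * q * Real.sin (2 * x)))) x := by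
  have hc : conj (⟨p, q⟩ : ℂ) ≠ 0 := (map_ne_zero _).2 hs
  have h1 : HasDerivAt (fun θ : ℝ => 1 - conj (⟨p, q⟩ : ℂ) * ww θ)
      (-(conj (⟨p, q⟩ : ℂ) * (ww x * (2 * Complex.I)))) x :=
    ((LD3_ww_deriv x).const_mul _).const_sub 1
  have h2 : 1 - conj (⟨p, q⟩ : ℂ) * ww x ∈ Complex.slitPlane := by
    refine Or.inl ?_
    have h3 := Real.sin_sq_add_cos_sq (2 * x)
    have h4 : (1 - conj (⟨p, q⟩ : ℂ) * ww x).re =
        1 - (p * Real.cos (2 * x) + q * Real.sin (2 * x)) := by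
      simp [Complex.mul_re, LD3_re, LD3_im]
    rw [h4]
    nlinarith [sq_nonneg (p * Real.sin (2 * x) - q * Real.cos (2 * x)),
      sq_nonneg (p - Real.cos (2 * x)), sq_nonneg (q - Real.sin (2 * x))]
  have h3 : HasDerivAt (fun θ : ℝ => hh ⟨p, q⟩ θ)
      (ww x / (1 - conj (⟨p, q⟩ : ℂ) * ww x) * (2 * Complex.I)) x := by
    have h4 := ((h1.clog_real h2).neg).div_const (conj (⟨p, q⟩ : ℂ))
    refine h4.congr_deriv ?_
    have h5 := Complex.slitPlane_ne_zero h2
    field_simp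
  have h4 := Complex.reCLM.hasFDerivAt.comp_hasDerivAt x h3
  refine h4.congr_deriv ?_
  rw [LD3_div hn, Complex.reCLM_apply]
  simp only [Complex.mul_re, Complex.mul_im, Complex.I_re, Complex.I_im, Complex.re_ofNat,
    Complex.im_ofNat]
  ring

/-- LD3. The means of the right hand sides of the first two correctors. -/
theorem means_two {a b c lam : ℝ} (hl : 0 < lam) (hE : Ell a b c lam) :
    ∃ κ : ℝ, 0 < κ ∧ a + b ≤ 4 * κ ∧ 2 * κ ≤ a + b ∧
      (∫ θ in (0 : ℝ)..π, Fm a b c θ = π * (-(a - b) / (2 * κ))) ∧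
      ∀ u : ℝ → ℝ, ContDiff ℝ 1 u → Function.Periodic u π → (∫ x in (0 : ℝ)..π, u x = 0) →
        (∀ x, HasDerivAt (fun x => Vth a b c x / 2 * u x)
          (Fm a b c x + (a - b) / (2 * κ)) x) →
        π * (1 / (2 * κ) * (8 - (a - b) ^ 2 / (4 * κ ^ 2))) ≤
          ∫ x in (0 : ℝ)..π, 2 * Real.sin (2 * x) * u x := by
  obtain ⟨κ, p, q, hκ, k1, k2, h1, h2, h3, hpq⟩ := LD3_data hl hE
  have hV : ∀ x, 0 < Vth a b c x := fun x => lt_of_lt_of_le hl (LBAux.V_lower hE x)
  have hn : ∀ x : ℝ, 0 < 1 + p ^ 2 + q ^ 2 - 2 * p * Real.cos (2 * x) -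
      2 * q * Real.sin (2 * x) := by
    intro x
    have h4 := hV x
    rw [LD3_V h1 h2 h3 x] at h4
    exact pos_of_mul_pos_right h4 hκ.le
  have hHH : ∀ x, Fm a b c x + 2 * p = (HH ⟨p, q⟩ x).re := fun x =>
    LD3_HH hκ h1 h2 h3 x (hV x)
  have hp : (a - b) / (2 * κ) = 2 * p := by
    rw [h1]
    field_simp
    ring
  have hns : ‖(⟨p, q⟩ : ℂ)‖ ^ 2 = p ^ 2 + q ^ 2 := by
    rw [← Complex.normSq_eq_norm_sq, Complex.normSq_apply]
    ring
  have hs1 : ‖(⟨p, q⟩ : ℂ)‖ < 1 := by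
    have h4 := norm_nonneg (⟨p, q⟩ : ℂ)
    nlinarith
  have hFc : Continuous (Fm a b c) := by
    unfold Fm
    have h4 := LBAux.V_cont a b c
    have h5 : ∀ x, Vth a b c x ≠ 0 := fun x => (hV x).ne'
    fun_prop (disch := assumption)
  refine ⟨κ, hκ, k1, k2, ?_, ?_⟩
  · have h4 := int_HH hs1
    simp only [← hHH] at h4
    rw [intervalIntegral.integral_add (hFc.intervalIntegrable _ _)
      (continuous_const.intervalIntegrable _ _), intervalIntegral.integral_const,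
      smul_eq_mul, sub_zero] at h4
    have h5 : -(a - b) / (2 * κ) = -(2 * p) := by rw [neg_div, hp]
    rw [h5]
    linarith
  · intro u hu hper hu0 hder
    have huc := hu.continuous
    have hgc : Continuous fun x => Fm a b c x + (a - b) / (2 * κ) := hFc.add continuous_const
    have hend : Vth a b c π / 2 * u π = Vth a b c 0 / 2 * u 0 := by
      have h4 := hper 0
      rw [zero_add] at h4
      rw [h4, LBAux.V_pi]
    have htar : π * (1 / (2 * κ) * (8 - (a - b) ^ 2 / (4 * κ ^ 2))) =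
        2 * π / κ * (2 - p ^ 2) := by
      rw [h1]
      field_simp
      ring
    rw [htar]
    by_cases hs : (⟨p, q⟩ : ℂ) = 0
    · have hp0 : p = 0 := congrArg Complex.re hs
      have hq0 : q = 0 := congrArg Complex.im hs
      have hVk : ∀ x, Vth a b c x = κ := by
        intro x
        rw [LD3_V h1 h2 h3 x, hp0, hq0]
        ring
      have hFm : ∀ x, Fm a b c x + (a - b) / (2 * κ) = 4 * Real.cos (2 * x) := by
        intro x
        rw [hp, hp0]
        unfold Fm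
        rw [h1, h2, hp0, hq0]
        ring
      have h4 := LD3_key (V := Vth a b c) (u := u) (f := fun x => 2 / κ * Real.cos (2 * x))
        (f' := fun x => 2 / κ * (-Real.sin (2 * x) * 2))
        (g := fun x => Fm a b c x + (a - b) / (2 * κ)) (q := 0) huc
        (fun x => (LBAux.hd_cos x).const_mul _) (by fun_prop) hgc hder
        (fun x => by
          rw [hVk]
          field_simp
          ring)
        (by
          show 2 / κ * Real.cos (2 * π) = 2 / κ * Real.cos (2 * 0)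
          simp) hend hu0
      rw [h4]
      have h5 : ∀ x, 2 / κ * Real.cos (2 * x) * (Fm a b c x + (a - b) / (2 * κ)) =
          8 / κ * Real.cos (2 * x) ^ 2 := by
        intro x
        rw [hFm]
        ring
      simp only [h5]
      rw [intervalIntegral.integral_const_mul, LBAux.int_cos_sq, hp0]
      apply le_of_eq
      ring
    · have hs0 : 0 < p ^ 2 + q ^ 2 := by
        rw [← hns]
        have := norm_pos_iff.2 hs
        positivity
      have hf'c : Continuous fun x => 2 / κ * (-2 * ((Real.sin (2 * x) - q) /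
          (1 + p ^ 2 + q ^ 2 - 2 * p * Real.cos (2 * x) - 2 * q * Real.sin (2 * x)))) := by
        have h5 : ∀ x : ℝ, 1 + p ^ 2 + q ^ 2 - 2 * p * Real.cos (2 * x) -
          2 * q * Real.sin (2 * x) ≠ 0 := fun x => (hn x).ne'
        fun_prop (disch := assumption)
      have h4 := LD3_key (V := Vth a b c) (u := u) (f := fun x => 2 / κ * (hh ⟨p, q⟩ x).re)
        (g := fun x => Fm a b c x + (a - b) / (2 * κ)) (q := q) huc
        (fun x => (LD3_hh hs hpq x (hn x)).const_mul (2 / κ)) hf'c hgc hder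
        (fun x => by
          rw [LD3_V h1 h2 h3 x]
          have h5 := (hn x).ne'
          obtain ⟨n, hn'⟩ : ∃ n, n = 1 + p ^ 2 + q ^ 2 - 2 * p * Real.cos (2 * x) -
            2 * q * Real.sin (2 * x) := ⟨_, rfl⟩
          rw [← hn'] at h5 ⊢
          field_simp
          ring)
        (by
          show 2 / κ * (hh ⟨p, q⟩ π).re = 2 / κ * (hh ⟨p, q⟩ 0).re
          have h5 : ww π = ww 0 := by
            apply Complex.ext
            · rw [LD3_re, LD3_re]
              simp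
            · rw [LD3_im, LD3_im]
              simp
          unfold hh
          rw [h5]) hend hu0
      rw [h4]
      have h5 : ∀ x, 2 / κ * (hh ⟨p, q⟩ x).re * (Fm a b c x + (a - b) / (2 * κ)) =
          2 / κ * ((hh ⟨p, q⟩ x).re * (HH ⟨p, q⟩ x).re) := by
        intro x
        rw [hp, hHH]
        ring
      simp only [h5]
      rw [intervalIntegral.integral_const_mul, int_hh_HH hs hs1, hns]
      have h6 : ((⟨p, q⟩ : ℂ) ^ 2).re = p ^ 2 - q ^ 2 := by
        rw [pow_two, Complex.mul_re]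
        ring
      rw [h6]
      have h7 : 1 ≤ -Real.log (1 - (p ^ 2 + q ^ 2)) / (p ^ 2 + q ^ 2) := by
        rw [le_div_iff₀ hs0]
        have := Real.log_le_sub_one_of_pos (by linarith : 0 < 1 - (p ^ 2 + q ^ 2))
        linarith
      have h8 : 0 ≤ 1 - (p ^ 2 - q ^ 2) := by nlinarith [sq_nonneg q]
      have h9 : 1 - (p ^ 2 - q ^ 2) ≤
          (1 - (p ^ 2 - q ^ 2)) * (-Real.log (1 - (p ^ 2 + q ^ 2)) / (p ^ 2 + q ^ 2)) :=
        le_mul_of_one_le_right h8 h7
      have h10 : 2 - p ^ 2 ≤ 1 + (1 - (p ^ 2 - q ^ 2)) *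
          (-Real.log (1 - (p ^ 2 + q ^ 2)) / (p ^ 2 + q ^ 2)) := by
        nlinarith [sq_nonneg q]
      have h11 : 0 < 2 * π / κ := by positivity
      calc 2 * π / κ * (2 - p ^ 2) ≤ 2 * π / κ * (1 + (1 - (p ^ 2 - q ^ 2)) *
          (-Real.log (1 - (p ^ 2 + q ^ 2)) / (p ^ 2 + q ^ 2))) :=
            mul_le_mul_of_nonneg_left h10 h11.le
        _ = _ := by ring

end

end Pool.Agent.SLE
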