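import Pool.Agent.Lib.MP_c17912_pr_LN.Base

set_option autoImplicit false

open MeasureTheory Filter
open scoped Topology Real

namespace Pool.Agent.SLE

noncomputable section

namespace PEAux

theorem prim_deriv {f : ℝ → ℝ} (hf : Continuous f) (x : ℝ) :
    HasDerivAt (fun x => ∫ t in (0 : ℝ)..x, f t) (f x) x :=
  intervalIntegral.integral_hasDerivAt_right (hf.intervalIntegrable _ _)
    (hf.stronglyMeasurableAtFilter _ _) hf.continuousAt

theorem prim_smooth {f : ℝ → ℝ} (hf : ∀ n : ℕ, ContDiff ℝ n f) (n : ℕ) :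
    ContDiff ℝ n (fun x => ∫ t in (0 : ℝ)..x, f t) := by
  have hc : Continuous f := (hf 0).continuous
  have hd : deriv (fun x => ∫ t in (0 : ℝ)..x, f t) = f := by
    funext x
    exact (prim_deriv hc x).deriv
  have h1 : ContDiff ℝ (n + 1) (fun x => ∫ t in (0 : ℝ)..x, f t) := by
    rw [contDiff_succ_iff_deriv]
    refine ⟨fun x => (prim_deriv hc x).differentiableAt, ?_, ?_⟩
    · intro h
      exact absurd h (by simp)
    · rw [hd]
      exact hf n
  exact h1.of_le (by exact_mod_cast Nat.le_succ n)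

theorem prim_periodic {f : ℝ → ℝ} (hf : Continuous f) (hp : Function.Periodic f π)
    (h0 : ∫ x in (0 : ℝ)..π, f x = 0) :
    Function.Periodic (fun x => ∫ t in (0 : ℝ)..x, f t) π := by
  intro x
  have h1 := intervalIntegral.integral_add_adjacent_intervals
    (hf.intervalIntegrable (μ := volume) 0 x) (hf.intervalIntegrable (μ := volume) x (x + π))
  have h2 := hp.intervalIntegral_add_eq x 0
  rw [zero_add, h0] at h2
  rw [h2, add_zero] at h1
  exact h1.symm

end PEAux

open PEAux in
/-- PE. Periodic solutions of `(U ψ')' = G`. -/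
theorem per_solve {U G : ℝ → ℝ} (hU : ∀ n : ℕ, ContDiff ℝ n U) (hG : ∀ n : ℕ, ContDiff ℝ n G)
    (hUp : Function.Periodic U π) (hGp : Function.Periodic G π) (hpos : ∀ x, 0 < U x)
    (hint : ∫ x in (0 : ℝ)..π, G x = 0) : ∃ (ψ : ℝ → ℝ) (C₀ : ℝ), (∀ n : ℕ, ContDiff ℝ n ψ) ∧
      Function.Periodic ψ π ∧ (∀ x, U x * deriv ψ x = (∫ t in (0 : ℝ)..x, G t) + C₀) ∧
      (∀ x, deriv U x * deriv ψ x + U x * deriv (deriv ψ) x = G x) ∧
      ∀ g : ℝ, (∀ x ∈ Set.Icc 0 π, |∫ t in (0 : ℝ)..x, G t| ≤ g) →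
        |C₀| ≤ g ∧ ∀ x, |U x * deriv ψ x| ≤ 2 * g := by
  have hUc : Continuous U := (hU 0).continuous
  have hGc : Continuous G := (hG 0).continuous
  have hne : ∀ x, U x ≠ 0 := fun x => (hpos x).ne'
  obtain ⟨I, hI⟩ : ∃ I : ℝ → ℝ, I = fun x => ∫ t in (0 : ℝ)..x, G t := ⟨_, rfl⟩
  have hIs : ∀ n : ℕ, ContDiff ℝ n I := by
    rw [hI]
    exact prim_smooth hG
  have hIc : Continuous I := (hIs 0).continuous
  have hIp : Function.Periodic I π := by
    rw [hI]
    exact prim_periodic hGc hGp hint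
  have hId : ∀ x, HasDerivAt I (G x) x := by
    rw [hI]
    exact prim_deriv hGc
  have c1 : Continuous fun x => 1 / U x := continuous_const.div hUc hne
  have c2 : Continuous fun x => I x / U x := hIc.div hUc hne
  obtain ⟨D, hD⟩ : ∃ D : ℝ, D = ∫ x in (0 : ℝ)..π, 1 / U x := ⟨_, rfl⟩
  have hDpos : 0 < D := by
    rw [hD]
    exact intervalIntegral.intervalIntegral_pos_of_pos (c1.intervalIntegrable _ _)
      (fun x => by have := hpos x; positivity) Real.pi_pos
  obtain ⟨C₀, hC⟩ : ∃ C₀ : ℝ, C₀ = -(∫ x in (0 : ℝ)..π, I x / U x) / D := ⟨_, rfl⟩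
  obtain ⟨w, hw⟩ : ∃ w : ℝ → ℝ, w = fun x => (I x + C₀) / U x := ⟨_, rfl⟩
  have hws : ∀ n : ℕ, ContDiff ℝ n w := by
    intro n
    rw [hw]
    exact ((hIs n).add contDiff_const).div (hU n) hne
  have hwc : Continuous w := (hws 0).continuous
  have hwp : Function.Periodic w π := by
    intro x
    rw [hw]
    change (I (x + π) + C₀) / U (x + π) = (I x + C₀) / U x
    rw [hIp x, hUp x]
  have hw0 : ∫ x in (0 : ℝ)..π, w x = 0 := by
    have e : ∀ x, w x = I x / U x + C₀ * (1 / U x) := by
      intro x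
      rw [hw]
      change (I x + C₀) / U x = I x / U x + C₀ * (1 / U x)
      ring
    simp only [e]
    rw [intervalIntegral.integral_add (c2.intervalIntegrable _ _)
      ((c1.const_mul C₀).intervalIntegrable _ _)]
    rw [intervalIntegral.integral_const_mul, ← hD, hC]
    field_simp
    ring
  have hUw : ∀ x, U x * w x = I x + C₀ := by
    intro x
    rw [hw]
    exact mul_div_cancel₀ _ (hne x)
  have hψd : deriv (fun x => ∫ t in (0 : ℝ)..x, w t) = w := by
    funext x
    exact (prim_deriv hwc x).deriv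
  refine ⟨fun x => ∫ t in (0 : ℝ)..x, w t, C₀, prim_smooth hws, prim_periodic hwc hwp hw0,
    ?_, ?_, ?_⟩
  · intro x
    rw [hψd, hUw, hI]
  · intro x
    rw [hψd]
    have hUd : HasDerivAt U (deriv U x) x :=
      ((hU 1).differentiable (by simp)).differentiableAt.hasDerivAt
    have hwd : HasDerivAt w (deriv w x) x :=
      ((hws 1).differentiable (by simp)).differentiableAt.hasDerivAt
    have h1 := hUd.mul hwd
    have h2 : HasDerivAt (U * w) (G x) x := by
      have h3 : U * w = fun x => I x + C₀ := by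
        funext y
        exact hUw y
      rw [h3]
      exact (hId x).add_const C₀
    exact h1.unique h2
  · intro g hg
    have hg' : ∀ x, |I x| ≤ g := by
      intro x
      obtain ⟨y, hy, hxy⟩ := hIp.exists_mem_Ico₀ Real.pi_pos x
      rw [hxy, hI]
      exact hg y ⟨hy.1, hy.2.le⟩
    have hC0 : |C₀| ≤ g := by
      rw [hC, abs_div, abs_of_pos hDpos, abs_neg, div_le_iff₀ hDpos]
      calc |∫ x in (0 : ℝ)..π, I x / U x| ≤ ∫ x in (0 : ℝ)..π, |I x / U x| :=
            intervalIntegral.abs_integral_le_integral_abs Real.pi_pos.le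
        _ ≤ ∫ x in (0 : ℝ)..π, g * (1 / U x) := by
            refine intervalIntegral.integral_mono_on Real.pi_pos.le
              (c2.abs.intervalIntegrable _ _) ((c1.const_mul g).intervalIntegrable _ _) ?_
            intro x _
            rw [abs_div, abs_of_pos (hpos x), mul_one_div]
            exact div_le_div_of_nonneg_right (hg' x) (hpos x).le
        _ = g * D := by rw [intervalIntegral.integral_const_mul, hD]
    refine ⟨hC0, fun x => ?_⟩
    rw [hψd, hUw]
    calc |I x + C₀| ≤ |I x| + |C₀| := abs_add_le _ _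
      _ ≤ 2 * g := by linarith [hg' x]

end

end Pool.Agent.SLE
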