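import Pool.Agent.Lib.MP_c17912_pr_LN.LD3
import Pool.Agent.Lib.MP_c17912_pr_LN.PE
import Pool.Agent.Lib.MP_c17912_pr_LN.LA

set_option autoImplicit false

open MeasureTheory Filter
open scoped Topology Real

namespace Pool.Agent.SLE

noncomputable section

namespace LD4Aux

theorem sm_deriv {f : ℝ → ℝ} (h : ∀ n : ℕ, ContDiff ℝ n f) (n : ℕ) :
    ContDiff ℝ n (deriv f) := by
  have h1 : ContDiff ℝ ((n : WithTop ℕ∞) + 1) f := by exact_mod_cast h (n + 1)
  exact (contDiff_succ_iff_deriv.1 h1).2.2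

theorem sm_diff {f : ℝ → ℝ} (h : ∀ n : ℕ, ContDiff ℝ n f) : Differentiable ℝ f := by
  have h1 : ContDiff ℝ 1 f := by exact_mod_cast h 1
  exact h1.differentiable (by norm_num)

theorem sm_cont {f : ℝ → ℝ} (h : ∀ n : ℕ, ContDiff ℝ n f) : Continuous f :=
  (sm_diff h).continuous

theorem per_deriv {f : ℝ → ℝ} {p : ℝ} (h : Function.Periodic f p) :
    Function.Periodic (deriv f) p := by
  intro x
  have h1 : (fun y => f (y + p)) = f := funext h
  have h2 := deriv_comp_add_const f p x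
  rw [← h2, h1]

theorem sin2_smooth (n : ℕ) : ContDiff ℝ n (fun θ : ℝ => Real.sin (2 * θ)) := by
  have hs : ContDiff ℝ n Real.sin := Real.contDiff_sin
  have h2 : ContDiff ℝ n (fun θ : ℝ => 2 * θ) := by fun_prop
  exact hs.comp h2

theorem cos2_smooth (n : ℕ) : ContDiff ℝ n (fun θ : ℝ => Real.cos (2 * θ)) := by
  have hs : ContDiff ℝ n Real.cos := Real.contDiff_cos
  have h2 : ContDiff ℝ n (fun θ : ℝ => 2 * θ) := by fun_prop
  exact hs.comp h2

theorem V_smooth (a b c : ℝ) (n : ℕ) : ContDiff ℝ n (Vth a b c) := by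
  have hs : ContDiff ℝ n Real.sin := Real.contDiff_sin
  have hc : ContDiff ℝ n Real.cos := Real.contDiff_cos
  unfold Vth
  fun_prop

theorem V2_smooth (a b c : ℝ) (n : ℕ) : ContDiff ℝ n (fun θ => Vth a b c θ / 2) :=
  (V_smooth a b c n).div_const 2

theorem V_per (a b c : ℝ) : Function.Periodic (Vth a b c) π := by
  intro θ
  simp only [Vth, Real.sin_add_pi, Real.cos_add_pi]
  ring

theorem sin_per (θ : ℝ) : Real.sin (2 * (θ + π)) = Real.sin (2 * θ) := by
  rw [mul_add, Real.sin_add_two_pi]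

theorem cos_per (θ : ℝ) : Real.cos (2 * (θ + π)) = Real.cos (2 * θ) := by
  rw [mul_add, Real.cos_add_two_pi]

/-- the derivative of the variance -/
def dV (a b c θ : ℝ) : ℝ := (a - b) * Real.sin (2 * θ) - 2 * c * Real.cos (2 * θ)

theorem dV_smooth (a b c : ℝ) (n : ℕ) : ContDiff ℝ n (dV a b c) :=
  ((contDiff_const (c := a - b)).mul (sin2_smooth n)).sub
    ((contDiff_const (c := 2 * c)).mul (cos2_smooth n))

theorem dV_deriv (a b c x : ℝ) : HasDerivAt (dV a b c)
    (2 * (a - b) * Real.cos (2 * x) + 4 * c * Real.sin (2 * x)) x := by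
  have h1 := ((LBAux.hd_sin x).const_mul (a - b)).sub ((LBAux.hd_cos x).const_mul (2 * c))
  exact h1.congr_deriv (by ring)

theorem Fm_smooth {a b c : ℝ} (hV : ∀ x, 0 < Vth a b c x) (n : ℕ) :
    ContDiff ℝ n (Fm a b c) := by
  have h1 : ContDiff ℝ n (fun θ => 4 * Real.cos (2 * θ)) :=
    (contDiff_const (c := (4 : ℝ))).mul (cos2_smooth n)
  have h2 : ContDiff ℝ n (fun θ => Real.sin (2 * θ) * dV a b c θ / Vth a b c θ) :=
    ((sin2_smooth n).mul (dV_smooth a b c n)).div (V_smooth a b c n) fun x => (hV x).ne'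
  exact h1.sub h2

theorem Fm_per (a b c : ℝ) : Function.Periodic (Fm a b c) π := by
  intro θ
  simp only [Fm, sin_per, cos_per, V_per a b c θ]

theorem dV_abs {a b c lam : ℝ} (hE : Ell a b c lam) (hl : 0 < lam) (x : ℝ) :
    |dV a b c x| ≤ a + b := by
  have h1 := hE.det hl.le
  have h2 := hE.le_a
  have h3 := hE.le_b
  have h4 := Real.sin_sq_add_cos_sq (2 * x)
  refine abs_le_of_sq_le_sq ?_ (by linarith)
  have h5 : dV a b c x ^ 2 + ((a - b) * Real.cos (2 * x) + 2 * c * Real.sin (2 * x)) ^ 2 =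
      (a - b) ^ 2 + 4 * c ^ 2 := by
    unfold dV
    linear_combination ((a - b) ^ 2 + 4 * c ^ 2) * h4
  have h6 : 0 ≤ lam * (a + b) / 2 := by
    have : 0 < a + b := by linarith
    positivity
  have h7 := sq_nonneg ((a - b) * Real.cos (2 * x) + 2 * c * Real.sin (2 * x))
  nlinarith

theorem Fm_abs {a b c lam : ℝ} (hE : Ell a b c lam) (hl : 0 < lam) (x : ℝ) :
    |Fm a b c x| ≤ 4 + (a + b) / lam := by
  have hV := LBAux.V_lower hE x
  have hV0 : 0 < Vth a b c x := by linarith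
  have h1 := Real.abs_cos_le_one (2 * x)
  have h2 := Real.abs_sin_le_one (2 * x)
  have h3 := dV_abs hE hl x
  have h4 : Fm a b c x = 4 * Real.cos (2 * x) - Real.sin (2 * x) * dV a b c x / Vth a b c x :=
    rfl
  rw [h4]
  refine (abs_sub _ _).trans ?_
  have h5 : |4 * Real.cos (2 * x)| ≤ 4 := by
    rw [abs_mul]
    norm_num
    linarith
  have h6 : |Real.sin (2 * x) * dV a b c x / Vth a b c x| ≤ (a + b) / lam := by
    rw [abs_div, abs_mul, abs_of_pos hV0]
    have h7 : |Real.sin (2 * x)| * |dV a b c x| ≤ 1 * (a + b) :=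
      mul_le_mul h2 h3 (abs_nonneg _) zero_le_one
    rw [one_mul] at h7
    exact div_le_div₀ (le_trans (abs_nonneg _) h3) h7 hl hV
  linarith

/-- bounds for primitives -/
theorem prim_abs {f : ℝ → ℝ} {C : ℝ} (hf : ∀ x, |f x| ≤ C) {y : ℝ} (hy : y ∈ Set.Icc 0 π) :
    |∫ t in (0 : ℝ)..y, f t| ≤ C * π := by
  have h1 := intervalIntegral.norm_integral_le_of_norm_le_const (a := 0) (b := y) (f := f)
    (C := C) fun x _ => by
      rw [Real.norm_eq_abs]
      exact hf x
  rw [Real.norm_eq_abs, sub_zero, abs_of_nonneg hy.1] at h1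
  have h2 : 0 ≤ C := (abs_nonneg _).trans (hf 0)
  exact h1.trans (mul_le_mul_of_nonneg_left hy.2 h2)

/-- Algebra of the operator. -/
theorem op {a b c θ : ℝ} {ψ : ℝ → ℝ} {G : ℝ}
    (h : deriv (fun θ => Vth a b c θ / 2) θ * deriv ψ θ
      + (fun θ => Vth a b c θ / 2) θ * deriv (deriv ψ) θ = G) :
    Vth a b c θ * deriv (deriv ψ) θ / 2 + Bth a b c θ * deriv ψ θ
      = G - 2 * Real.sin (2 * θ) * deriv ψ θ := by
  rw [((LBAux.V_deriv a b c θ).div_const 2).deriv] at h
  rw [← h]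
  unfold Bth
  ring

/-- the first part -/
theorem psi0 {a b c : ℝ} (hV : ∀ x, 0 < Vth a b c x) : ∃ ψ : ℝ → ℝ,
    (∀ n : ℕ, ContDiff ℝ n ψ) ∧ Function.Periodic ψ π ∧
      ∀ x, Vth a b c x * deriv (deriv ψ) x / 2 + Bth a b c x * deriv ψ x =
        H1 a b c x + 2 * Real.cos (2 * x) - Fm a b c x := by
  have h1 : ∀ x, HasDerivAt (fun x => -(1 / 2) * Real.log (Vth a b c x))
      (-(1 / 2) * (dV a b c x / Vth a b c x)) x := fun x =>
    ((LBAux.V_deriv a b c x).log (hV x).ne').const_mul _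
  have h2 : deriv (fun x => -(1 / 2) * Real.log (Vth a b c x)) =
      fun x => -(1 / 2) * (dV a b c x / Vth a b c x) := funext fun x => (h1 x).deriv
  have h3 : ∀ x, HasDerivAt (fun x => -(1 / 2) * (dV a b c x / Vth a b c x))
      (-(1 / 2) * (((2 * (a - b) * Real.cos (2 * x) + 4 * c * Real.sin (2 * x)) * Vth a b c x -
        dV a b c x * dV a b c x) / Vth a b c x ^ 2)) x := fun x =>
    ((dV_deriv a b c x).div (LBAux.V_deriv a b c x) (hV x).ne').const_mul _
  refine ⟨fun x => -(1 / 2) * Real.log (Vth a b c x), ?_, ?_, ?_⟩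
  · intro n
    exact contDiff_const.mul ((V_smooth a b c n).log fun x => (hV x).ne')
  · intro x
    simp only [V_per a b c x]
  · intro x
    rw [h2, (h3 x).deriv]
    have h4 := (hV x).ne'
    unfold Bth H1 Fm
    have h5 : dV a b c x = (a - b) * Real.sin (2 * x) - 2 * c * Real.cos (2 * x) := rfl
    rw [← h5]
    field_simp
    ring

/-- the final inequality -/
theorem fin_pos {S t lam κ : ℝ} (hl : 16000 ≤ lam) (hS : 2 * lam ≤ S) (ht : |t| ≤ S)
    (hk1 : S ≤ 4 * κ) (hk2 : 2 * κ ≤ S) (h : 16000 * S ^ 2 ≤ (8 - t) * lam ^ 3) :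
    768 * π ^ 2 * (S / lam) / lam ^ 2 <
      -t / (2 * κ) + 1 / (2 * κ) * (8 - t ^ 2 / (4 * κ ^ 2)) := by
  have hl0 : 0 < lam := by linarith
  have hS0 : 0 < S := by linarith
  have hk0 : 0 < κ := by linarith
  have h8 : 0 < 8 - t := by
    have h1 : 0 < (8 - t) * lam ^ 3 := by
      have : 0 < 16000 * S ^ 2 := by positivity
      linarith
    by_contra hn
    have h2 := mul_nonpos_of_nonpos_of_nonneg (not_lt.1 hn) (pow_nonneg hl0.le 3)
    linarith
  -- the main inequality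
  have hX : t ^ 2 ≤ 2 * κ ^ 2 * (8 - t) := by
    rcases le_or_gt (-16) t with h1 | h1
    · have h2 : t ^ 2 ≤ 256 := by nlinarith
      have h3 : 16 * κ ^ 2 ≥ S ^ 2 := by nlinarith
      have h4 : 256 * lam ^ 3 ≤ (2 * κ ^ 2 * (8 - t)) * lam ^ 3 := by
        have h5 : (2 * κ ^ 2 * (8 - t)) * lam ^ 3 = 2 * κ ^ 2 * ((8 - t) * lam ^ 3) := by ring
        have h6 : 2 * κ ^ 2 * (16000 * S ^ 2) ≤ 2 * κ ^ 2 * ((8 - t) * lam ^ 3) :=
          mul_le_mul_of_nonneg_left h (by positivity)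
        have h7 : S ^ 2 * S ^ 2 ≤ 16 * κ ^ 2 * S ^ 2 :=
          mul_le_mul_of_nonneg_right h3 (by positivity)
        have h9 : (2 * lam) ^ 2 ≤ S ^ 2 := by
          apply pow_le_pow_left₀ (by positivity) hS
        have h10 : (2 * lam) ^ 2 * (2 * lam) ^ 2 ≤ S ^ 2 * S ^ 2 :=
          mul_le_mul h9 h9 (by positivity) (by positivity)
        have h11 : 16000 * lam ^ 3 ≤ lam * lam ^ 3 :=
          mul_le_mul_of_nonneg_right hl (by positivity)
        rw [h5]
        nlinarith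
      have h5 := le_of_mul_le_mul_right h4 (by positivity)
      linarith
    · have h2 : |t| = -t := abs_of_neg (by linarith)
      rw [h2] at ht
      have h3 : t ^ 2 ≤ 4 * κ * (-t) := by nlinarith
      have h4 : 4 * κ * (-t) ≤ 2 * κ ^ 2 * (-t) := by
        apply mul_le_mul_of_nonneg_right _ (by linarith)
        nlinarith
      have h5 : 2 * κ ^ 2 * (-t) ≤ 2 * κ ^ 2 * (8 - t) := by
        apply mul_le_mul_of_nonneg_left _ (by positivity)
        linarith
      linarith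
  have h1 : t ^ 2 / (4 * κ ^ 2) ≤ (8 - t) / 2 := by
    rw [div_le_iff₀ (by positivity)]
    linarith
  have h2 : (8 - t) / (2 * S) ≤
      -t / (2 * κ) + 1 / (2 * κ) * (8 - t ^ 2 / (4 * κ ^ 2)) := by
    have h3 : (8 - t) / (2 * S) ≤ (8 - t) / (4 * κ) := by
      apply div_le_div_of_nonneg_left h8.le (by positivity)
      linarith
    have h4 : (8 - t) / (4 * κ) = -t / (2 * κ) + 1 / (2 * κ) * (8 - (8 - t) / 2) := by
      field_simp
      ring
    have h5 : 1 / (2 * κ) * (8 - (8 - t) / 2) ≤ 1 / (2 * κ) * (8 - t ^ 2 / (4 * κ ^ 2)) := by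
      apply mul_le_mul_of_nonneg_left _ (by positivity)
      linarith
    linarith
  refine lt_of_lt_of_le ?_ h2
  have h3 : 768 * π ^ 2 * (S / lam) / lam ^ 2 = 768 * π ^ 2 * S / lam ^ 3 := by
    field_simp
  rw [h3, div_lt_div_iff₀ (by positivity) (by positivity)]
  have hpi : π ^ 2 < 10 := by
    have h4 := Real.pi_lt_d2
    have h5 := Real.pi_pos
    nlinarith
  have h4 : 0 < S ^ 2 := by positivity
  nlinarith

end LD4Aux

open LD4Aux in
/-- LD4. The second sub-solution for all matrices with large eigenvalues. -/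
theorem hasAng2_gen : ∃ κ₀ > (0 : ℝ), ∀ a b c lam : ℝ, κ₀ ≤ lam → Ell a b c lam →
    κ₀ * (a + b) ^ 2 ≤ (8 + b - a) * lam ^ 3 →
    ∃ ψ, ∃ m > 0, Ang a b c (fun θ => H1 a b c θ + 2 * Real.cos (2 * θ)) m ψ := by
  refine ⟨16000, by norm_num, ?_⟩
  intro a b c lam hlam hE hmain
  have hl : 0 < lam := by linarith
  have hla := hE.le_a
  have hlb := hE.le_b
  have hSpos : 0 < a + b := by linarith
  have hV : ∀ x, 0 < Vth a b c x := fun x => lt_of_lt_of_le hl (LBAux.V_lower hE x)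
  have hV2 : ∀ x, 0 < (fun θ => Vth a b c θ / 2) x := by
    intro x
    have := hV x
    show 0 < Vth a b c x / 2
    linarith
  have hV2p : Function.Periodic (fun θ => Vth a b c θ / 2) π := by
    intro x
    simp only [V_per a b c x]
  have hpi := Real.pi_pos
  obtain ⟨κ, hk0, hk1, hk2, hint, hmean⟩ := means_two hl hE
  obtain ⟨R, hR⟩ : ∃ R, R = (a + b) / lam := ⟨_, rfl⟩
  have hR2 : 2 ≤ R := by
    rw [hR, le_div_iff₀ hl]
    linarith
  obtain ⟨m₁, hm₁⟩ : ∃ m₁, m₁ = -(a - b) / (2 * κ) := ⟨_, rfl⟩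
  have hFs := Fm_smooth hV
  have hFc : Continuous (Fm a b c) := sm_cont hFs
  have hF : ∀ x, |Fm a b c x| ≤ 3 * R := by
    intro x
    have := Fm_abs hE hl x
    rw [← hR] at this
    linarith
  rw [← hm₁] at hint
  have hm₁a : |m₁| ≤ 3 * R := by
    have h1 := prim_abs hF (y := π) ⟨hpi.le, le_rfl⟩
    rw [hint, abs_mul, abs_of_pos hpi, mul_comm] at h1
    exact le_of_mul_le_mul_right h1 hpi
  -- the first corrector
  have hG1 : ∀ x, |Fm a b c x - m₁| ≤ 6 * R := by
    intro x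
    have h1 := hF x
    have h2 := abs_sub (Fm a b c x) m₁
    linarith
  obtain ⟨ψ₀, h0s, h0p, h0e⟩ := psi0 hV
  obtain ⟨ψ₁, C₀, h1s, h1p, h1a, h1e, h1b⟩ := per_solve (G := fun x => Fm a b c x - m₁)
    (V2_smooth a b c) (fun n => (hFs n).sub contDiff_const) hV2p
    (fun x => by simp only [Fm_per a b c x]) hV2 (by
      rw [intervalIntegral.integral_sub (hFc.intervalIntegrable _ _) intervalIntegrable_const,
        hint, intervalIntegral.integral_const]
      simp)
  have h1s' := sm_deriv h1s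
  have h1c : Continuous (deriv ψ₁) := sm_cont h1s'
  have h1bd : ∀ x, |deriv ψ₁ x| ≤ 24 * π * R / lam := by
    intro x
    have h2 := (h1b (6 * R * π) fun y hy => prim_abs hG1 hy).2 x
    have h3 : |Vth a b c x / 2 * deriv ψ₁ x| ≤ 2 * (6 * R * π) := h2
    have h4 := LBAux.V_lower hE x
    rw [abs_mul, abs_of_pos (by linarith : (0 : ℝ) < Vth a b c x / 2)] at h3
    rw [le_div_iff₀ hl]
    have h5 := abs_nonneg (deriv ψ₁ x)
    nlinarith
  -- the mean of the second right hand side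
  have hu0 : ∫ x in (0 : ℝ)..π, deriv ψ₁ x = 0 := by
    rw [intervalIntegral.integral_deriv_eq_sub (fun x _ => (sm_diff h1s) x)
      (h1c.intervalIntegrable 0 π)]
    have := h1p 0
    rw [zero_add] at this
    rw [this, sub_self]
  obtain ⟨m₂, hm₂⟩ : ∃ m₂, m₂ = (∫ x in (0 : ℝ)..π, 2 * Real.sin (2 * x) * deriv ψ₁ x) / π :=
    ⟨_, rfl⟩
  have hm₂' : ∫ x in (0 : ℝ)..π, 2 * Real.sin (2 * x) * deriv ψ₁ x = π * m₂ := by
    rw [hm₂]
    field_simp
  have hm₂l : 1 / (2 * κ) * (8 - (a - b) ^ 2 / (4 * κ ^ 2)) ≤ m₂ := by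
    have h2 := hmean (deriv ψ₁) (by exact_mod_cast h1s' 1) (per_deriv h1p) hu0 (by
      intro x
      have h3 : (fun x => Vth a b c x / 2 * deriv ψ₁ x) =
          fun x => (∫ t in (0 : ℝ)..x, (Fm a b c t - m₁)) + C₀ := funext h1a
      rw [h3]
      have h4 := (PEAux.prim_deriv (f := fun t => Fm a b c t - m₁)
        (hFc.sub continuous_const) x).add_const C₀
      refine h4.congr_deriv ?_
      simp only [hm₁]
      ring)
    rw [hm₂'] at h2
    exact le_of_mul_le_mul_left h2 hpi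
  have hs1 : ∀ x, |2 * Real.sin (2 * x) * deriv ψ₁ x| ≤ 48 * π * R / lam := by
    intro x
    rw [abs_mul, abs_mul, abs_two]
    have h2 := Real.abs_sin_le_one (2 * x)
    have h3 := h1bd x
    have h4 : 2 * |Real.sin (2 * x)| * |deriv ψ₁ x| ≤ 2 * (24 * π * R / lam) := by
      have h5 : 2 * |Real.sin (2 * x)| ≤ 2 := by linarith
      exact mul_le_mul h5 h3 (abs_nonneg _) (by norm_num)
    refine h4.trans (le_of_eq ?_)
    ring
  have hm₂a : |m₂| ≤ 48 * π * R / lam := by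
    have h1 := prim_abs hs1 (y := π) ⟨hpi.le, le_rfl⟩
    rw [hm₂', abs_mul, abs_of_pos hpi, mul_comm] at h1
    exact le_of_mul_le_mul_right h1 hpi
  -- the second corrector
  have hc1 : Continuous fun x => 2 * Real.sin (2 * x) * deriv ψ₁ x := by fun_prop
  have hG2 : ∀ x, |2 * Real.sin (2 * x) * deriv ψ₁ x - m₂| ≤ 96 * π * R / lam := by
    intro x
    have h1 := hs1 x
    have h2 := abs_sub (2 * Real.sin (2 * x) * deriv ψ₁ x) m₂
    have h3 : 96 * π * R / lam = 48 * π * R / lam + 48 * π * R / lam := by ring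
    linarith
  obtain ⟨ψ₂, C₁, h2s, h2p, h2a, h2e, h2b⟩ := per_solve
    (G := fun x => 2 * Real.sin (2 * x) * deriv ψ₁ x - m₂)
    (V2_smooth a b c) (fun n => ((contDiff_const.mul (sin2_smooth n)).mul (h1s' n)).sub
      contDiff_const) hV2p
    (fun x => by simp only [sin_per, per_deriv h1p x]) hV2 (by
      rw [intervalIntegral.integral_sub (hc1.intervalIntegrable _ _) intervalIntegrable_const,
        hm₂', intervalIntegral.integral_const]
      simp)
  have h2bd : ∀ x, |deriv ψ₂ x| ≤ 384 * π ^ 2 * R / lam ^ 2 := by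
    intro x
    have h2 := (h2b (96 * π * R / lam * π) fun y hy => prim_abs hG2 hy).2 x
    have h3 : |Vth a b c x / 2 * deriv ψ₂ x| ≤ 2 * (96 * π * R / lam * π) := h2
    have h4 := LBAux.V_lower hE x
    rw [abs_mul, abs_of_pos (by linarith : (0 : ℝ) < Vth a b c x / 2)] at h3
    have h5 := abs_nonneg (deriv ψ₂ x)
    have h6 : 384 * π ^ 2 * R / lam ^ 2 = (4 * (96 * π * R / lam * π)) / lam := by
      field_simp
      ring
    rw [h6, le_div_iff₀ hl]
    nlinarith
  have hs2 : ∀ x, -(2 * Real.sin (2 * x) * deriv ψ₂ x) ≤ 768 * π ^ 2 * R / lam ^ 2 := by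
    intro x
    have h1 : |2 * Real.sin (2 * x) * deriv ψ₂ x| ≤ 2 * (384 * π ^ 2 * R / lam ^ 2) := by
      rw [abs_mul, abs_mul, abs_two]
      have h2 := Real.abs_sin_le_one (2 * x)
      have h3 := h2bd x
      have h5 : 2 * |Real.sin (2 * x)| ≤ 2 := by linarith
      exact mul_le_mul h5 h3 (abs_nonneg _) (by norm_num)
    have h6 := neg_abs_le (2 * Real.sin (2 * x) * deriv ψ₂ x)
    have h7 : 2 * (384 * π ^ 2 * R / lam ^ 2) = 768 * π ^ 2 * R / lam ^ 2 := by ring
    linarith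
  have hpos : 768 * π ^ 2 * R / lam ^ 2 < m₁ + m₂ := by
    have h1 := fin_pos (S := a + b) (t := a - b) (lam := lam) (κ := κ) hlam (by linarith)
      (by
        rw [abs_le]
        constructor <;> linarith) hk1 hk2 (by
        have h2 : 8 - (a - b) = 8 + b - a := by ring
        rw [h2]
        exact hmain)
    rw [← hR, ← hm₁] at h1
    linarith
  have d0 := sm_diff h0s
  have d1 := sm_diff h1s
  have d2 := sm_diff h2s
  have d0' := sm_diff (sm_deriv h0s)
  have d1' := sm_diff h1s'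
  have d2' := sm_diff (sm_deriv h2s)
  have e1 : deriv (fun x => ψ₀ x + ψ₁ x + ψ₂ x) =
      fun x => deriv ψ₀ x + deriv ψ₁ x + deriv ψ₂ x := by
    funext x
    exact (((d0 x).hasDerivAt.add (d1 x).hasDerivAt).add (d2 x).hasDerivAt).deriv
  have e2 : deriv (fun x => deriv ψ₀ x + deriv ψ₁ x + deriv ψ₂ x) =
      fun x => deriv (deriv ψ₀) x + deriv (deriv ψ₁) x + deriv (deriv ψ₂) x := by
    funext x
    exact (((d0' x).hasDerivAt.add (d1' x).hasDerivAt).add (d2' x).hasDerivAt).deriv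
  refine ⟨fun x => ψ₀ x + ψ₁ x + ψ₂ x, m₁ + m₂ - 768 * π ^ 2 * R / lam ^ 2, by linarith,
    ?_, ?_, ?_⟩
  · have g0 : ContDiff ℝ 3 ψ₀ := by exact_mod_cast h0s 3
    have g1 : ContDiff ℝ 3 ψ₁ := by exact_mod_cast h1s 3
    have g2 : ContDiff ℝ 3 ψ₂ := by exact_mod_cast h2s 3
    exact (g0.add g1).add g2
  · have g0 := h0p.nat_mul 2
    have g1 := h1p.nat_mul 2
    have g2 := h2p.nat_mul 2
    exact_mod_cast (g0.add g1).add g2
  · intro x
    rw [e1, e2]
    have g0 := h0e x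
    have g1 : Vth a b c x * deriv (deriv ψ₁) x / 2 + Bth a b c x * deriv ψ₁ x =
        (Fm a b c x - m₁) - 2 * Real.sin (2 * x) * deriv ψ₁ x := op (h1e x)
    have g2 : Vth a b c x * deriv (deriv ψ₂) x / 2 + Bth a b c x * deriv ψ₂ x =
        (2 * Real.sin (2 * x) * deriv ψ₁ x - m₂) - 2 * Real.sin (2 * x) * deriv ψ₂ x :=
      op (h2e x)
    have g3 := hs2 x
    show Vth a b c x * (deriv (deriv ψ₀) x + deriv (deriv ψ₁) x + deriv (deriv ψ₂) x) / 2
      + Bth a b c x * (deriv ψ₀ x + deriv ψ₁ x + deriv ψ₂ x)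
        ≤ (H1 a b c x + 2 * Real.cos (2 * x)) - (m₁ + m₂ - 768 * π ^ 2 * R / lam ^ 2)
    linarith

/-- LD4. The second sub-solution for diagonal matrices. -/
theorem hasAng2_diag {a b : ℝ} (ha : 0 < a) (hb : 0 < b) (hab : a - b < 8) :
    ∃ ψ, ∃ m > 0, Ang a b 0 (fun θ => H1 a b 0 θ + 2 * Real.cos (2 * θ)) m ψ := by
  obtain ⟨ψ, h, hh, hs, hp, he⟩ := LAAux.poisson ha hb
  refine ⟨fun x => (8 - (a - b)) / 2 * ψ x, (8 - (a - b)) / 2 * h,
    mul_pos (by linarith) hh, LAAux.ang_scale hs hp fun x => ?_⟩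
  rw [he x]
  unfold H1
  linarith

end

end Pool.Agent.SLE
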