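import Pool.Agent.Lib.MP_c17912_pr_LN.LD1
import Pool.Agent.Lib.MP_c17912_pr_LN.LB

set_option autoImplicit false

open MeasureTheory Filter
open scoped Topology Real

namespace Pool.Agent.SLE

noncomputable section

private theorem LD6_re (θ : ℝ) : (ww θ).re = Real.cos (2 * θ) := by
  unfold ww
  exact Complex.exp_ofReal_mul_I_re _

private theorem LD6_im (θ : ℝ) : (ww θ).im = Real.sin (2 * θ) := by
  unfold ww
  exact Complex.exp_ofReal_mul_I_im _

private theorem LD6_data {a b c lam : ℝ} (hl : 0 < lam) (hE : Ell a b c lam) :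
    ∃ κ p q : ℝ, 0 < κ ∧ κ = (a + b + 2 * √(a * b - c ^ 2)) / 4 ∧ 0 < √(a * b - c ^ 2) ∧
      a - b = 4 * κ * p ∧ 2 * c = 4 * κ * q ∧ (a + b) / 2 = κ * (1 + p ^ 2 + q ^ 2) ∧
      p ^ 2 + q ^ 2 < 1 := by
  have ha := hE.le_a
  have hb := hE.le_b
  have hD := hE.det hl.le
  have hS : 0 < a + b := by linarith
  have hD0 : 0 < a * b - c ^ 2 := by
    have : 0 < lam * (a + b) / 2 := by positivity
    linarith
  obtain ⟨r, hr⟩ : ∃ r, r = √(a * b - c ^ 2) := ⟨_, rfl⟩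
  have hr0 : 0 < r := by rw [hr]; exact Real.sqrt_pos.2 hD0
  have hr2 : r ^ 2 = a * b - c ^ 2 := by rw [hr]; exact Real.sq_sqrt hD0.le
  rw [← hr]
  obtain ⟨κ, hκ⟩ : ∃ κ, κ = (a + b + 2 * r) / 4 := ⟨_, rfl⟩
  have hκ0 : 0 < κ := by rw [hκ]; positivity
  have e1 : (a + b) / 2 = κ * (1 + ((a - b) / (4 * κ)) ^ 2 + (2 * c / (4 * κ)) ^ 2) := by
    have e2 : 8 * κ * (a + b) = 16 * κ ^ 2 + (a - b) ^ 2 + 4 * c ^ 2 := by
      rw [hκ]
      linear_combination (-4) * hr2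
    field_simp
    linear_combination 2 * e2
  refine ⟨κ, (a - b) / (4 * κ), 2 * c / (4 * κ), hκ0, hκ, hr0, by field_simp, by field_simp,
    e1, ?_⟩
  have e3 : κ * (1 + ((a - b) / (4 * κ)) ^ 2 + (2 * c / (4 * κ)) ^ 2) < κ * 2 := by
    rw [← e1, hκ]
    linarith
  have e4 := lt_of_mul_lt_mul_left e3 hκ0.le
  linarith

private theorem LD6_V {a b c κ p q : ℝ} (h1 : a - b = 4 * κ * p) (h2 : 2 * c = 4 * κ * q)
    (h3 : (a + b) / 2 = κ * (1 + p ^ 2 + q ^ 2)) (x : ℝ) : Vth a b c x =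
      κ * (1 + p ^ 2 + q ^ 2 - 2 * p * Real.cos (2 * x) - 2 * q * Real.sin (2 * x)) := by
  have h4 := LBAux.V_two a b c x
  linear_combination h4 / 2 + h3 - Real.cos (2 * x) / 2 * h1 - Real.sin (2 * x) / 2 * h2

/-- LD6. The integral of the inverse of the variance of the angle. -/
theorem int_inv_V {a b c lam : ℝ} (hl : 0 < lam) (hE : Ell a b c lam) :
    ∫ θ in (0 : ℝ)..π, 1 / Vth a b c θ = π / √(a * b - c ^ 2) := by
  obtain ⟨κ, p, q, hκ, hκe, hr, h1, h2, h3, hpq⟩ := LD6_data hl hE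
  obtain ⟨s, hs⟩ : ∃ s : ℂ, s = ⟨p, q⟩ := ⟨_, rfl⟩
  have hsre : s.re = p := by rw [hs]
  have hsim : s.im = q := by rw [hs]
  have hns : ‖s‖ ^ 2 = p ^ 2 + q ^ 2 := by
    rw [← Complex.normSq_eq_norm_sq, Complex.normSq_apply, hsre, hsim]
    ring
  have hs1 : ‖s‖ < 1 := by
    have h4 := norm_nonneg s
    nlinarith
  obtain ⟨t, ht⟩ : ∃ t : ℂ, t = (starRingEnd ℂ) s := ⟨_, rfl⟩
  have htn : ‖t‖ = ‖s‖ := by rw [ht, Complex.norm_conj]
  have hst : t * s = ((p ^ 2 + q ^ 2 : ℝ) : ℂ) := by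
    rw [ht, ← hns, mul_comm, Complex.mul_conj, Complex.normSq_eq_norm_sq]
  -- the radius
  obtain ⟨R, hR1, hR2⟩ : ∃ R : ℝ, 1 < R ∧ ‖s‖ * R < 1 := by
    refine ⟨2 / (1 + ‖s‖), ?_, ?_⟩
    · rw [lt_div_iff₀ (by positivity)]
      linarith
    · rw [← mul_div_assoc, div_lt_iff₀ (by positivity)]
      linarith
  have hne : ∀ z : ℂ, ‖z‖ < R → 1 - t * z ≠ 0 := by
    intro z hz h0
    have h4 : t * z = 1 := (sub_eq_zero.1 h0).symm
    have h5 : ‖t * z‖ = 1 := by rw [h4, norm_one]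
    rw [norm_mul, htn] at h5
    have h6 : ‖s‖ * ‖z‖ ≤ ‖s‖ * R := mul_le_mul_of_nonneg_left hz.le (norm_nonneg s)
    linarith
  have hf : DifferentiableOn ℂ (fun z => (1 - t * z)⁻¹) (Metric.ball 0 R) := by
    intro z hz
    rw [mem_ball_zero_iff] at hz
    have h4 : DifferentiableAt ℂ (fun z => 1 - t * z) z := by fun_prop
    exact (h4.inv (hne z hz)).differentiableWithinAt
  have hm := mean_cauchy hR1 hf hs1
  have hww : ∀ x : ℝ, ‖ww x‖ = 1 := fun x => by
    unfold ww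
    exact Complex.norm_exp_ofReal_mul_I _
  have hV : ∀ x, 0 < Vth a b c x := fun x => lt_of_lt_of_le hl (LBAux.V_lower hE x)
  have key : ∀ x : ℝ, ((1 / Vth a b c x : ℝ) : ℂ) =
      ((1 / κ : ℝ) : ℂ) * ((1 - t * ww x)⁻¹ * (ww x / (ww x - s))) := by
    intro x
    have h4 : ww x - s ≠ 0 := by
      intro h0
      have h5 : ‖ww x‖ = ‖s‖ := by rw [sub_eq_zero.1 h0]
      rw [hww] at h5
      linarith
    have h5 : 1 - t * ww x ≠ 0 := hne _ (by rw [hww]; exact hR1)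
    have h6 : ww x ≠ 0 := Complex.exp_ne_zero _
    have h7 : ((Vth a b c x : ℝ) : ℂ) * ww x = (κ : ℂ) * ((ww x - s) * (1 - t * ww x)) := by
      rw [LD6_V h1 h2 h3 x]
      have h8 := Real.sin_sq_add_cos_sq (2 * x)
      apply Complex.ext
      · simp only [Complex.mul_re, Complex.mul_im, Complex.ofReal_re, Complex.ofReal_im,
          Complex.sub_re, Complex.sub_im, Complex.one_re, Complex.one_im, ht, Complex.conj_re,
          Complex.conj_im, hsre, hsim, LD6_re, LD6_im]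
        linear_combination (-(κ * p)) * h8
      · simp only [Complex.mul_re, Complex.mul_im, Complex.ofReal_re, Complex.ofReal_im,
          Complex.sub_re, Complex.sub_im, Complex.one_re, Complex.one_im, ht, Complex.conj_re,
          Complex.conj_im, hsre, hsim, LD6_re, LD6_im]
        linear_combination (-(κ * q)) * h8
    have h9 : ((Vth a b c x : ℝ) : ℂ) ≠ 0 := Complex.ofReal_ne_zero.2 (hV x).ne'
    have h10 : (κ : ℂ) ≠ 0 := Complex.ofReal_ne_zero.2 hκ.ne'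
    push_cast
    field_simp
    linear_combination -h7
  have h4 : ((∫ θ in (0 : ℝ)..π, 1 / Vth a b c θ : ℝ) : ℂ) =
      ((1 / κ : ℝ) : ℂ) * (π * (1 - t * s)⁻¹) := by
    rw [← intervalIntegral.integral_ofReal]
    simp only [key]
    rw [intervalIntegral.integral_const_mul, hm]
  rw [hst] at h4
  have h5 : κ * (1 - (p ^ 2 + q ^ 2)) = √(a * b - c ^ 2) := by
    have h6 : κ * (1 - (p ^ 2 + q ^ 2)) = 2 * κ - κ * (1 + p ^ 2 + q ^ 2) := by ring
    rw [h6, ← h3, hκe]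
    ring
  have h6 : ((1 / κ : ℝ) : ℂ) * (π * (1 - ((p ^ 2 + q ^ 2 : ℝ) : ℂ))⁻¹) =
      ((1 / κ * (π * (1 - (p ^ 2 + q ^ 2))⁻¹) : ℝ) : ℂ) := by
    push_cast
    ring
  rw [h6] at h4
  have h7 := Complex.ofReal_injective h4
  rw [h7, ← h5]
  have h8 : 1 - (p ^ 2 + q ^ 2) ≠ 0 := by linarith
  field_simp

/-- LD6. The primitive of `Fm` is bounded by a logarithm. -/
theorem int_Fm_le {a b c lam : ℝ} (hl : 0 < lam) (hE : Ell a b c lam) {x : ℝ}
    (hx : x ∈ Set.Icc 0 π) :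
    |∫ θ in (0 : ℝ)..x, Fm a b c θ| ≤ 2 + (1 + 2 * π) * Real.log ((a + b) / lam) := by
  have hVl := LBAux.V_lower hE
  have hVu := LBAux.V_upper hE hl
  have hVp : ∀ θ, 0 < Vth a b c θ := fun θ => lt_of_lt_of_le hl (hVl θ)
  have hVc := LBAux.V_cont a b c
  obtain ⟨G, hG⟩ : ∃ G : ℝ → ℝ, G = fun θ => Real.log (Vth a b c θ / lam) := ⟨_, rfl⟩
  have hGc : Continuous G := by
    rw [hG]
    exact (hVc.div_const lam).log fun θ => by
      have := hVp θ
      positivity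
  have hG0 : ∀ θ, 0 ≤ G θ := by
    intro θ
    rw [hG]
    apply Real.log_nonneg
    rw [le_div_iff₀ hl, one_mul]
    exact hVl θ
  have hG1 : ∀ θ, G θ ≤ Real.log ((a + b) / lam) := by
    intro θ
    rw [hG]
    apply Real.log_le_log
    · have := hVp θ
      positivity
    · exact div_le_div_of_nonneg_right (hVu θ) hl.le
  obtain ⟨L, hL⟩ : ∃ L, L = Real.log ((a + b) / lam) := ⟨_, rfl⟩
  rw [← hL] at hG1 ⊢
  have hL0 : 0 ≤ L := le_trans (hG0 0) (hG1 0)
  have hGd : ∀ y, HasDerivAt G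
      (((a - b) * Real.sin (2 * y) - 2 * c * Real.cos (2 * y)) / Vth a b c y) y := by
    intro y
    have h2 := ((LBAux.V_deriv a b c y).div_const lam).log (by
      have := hVp y
      positivity)
    rw [hG]
    refine h2.congr_deriv ?_
    have h3 := (hVp y).ne'
    field_simp
  have hFc : Continuous (Fm a b c) := by
    unfold Fm
    have h5 : ∀ x, Vth a b c x ≠ 0 := fun x => (hVp x).ne'
    fun_prop (disch := assumption)
  have hcc : Continuous fun θ : ℝ => 2 * Real.cos (2 * θ) * G θ := by fun_prop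
  have i1 : IntervalIntegrable (Fm a b c) volume 0 x := hFc.intervalIntegrable _ _
  have i2 : IntervalIntegrable (fun θ => 2 * Real.cos (2 * θ) * G θ) volume 0 x :=
    hcc.intervalIntegrable _ _
  have h1 : ∫ θ in (0 : ℝ)..x, Fm a b c θ =
      2 * Real.sin (2 * x) - Real.sin (2 * x) * G x +
        ∫ θ in (0 : ℝ)..x, 2 * Real.cos (2 * θ) * G θ := by
    have h2 : ∀ y ∈ Set.uIcc 0 x, HasDerivAt
        (fun θ => 2 * Real.sin (2 * θ) - Real.sin (2 * θ) * G θ)
        (Fm a b c y - 2 * Real.cos (2 * y) * G y) y := by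
      intro y _
      have h3 := ((LBAux.hd_sin y).const_mul 2).sub ((LBAux.hd_sin y).mul (hGd y))
      refine h3.congr_deriv ?_
      unfold Fm
      ring
    have h4 := intervalIntegral.integral_eq_sub_of_hasDerivAt h2 (i1.sub i2)
    rw [intervalIntegral.integral_sub i1 i2] at h4
    rw [mul_zero, Real.sin_zero, zero_mul, mul_zero, sub_zero, sub_zero] at h4
    linarith
  have h2 : |∫ θ in (0 : ℝ)..x, 2 * Real.cos (2 * θ) * G θ| ≤ 2 * π * L := by
    have h3 : ‖∫ θ in (0 : ℝ)..x, 2 * Real.cos (2 * θ) * G θ‖ ≤ 2 * L * |x - 0| := by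
      refine intervalIntegral.norm_integral_le_of_norm_le_const fun y _ => ?_
      rw [Real.norm_eq_abs, abs_mul, abs_mul, abs_two, abs_of_nonneg (hG0 y)]
      have h4 := Real.abs_cos_le_one (2 * y)
      have h5 := hG0 y
      have h6 := hG1 y
      have h7 := abs_nonneg (Real.cos (2 * y))
      nlinarith
    rw [Real.norm_eq_abs, sub_zero, abs_of_nonneg hx.1] at h3
    have h4 : 2 * L * x ≤ 2 * L * π := mul_le_mul_of_nonneg_left hx.2 (by positivity)
    linarith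
  have h3 : |Real.sin (2 * x) * G x| ≤ L := by
    rw [abs_mul, abs_of_nonneg (hG0 x)]
    have h4 := Real.abs_sin_le_one (2 * x)
    have h5 := hG0 x
    have h6 := hG1 x
    have h7 := abs_nonneg (Real.sin (2 * x))
    nlinarith
  have h4 : |2 * Real.sin (2 * x)| ≤ 2 := by
    rw [abs_mul, abs_two]
    have := Real.abs_sin_le_one (2 * x)
    linarith
  rw [h1]
  calc |2 * Real.sin (2 * x) - Real.sin (2 * x) * G x +
        ∫ θ in (0 : ℝ)..x, 2 * Real.cos (2 * θ) * G θ|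
      ≤ |2 * Real.sin (2 * x) - Real.sin (2 * x) * G x| +
        |∫ θ in (0 : ℝ)..x, 2 * Real.cos (2 * θ) * G θ| := abs_add_le _ _
    _ ≤ (|2 * Real.sin (2 * x)| + |Real.sin (2 * x) * G x|) +
        |∫ θ in (0 : ℝ)..x, 2 * Real.cos (2 * θ) * G θ| := by
          gcongr
          exact abs_sub _ _
    _ ≤ (2 + L) + 2 * π * L := by gcongr
    _ = 2 + (1 + 2 * π) * L := by ring

end

end Pool.Agent.SLE
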