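import Pool.Agent.Lib.MP_c17912_pr_LN.LD3
import Pool.Agent.Lib.MP_c17912_pr_LN.LD4
import Pool.Agent.Lib.MP_c17912_pr_LN.LD6
import Pool.Agent.Lib.MP_c17912_pr_LN.PE

set_option autoImplicit false

open MeasureTheory Filter
open scoped Topology Real

namespace Pool.Agent.SLE

noncomputable section

namespace LD5Aux

/-- the comparison of the error with the main term, squares -/
theorem err {S X lam D g l w : ℝ} (hl : 10 ^ 9 ≤ lam) (hS : 2 * lam ≤ S) (hX : 0 < X)
    (hD : lam * S / 2 ≤ D) (h : 10 ^ 9 * S ≤ X ^ 2 * lam ^ 2) (hg : g = 4 + 2 * (1 + 2 * π) * l)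
    (hl1 : 0.69 ≤ l) (hlw : l ≤ w) (hw : w ^ 2 ≤ lam) :
    128 * π * g / (lam * √D) < X / (2 * S) := by
  have hl0 : 0 < lam := by linarith
  have hS0 : 0 < S := by linarith
  have hD0 : 0 < D := lt_of_lt_of_le (by positivity) hD
  have hsD : 0 < √D := Real.sqrt_pos.2 hD0
  have hsq : √D ^ 2 = D := Real.sq_sqrt hD0.le
  have hpi := Real.pi_pos
  have hpi2 : π < 3.1416 := Real.pi_lt_d4
  have hl0' : 0 < l := by linarith
  have hg1 : g ≤ 21 * l := by
    rw [hg]
    nlinarith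
  have hg0 : 0 < g := by
    rw [hg]
    positivity
  rw [div_lt_div_iff₀ (by positivity) (by positivity)]
  refine lt_of_pow_lt_pow_left₀ 2 (by positivity) ?_
  have h1 : (128 * π * g * (2 * S)) ^ 2 = (256 * π) ^ 2 * g ^ 2 * S ^ 2 := by ring
  have h2 : (X * (lam * √D)) ^ 2 = X ^ 2 * lam ^ 2 * D := by
    rw [mul_pow, mul_pow, hsq]
    ring
  rw [h1, h2]
  have h3 : 10 ^ 9 * S * (lam * S / 2) ≤ X ^ 2 * lam ^ 2 * D :=
    mul_le_mul h hD (by positivity) (by positivity)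
  refine lt_of_lt_of_le ?_ h3
  have h4 : g ^ 2 ≤ 441 * lam := by
    have h5 : g ^ 2 ≤ (21 * w) ^ 2 := by
      apply pow_le_pow_left₀ hg0.le
      linarith
    nlinarith
  have h6 : (256 * π) ^ 2 ≤ 650000 := by nlinarith
  have h7 : (256 * π) ^ 2 * g ^ 2 ≤ 650000 * (441 * lam) :=
    mul_le_mul h6 h4 (by positivity) (by norm_num)
  have h8 : (256 * π) ^ 2 * g ^ 2 * S ^ 2 ≤ 650000 * (441 * lam) * S ^ 2 :=
    mul_le_mul_of_nonneg_right h7 (by positivity)
  refine lt_of_le_of_lt h8 ?_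
  have h9 : 0 < lam * S ^ 2 := by positivity
  nlinarith

/-- the main term -/
theorem main_pos {S t lam κ : ℝ} (hl : 10 ^ 9 ≤ lam) (hS : 2 * lam ≤ S) (ht : |t| ≤ S)
    (hk1 : S ≤ 4 * κ) (hk2 : 2 * κ ≤ S) (h8 : 0 < 8 - t)
    (h : 10 ^ 9 * S ≤ (8 - t) ^ 2 * lam ^ 2) :
    (8 - t) / (2 * S) ≤ -t / (2 * κ) + 1 / (2 * κ) * (8 - t ^ 2 / (4 * κ ^ 2)) := by
  have hl0 : 0 < lam := by linarith
  have hS0 : 0 < S := by linarith
  have hk0 : 0 < κ := by linarith
  have hX : t ^ 2 ≤ 2 * κ ^ 2 * (8 - t) := by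
    rcases le_or_gt (-16) t with h1 | h1
    · have h2 : t ^ 2 ≤ 256 := by nlinarith
      have h3 : lam ^ 2 ≤ 4 * κ ^ 2 := by
        have : lam ≤ 2 * κ := by linarith
        nlinarith
      have h4 : 1 ≤ (8 - t) * lam := by
        have h5 : (1 : ℝ) ^ 2 ≤ ((8 - t) * lam) ^ 2 := by
          rw [mul_pow]
          nlinarith
        exact le_of_sq_le_sq h5 (by positivity)
      have h5 : lam ≤ (8 - t) * lam * lam := le_mul_of_one_le_left hl0.le h4
      have h6 : (8 - t) * lam * lam ≤ (8 - t) * (4 * κ ^ 2) := by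
        rw [mul_assoc, ← sq]
        exact mul_le_mul_of_nonneg_left h3 h8.le
      nlinarith
    · have h2 : |t| = -t := abs_of_neg (by linarith)
      rw [h2] at ht
      have h3 : t ^ 2 ≤ 4 * κ * (-t) := by nlinarith
      have h4 : 4 * κ * (-t) ≤ 2 * κ ^ 2 * (-t) := by
        apply mul_le_mul_of_nonneg_right _ (by linarith)
        nlinarith
      have h5 : 2 * κ ^ 2 * (-t) ≤ 2 * κ ^ 2 * (8 - t) := by
        apply mul_le_mul_of_nonneg_left _ (by positivity)
        linarith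
      linarith
  have h1 : t ^ 2 / (4 * κ ^ 2) ≤ (8 - t) / 2 := by
    rw [div_le_iff₀ (by positivity)]
    linarith
  have h3 : (8 - t) / (2 * S) ≤ (8 - t) / (4 * κ) := by
    apply div_le_div_of_nonneg_left h8.le (by positivity)
    linarith
  have h4 : (8 - t) / (4 * κ) = -t / (2 * κ) + 1 / (2 * κ) * (8 - (8 - t) / 2) := by
    field_simp
    ring
  have h5 : 1 / (2 * κ) * (8 - (8 - t) / 2) ≤ 1 / (2 * κ) * (8 - t ^ 2 / (4 * κ ^ 2)) := by
    apply mul_le_mul_of_nonneg_left _ (by positivity)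
    linarith
  linarith

/-- primitives of functions with a vanishing mean -/
theorem prim_sub {f : ℝ → ℝ} (hf : Continuous f) {g m : ℝ}
    (hg : ∀ x ∈ Set.Icc 0 π, |∫ t in (0 : ℝ)..x, f t| ≤ g)
    (hm : ∫ t in (0 : ℝ)..π, f t = π * m) {y : ℝ} (hy : y ∈ Set.Icc 0 π) :
    |∫ t in (0 : ℝ)..y, (f t - m)| ≤ 2 * g := by
  have hpi := Real.pi_pos
  have h1 := hg π ⟨hpi.le, le_rfl⟩
  rw [hm, abs_mul, abs_of_pos hpi] at h1
  rw [intervalIntegral.integral_sub (hf.intervalIntegrable _ _) intervalIntegrable_const,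
    intervalIntegral.integral_const, smul_eq_mul, sub_zero]
  have h2 := abs_sub (∫ t in (0 : ℝ)..y, f t) (y * m)
  have h3 : |y * m| ≤ π * |m| := by
    rw [abs_mul, abs_of_nonneg hy.1]
    exact mul_le_mul_of_nonneg_right hy.2 (abs_nonneg m)
  have h4 := hg y hy
  linarith

/-- primitives of functions with a pointwise bound -/
theorem prim_bd {f w : ℝ → ℝ} (hw : Continuous w) (hf : ∀ x, |f x| ≤ w x) {y : ℝ}
    (hy : y ∈ Set.Icc 0 π) : |∫ t in (0 : ℝ)..y, f t| ≤ ∫ t in (0 : ℝ)..π, w t := by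
  have h1 := intervalIntegral.norm_integral_le_of_norm_le (μ := volume) (f := f) (g := w) hy.1
    (Filter.Eventually.of_forall fun t _ => by
      rw [Real.norm_eq_abs]
      exact hf t) (hw.intervalIntegrable _ _)
  rw [Real.norm_eq_abs] at h1
  refine h1.trans ?_
  rw [← intervalIntegral.integral_add_adjacent_intervals (hw.intervalIntegrable 0 y)
    (hw.intervalIntegrable y π)]
  have h2 : 0 ≤ ∫ t in y..π, w t :=
    intervalIntegral.integral_nonneg hy.2 fun t _ => (abs_nonneg _).trans (hf t)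
  linarith

end LD5Aux

open LD4Aux LD5Aux in
/-- LD5. The second sub-solution for all matrices with large eigenvalues, wide range. -/
theorem hasAng2_wide : ∃ κ₀ > (0 : ℝ), ∀ a b c lam : ℝ, κ₀ ≤ lam → Ell a b c lam →
    a + b ≤ Real.exp (lam ^ (1 / 7 : ℝ)) → a - b < 8 →
    κ₀ * (a + b) ≤ (8 + b - a) ^ 2 * lam ^ 2 →
    ∃ ψ, ∃ m > 0, Ang a b c (fun θ => H1 a b c θ + 2 * Real.cos (2 * θ)) m ψ := by
  refine ⟨10 ^ 9, by norm_num, ?_⟩
  intro a b c lam hlam hE hexp hab hmain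
  have hl : 0 < lam := by linarith
  have hla := hE.le_a
  have hlb := hE.le_b
  have hSpos : 0 < a + b := by linarith
  have hV : ∀ x, 0 < Vth a b c x := fun x => lt_of_lt_of_le hl (LBAux.V_lower hE x)
  have hV2 : ∀ x, 0 < (fun θ => Vth a b c θ / 2) x := by
    intro x
    have := hV x
    show 0 < Vth a b c x / 2
    linarith
  have hV2p : Function.Periodic (fun θ => Vth a b c θ / 2) π := by
    intro x
    simp only [V_per a b c x]
  have hpi := Real.pi_pos
  obtain ⟨κ, hk0, hk1, hk2, hint, hmean⟩ := means_two hl hE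
  obtain ⟨m₁, hm₁⟩ : ∃ m₁, m₁ = -(a - b) / (2 * κ) := ⟨_, rfl⟩
  have hFs := Fm_smooth hV
  have hFc : Continuous (Fm a b c) := sm_cont hFs
  rw [← hm₁] at hint
  obtain ⟨l, hld⟩ : ∃ l, l = Real.log ((a + b) / lam) := ⟨_, rfl⟩
  have hFl : ∀ x ∈ Set.Icc 0 π, |∫ θ in (0 : ℝ)..x, Fm a b c θ| ≤ 2 + (1 + 2 * π) * l := by
    intro x hx
    rw [hld]
    exact int_Fm_le hl hE hx
  obtain ⟨g, hg⟩ : ∃ g, g = 4 + 2 * (1 + 2 * π) * l := ⟨_, rfl⟩
  have hG1 : ∀ y ∈ Set.Icc 0 π, |∫ t in (0 : ℝ)..y, (Fm a b c t - m₁)| ≤ g := by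
    intro y hy
    refine (prim_sub hFc hFl hint hy).trans (le_of_eq ?_)
    rw [hg]
    ring
  have hg0 : 0 ≤ g := (abs_nonneg _).trans (hG1 0 ⟨le_rfl, hpi.le⟩)
  -- the first corrector
  obtain ⟨ψ₀, h0s, h0p, h0e⟩ := psi0 hV
  obtain ⟨ψ₁, C₀, h1s, h1p, h1a, h1e, h1b⟩ := per_solve (G := fun x => Fm a b c x - m₁)
    (V2_smooth a b c) (fun n => (hFs n).sub contDiff_const) hV2p
    (fun x => by simp only [Fm_per a b c x]) hV2 (by
      rw [intervalIntegral.integral_sub (hFc.intervalIntegrable _ _) intervalIntegrable_const,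
        hint, intervalIntegral.integral_const]
      simp)
  have h1s' := sm_deriv h1s
  have h1c : Continuous (deriv ψ₁) := sm_cont h1s'
  have h1bd : ∀ x, |deriv ψ₁ x| ≤ 4 * g * (1 / Vth a b c x) := by
    intro x
    have h2 := (h1b g hG1).2 x
    have h3 : |Vth a b c x / 2 * deriv ψ₁ x| ≤ 2 * g := h2
    rw [abs_mul, abs_of_pos (hV2 x)] at h3
    rw [mul_one_div, le_div_iff₀ (hV x)]
    have h5 := abs_nonneg (deriv ψ₁ x)
    have h6 : Vth a b c x / 2 * |deriv ψ₁ x| ≤ 2 * g := h3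
    linarith
  -- the mean of the second right hand side
  have hu0 : ∫ x in (0 : ℝ)..π, deriv ψ₁ x = 0 := by
    rw [intervalIntegral.integral_deriv_eq_sub (fun x _ => (sm_diff h1s) x)
      (h1c.intervalIntegrable 0 π)]
    have := h1p 0
    rw [zero_add] at this
    rw [this, sub_self]
  obtain ⟨m₂, hm₂⟩ : ∃ m₂, m₂ = (∫ x in (0 : ℝ)..π, 2 * Real.sin (2 * x) * deriv ψ₁ x) / π :=
    ⟨_, rfl⟩
  have hm₂' : ∫ x in (0 : ℝ)..π, 2 * Real.sin (2 * x) * deriv ψ₁ x = π * m₂ := by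
    rw [hm₂]
    field_simp
  have hm₂l : 1 / (2 * κ) * (8 - (a - b) ^ 2 / (4 * κ ^ 2)) ≤ m₂ := by
    have h2 := hmean (deriv ψ₁) (by exact_mod_cast h1s' 1) (per_deriv h1p) hu0 (by
      intro x
      have h3 : (fun x => Vth a b c x / 2 * deriv ψ₁ x) =
          fun x => (∫ t in (0 : ℝ)..x, (Fm a b c t - m₁)) + C₀ := funext h1a
      rw [h3]
      have h4 := (PEAux.prim_deriv (f := fun t => Fm a b c t - m₁)
        (hFc.sub continuous_const) x).add_const C₀
      refine h4.congr_deriv ?_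
      simp only [hm₁]
      ring)
    rw [hm₂'] at h2
    exact le_of_mul_le_mul_left h2 hpi
  have hc1 : Continuous fun x => 2 * Real.sin (2 * x) * deriv ψ₁ x := by fun_prop
  have hcV : Continuous fun x => 1 / Vth a b c x :=
    continuous_const.div (sm_cont (V_smooth a b c)) fun x => (hV x).ne'
  obtain ⟨r, hr⟩ : ∃ r, r = √(a * b - c ^ 2) := ⟨_, rfl⟩
  have hdet := hE.det hl.le
  have hDpos : 0 < a * b - c ^ 2 := lt_of_lt_of_le (by positivity) hdet
  have hr0 : 0 < r := by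
    rw [hr]
    exact Real.sqrt_pos.2 hDpos
  have hS2 : ∀ x, |2 * Real.sin (2 * x) * deriv ψ₁ x| ≤ 8 * g * (1 / Vth a b c x) := by
    intro x
    rw [abs_mul, abs_mul, abs_two]
    have h2 := Real.abs_sin_le_one (2 * x)
    have h3 := h1bd x
    have h4 : 2 * |Real.sin (2 * x)| * |deriv ψ₁ x| ≤ 2 * (4 * g * (1 / Vth a b c x)) := by
      have h5 : 2 * |Real.sin (2 * x)| ≤ 2 := by linarith
      exact mul_le_mul h5 h3 (abs_nonneg _) (by norm_num)
    refine h4.trans (le_of_eq ?_)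
    ring
  have hP2 : ∀ y ∈ Set.Icc 0 π, |∫ x in (0 : ℝ)..y, 2 * Real.sin (2 * x) * deriv ψ₁ x| ≤
      8 * g * (π / r) := by
    intro y hy
    have hcw : Continuous fun x => 8 * g * (1 / Vth a b c x) := continuous_const.mul hcV
    refine (prim_bd hcw hS2 hy).trans (le_of_eq ?_)
    rw [intervalIntegral.integral_const_mul, int_inv_V hl hE, hr]
  -- the second corrector
  have hG2 : ∀ y ∈ Set.Icc 0 π, |∫ x in (0 : ℝ)..y, (2 * Real.sin (2 * x) * deriv ψ₁ x - m₂)| ≤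
      2 * (8 * g * (π / r)) := fun y hy => prim_sub hc1 hP2 hm₂' hy
  obtain ⟨ψ₂, C₁, h2s, h2p, h2a, h2e, h2b⟩ := per_solve
    (G := fun x => 2 * Real.sin (2 * x) * deriv ψ₁ x - m₂)
    (V2_smooth a b c) (fun n => ((contDiff_const.mul (sin2_smooth n)).mul (h1s' n)).sub
      contDiff_const) hV2p
    (fun x => by simp only [sin_per, per_deriv h1p x]) hV2 (by
      rw [intervalIntegral.integral_sub (hc1.intervalIntegrable _ _) intervalIntegrable_const,
        hm₂', intervalIntegral.integral_const]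
      simp)
  obtain ⟨e, he⟩ : ∃ e, e = 128 * π * g / (lam * r) := ⟨_, rfl⟩
  have h2bd : ∀ x, |deriv ψ₂ x| ≤ e / 2 := by
    intro x
    have h2 := (h2b (2 * (8 * g * (π / r))) hG2).2 x
    have h3 : |Vth a b c x / 2 * deriv ψ₂ x| ≤ 2 * (2 * (8 * g * (π / r))) := h2
    have h4 := LBAux.V_lower hE x
    rw [abs_mul, abs_of_pos (by linarith : (0 : ℝ) < Vth a b c x / 2)] at h3
    have h5 := abs_nonneg (deriv ψ₂ x)
    have h6 : e / 2 = (2 * (2 * (2 * (8 * g * (π / r))))) / lam := by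
      rw [he]
      field_simp
      ring
    rw [h6, le_div_iff₀ hl]
    nlinarith
  have hs2 : ∀ x, -(2 * Real.sin (2 * x) * deriv ψ₂ x) ≤ e := by
    intro x
    have h1 : |2 * Real.sin (2 * x) * deriv ψ₂ x| ≤ 2 * (e / 2) := by
      rw [abs_mul, abs_mul, abs_two]
      have h2 := Real.abs_sin_le_one (2 * x)
      have h3 := h2bd x
      have h5 : 2 * |Real.sin (2 * x)| ≤ 2 := by linarith
      exact mul_le_mul h5 h3 (abs_nonneg _) (by norm_num)
    have h6 := neg_abs_le (2 * Real.sin (2 * x) * deriv ψ₂ x)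
    linarith
  have h8t : 8 - (a - b) = 8 + b - a := by ring
  have hmain' : 10 ^ 9 * (a + b) ≤ (8 - (a - b)) ^ 2 * lam ^ 2 := by
    rw [h8t]
    exact hmain
  have hl2 : 0.69 ≤ l := by
    have h1 : (2 : ℝ) ≤ (a + b) / lam := by
      rw [le_div_iff₀ hl]
      linarith
    have h2 := Real.log_le_log (by norm_num) h1
    have h3 := Real.log_two_gt_d9
    rw [hld]
    linarith
  have hlw : l ≤ lam ^ (1 / 7 : ℝ) := by
    have h1 : (a + b) / lam ≤ Real.exp (lam ^ (1 / 7 : ℝ)) := by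
      refine le_trans ?_ hexp
      rw [div_le_iff₀ hl]
      nlinarith
    have h2 := Real.log_le_log (by positivity) h1
    rw [Real.log_exp, ← hld] at h2
    exact h2
  have hw2 : (lam ^ (1 / 7 : ℝ)) ^ 2 ≤ lam := by
    rw [← Real.rpow_natCast, ← Real.rpow_mul hl.le]
    have h1 := Real.rpow_le_rpow_of_exponent_le (show 1 ≤ lam by linarith)
      (show (1 / 7 : ℝ) * ((2 : ℕ) : ℝ) ≤ 1 by norm_num)
    rwa [Real.rpow_one] at h1
  have hpos : e < m₁ + m₂ := by
    have h1 := err (S := a + b) (X := 8 - (a - b)) hlam (by linarith) (by linarith) hdet hmain'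
      hg hl2 hlw hw2
    rw [← hr, ← he] at h1
    have h2 := main_pos (S := a + b) (t := a - b) (κ := κ) hlam (by linarith)
      (by
        rw [abs_le]
        constructor <;> linarith) hk1 hk2 (by linarith) hmain'
    rw [← hm₁] at h2
    linarith
  have d0 := sm_diff h0s
  have d1 := sm_diff h1s
  have d2 := sm_diff h2s
  have d0' := sm_diff (sm_deriv h0s)
  have d1' := sm_diff h1s'
  have d2' := sm_diff (sm_deriv h2s)
  have e1 : deriv (fun x => ψ₀ x + ψ₁ x + ψ₂ x) =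
      fun x => deriv ψ₀ x + deriv ψ₁ x + deriv ψ₂ x := by
    funext x
    exact (((d0 x).hasDerivAt.add (d1 x).hasDerivAt).add (d2 x).hasDerivAt).deriv
  have e2 : deriv (fun x => deriv ψ₀ x + deriv ψ₁ x + deriv ψ₂ x) =
      fun x => deriv (deriv ψ₀) x + deriv (deriv ψ₁) x + deriv (deriv ψ₂) x := by
    funext x
    exact (((d0' x).hasDerivAt.add (d1' x).hasDerivAt).add (d2' x).hasDerivAt).deriv
  refine ⟨fun x => ψ₀ x + ψ₁ x + ψ₂ x, m₁ + m₂ - e, by linarith, ?_, ?_, ?_⟩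
  · have g0 : ContDiff ℝ 3 ψ₀ := by exact_mod_cast h0s 3
    have g1 : ContDiff ℝ 3 ψ₁ := by exact_mod_cast h1s 3
    have g2 : ContDiff ℝ 3 ψ₂ := by exact_mod_cast h2s 3
    exact (g0.add g1).add g2
  · have g0 := h0p.nat_mul 2
    have g1 := h1p.nat_mul 2
    have g2 := h2p.nat_mul 2
    exact_mod_cast (g0.add g1).add g2
  · intro x
    rw [e1, e2]
    have g0 := h0e x
    have g1 : Vth a b c x * deriv (deriv ψ₁) x / 2 + Bth a b c x * deriv ψ₁ x =
        (Fm a b c x - m₁) - 2 * Real.sin (2 * x) * deriv ψ₁ x := op (h1e x)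
    have g2 : Vth a b c x * deriv (deriv ψ₂) x / 2 + Bth a b c x * deriv ψ₂ x =
        (2 * Real.sin (2 * x) * deriv ψ₁ x - m₂) - 2 * Real.sin (2 * x) * deriv ψ₂ x :=
      op (h2e x)
    have g3 := hs2 x
    show Vth a b c x * (deriv (deriv ψ₀) x + deriv (deriv ψ₁) x + deriv (deriv ψ₂) x) / 2
      + Bth a b c x * (deriv ψ₀ x + deriv ψ₁ x + deriv ψ₂ x)
        ≤ (H1 a b c x + 2 * Real.cos (2 * x)) - (m₁ + m₂ - e)
    linarith

end

end Pool.Agent.SLE
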