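import Pool.Agent.Lib.MP_c17912_pr_LN.NG
import Pool.Agent.Lib.MP_c17912_pr.Maxi

set_option autoImplicit false

open MeasureTheory ProbabilityTheory Filter
open scoped NNReal ENNReal Topology Real

namespace Pool.Agent.SLE

noncomputable section

variable {Ω : Type*} [MeasurableSpace Ω] {μ : Measure Ω}

namespace PBAux

/-- the good sets -/
def gs (E : ℕ → Set Ω) : ℕ → Set Ω
  | 0 => Set.univ
  | j + 1 => gs E j ∩ E j

omit [MeasurableSpace Ω] in
lemma meas_Fut {W : ℝ → Ω → ℂ} {s t : ℝ} (hst : s ≤ t) :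
    Measurable[Fut W s] fun ω => W t ω - W s ω := by
  rw [measurable_iff_comap_le]
  exact le_iSup (fun r : Set.Ici s =>
    MeasurableSpace.comap (fun ω => W r ω - W s ω) inferInstance) ⟨t, hst⟩

omit [MeasurableSpace Ω] in
lemma meas_Blk {W : ℝ → Ω → ℂ} {s t : ℝ} (hst : s ≤ t) :
    Measurable[Blk W s t] fun ω => W t ω - W s ω := by
  rw [measurable_iff_comap_le]
  exact le_iSup (fun r : Set.Icc s t =>
    MeasurableSpace.comap (fun ω => W r ω - W s ω) inferInstance) ⟨t, hst, le_rfl⟩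

lemma re_tail {a h : ℝ} (ha : 0 < a) (hh : 0 < h) :
    1 / 2 - √(a * h) / 4 / (2 * √(a * h)) = 1 / 4 + 1 / 8 := by
  have h1 : √(a * h) ≠ 0 := (Real.sqrt_pos.2 (mul_pos ha hh)).ne'
  field_simp
  norm_num

end PBAux

open PBAux in
/-- PB. The second phase: the tip moves to the right, quickly. -/
theorem push [IsProbabilityMeasure μ] (a b c K : ℝ) (ha : 0 < a) {K₂ τ : ℝ} (hK₂ : 0 < K₂)
    (hτ : 0 < τ) : ∃ p > 0, ∃ T₂ > 0, T₂ ≤ τ ∧ ∃ K₃ > 0, ∀ W : ℝ → Ω → ℂ, Gau a b c K W μ →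
      ∃ G, MeasurableSet[Blk W 0 T₂] G ∧ ENNReal.ofReal p ≤ μ G ∧
        ∀ ω ∈ G, (∀ t ∈ Set.Icc 0 T₂, -5 ≤ (W t ω).re) ∧ K₂ ≤ (W T₂ ω).re ∧
          ‖W T₂ ω‖ ≤ K₃ := by
  obtain ⟨n₀, hn₀⟩ := exists_nat_gt (max (16 * K₂ ^ 2 / (a * τ)) (8 * |a + b| * τ))
  obtain ⟨n, hn1, hn2, hn0⟩ : ∃ n : ℕ, 16 * K₂ ^ 2 / (a * τ) < n ∧ 8 * |a + b| * τ < n ∧
      0 < n := by
    refine ⟨n₀ + 1, ?_, ?_, by omega⟩
    · have := (le_max_left (16 * K₂ ^ 2 / (a * τ)) (8 * |a + b| * τ)).trans_lt hn₀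
      push_cast
      linarith
    · have := (le_max_right (16 * K₂ ^ 2 / (a * τ)) (8 * |a + b| * τ)).trans_lt hn₀
      push_cast
      linarith
  have hnr : (0 : ℝ) < n := by exact_mod_cast hn0
  obtain ⟨h, hh⟩ : ∃ h : ℝ, h = τ / n := ⟨_, rfl⟩
  have hh0 : 0 < h := by rw [hh]; positivity
  have hnh : (n : ℝ) * h = τ := by rw [hh]; field_simp
  obtain ⟨x, hx⟩ : ∃ x : ℝ, x = √(a * h) / 4 := ⟨_, rfl⟩
  have hx0 : 0 ≤ x := by rw [hx]; positivity
  have hnx : K₂ ≤ n * x := by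
    have h1 : 16 * K₂ ^ 2 < n * (a * τ) := by
      rwa [div_lt_iff₀ (mul_pos ha hτ)] at hn1
    have h2 : x ^ 2 = a * h / 16 := by
      rw [hx, div_pow, Real.sq_sqrt (mul_pos ha hh0).le]
      norm_num
    have h3 : (n * x) ^ 2 = n * (a * τ) / 16 := by
      rw [mul_pow, h2, ← hnh]
      ring
    have h4 : K₂ ^ 2 ≤ (n * x) ^ 2 := by
      rw [h3]
      linarith
    exact le_of_sq_le_sq h4 (by positivity)
  have hvar : (a + b) * h / 1 ^ 2 ≤ 1 / 8 := by
    have h2 : (a + b) * h ≤ |a + b| * h := mul_le_mul_of_nonneg_right (le_abs_self _) hh0.le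
    have h3 : |a + b| * h * n = |a + b| * τ := by rw [← hnh]; ring
    have h4 : (|a + b| * h) * n ≤ 1 / 8 * n := by
      rw [h3]
      linarith
    have h5 := le_of_mul_le_mul_right h4 hnr
    rw [one_pow, div_one]
    linarith
  refine ⟨(1 / 4) ^ n, by positivity, τ, hτ, le_rfl, n, hnr, ?_⟩
  intro W hG
  have hW : Drv a b c K W μ := hG.toDrv
  have hjh : ∀ j : ℕ, (0 : ℝ) ≤ j * h := fun j => by positivity
  -- the events of one step
  have hosc : ∀ j : ℕ, ∃ E, MeasurableSet[Blk W (j * h) (j * h + h)] E ∧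
      ENNReal.ofReal (1 / 4) ≤ μ E ∧
      ∀ ω ∈ E, x ≤ (W (j * h + h) ω - W (j * h) ω).re ∧
        ∀ t ∈ Set.Icc 0 h, ‖W (j * h + t) ω - W (j * h) ω‖ ≤ 1 := by
    intro j
    obtain ⟨A, hA1, hA2, hA3⟩ := maximal (hW.sub (hjh j) one_pos) hh0 one_pos
    have hA4 : MeasurableSet[Blk W (j * h) (j * h + h)] A := by
      have h1 := Blk_sub_le (W := W) (hjh j) one_pos h
      rw [one_pow, one_mul] at h1
      exact h1 _ hA1
    have hA5 : ∀ ω ∉ A, ∀ t ∈ Set.Icc 0 h, ‖W (j * h + t) ω - W (j * h) ω‖ ≤ 1 := by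
      intro ω hω t ht
      have h1 := hA3 ω hω t ht
      simp only [subP, psub, inv_one, one_smul, one_pow, one_mul, max_eq_left ht.1] at h1
      exact h1
    have hB := gauss_tail (hG.subP (hjh j) one_pos) (t := h) hh0 ha hx0
    rw [hx, re_tail ha hh0, ← hx] at hB
    have e1 : {ω | x ≤ (subP W (j * h) 1 h ω).re} =
        {ω | x ≤ (W (j * h + h) ω - W (j * h) ω).re} := by
      ext ω
      simp only [subP, psub, inv_one, one_smul, one_pow, one_mul, max_eq_left hh0.le]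
    rw [e1] at hB
    have hBm : MeasurableSet[Blk W (j * h) (j * h + h)]
        {ω | x ≤ (W (j * h + h) ω - W (j * h) ω).re} :=
      (Complex.measurable_re.comp (meas_Blk (W := W) (s := j * h) (t := j * h + h)
        (by linarith))) measurableSet_Ici
    refine ⟨{ω | x ≤ (W (j * h + h) ω - W (j * h) ω).re} ∩ Aᶜ, hBm.inter hA4.compl, ?_,
      fun ω hω => ⟨hω.1, hA5 ω hω.2⟩⟩
    have h4 : μ {ω | x ≤ (W (j * h + h) ω - W (j * h) ω).re} ≤
        μ ({ω | x ≤ (W (j * h + h) ω - W (j * h) ω).re} ∩ Aᶜ) + ENNReal.ofReal (1 / 8) := by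
      refine (measure_mono (t := ({ω | x ≤ (W (j * h + h) ω - W (j * h) ω).re} ∩ Aᶜ) ∪ A)
        ?_).trans ((measure_union_le _ _).trans (add_le_add le_rfl
          (hA2.trans (ENNReal.ofReal_le_ofReal hvar))))
      intro ω hω
      by_cases hA : ω ∈ A
      · exact Or.inr hA
      · exact Or.inl ⟨hω, hA⟩
    rw [ENNReal.ofReal_add (by norm_num) (by norm_num)] at hB
    exact (ENNReal.add_le_add_iff_right ENNReal.ofReal_ne_top).1 (hB.trans h4)
  choose E hE1 hE2 hE3 using hosc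
  have hc : ∀ j : ℕ, ((j + 1 : ℕ) : ℝ) * h = j * h + h := fun j => by push_cast; ring
  -- measurability
  have hSm : ∀ j : ℕ, MeasurableSet[Blk W 0 (j * h)] (gs E j) := by
    intro j
    induction j with
    | zero => exact @MeasurableSet.univ Ω (Blk W 0 _)
    | succ j ih =>
      rw [hc]
      have h1 : MeasurableSet[Blk W 0 (j * h + h)] (gs E j) :=
        Blk_le_Blk le_rfl (by linarith) _ ih
      have h2 : MeasurableSet[Blk W 0 (j * h + h)] (E j) :=
        Blk_le_Blk (hjh j) le_rfl _ (hE1 j)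
      exact h1.inter h2
  -- the probabilities
  have hprob : ∀ j : ℕ, ENNReal.ofReal ((1 / 4) ^ j) ≤ μ (gs E j) := by
    intro j
    induction j with
    | zero => simp [gs]
    | succ j ih =>
      have hind := (Indep_iff _ _ _).1 (indep_Blk_Fut hW (hjh j))
      have h1 := hind _ _ (hSm j) (Blk_le_Fut _ _ _ (hE1 j))
      have h2 : μ (gs E (j + 1)) = μ (gs E j) * μ (E j) := h1
      rw [h2, pow_succ, ENNReal.ofReal_mul (by positivity)]
      exact mul_le_mul' ih (hE2 j)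
  -- the values
  have hval : ∀ j : ℕ, ∀ ω ∈ gs E j, j * x ≤ (W (j * h) ω).re ∧ ‖W (j * h) ω‖ ≤ j ∧
      ∀ t ∈ Set.Icc 0 (j * h), -5 ≤ (W t ω).re := by
    intro j
    induction j with
    | zero =>
      intro ω _
      have h0 := hW.zero 0 le_rfl ω
      refine ⟨?_, ?_, ?_⟩
      · simp [h0]
      · simp [h0]
      · intro t ht
        simp only [Nat.cast_zero, zero_mul, Set.Icc_self, Set.mem_singleton_iff] at ht
        rw [ht, h0]
        norm_num
    | succ j ih =>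
      rintro ω ⟨h1, h2⟩
      obtain ⟨i1, i2, i3⟩ := ih ω h1
      obtain ⟨i4, i5⟩ := hE3 j ω h2
      rw [hc]
      have h3 := i5 h ⟨hh0.le, le_rfl⟩
      refine ⟨?_, ?_, ?_⟩
      · rw [Complex.sub_re] at i4
        push_cast
        linarith
      · have h4 := norm_add_le (W (j * h + h) ω - W (j * h) ω) (W (j * h) ω)
        rw [sub_add_cancel] at h4
        push_cast
        linarith
      · intro t ht
        rcases le_or_gt t (j * h) with h4 | h4
        · exact i3 t ⟨ht.1, h4⟩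
        · have h5 := i5 (t - j * h) ⟨by linarith, by linarith [ht.2]⟩
          rw [show (j : ℝ) * h + (t - j * h) = t by ring] at h5
          have h6 := (Complex.abs_re_le_norm _).trans h5
          rw [Complex.sub_re, abs_le] at h6
          have h7 : 0 ≤ (j : ℝ) * x := by positivity
          linarith [h6.1]
  refine ⟨gs E n, ?_, hprob n, ?_⟩
  · have := hSm n
    rwa [hnh] at this
  · intro ω hω
    obtain ⟨h1, h2, h3⟩ := hval n ω hω
    rw [hnh] at h1 h2 h3
    exact ⟨h3, hnx.trans h1, h2⟩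

end

end Pool.Agent.SLE
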