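import Pool.Agent.Lib.MP_c17912_pr_LN.BC

set_option autoImplicit false

open MeasureTheory ProbabilityTheory Filter
open scoped NNReal ENNReal Topology Real

namespace Pool.Agent.SLE

noncomputable section

/-- PC. The survivors hardly move in the second phase. -/
theorem push_det {V : ℝ → ℂ} (hV : Continuous V) {w : ℂ} {T₂ : ℝ} {g : ℝ → ℂ} (hT : 0 ≤ T₂)
    (hT1 : T₂ ≤ 1) (hsol : Sol V w T₂ g) (hw : w.re ≤ -8)
    (hV5 : ∀ t ∈ Set.Icc 0 T₂, -5 ≤ (V t).re) : ‖g T₂ - w‖ ≤ 1 := by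
  by_contra hcon
  have hg : ContinuousOn g (Set.Icc 0 T₂) := fun t ht => (hsol.2.2 t ht).continuousWithinAt
  have hgw : ContinuousOn (fun t => ‖g t - w‖) (Set.Icc 0 T₂) :=
    (hg.sub continuousOn_const).norm
  have hA : IsCompact (Set.Icc 0 T₂ ∩ (fun t => ‖g t - w‖) ⁻¹' Set.Ici 1) :=
    isCompact_Icc.of_isClosed_subset (hgw.preimage_isClosed_of_isClosed isClosed_Icc isClosed_Ici)
      Set.inter_subset_left
  obtain ⟨t, ⟨ht, ht1⟩, hmin⟩ := hA.exists_isLeast ⟨T₂, ⟨hT, le_rfl⟩, (not_le.1 hcon).le⟩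
  have ht1' : 1 ≤ ‖g t - w‖ := ht1
  have ht0 : 0 < t := by
    rcases ht.1.eq_or_lt with h | h
    · rw [← h, hsol.1, sub_self, norm_zero] at ht1'
      linarith
    · exact h
  have hlt : ∀ s ∈ Set.Ico 0 t, ‖g s - w‖ < 1 := by
    intro s hs
    by_contra h
    have h1 : t ≤ s := hmin ⟨⟨hs.1, hs.2.le.trans ht.2⟩, not_lt.1 h⟩
    exact absurd hs.2 (not_lt.2 h1)
  have hfar : ∀ s ∈ Set.Ico 0 t, 2 ≤ ‖g s - V s‖ := by
    intro s hs
    have h1 := (Complex.abs_re_le_norm (g s - w)).trans (hlt s hs).le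
    have h2 := Complex.abs_re_le_norm (g s - V s)
    have h3 := hV5 s ⟨hs.1, hs.2.le.trans ht.2⟩
    rw [Complex.sub_re] at h1 h2
    have h4 := (abs_le.1 h1).2
    have h5 := neg_abs_le ((g s).re - (V s).re)
    linarith
  have hle : ∀ s ∈ Set.Ico 0 t, ‖g s - w‖ ≤ s := by
    intro s hs
    have h1 := far_move hsol (x := 0) (y := s) (ρ := 2) le_rfl hs.1 (hs.2.le.trans ht.2)
      (by norm_num) (fun u hu => hfar u ⟨hu.1, hu.2.trans_lt hs.2⟩)
    rw [hsol.1] at h1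
    linarith
  have hcl : t ∈ closure (Set.Ico 0 t) := by
    rw [closure_Ico ht0.ne]
    exact ⟨ht0.le, le_rfl⟩
  have hsub : Set.Ico 0 t ⊆ Set.Icc 0 T₂ := fun s hs => ⟨hs.1, hs.2.le.trans ht.2⟩
  have hfin : ‖g t - w‖ ≤ t :=
    ContinuousWithinAt.closure_le hcl ((hgw t ht).mono hsub) continuousWithinAt_id hle
  have h1 : t = T₂ := le_antisymm ht.2 (hT1.trans (ht1'.trans hfin))
  apply hcon
  rw [← h1]
  exact hfin.trans (ht.2.trans hT1)

end

end Pool.Agent.SLE
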