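import Pool.Agent.Lib.MP_c17912_pr_LN.SD
import Pool.Agent.Lib.MP_c17912_pr_LN.PB
import Pool.Agent.Lib.MP_c17912_pr_LN.PC

set_option autoImplicit false

open MeasureTheory ProbabilityTheory Filter
open scoped NNReal ENNReal Topology Real

namespace Pool.Agent.SLE

noncomputable section

variable {Ω : Type*} [MeasurableSpace Ω] {μ : Measure Ω}

namespace MAAux

/-- A finite cover of the compact set of the positions. -/
theorem cover (K₂ R : ℝ) : ∃ F : Finset ℂ, (∀ y ∈ F, K₂ ≤ y.re) ∧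
    ∀ x : ℂ, ‖x‖ ≤ R → K₂ ≤ x.re → ∃ y ∈ F, ‖x - y‖ ≤ 1 := by
  have hc : IsCompact (Metric.closedBall (0 : ℂ) R ∩ {y : ℂ | K₂ ≤ y.re}) :=
    (isCompact_closedBall _ _).inter_right (isClosed_le continuous_const Complex.continuous_re)
  obtain ⟨t, ht, hfin, hcov⟩ := hc.finite_cover_balls one_pos
  refine ⟨hfin.toFinset, fun y hy => (ht (hfin.mem_toFinset.mp hy)).2, fun x hx hx2 => ?_⟩
  have hx' : x ∈ Metric.closedBall (0 : ℂ) R ∩ {y : ℂ | K₂ ≤ y.re} :=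
    ⟨by rw [mem_closedBall_zero_iff]; exact hx, hx2⟩
  have h1 := hcov hx'
  rw [Set.mem_iUnion₂] at h1
  obtain ⟨y, hy, hxy⟩ := h1
  refine ⟨y, hfin.mem_toFinset.mpr hy, ?_⟩
  rw [Metric.mem_ball, dist_eq_norm] at hxy
  exact hxy.le

/-- The pigeonhole principle for the events of the cover. -/
theorem pigeon {G : Set Ω} {F : Finset ℂ} {B : ℂ → Set Ω} {r : ℝ} (hr : 0 < r)
    (hG : ENNReal.ofReal r ≤ μ G) (hcov : G ⊆ ⋃ y ∈ F, B y) :
    ∃ y ∈ F, ENNReal.ofReal (r / ((F.card : ℝ) + 1)) ≤ μ (B y) := by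
  by_contra hcon
  push Not at hcon
  have h1 : μ G ≤ ∑ y ∈ F, μ (B y) := (measure_mono hcov).trans (measure_biUnion_finset_le F B)
  have h2 : ∑ y ∈ F, μ (B y) ≤ ∑ _y ∈ F, ENNReal.ofReal (r / ((F.card : ℝ) + 1)) :=
    Finset.sum_le_sum fun y hy => (hcon y hy).le
  have hn : (0 : ℝ) < (F.card : ℝ) + 1 := by positivity
  rw [Finset.sum_const, nsmul_eq_mul, ← ENNReal.ofReal_natCast,
    ← ENNReal.ofReal_mul (by positivity)] at h2
  have h3 := hG.trans (h1.trans h2)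
  rw [ENNReal.ofReal_le_ofReal_iff (by positivity), ← mul_div_assoc, le_div_iff₀ hn] at h3
  nlinarith

end MAAux

open MAAux in
/-- MA. The main event: with positive probability all survivors of the unit disc are alive
for ever. -/
theorem main_event3 [IsProbabilityMeasure μ] {a b c K : ℝ} (ha : 0 < a) (hb : 0 ≤ b)
    (hc : c ^ 2 ≤ a * b) (hang : HasAng a b c) {T₁ K₁ : ℝ} (hT₁ : 0 < T₁) (hK₁ : 0 < K₁)
    (hP : ∀ W : ℝ → Ω → ℂ, Gau a b c K W μ →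
      ∃ G, MeasurableSet[Blk W 0 T₁] G ∧ ENNReal.ofReal (1 / 4) ≤ μ G ∧
        ∀ ω ∈ G, 10 ≤ (W T₁ ω).re ∧ ‖W T₁ ω‖ ≤ K₁ ∧ ∀ (z : ℂ) (g : ℝ → ℂ), ‖z‖ < 1 →
          Sol (fun t => W t ω) z T₁ g → ‖g T₁‖ ≤ 2) :
    ∃ T₀ > 0, ∃ p > 0, ∀ W : ℝ → Ω → ℂ, Gau a b c K W μ →
      ∃ A, MeasurableSet[Fut W 0] A ∧ μ A ≤ ENNReal.ofReal (1 - p) ∧
        ∀ ω ∉ A, ∀ z : ℂ, ‖z‖ < 1 → (∃ g, Sol (fun t => W t ω) z T₀ g) →
          ∀ t, 0 ≤ t → ∃ g, Sol (fun t => W t ω) z t g := by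
  obtain ⟨q, hq, hsd⟩ := small_disc (Ω := Ω) ha.le hb hc hang
  obtain ⟨p₂, hp₂, T₂, hT₂, hT₂1, K₃, hK₃, hpush⟩ :=
    push (μ := μ) a b c K ha (K₂ := 4 / q) (τ := 1) (by positivity) one_pos
  obtain ⟨F, hF1, hF2⟩ := cover (4 / q) (K₁ + K₃)
  have hn : (0 : ℝ) < (F.card : ℝ) + 1 := by positivity
  refine ⟨T₁ + T₂, by positivity, 1 / 4 * p₂ / ((F.card : ℝ) + 1) * (1 / 2), by positivity,
    fun W hW => ?_⟩
  have hD : Drv a b c K W μ := hW.toDrv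
  have hV : Gau a b c K (subP W T₁ 1) μ := hW.subP hT₁.le one_pos
  have hD' : Drv a b c K (subP W (T₁ + T₂) 1) μ := hD.sub (by positivity) one_pos
  have hval : ∀ s u : ℝ, 0 ≤ u → ∀ ω, subP W s 1 u ω = W (s + u) ω - W s ω := by
    intro s u hu ω
    simp only [subP, psub, max_eq_left hu, inv_one, one_smul, one_pow, one_mul]
  obtain ⟨G1, hG1m, hG1, hG1'⟩ := hP W hW
  obtain ⟨G2, hG2m, hG2, hG2'⟩ := hpush _ hV
  have hG2B : MeasurableSet[Blk W T₁ (T₁ + T₂)] G2 := by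
    have h1 := Blk_sub_le (W := W) (s := T₁) (r := 1) hT₁.le one_pos T₂
    rw [show T₁ + 1 ^ 2 * T₂ = T₁ + T₂ by ring] at h1
    exact h1 _ hG2m
  have hG2F : MeasurableSet[Fut W T₁] G2 := Blk_le_Fut T₁ _ _ hG2B
  have hG20 : MeasurableSet[Blk W 0 (T₁ + T₂)] G2 := Blk_le_Blk hT₁.le le_rfl _ hG2B
  have hG10 : MeasurableSet[Blk W 0 (T₁ + T₂)] G1 :=
    Blk_le_Blk le_rfl (by linarith) _ hG1m
  have hG12 : MeasurableSet[Blk W 0 (T₁ + T₂)] (G1 ∩ G2) := hG10.inter hG20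
  have hi1 : μ (G1 ∩ G2) = μ G1 * μ G2 :=
    (ProbabilityTheory.Indep_iff _ _ μ).mp (indep_Blk_Fut hD (s := T₁) hT₁.le) _ _
      hG1m hG2F
  have hM : ENNReal.ofReal (1 / 4 * p₂) ≤ μ (G1 ∩ G2) := by
    rw [hi1, ENNReal.ofReal_mul (by positivity)]
    gcongr
  have hW0 : ∀ ω, W 0 ω = 0 := hD.zero 0 le_rfl
  -- the events of the cover
  obtain ⟨B, hB⟩ : ∃ B : ℂ → Set Ω, B = fun y => G1 ∩ G2 ∩ {ω | ‖W (T₁ + T₂) ω - y‖ ≤ 1} :=
    ⟨_, rfl⟩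
  have hBm : ∀ y, MeasurableSet[Blk W 0 (T₁ + T₂)] (B y) := by
    intro y
    rw [hB]
    refine MeasurableSet.inter hG12 ?_
    have h1 : Measurable[Blk W 0 (T₁ + T₂)] (fun ω => W (T₁ + T₂) ω - W 0 ω) :=
      DrvSubAux.meas_Blk ⟨by positivity, le_rfl⟩
    have h2 : MeasurableSet {x : ℂ | ‖x - y‖ ≤ 1} :=
      (isClosed_le (continuous_id.sub continuous_const).norm continuous_const).measurableSet
    have h3 := h1 h2
    have h4 : (fun ω => W (T₁ + T₂) ω - W 0 ω) ⁻¹' {x : ℂ | ‖x - y‖ ≤ 1}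
        = {ω | ‖W (T₁ + T₂) ω - y‖ ≤ 1} := by
      ext ω
      simp only [Set.mem_preimage, Set.mem_setOf_eq, hW0 ω, sub_zero]
    rw [h4] at h3
    exact h3
  have hcov : G1 ∩ G2 ⊆ ⋃ y ∈ F, B y := by
    intro ω hω
    obtain ⟨h10, hK, -⟩ := hG1' ω hω.1
    obtain ⟨-, hre, hno⟩ := hG2' ω hω.2
    rw [hval T₁ T₂ hT₂.le ω] at hre hno
    have h1 : ‖W (T₁ + T₂) ω‖ ≤ K₁ + K₃ := by
      have h2 := norm_add_le (W T₁ ω) (W (T₁ + T₂) ω - W T₁ ω)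
      rw [add_sub_cancel] at h2
      linarith
    have h2 : 4 / q ≤ (W (T₁ + T₂) ω).re := by
      rw [Complex.sub_re] at hre
      linarith
    obtain ⟨y, hy, hy1⟩ := hF2 _ h1 h2
    rw [Set.mem_iUnion₂]
    refine ⟨y, hy, ?_⟩
    rw [hB]
    exact ⟨hω, hy1⟩
  obtain ⟨y, hyF, hyB⟩ := pigeon (μ := μ) (by positivity) hM hcov
  have hyre := hF1 y hyF
  have hq4 : 0 < 4 / q := by positivity
  have hy0 : -y ≠ 0 := by
    intro h0
    rw [neg_eq_zero] at h0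
    rw [h0, Complex.zero_re] at hyre
    linarith
  obtain ⟨A, hAm, hA, hA'⟩ := hsd K μ _ hD' (-y) hy0
  have hFle : Fut (subP W (T₁ + T₂) 1) 0 ≤ Fut W (T₁ + T₂) :=
    Fut_sub_le (by positivity) one_pos
  have hAF : MeasurableSet[Fut W (T₁ + T₂)] A := hFle _ hAm
  have hAc : ENNReal.ofReal (1 / 2) ≤ μ Aᶜ := by
    rw [prob_compl_eq_one_sub (Fut_le hD _ _ hAF)]
    calc ENNReal.ofReal (1 / 2) = 1 - ENNReal.ofReal (1 / 2) := by
          rw [← ENNReal.ofReal_one, ← ENNReal.ofReal_sub _ (by norm_num)]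
          norm_num
      _ ≤ 1 - μ A := tsub_le_tsub_left hA _
  have hi2 : μ (B y ∩ Aᶜ) = μ (B y) * μ Aᶜ :=
    (ProbabilityTheory.Indep_iff _ _ μ).mp
      (indep_Blk_Fut hD (s := T₁ + T₂) (by positivity)) _ _ (hBm y) hAF.compl
  have hF0 : Fut W (T₁ + T₂) ≤ Fut W 0 := Fut_anti (by positivity)
  have hmG : MeasurableSet[Fut W 0] (B y ∩ Aᶜ) :=
    MeasurableSet.inter (Blk_le_Fut 0 _ _ (hBm y)) (hF0 _ hAF.compl)
  refine ⟨(B y ∩ Aᶜ)ᶜ, hmG.compl, ?_, ?_⟩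
  · rw [prob_compl_eq_one_sub (Fut_le hD _ _ hmG), ENNReal.ofReal_sub _ (by positivity),
      ENNReal.ofReal_one]
    refine tsub_le_tsub_left ?_ _
    rw [hi2, ENNReal.ofReal_mul (by positivity)]
    gcongr
  · intro ω hω z hz hg t ht
    rw [Set.mem_compl_iff, not_not] at hω
    obtain ⟨hωB, hωA⟩ := hω
    rw [hB] at hωB
    obtain ⟨⟨hω1, hω2⟩, hω3⟩ := hωB
    obtain ⟨g, hg⟩ := hg
    rcases le_total t (T₁ + T₂) with htT | htT
    · exact ⟨g, Sol.restrict hg htT⟩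
    obtain ⟨h10, hK, hz2⟩ := hG1' ω hω1
    obtain ⟨hm5, hre, hno⟩ := hG2' ω hω2
    have hgT : ‖g T₁‖ ≤ 2 := hz2 z g hz (Sol.restrict hg (by linarith))
    have hsh := Sol.shift hg (s := T₁) (r := 1) hT₁.le (by linarith) one_pos
    rw [show (T₁ + T₂ - T₁) / 1 ^ 2 = T₂ by ring, inv_one, one_smul] at hsh
    have hwre : (g T₁ - W T₁ ω).re ≤ -8 := by
      rw [Complex.sub_re]
      have h1 := (Complex.re_le_norm (g T₁)).trans hgT
      linarith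
    have hpd := push_det (V := psub (fun t => W t ω) T₁ 1) (hV.toDrv.cont ω) hT₂.le hT₂1 hsh
      hwre hm5
    simp only [one_smul, one_pow, one_mul] at hpd
    have h3 : ‖g (T₁ + T₂)‖ ≤ 3 := by
      have e : g (T₁ + T₂) = (g (T₁ + T₂) - W T₁ ω - (g T₁ - W T₁ ω)) + g T₁ := by ring
      rw [e]
      refine (norm_add_le _ _).trans ?_
      linarith
    have hcl : ‖g (T₁ + T₂) - W (T₁ + T₂) ω - -y‖ ≤ q * ‖-y‖ := by
      have e : g (T₁ + T₂) - W (T₁ + T₂) ω - -y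
          = g (T₁ + T₂) - (W (T₁ + T₂) ω - y) := by ring
      rw [e, norm_neg]
      have h4 : (4 : ℝ) ≤ q * ‖y‖ := by
        have h5 := hyre.trans (Complex.re_le_norm y)
        rw [div_le_iff₀ hq] at h5
        linarith
      refine (norm_sub_le _ _).trans ?_
      have h6 : ‖W (T₁ + T₂) ω - y‖ ≤ 1 := hω3
      linarith
    obtain ⟨g', hg'⟩ := hA' ω hωA (g (T₁ + T₂) - W (T₁ + T₂) ω) hcl (t - (T₁ + T₂))
      (by linarith)
    have hg'' : Sol (psub (fun t => W t ω) (T₁ + T₂) 1)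
        ((1 : ℝ)⁻¹ • (g (T₁ + T₂) - W (T₁ + T₂) ω)) (t - (T₁ + T₂)) g' := by
      rw [inv_one, one_smul]
      exact hg'
    obtain ⟨g'', hg3⟩ := Sol.concat hg (by positivity) one_pos (by linarith) hg''
    exact ⟨g'', Sol.restrict hg3 (by linarith)⟩

end

end Pool.Agent.SLE
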