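import Pool.Agent.Lib.MP_c17912_pr_LN.Base

set_option autoImplicit false

open MeasureTheory ProbabilityTheory Filter
open scoped NNReal ENNReal Topology Real

namespace Pool.Agent.SLE

noncomputable section

variable {Ω : Type*} [MeasurableSpace Ω] {μ : Measure Ω} {a b c K : ℝ} {W : ℝ → Ω → ℂ}

/-- NG. Lower bound for the tail of the real part. -/
theorem gauss_tail [IsProbabilityMeasure μ] (hW : Gau a b c K W μ) {t x : ℝ} (ht : 0 < t)
    (ha : 0 < a) (hx : 0 ≤ x) :
    ENNReal.ofReal (1 / 2 - x / (2 * √(a * t))) ≤ μ {ω | x ≤ (W t ω).re} := by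
  have hat : 0 < a * t := mul_pos ha ht
  obtain ⟨v, hv⟩ : ∃ v : ℝ≥0, v = Real.toNNReal (a * t) := ⟨_, rfl⟩
  have hvr : (v : ℝ) = a * t := by rw [hv, Real.coe_toNNReal _ hat.le]
  have hv0 : v ≠ 0 := by
    intro h0
    rw [h0, NNReal.coe_zero] at hvr
    linarith
  have hlaw : HasLaw (fun ω => (W t ω).re) (gaussianReal 0 v) μ := by
    have h1 := hW.gauss 0 t le_rfl ht.le 1 0
    have e1 : (fun ω => 1 * (W t ω - W 0 ω).re + 0 * (W t ω - W 0 ω).im) =
        fun ω => (W t ω).re := by
      funext ω
      rw [hW.zero 0 le_rfl ω]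
      simp
    have e2 : (t - 0) * (a * 1 ^ 2 + 2 * c * 1 * 0 + b * 0 ^ 2) = a * t := by ring
    rw [e1, e2, ← hv] at h1
    exact h1
  have h2 : μ {ω | x ≤ (W t ω).re} = gaussianReal 0 v (Set.Ici x) := by
    rw [← hlaw.map_eq, Measure.map_apply_of_aemeasurable hlaw.aemeasurable measurableSet_Ici]
    rfl
  rw [h2, ENNReal.ofReal_le_iff_le_toReal (measure_ne_top _ _)]
  -- the positive half line
  have h3 : gaussianReal 0 v (Set.Iic 0) = gaussianReal 0 v (Set.Ici 0) := by
    have h4 : (gaussianReal 0 v).map (fun x => -x) = gaussianReal 0 v := by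
      rw [gaussianReal_map_neg, neg_zero]
    have h5 : (gaussianReal 0 v).map (fun x => -x) (Set.Iic 0) =
        gaussianReal 0 v (Set.Ici 0) := by
      rw [Measure.map_apply measurable_neg measurableSet_Iic]
      congr 1
      ext y
      simp
    rw [h4] at h5
    exact h5
  have h6 : (1 : ℝ) / 2 ≤ (gaussianReal 0 v).real (Set.Ici 0) := by
    have h7 : (gaussianReal 0 v).real Set.univ ≤
        (gaussianReal 0 v).real (Set.Iic 0) + (gaussianReal 0 v).real (Set.Ici 0) := by
      rw [← Set.Iic_union_Ici (a := (0 : ℝ))]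
      exact measureReal_union_le _ _
    have h8 : (gaussianReal 0 v).real (Set.Iic 0) = (gaussianReal 0 v).real (Set.Ici 0) := by
      unfold Measure.real
      rw [h3]
    rw [probReal_univ, h8] at h7
    linarith
  -- the interval `[0,x)`
  have h9 : (gaussianReal 0 v).real (Set.Ico 0 x) ≤ x / (2 * √(a * t)) := by
    have hs : 0 < √(a * t) := Real.sqrt_pos.2 hat
    have h10 : gaussianReal 0 v (Set.Ico 0 x) ≤ ENNReal.ofReal (x / (2 * √(a * t))) := by
      rw [gaussianReal_apply 0 hv0]
      have h11 : ∀ y, gaussianPDF 0 v y ≤ ENNReal.ofReal (1 / (2 * √(a * t))) := by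
        intro y
        refine ENNReal.ofReal_le_ofReal ?_
        unfold gaussianPDFReal
        have e1 : Real.exp (-(y - 0) ^ 2 / (2 * (v : ℝ))) ≤ 1 := by
          rw [Real.exp_le_one_iff]
          refine div_nonpos_of_nonpos_of_nonneg ?_ (by positivity)
          have := sq_nonneg (y - 0)
          linarith
        have e2 : (√(2 * π * (v : ℝ)))⁻¹ ≤ 1 / (2 * √(a * t)) := by
          rw [hvr, ← one_div]
          refine one_div_le_one_div_of_le (by positivity) ?_
          refine Real.le_sqrt_of_sq_le ?_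
          rw [mul_pow, Real.sq_sqrt hat.le]
          have := Real.pi_gt_three
          nlinarith
        calc (√(2 * π * (v : ℝ)))⁻¹ * Real.exp (-(y - 0) ^ 2 / (2 * (v : ℝ)))
            ≤ (1 / (2 * √(a * t))) * 1 := mul_le_mul e2 e1 (Real.exp_pos _).le (by positivity)
          _ = 1 / (2 * √(a * t)) := mul_one _
      calc ∫⁻ y in Set.Ico 0 x, gaussianPDF 0 v y
          ≤ ∫⁻ _ in Set.Ico 0 x, ENNReal.ofReal (1 / (2 * √(a * t))) :=
            lintegral_mono fun y => h11 y
        _ = ENNReal.ofReal (1 / (2 * √(a * t))) * ENNReal.ofReal (x - 0) := by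
            rw [setLIntegral_const, Real.volume_Ico]
        _ = ENNReal.ofReal (x / (2 * √(a * t))) := by
            rw [← ENNReal.ofReal_mul (by positivity)]
            congr 1
            ring
    have h12 := ENNReal.toReal_mono ENNReal.ofReal_ne_top h10
    rw [ENNReal.toReal_ofReal (by positivity)] at h12
    exact h12
  have h13 : (gaussianReal 0 v).real (Set.Ici 0) ≤
      (gaussianReal 0 v).real (Set.Ico 0 x) + (gaussianReal 0 v).real (Set.Ici x) := by
    rw [← Set.Ico_union_Ici_eq_Ici hx]
    exact measureReal_union_le _ _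
  have h14 : (gaussianReal 0 v (Set.Ici x)).toReal = (gaussianReal 0 v).real (Set.Ici x) := rfl
  rw [h14]
  linarith

end

end Pool.Agent.SLE
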