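import Pool.Agent.Lib.MP_c17912_pr_LN.KH
import Pool.Agent.Lib.MP_c17912_pr_LN.IBo

set_option autoImplicit false

open MeasureTheory ProbabilityTheory Filter
open scoped NNReal ENNReal Topology Real

namespace Pool.Agent.SLE

noncomputable section

variable {Ω : Type*} [MeasurableSpace Ω] {μ : Measure Ω} {a b c K : ℝ} {W : ℝ → Ω → ℂ}

private theorem NRo_sqrt (n : ℕ) :
    ∑ t ∈ Finset.range n, 1 / √((t : ℝ) + 1) ≤ 2 * √(n : ℝ) := by
  induction n with
  | zero => simp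
  | succ n ih =>
    rw [Finset.sum_range_succ]
    refine (add_le_add_left ih _).trans ?_
    push_cast
    have h1 : 0 ≤ (n : ℝ) := Nat.cast_nonneg n
    obtain ⟨u, hu⟩ : ∃ u : ℝ, u = √(n : ℝ) := ⟨_, rfl⟩
    obtain ⟨v, hv⟩ : ∃ v : ℝ, v = √((n : ℝ) + 1) := ⟨_, rfl⟩
    have hu0 : 0 ≤ u := by rw [hu]; exact Real.sqrt_nonneg _
    have hv0 : 0 < v := by rw [hv]; exact Real.sqrt_pos.2 (by linarith)
    have hu2 : u ^ 2 = n := by rw [hu]; exact Real.sq_sqrt h1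
    have hv2 : v ^ 2 = n + 1 := by rw [hv]; exact Real.sq_sqrt (by linarith)
    rw [← hu, ← hv]
    have h2 : 1 / v ≤ 2 * v - 2 * u := by
      rw [div_le_iff₀ hv0]
      nlinarith only [sq_nonneg (v - u), hu2, hv2]
    linarith only [h2]

private theorem NRo_harm (i N : ℕ) :
    ∑ j ∈ Finset.Ioc i N, 1 / √((j : ℝ) - i) ≤ 2 * √(N : ℝ) := by
  have h1 : Finset.Ioc i N = Finset.Ico (i + 1) (N + 1) := by
    ext j
    simp only [Finset.mem_Ioc, Finset.mem_Ico]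
    omega
  rw [h1, Finset.sum_Ico_eq_sum_range]
  have h2 : ∀ t ∈ Finset.range (N + 1 - (i + 1)),
      1 / √(((i + 1 + t : ℕ) : ℝ) - i) = 1 / √((t : ℝ) + 1) := by
    intro t _
    congr 2
    push_cast
    ring
  rw [Finset.sum_congr rfl h2]
  have h3 : ∑ t ∈ Finset.range (N + 1 - (i + 1)), 1 / √((t : ℝ) + 1) ≤
      ∑ t ∈ Finset.range N, 1 / √((t : ℝ) + 1) := by
    refine Finset.sum_le_sum_of_subset_of_nonneg ?_ fun t _ _ => by positivity
    intro t ht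
    rw [Finset.mem_range] at ht ⊢
    omega
  exact h3.trans (NRo_sqrt N)

private theorem NRo_sum [IsProbabilityMeasure μ] (hW : Gau a b c K W μ) {h η : ℝ} {N : ℕ}
    (hh : 0 < h) (hη : 0 < η) (hS : 0 < a + b) (y w : ℂ) (i : ℕ) :
    ∑ j ∈ Finset.Ioc i N, μ {ω | w + (W ((j : ℝ) * h) ω - W ((i : ℝ) * h) ω) ∈
      Metric.closedBall y (4 * η)} ≤
      ENNReal.ofReal (10 * η * √(N : ℝ) / √((a + b) * h)) := by
  have hSh : 0 < √((a + b) * h) := Real.sqrt_pos.2 (by positivity)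
  have h1 : ∀ j ∈ Finset.Ioc i N, μ {ω | w + (W ((j : ℝ) * h) ω - W ((i : ℝ) * h) ω) ∈
      Metric.closedBall y (4 * η)} ≤
      ENNReal.ofReal (5 * η / √((a + b) * h) * (1 / √((j : ℝ) - i))) := by
    intro j hj
    rw [Finset.mem_Ioc] at hj
    have hij : (i : ℝ) < j := by exact_mod_cast hj.1
    have h2 : (i : ℝ) * h < (j : ℝ) * h := mul_lt_mul_of_pos_right hij hh
    have h3 := incr_ball_one hW (s := (i : ℝ) * h) (t := (j : ℝ) * h) (ρ := 4 * η)
      (by positivity) h2 hS (by positivity) (y - w)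
    have h4 : {ω | w + (W ((j : ℝ) * h) ω - W ((i : ℝ) * h) ω) ∈ Metric.closedBall y (4 * η)} =
        {ω | ‖W ((j : ℝ) * h) ω - W ((i : ℝ) * h) ω - (y - w)‖ ≤ 4 * η} := by
      ext ω
      rw [Set.mem_ofPred_eq, Set.mem_ofPred_eq, Metric.mem_closedBall, dist_eq_norm]
      have h5 : w + (W ((j : ℝ) * h) ω - W ((i : ℝ) * h) ω) - y =
          W ((j : ℝ) * h) ω - W ((i : ℝ) * h) ω - (y - w) := by ring
      rw [h5]
    rw [h4]
    refine h3.trans (le_of_eq ?_)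
    congr 1
    have h7 : (a + b) * ((j : ℝ) * h - (i : ℝ) * h) = ((a + b) * h) * ((j : ℝ) - i) := by ring
    rw [h7, Real.sqrt_mul (by positivity)]
    have h8 : √((a + b) * h) ≠ 0 := hSh.ne'
    have h9 : √((j : ℝ) - i) ≠ 0 := (Real.sqrt_pos.2 (by linarith)).ne'
    field_simp
  refine (Finset.sum_le_sum h1).trans ?_
  rw [← ENNReal.ofReal_sum_of_nonneg, ← Finset.mul_sum]
  · refine ENNReal.ofReal_le_ofReal ?_
    refine (mul_le_mul_of_nonneg_left (NRo_harm i N) (by positivity)).trans (le_of_eq ?_)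
    ring
  · intro j hj
    positivity

private theorem NRo_round {η R₀ t : ℝ} (hη : 0 < η) (ht : |t| ≤ R₀ + 3 * η) :
    round (t / η) ∈ Finset.Icc (-((⌊R₀ / η + 4⌋₊ : ℕ) : ℤ)) ((⌊R₀ / η + 4⌋₊ : ℕ) : ℤ) ∧
      |t - η * (round (t / η) : ℝ)| ≤ η / 2 := by
  have h1 := abs_sub_round (t / η)
  constructor
  · have h2 : |t / η| ≤ R₀ / η + 3 := by
      rw [abs_div, abs_of_pos hη, div_le_iff₀ hη]
      have : (R₀ / η + 3) * η = R₀ + 3 * η := by field_simp
      rw [this]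
      exact ht
    have h3 : |((round (t / η) : ℤ) : ℝ)| ≤ R₀ / η + 4 := by
      have h4 : ((round (t / η) : ℤ) : ℝ) = t / η - (t / η - (round (t / η) : ℝ)) := by ring
      rw [h4]
      refine (abs_sub _ _).trans ?_
      linarith
    have h4 : (round (t / η)).natAbs ≤ ⌊R₀ / η + 4⌋₊ := by
      apply Nat.le_floor
      rw [Nat.cast_natAbs, Int.cast_abs]
      exact h3
    rw [Finset.mem_Icc]
    omega
  · have h2 : t - η * (round (t / η) : ℝ) = η * (t / η - (round (t / η) : ℝ)) := by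
      field_simp
    rw [h2, abs_mul, abs_of_pos hη]
    have := mul_le_mul_of_nonneg_left h1 hη.le
    linarith

/-- NRo. Number of the times at which the path is near `z`, one dimensional bound. -/
theorem near_all_one [IsProbabilityMeasure μ] (hW : Gau a b c K W μ) {h η x R₀ : ℝ} {N L : ℕ}
    (hN : 1 ≤ N) (hh : 0 < h) (hη : 0 < η) (hS : 0 < a + b) (hR₀ : 0 ≤ R₀) (hx : 0 ≤ x)
    (hxm : x * (10 * η * √(N : ℝ) / √((a + b) * h)) ≤ 1 / 2) :
    ∃ A, MeasurableSet[Blk W 0 (N * h)] A ∧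
      μ A ≤ ENNReal.ofReal ((2 * R₀ / η + 9) ^ 2 * (2 / (1 + x) ^ L)) ∧
      ∀ ω ∉ A, (∀ j : ℕ, j ≤ N → ‖W ((j : ℝ) * h) ω‖ ≤ R₀) → ∀ z : ℂ, ∀ J : Finset ℕ,
        (∀ j ∈ J, j ≤ N ∧ ‖W ((j : ℝ) * h) ω - z‖ ≤ 3 * η) → J.card ≤ L := by
  have hm : 0 ≤ 10 * η * √(N : ℝ) / √((a + b) * h) := by positivity
  have key : ∀ p : ℤ × ℤ, ∃ A, MeasurableSet[Blk W 0 (N * h)] A ∧
      μ A ≤ ENNReal.ofReal (2 / (1 + x) ^ L) ∧
      ∀ ω ∉ A, ∀ J : Finset ℕ, (∀ j ∈ J, 1 ≤ j ∧ j ≤ N ∧ W ((j : ℝ) * h) ω ∈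
        Metric.closedBall (⟨η * (p.1 : ℝ), η * (p.2 : ℝ)⟩ : ℂ) (4 * η)) → J.card < L := by
    intro p
    exact khas hW.toDrv hh Metric.isClosed_closedBall.measurableSet hx hm hxm
      (fun i _ w => NRo_sum hW hh hη hS _ w i) L
  choose A hA1 hA2 hA3 using key
  obtain ⟨M, hM⟩ : ∃ M : ℕ, M = ⌊R₀ / η + 4⌋₊ := ⟨_, rfl⟩
  obtain ⟨G, hG⟩ : ∃ G : Finset (ℤ × ℤ), G = Finset.Icc (-(M : ℤ)) M ×ˢ Finset.Icc (-(M : ℤ)) M :=
    ⟨_, rfl⟩
  have hMr : (M : ℝ) ≤ R₀ / η + 4 := by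
    rw [hM]
    exact Nat.floor_le (by positivity)
  have hcard : G.card = (2 * M + 1) ^ 2 := by
    rw [hG, Finset.card_product, Int.card_Icc, sq]
    have : ((M : ℤ) + 1 - -(M : ℤ)).toNat = 2 * M + 1 := by omega
    rw [this]
  refine ⟨⋃ p ∈ G, A p, Finset.measurableSet_biUnion G fun p _ => hA1 p, ?_, ?_⟩
  · refine (measure_biUnion_finset_le G A).trans ?_
    refine (Finset.sum_le_sum fun p _ => hA2 p).trans ?_
    rw [Finset.sum_const, hcard, nsmul_eq_mul]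
    have h1 : (((2 * M + 1) ^ 2 : ℕ) : ENNReal) = ENNReal.ofReal ((2 * (M : ℝ) + 1) ^ 2) := by
      rw [← ENNReal.ofReal_natCast]
      push_cast
      rfl
    rw [h1, ← ENNReal.ofReal_mul (by positivity)]
    refine ENNReal.ofReal_le_ofReal ?_
    refine mul_le_mul_of_nonneg_right ?_ (by positivity)
    refine pow_le_pow_left₀ (by positivity) ?_ 2
    have h2 : 2 * R₀ / η = 2 * (R₀ / η) := by ring
    rw [h2]
    linarith
  · intro ω hω h0 z J hJ
    rcases J.eq_empty_or_nonempty with rfl | ⟨j₀, hj₀⟩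
    · simp
    have hz : ‖z‖ ≤ R₀ + 3 * η := by
      obtain ⟨h1, h2⟩ := hJ j₀ hj₀
      have h3 := h0 j₀ h1
      have h4 : z = W ((j₀ : ℝ) * h) ω - (W ((j₀ : ℝ) * h) ω - z) := by ring
      rw [h4]
      exact (norm_sub_le _ _).trans (by linarith)
    obtain ⟨a1, a2⟩ := NRo_round hη ((Complex.abs_re_le_norm z).trans hz)
    obtain ⟨b1, b2⟩ := NRo_round hη ((Complex.abs_im_le_norm z).trans hz)
    rw [← hM] at a1 b1
    have hp : (round (z.re / η), round (z.im / η)) ∈ G := by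
      rw [hG, Finset.mem_product]
      exact ⟨a1, b1⟩
    have hω' : ω ∉ A (round (z.re / η), round (z.im / η)) := by
      intro h1
      exact hω (Set.mem_biUnion (t := A) (Finset.mem_coe.2 hp) h1)
    have h5 := hA3 _ ω hω' (J.erase 0) (by
      intro j hj
      rw [Finset.mem_erase] at hj
      obtain ⟨h1, h2⟩ := hJ j hj.2
      refine ⟨by omega, h1, ?_⟩
      rw [Metric.mem_closedBall, dist_eq_norm]
      have h3 : ‖z - (⟨η * (round (z.re / η) : ℝ), η * (round (z.im / η) : ℝ)⟩ : ℂ)‖ ≤ η := by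
        refine (Complex.norm_le_abs_re_add_abs_im _).trans ?_
        rw [Complex.sub_re, Complex.sub_im]
        linarith
      have h4 : W ((j : ℝ) * h) ω -
          (⟨η * (round (z.re / η) : ℝ), η * (round (z.im / η) : ℝ)⟩ : ℂ) =
          (W ((j : ℝ) * h) ω - z) +
          (z - (⟨η * (round (z.re / η) : ℝ), η * (round (z.im / η) : ℝ)⟩ : ℂ)) := by ring
      show ‖W ((j : ℝ) * h) ω -
          (⟨η * (round (z.re / η) : ℝ), η * (round (z.im / η) : ℝ)⟩ : ℂ)‖ ≤ 4 * η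
      rw [h4]
      exact (norm_add_le _ _).trans (by linarith))
    have h6 := Finset.pred_card_le_card_erase (s := J) (a := 0)
    omega

end

end Pool.Agent.SLE
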