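import Pool.Agent.Lib.MP_c17912_pr_LN.Base

set_option autoImplicit false

open Filter
open scoped Topology Real

namespace Pool.Agent.SLE

noncomputable section

private lemma NU_log {N : ℝ} (hN : 3200 ≤ N) : 8 * Real.log N ≤ N ^ 2 / 400 := by
  have h1 : Real.log N ≤ N := (Real.log_le_sub_one_of_pos (by linarith)).trans (by linarith)
  nlinarith

private lemma NU_exp {y : ℝ} (hy : 31 ≤ y) : Real.exp (-y) ≤ 1 / 32 := by
  rw [Real.exp_neg, inv_eq_one_div]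
  exact one_div_le_one_div_of_le (by norm_num) (by linarith [Real.add_one_le_exp y])

private lemma NU_exp' {x : ℝ} (h0 : 0 ≤ x) (h1 : x ≤ 1) : Real.exp (x / 2) ≤ 1 + x := by
  have h2 := Real.add_one_le_exp (-(x / 2))
  rw [Real.exp_neg] at h2
  have h3 : 0 < Real.exp (x / 2) := Real.exp_pos _
  have h4 : (-(x / 2) + 1) * Real.exp (x / 2) ≤ 1 := by
    have := mul_le_mul_of_nonneg_right h2 h3.le
    rwa [inv_mul_cancel₀ h3.ne'] at this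
  have h5 : 1 ≤ (1 + x) * (-(x / 2) + 1) := by nlinarith
  nlinarith

/-- NU1. The numbers of the displacement theorem. -/
theorem num_one (p₀ : ℝ) (hp₀ : 0 < p₀) : ∃ n₀ : ℕ, 2 ≤ n₀ ∧ ∀ n : ℕ, n₀ ≤ n → ∀ ρ : ℕ,
    1 ≤ ρ → Real.log ρ ≤ (n : ℝ) ^ 2 / 400 →
      4 * (mm n ρ : ℝ) ^ 4 * ss n ρ ≤ 1 ∧ 2 * ss n ρ ≤ p₀ := by
  obtain ⟨n1, hn1⟩ := exists_nat_gt (1 / p₀)
  refine ⟨max 3200 n1, le_trans (by norm_num) (le_max_left _ _), ?_⟩
  intro n hn ρ hρ hl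
  have hn2 : (3200 : ℝ) ≤ n := by exact_mod_cast (le_max_left _ _).trans hn
  have hn3 : 1 / p₀ ≤ n := hn1.le.trans (by exact_mod_cast (le_max_right _ _).trans hn)
  have hρ1 : (1 : ℝ) ≤ ρ := by exact_mod_cast hρ
  obtain ⟨N, hN⟩ : ∃ N : ℝ, N = (n : ℝ) := ⟨_, rfl⟩
  obtain ⟨R, hR⟩ : ∃ R : ℝ, R = (ρ : ℝ) := ⟨_, rfl⟩
  obtain ⟨M, hM⟩ : ∃ M : ℝ, M = (mm n ρ : ℝ) := ⟨_, rfl⟩
  have hM' : M = R * N ^ 8 := by
    rw [hM, hR, hN, mm]
    push_cast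
    ring
  rw [← hN] at hn2 hn3 hl
  rw [← hR] at hρ1 hl
  have hN0 : 0 < N := by linarith
  have hN1 : 1 ≤ N := by linarith
  have hR0 : 0 < R := by linarith
  have hN8 : 0 < N ^ 8 := by positivity
  have hMN : N ^ 8 ≤ M := by
    rw [hM']
    exact le_mul_of_one_le_left hN8.le hρ1
  have hMN1 : N ≤ M := by
    refine le_trans ?_ hMN
    calc N = N ^ 1 := (pow_one N).symm
      _ ≤ N ^ 8 := pow_le_pow_right₀ hN1 (by norm_num)
  have hM0 : 0 < M := by linarith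
  have hM1 : 1 ≤ M := by linarith
  obtain ⟨L, hL⟩ : ∃ L : ℝ, L = Real.log M := ⟨_, rfl⟩
  have hL0 : 0 ≤ L := by
    rw [hL]
    exact Real.log_nonneg hM1
  have hLN : L ≤ N ^ 2 / 200 := by
    rw [hL, hM', Real.log_mul hR0.ne' hN8.ne', Real.log_pow]
    have := NU_log hn2
    push_cast
    linarith
  have hMe : M ≤ Real.exp (N ^ 2 / 200) := by
    rw [← Real.log_le_iff_le_exp hM0, ← hL]
    exact hLN
  have hMk : ∀ j : ℕ, M ^ j ≤ Real.exp (j * (N ^ 2 / 200)) := by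
    intro j
    rw [Real.exp_nat_mul]
    exact pow_le_pow_left₀ hM0.le hMe j
  have hNN : 3200 * 3200 ≤ N ^ 2 := by
    have := pow_le_pow_left₀ (by norm_num : (0 : ℝ) ≤ 3200) hn2 2
    linarith
  -- first part
  have p1 : 4 * M ^ 4 * (M ^ 2 * (4 * Real.exp (-(N ^ 4 / 1600)))) ≤ 1 / 2 := by
    have h1 := hMk 6
    have h2 : Real.exp ((6 : ℕ) * (N ^ 2 / 200)) * Real.exp (-(N ^ 4 / 1600)) ≤ 1 / 32 := by
      rw [← Real.exp_add]
      have h3 : ((6 : ℕ) : ℝ) * (N ^ 2 / 200) + -(N ^ 4 / 1600) =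
          -(N ^ 4 / 1600 - 6 * (N ^ 2 / 200)) := by
        push_cast
        ring
      rw [h3]
      refine NU_exp ?_
      have h4 : N ^ 4 = N ^ 2 * N ^ 2 := by ring
      have h5 : 3200 * 3200 * N ^ 2 ≤ N ^ 2 * N ^ 2 :=
        mul_le_mul_of_nonneg_right hNN (sq_nonneg N)
      rw [h4]
      linarith
    have h3 : M ^ 6 * Real.exp (-(N ^ 4 / 1600)) ≤ 1 / 32 :=
      (mul_le_mul_of_nonneg_right h1 (Real.exp_pos _).le).trans h2
    have h4 : 4 * M ^ 4 * (M ^ 2 * (4 * Real.exp (-(N ^ 4 / 1600)))) =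
        16 * (M ^ 6 * Real.exp (-(N ^ 4 / 1600))) := by ring
    rw [h4]
    linarith
  -- the numbers of the second part
  obtain ⟨x, hx⟩ : ∃ x : ℝ, x = xx n ρ := ⟨_, rfl⟩
  have hx' : x = 1 / (32 * R * N ^ 4 * (1 + 2 * L)) := by
    rw [hx, hR, hN, hL, hM, xx]
  have hden1 : 1 ≤ 32 * R * N ^ 4 * (1 + 2 * L) := by
    have h1 : 1 ≤ N ^ 4 := one_le_pow₀ hN1
    have h2 : 1 ≤ 32 * R := by linarith
    have h3 : 1 ≤ 32 * R * N ^ 4 := one_le_mul_of_one_le_of_one_le h2 h1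
    exact one_le_mul_of_one_le_of_one_le h3 (by linarith)
  have hden0 : 0 < 32 * R * N ^ 4 * (1 + 2 * L) := by linarith
  have hx0 : 0 < x := by
    rw [hx']
    positivity
  have hx1 : x ≤ 1 := by
    rw [hx', div_le_one hden0]
    exact hden1
  have hxM : 25 / 16 * N ^ 2 ≤ x * M := by
    have h0 : x * M = M / (32 * R * N ^ 4 * (1 + 2 * L)) := by
      rw [hx']
      ring
    rw [h0, le_div_iff₀ hden0, hM']
    have h1 : 50 * (1 + 2 * L) ≤ N ^ 2 := by linarith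
    have h2 : 0 ≤ R * N ^ 6 := by positivity
    calc 25 / 16 * N ^ 2 * (32 * R * N ^ 4 * (1 + 2 * L))
        = R * N ^ 6 * (50 * (1 + 2 * L)) := by ring
      _ ≤ R * N ^ 6 * N ^ 2 := mul_le_mul_of_nonneg_left h1 h2
      _ = R * N ^ 8 := by ring
  obtain ⟨K, hK⟩ : ∃ K : ℕ, K = mm n ρ / 4 := ⟨_, rfl⟩
  have hKM : M / 8 ≤ (K : ℝ) := by
    have h1 : mm n ρ ≤ 4 * K + 3 := by omega
    have h2 : (mm n ρ : ℝ) ≤ 4 * K + 3 := by exact_mod_cast h1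
    rw [← hM] at h2
    linarith
  have hpow : Real.exp (25 / 256 * N ^ 2) ≤ (1 + x) ^ K := by
    have h1 : Real.exp (25 / 256 * N ^ 2) ≤ Real.exp (K * (x / 2)) := by
      apply Real.exp_le_exp.2
      have h2 : M / 8 * x ≤ K * x := mul_le_mul_of_nonneg_right hKM hx0.le
      linarith
    rw [Real.exp_nat_mul] at h1
    exact h1.trans (pow_le_pow_left₀ (Real.exp_pos _).le (NU_exp' hx0.le hx1) K)
  have p2 : 4 * M ^ 4 * ((M ^ 2 / 10 + 9) ^ 2 * (2 / (1 + x) ^ K)) ≤ 1 / 2 := by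
    have h1 : (M ^ 2 / 10 + 9) ^ 2 ≤ M ^ 4 := by
      have h2 : M ^ 2 / 10 + 9 ≤ M ^ 2 := by
        have := pow_le_pow_left₀ (by norm_num : (0 : ℝ) ≤ 4) (by linarith : (4 : ℝ) ≤ M) 2
        linarith
      have h3 : 0 ≤ M ^ 2 / 10 + 9 := by positivity
      calc (M ^ 2 / 10 + 9) ^ 2 ≤ (M ^ 2) ^ 2 := pow_le_pow_left₀ h3 h2 2
        _ = M ^ 4 := by ring
    have h2 : 2 / (1 + x) ^ K ≤ 2 * Real.exp (-(25 / 256 * N ^ 2)) := by
      rw [Real.exp_neg, ← div_eq_mul_inv]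
      exact div_le_div_of_nonneg_left (by norm_num) (Real.exp_pos _) hpow
    have h3 : 0 ≤ 2 / (1 + x) ^ K := by positivity
    have h4 := hMk 8
    have h5 : Real.exp ((8 : ℕ) * (N ^ 2 / 200)) * Real.exp (-(25 / 256 * N ^ 2)) ≤ 1 / 32 := by
      rw [← Real.exp_add]
      have h6 : ((8 : ℕ) : ℝ) * (N ^ 2 / 200) + -(25 / 256 * N ^ 2) =
          -(369 / 6400 * N ^ 2) := by
        push_cast
        ring
      rw [h6]
      refine NU_exp ?_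
      linarith
    have h6 : M ^ 8 * Real.exp (-(25 / 256 * N ^ 2)) ≤ 1 / 32 :=
      (mul_le_mul_of_nonneg_right h4 (Real.exp_pos _).le).trans h5
    calc 4 * M ^ 4 * ((M ^ 2 / 10 + 9) ^ 2 * (2 / (1 + x) ^ K))
        ≤ 4 * M ^ 4 * (M ^ 4 * (2 * Real.exp (-(25 / 256 * N ^ 2)))) := by
          refine mul_le_mul_of_nonneg_left ?_ (by positivity)
          exact mul_le_mul h1 h2 h3 (by positivity)
      _ = 8 * (M ^ 8 * Real.exp (-(25 / 256 * N ^ 2))) := by ring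
      _ ≤ 1 / 2 := by linarith
  have hss : ss n ρ = M ^ 2 * (4 * Real.exp (-(N ^ 4 / 1600))) +
      (M ^ 2 / 10 + 9) ^ 2 * (2 / (1 + x) ^ K) := by
    rw [hM, hN, hx, hK, ss]
  have hss0 : 0 ≤ ss n ρ := by
    rw [hss]
    positivity
  have hm : 4 * M ^ 4 * ss n ρ ≤ 1 := by
    rw [hss, mul_add]
    linarith
  rw [← hM]
  refine ⟨hm, ?_⟩
  have h1 : 1 ≤ M ^ 4 * p₀ := by
    have h2 : 1 ≤ N * p₀ := by
      rwa [div_le_iff₀ hp₀] at hn3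
    have h3 : M ≤ M ^ 4 := by
      calc M = M ^ 1 := (pow_one M).symm
        _ ≤ M ^ 4 := pow_le_pow_right₀ hM1 (by norm_num)
    have h4 : N * p₀ ≤ M ^ 4 * p₀ := mul_le_mul_of_nonneg_right (hMN1.trans h3) hp₀.le
    exact h2.trans h4
  have h2 : 2 * ss n ρ ≤ 2 * ss n ρ * (M ^ 4 * p₀) :=
    le_mul_of_one_le_right (by linarith) h1
  have h3 : 2 * ss n ρ * (M ^ 4 * p₀) = p₀ / 2 * (4 * M ^ 4 * ss n ρ) := by ring
  have h4 : p₀ / 2 * (4 * M ^ 4 * ss n ρ) ≤ p₀ / 2 * 1 :=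
    mul_le_mul_of_nonneg_left hm (by linarith)
  linarith

/-- NU2. Choice of the parameters. -/
theorem num_two (n₀ : ℕ) : ∃ κ₀ > (0 : ℝ), ∀ lam S : ℝ, κ₀ ≤ lam → 2 * lam ≤ S →
    S ≤ Real.exp (lam ^ (1 / 7 : ℝ)) → ∃ n ρ : ℕ, n₀ ≤ n ∧ 1 ≤ ρ ∧ 2 * S / lam ≤ (ρ : ℝ) ^ 2 ∧
      (ρ : ℝ) ^ 2 ≤ 8 * S / lam ∧ 64 * (n : ℝ) ^ 12 ≤ lam ∧
      Real.log ρ ≤ (n : ℝ) ^ 2 / 400 := by
  obtain ⟨n₁, hn₀, hn₁⟩ : ∃ n₁ : ℕ, n₀ ≤ n₁ ∧ 10 ^ 12 ≤ n₁ :=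
    ⟨max n₀ (10 ^ 12), le_max_left _ _, le_max_right _ _⟩
  have hn₁' : (10 : ℝ) ^ 12 ≤ n₁ := by exact_mod_cast hn₁
  refine ⟨64 * ((n₁ : ℝ) + 1) ^ 12, by positivity, ?_⟩
  intro lam S hlam hS hSe
  have h64 : 64 ≤ lam := by
    refine le_trans ?_ hlam
    have h1 : (1 : ℝ) ≤ ((n₁ : ℝ) + 1) ^ 12 := one_le_pow₀ (by linarith)
    linarith
  have hlam0 : 0 < lam := by linarith
  have hS0 : 0 < S := by linarith
  -- the number `n`
  obtain ⟨t, ht⟩ : ∃ t : ℝ, t = (lam / 64) ^ (1 / 12 : ℝ) := ⟨_, rfl⟩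
  have ht0 : 0 ≤ t := by
    rw [ht]
    positivity
  have ht12 : t ^ 12 = lam / 64 := by
    rw [ht, ← Real.rpow_natCast, ← Real.rpow_mul (by positivity)]
    norm_num
  obtain ⟨n, hn⟩ : ∃ n : ℕ, n = ⌊t⌋₊ := ⟨_, rfl⟩
  have hn1 : (n : ℝ) ≤ t := by
    rw [hn]
    exact Nat.floor_le ht0
  have hn2 : t < n + 1 := by
    rw [hn]
    exact Nat.lt_floor_add_one t
  have ht1 : (n₁ : ℝ) + 1 ≤ t := by
    by_contra h1
    have h2 : t ^ 12 < ((n₁ : ℝ) + 1) ^ 12 :=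
      pow_lt_pow_left₀ (not_le.1 h1) ht0 (by norm_num)
    rw [ht12] at h2
    linarith
  have hn3 : n₁ ≤ n := by
    rw [hn]
    exact Nat.le_floor (by linarith)
  have hnR : (10 : ℝ) ^ 12 ≤ n := hn₁'.trans (by exact_mod_cast hn3)
  -- the number `ρ`
  obtain ⟨w, hw⟩ : ∃ w : ℝ, w = Real.sqrt (2 * S / lam) := ⟨_, rfl⟩
  have hw2 : w ^ 2 = 2 * S / lam := by
    rw [hw]
    exact Real.sq_sqrt (by positivity)
  have hw1 : 2 ≤ w := by
    rw [hw]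
    apply Real.le_sqrt_of_sq_le
    rw [le_div_iff₀ hlam0]
    linarith
  obtain ⟨ρ, hρ⟩ : ∃ ρ : ℕ, ρ = ⌈w⌉₊ := ⟨_, rfl⟩
  have hρ1 : w ≤ (ρ : ℝ) := by
    rw [hρ]
    exact Nat.le_ceil w
  have hρ2 : (ρ : ℝ) < w + 1 := by
    rw [hρ]
    exact Nat.ceil_lt_add_one (by linarith)
  have hρ0 : (0 : ℝ) < ρ := by linarith
  have hρ8 : (ρ : ℝ) ^ 2 ≤ 8 * S / lam := by
    have h1 : (ρ : ℝ) ^ 2 ≤ (2 * w) ^ 2 := pow_le_pow_left₀ hρ0.le (by linarith) 2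
    have h2 : (2 * w) ^ 2 = 8 * S / lam := by
      rw [mul_pow, hw2]
      ring
    rwa [h2] at h1
  refine ⟨n, ρ, hn₀.trans hn3, ?_, ?_, hρ8, ?_, ?_⟩
  · have h1 : (1 : ℝ) ≤ ρ := by linarith
    exact_mod_cast h1
  · rw [← hw2]
    exact pow_le_pow_left₀ (by linarith) hρ1 2
  · have h1 : (n : ℝ) ^ 12 ≤ t ^ 12 := pow_le_pow_left₀ (by positivity) hn1 12
    rw [ht12] at h1
    linarith
  · obtain ⟨y, hy⟩ : ∃ y : ℝ, y = lam ^ (1 / 7 : ℝ) := ⟨_, rfl⟩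
    rw [← hy] at hSe
    have hy7 : y ^ 7 = lam := by
      rw [hy, ← Real.rpow_natCast, ← Real.rpow_mul hlam0.le]
      norm_num
    have h1 : 2 * Real.log ρ ≤ y := by
      have h2 : (ρ : ℝ) ^ 2 ≤ Real.exp y := by
        refine hρ8.trans (le_trans ?_ hSe)
        rw [div_le_iff₀ hlam0, mul_comm S]
        exact mul_le_mul_of_nonneg_right (by linarith) hS0.le
      have h3 : Real.log ((ρ : ℝ) ^ 2) ≤ y := by
        rw [Real.log_le_iff_le_exp (by positivity)]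
        exact h2
      rw [Real.log_pow] at h3
      push_cast at h3
      exact h3
    have h2 : y ≤ (n : ℝ) ^ 2 / 200 := by
      by_contra h3
      have h4 : ((n : ℝ) ^ 2 / 200) ^ 7 < y ^ 7 :=
        pow_lt_pow_left₀ (not_le.1 h3) (by positivity) (by norm_num)
      rw [hy7] at h4
      have h5 : lam < 64 * ((n : ℝ) + 1) ^ 12 := by
        have h6 : t ^ 12 < ((n : ℝ) + 1) ^ 12 := pow_lt_pow_left₀ hn2 ht0 (by norm_num)
        rw [ht12] at h6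
        linarith
      have h6 : ((n : ℝ) + 1) ^ 12 ≤ (2 * n) ^ 12 :=
        pow_le_pow_left₀ (by positivity) (by linarith) 12
      have h7 : ((n : ℝ) ^ 2 / 200) ^ 7 = (n : ℝ) ^ 12 * ((n : ℝ) ^ 2 / 200 ^ 7) := by ring
      have h8 : (2 * (n : ℝ)) ^ 12 = 4096 * (n : ℝ) ^ 12 := by ring
      have h9 : (262144 : ℝ) ≤ (n : ℝ) ^ 2 / 200 ^ 7 := by
        rw [le_div_iff₀ (by positivity)]
        have h10 : ((10 : ℝ) ^ 12) ^ 2 ≤ (n : ℝ) ^ 2 := pow_le_pow_left₀ (by positivity) hnR 2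
        refine le_trans ?_ h10
        norm_num
      have h10 : (n : ℝ) ^ 12 * 262144 ≤ (n : ℝ) ^ 12 * ((n : ℝ) ^ 2 / 200 ^ 7) :=
        mul_le_mul_of_nonneg_left h9 (by positivity)
      rw [h7] at h4
      rw [h8] at h6
      linarith
    linarith

end

end Pool.Agent.SLE
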