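import Pool.Agent.Lib.MP_c17912_pr_LN.B2

set_option autoImplicit false

open Filter
open scoped Topology Real

namespace Pool.Agent.SLE

noncomputable section

namespace NU3

private lemma NU_log {N : ℝ} (hN : 3200 ≤ N) : 8 * Real.log N ≤ N ^ 2 / 400 := by
  have h1 : Real.log N ≤ N := (Real.log_le_sub_one_of_pos (by linarith)).trans (by linarith)
  nlinarith

private lemma NU_exp {y : ℝ} (hy : 399 ≤ y) : Real.exp (-y) ≤ 1 / 400 := by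
  rw [Real.exp_neg, inv_eq_one_div]
  exact one_div_le_one_div_of_le (by norm_num) (by linarith [Real.add_one_le_exp y])

private lemma NU_exp' {x : ℝ} (h0 : 0 ≤ x) (h1 : x ≤ 1) : Real.exp (x / 2) ≤ 1 + x := by
  have h2 := Real.add_one_le_exp (-(x / 2))
  rw [Real.exp_neg] at h2
  have h3 : 0 < Real.exp (x / 2) := Real.exp_pos _
  have h4 : (-(x / 2) + 1) * Real.exp (x / 2) ≤ 1 := by
    have := mul_le_mul_of_nonneg_right h2 h3.le
    rwa [inv_mul_cancel₀ h3.ne'] at this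
  have h5 : 1 ≤ (1 + x) * (-(x / 2) + 1) := by nlinarith
  nlinarith

end NU3

open NU3 in
/-- NU3a. The numbers of the displacement theorem, second version. -/
theorem num_one_two (p₀ : ℝ) (hp₀ : 0 < p₀) : ∃ n₀ : ℕ, 2 ≤ n₀ ∧ ∀ n : ℕ, n₀ ≤ n → ∀ ρ : ℕ,
    1 ≤ ρ → Real.log ρ ≤ (n : ℝ) ^ 2 / 400 →
      4 * (mm n ρ : ℝ) ^ 4 * ss2 n ρ ≤ 1 ∧ 2 * ss2 n ρ ≤ p₀ ∧
        (ρ : ℝ) * (n : ℝ) ^ 6 ≤ 2 ^ (n ^ 2) := by
  obtain ⟨n1, hn1⟩ := exists_nat_gt (1 / p₀)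
  refine ⟨max 3200 n1, le_trans (by norm_num) (le_max_left _ _), ?_⟩
  intro n hn ρ hρ hl
  have hn2 : (3200 : ℝ) ≤ n := by exact_mod_cast (le_max_left _ _).trans hn
  have hn3 : 1 / p₀ ≤ n := hn1.le.trans (by exact_mod_cast (le_max_right _ _).trans hn)
  have hρ1 : (1 : ℝ) ≤ ρ := by exact_mod_cast hρ
  obtain ⟨N, hN⟩ : ∃ N : ℝ, N = (n : ℝ) := ⟨_, rfl⟩
  obtain ⟨R, hR⟩ : ∃ R : ℝ, R = (ρ : ℝ) := ⟨_, rfl⟩
  obtain ⟨M, hM⟩ : ∃ M : ℝ, M = (mm n ρ : ℝ) := ⟨_, rfl⟩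
  have hM' : M = R * N ^ 8 := by
    rw [hM, hR, hN, mm]
    push_cast
    ring
  rw [← hN] at hn2 hn3 hl
  rw [← hR] at hρ1 hl
  have hN0 : 0 < N := by linarith
  have hN1 : 1 ≤ N := by linarith
  have hR0 : 0 < R := by linarith
  have hN8 : 0 < N ^ 8 := by positivity
  have hMN : N ^ 8 ≤ M := by
    rw [hM']
    exact le_mul_of_one_le_left hN8.le hρ1
  have hMN1 : N ≤ M := by
    refine le_trans ?_ hMN
    calc N = N ^ 1 := (pow_one N).symm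
      _ ≤ N ^ 8 := pow_le_pow_right₀ hN1 (by norm_num)
  have hM0 : 0 < M := by linarith
  have hM1 : 1 ≤ M := by linarith
  obtain ⟨L, hL⟩ : ∃ L : ℝ, L = Real.log M := ⟨_, rfl⟩
  have hL0 : 0 ≤ L := by
    rw [hL]
    exact Real.log_nonneg hM1
  have hLN : L ≤ N ^ 2 / 200 := by
    rw [hL, hM', Real.log_mul hR0.ne' hN8.ne', Real.log_pow]
    have := NU_log hn2
    push_cast
    linarith
  have hMe : M ≤ Real.exp (N ^ 2 / 200) := by
    rw [← Real.log_le_iff_le_exp hM0, ← hL]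
    exact hLN
  have hMk : ∀ j : ℕ, M ^ j ≤ Real.exp (j * (N ^ 2 / 200)) := by
    intro j
    rw [Real.exp_nat_mul]
    exact pow_le_pow_left₀ hM0.le hMe j
  have hNN : 3200 * 3200 ≤ N ^ 2 := by
    have := pow_le_pow_left₀ (by norm_num : (0 : ℝ) ≤ 3200) hn2 2
    linarith
  -- first part
  have p1 : 4 * M ^ 4 * (M ^ 2 * (4 * Real.exp (-(N ^ 4 / 1600)))) ≤ 1 / 4 := by
    have h1 := hMk 6
    have h2 : Real.exp ((6 : ℕ) * (N ^ 2 / 200)) * Real.exp (-(N ^ 4 / 1600)) ≤ 1 / 400 := by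
      rw [← Real.exp_add]
      have h3 : ((6 : ℕ) : ℝ) * (N ^ 2 / 200) + -(N ^ 4 / 1600) =
          -(N ^ 4 / 1600 - 6 * (N ^ 2 / 200)) := by
        push_cast
        ring
      rw [h3]
      refine NU_exp ?_
      have h4 : N ^ 4 = N ^ 2 * N ^ 2 := by ring
      have h5 : 3200 * 3200 * N ^ 2 ≤ N ^ 2 * N ^ 2 :=
        mul_le_mul_of_nonneg_right hNN (sq_nonneg N)
      rw [h4]
      linarith
    have h3 : M ^ 6 * Real.exp (-(N ^ 4 / 1600)) ≤ 1 / 400 :=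
      (mul_le_mul_of_nonneg_right h1 (Real.exp_pos _).le).trans h2
    have h4 : 4 * M ^ 4 * (M ^ 2 * (4 * Real.exp (-(N ^ 4 / 1600)))) =
        16 * (M ^ 6 * Real.exp (-(N ^ 4 / 1600))) := by ring
    rw [h4]
    linarith
  -- the numbers of the second part
  obtain ⟨x, hx⟩ : ∃ x : ℝ, x = xx n ρ := ⟨_, rfl⟩
  have hx' : x = 1 / (32 * R * N ^ 4 * (1 + 2 * L)) := by
    rw [hx, hR, hN, hL, hM, xx]
  have hden1 : 1 ≤ 32 * R * N ^ 4 * (1 + 2 * L) := by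
    have h1 : 1 ≤ N ^ 4 := one_le_pow₀ hN1
    have h2 : 1 ≤ 32 * R := by linarith
    have h3 : 1 ≤ 32 * R * N ^ 4 := one_le_mul_of_one_le_of_one_le h2 h1
    exact one_le_mul_of_one_le_of_one_le h3 (by linarith)
  have hden0 : 0 < 32 * R * N ^ 4 * (1 + 2 * L) := by linarith
  have hx0 : 0 < x := by
    rw [hx']
    positivity
  have hx1 : x ≤ 1 := by
    rw [hx', div_le_one hden0]
    exact hden1
  have hxM : 25 / 16 * N ^ 2 ≤ x * M := by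
    have h0 : x * M = M / (32 * R * N ^ 4 * (1 + 2 * L)) := by
      rw [hx']
      ring
    rw [h0, le_div_iff₀ hden0, hM']
    have h1 : 50 * (1 + 2 * L) ≤ N ^ 2 := by linarith
    have h2 : 0 ≤ R * N ^ 6 := by positivity
    calc 25 / 16 * N ^ 2 * (32 * R * N ^ 4 * (1 + 2 * L))
        = R * N ^ 6 * (50 * (1 + 2 * L)) := by ring
      _ ≤ R * N ^ 6 * N ^ 2 := mul_le_mul_of_nonneg_left h1 h2
      _ = R * N ^ 8 := by ring
  obtain ⟨K, hK⟩ : ∃ K : ℕ, K = mm n ρ / 4 := ⟨_, rfl⟩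
  have hKM : M / 8 ≤ (K : ℝ) := by
    have h1 : mm n ρ ≤ 4 * K + 3 := by omega
    have h2 : (mm n ρ : ℝ) ≤ 4 * K + 3 := by exact_mod_cast h1
    rw [← hM] at h2
    linarith
  have hpow : Real.exp (25 / 256 * N ^ 2) ≤ (1 + x) ^ K := by
    have h1 : Real.exp (25 / 256 * N ^ 2) ≤ Real.exp (K * (x / 2)) := by
      apply Real.exp_le_exp.2
      have h2 : M / 8 * x ≤ K * x := mul_le_mul_of_nonneg_right hKM hx0.le
      linarith
    rw [Real.exp_nat_mul] at h1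
    exact h1.trans (pow_le_pow_left₀ (Real.exp_pos _).le (NU_exp' hx0.le hx1) K)
  have hM9 : (M ^ 2 / 10 + 9) ^ 2 ≤ M ^ 4 := by
    have h2 : M ^ 2 / 10 + 9 ≤ M ^ 2 := by
      have := pow_le_pow_left₀ (by norm_num : (0 : ℝ) ≤ 4) (by linarith : (4 : ℝ) ≤ M) 2
      linarith
    have h3 : 0 ≤ M ^ 2 / 10 + 9 := by positivity
    calc (M ^ 2 / 10 + 9) ^ 2 ≤ (M ^ 2) ^ 2 := pow_le_pow_left₀ h3 h2 2
      _ = M ^ 4 := by ring
  have p2 : 4 * M ^ 4 * ((M ^ 2 / 10 + 9) ^ 2 * (2 / (1 + x) ^ K)) ≤ 1 / 4 := by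
    have h1 := hM9
    have h2 : 2 / (1 + x) ^ K ≤ 2 * Real.exp (-(25 / 256 * N ^ 2)) := by
      rw [Real.exp_neg, ← div_eq_mul_inv]
      exact div_le_div_of_nonneg_left (by norm_num) (Real.exp_pos _) hpow
    have h3 : 0 ≤ 2 / (1 + x) ^ K := by positivity
    have h4 := hMk 8
    have h5 : Real.exp ((8 : ℕ) * (N ^ 2 / 200)) * Real.exp (-(25 / 256 * N ^ 2)) ≤ 1 / 400 := by
      rw [← Real.exp_add]
      have h6 : ((8 : ℕ) : ℝ) * (N ^ 2 / 200) + -(25 / 256 * N ^ 2) =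
          -(369 / 6400 * N ^ 2) := by
        push_cast
        ring
      rw [h6]
      refine NU_exp ?_
      linarith
    have h6 : M ^ 8 * Real.exp (-(25 / 256 * N ^ 2)) ≤ 1 / 400 :=
      (mul_le_mul_of_nonneg_right h4 (Real.exp_pos _).le).trans h5
    calc 4 * M ^ 4 * ((M ^ 2 / 10 + 9) ^ 2 * (2 / (1 + x) ^ K))
        ≤ 4 * M ^ 4 * (M ^ 4 * (2 * Real.exp (-(25 / 256 * N ^ 2)))) := by
          refine mul_le_mul_of_nonneg_left ?_ (by positivity)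
          exact mul_le_mul h1 h2 h3 (by positivity)
      _ = 8 * (M ^ 8 * Real.exp (-(25 / 256 * N ^ 2))) := by ring
      _ ≤ 1 / 4 := by linarith
  -- the third part
  have p3 : 4 * M ^ 4 * (N ^ 2 * ((M ^ 2 / 10 + 9) ^ 2 *
      (2 * Real.exp (-(N ^ 3 / 160))))) ≤ 1 / 2 := by
    have h4 := hMk 8
    have h5 : N ^ 2 ≤ 25 * Real.exp (N ^ 2 / 25) := by
      linarith [Real.add_one_le_exp (N ^ 2 / 25)]
    have h7 : Real.exp (N ^ 2 / 25) * Real.exp ((8 : ℕ) * (N ^ 2 / 200)) *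
        Real.exp (-(N ^ 3 / 160)) ≤ 1 / 400 := by
      rw [← Real.exp_add, ← Real.exp_add]
      have h6 : N ^ 2 / 25 + ((8 : ℕ) : ℝ) * (N ^ 2 / 200) + -(N ^ 3 / 160) =
          -(N ^ 3 / 160 - 2 / 25 * N ^ 2) := by
        push_cast
        ring
      rw [h6]
      refine NU_exp ?_
      have h8 : 3200 * N ^ 2 ≤ N * N ^ 2 := mul_le_mul_of_nonneg_right hn2 (sq_nonneg N)
      have h9 : N ^ 3 = N * N ^ 2 := by ring
      rw [h9]
      linarith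
    have h8 : N ^ 2 * M ^ 8 ≤ 25 * (Real.exp (N ^ 2 / 25) *
        Real.exp ((8 : ℕ) * (N ^ 2 / 200))) := by
      refine (mul_le_mul h5 h4 (by positivity) (by positivity)).trans (le_of_eq ?_)
      ring
    have h9 : N ^ 2 * M ^ 8 * Real.exp (-(N ^ 3 / 160)) ≤ 25 * (1 / 400) := by
      refine (mul_le_mul_of_nonneg_right h8 (Real.exp_pos _).le).trans ?_
      rw [mul_assoc]
      exact mul_le_mul_of_nonneg_left h7 (by norm_num)
    calc 4 * M ^ 4 * (N ^ 2 * ((M ^ 2 / 10 + 9) ^ 2 * (2 * Real.exp (-(N ^ 3 / 160)))))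
        ≤ 4 * M ^ 4 * (N ^ 2 * (M ^ 4 * (2 * Real.exp (-(N ^ 3 / 160))))) := by
          refine mul_le_mul_of_nonneg_left ?_ (by positivity)
          refine mul_le_mul_of_nonneg_left ?_ (by positivity)
          exact mul_le_mul_of_nonneg_right hM9 (by positivity)
      _ = 8 * (N ^ 2 * M ^ 8 * Real.exp (-(N ^ 3 / 160))) := by ring
      _ ≤ 1 / 2 := by linarith
  have hss : ss n ρ = M ^ 2 * (4 * Real.exp (-(N ^ 4 / 1600))) +
      (M ^ 2 / 10 + 9) ^ 2 * (2 / (1 + x) ^ K) := by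
    rw [hM, hN, hx, hK, ss]
  have hss2 : ss2 n ρ = ss n ρ + N ^ 2 * ((M ^ 2 / 10 + 9) ^ 2 *
      (2 * Real.exp (-(N ^ 3 / 160)))) := by
    rw [hM, hN, ss2]
  have hss0 : 0 ≤ ss2 n ρ := by
    rw [hss2, hss]
    positivity
  have hm : 4 * M ^ 4 * ss2 n ρ ≤ 1 := by
    rw [hss2, hss, mul_add, mul_add]
    linarith
  have hlast : R * N ^ 6 ≤ 2 ^ (n ^ 2) := by
    have h1 : R ≤ Real.exp (N ^ 2 / 400) := by
      rw [← Real.log_le_iff_le_exp hR0]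
      exact hl
    have h2 : N ^ 6 ≤ Real.exp (N ^ 2 / 400) := by
      rw [← Real.log_le_iff_le_exp (by positivity), Real.log_pow]
      have := NU_log hn2
      have h3 : 0 ≤ Real.log N := Real.log_nonneg hN1
      push_cast
      linarith
    have h3 : (2 : ℝ) ^ (n ^ 2) = Real.exp (((n ^ 2 : ℕ) : ℝ) * Real.log 2) := by
      rw [Real.exp_nat_mul, Real.exp_log (by norm_num)]
    rw [h3]
    calc R * N ^ 6 ≤ Real.exp (N ^ 2 / 400) * Real.exp (N ^ 2 / 400) :=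
          mul_le_mul h1 h2 (by positivity) (Real.exp_pos _).le
      _ = Real.exp (N ^ 2 / 400 + N ^ 2 / 400) := (Real.exp_add _ _).symm
      _ ≤ Real.exp (((n ^ 2 : ℕ) : ℝ) * Real.log 2) := by
          apply Real.exp_le_exp.2
          have h4 := Real.log_two_gt_d9
          have h5 : ((n ^ 2 : ℕ) : ℝ) = N ^ 2 := by
            rw [hN]
            push_cast
            ring
          rw [h5]
          have h6 : N ^ 2 * (1 / 200) ≤ N ^ 2 * Real.log 2 :=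
            mul_le_mul_of_nonneg_left (by linarith) (sq_nonneg N)
          linarith
  rw [← hM, ← hR, ← hN]
  refine ⟨hm, ?_, hlast⟩
  have h1 : 1 ≤ M ^ 4 * p₀ := by
    have h2 : 1 ≤ N * p₀ := by
      rwa [div_le_iff₀ hp₀] at hn3
    have h3 : M ≤ M ^ 4 := by
      calc M = M ^ 1 := (pow_one M).symm
        _ ≤ M ^ 4 := pow_le_pow_right₀ hM1 (by norm_num)
    have h4 : N * p₀ ≤ M ^ 4 * p₀ := mul_le_mul_of_nonneg_right (hMN1.trans h3) hp₀.le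
    exact h2.trans h4
  have h2 : 2 * ss2 n ρ ≤ 2 * ss2 n ρ * (M ^ 4 * p₀) :=
    le_mul_of_one_le_right (by linarith) h1
  have h3 : 2 * ss2 n ρ * (M ^ 4 * p₀) = p₀ / 2 * (4 * M ^ 4 * ss2 n ρ) := by ring
  have h4 : p₀ / 2 * (4 * M ^ 4 * ss2 n ρ) ≤ p₀ / 2 * 1 :=
    mul_le_mul_of_nonneg_left hm (by linarith)
  linarith

/-- NU3b. Choice of the parameters, second version. -/
theorem num_two_two (n₀ : ℕ) : ∃ κ₀ > (0 : ℝ), ∀ D S : ℝ, κ₀ ≤ D → 4 * D ≤ S ^ 2 → 0 < S →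
    S ≤ Real.exp (D ^ (1 / 12 : ℝ)) → ∃ n ρ : ℕ, n₀ ≤ n ∧ 1 ≤ ρ ∧ S ^ 2 / D ≤ (ρ : ℝ) ^ 2 ∧
      (ρ : ℝ) ^ 2 ≤ 4 * S ^ 2 / D ∧ 2 ^ 10 * (n : ℝ) ^ 22 ≤ D ∧
      Real.log ρ ≤ (n : ℝ) ^ 2 / 400 := by
  obtain ⟨n₁, hn₀, hn₁⟩ : ∃ n₁ : ℕ, n₀ ≤ n₁ ∧ 10 ^ 21 ≤ n₁ :=
    ⟨max n₀ (10 ^ 21), le_max_left _ _, le_max_right _ _⟩
  have hn₁' : (10 : ℝ) ^ 21 ≤ n₁ := by exact_mod_cast hn₁
  refine ⟨2 ^ 10 * ((n₁ : ℝ) + 1) ^ 22, by positivity, ?_⟩
  intro D S hD hS hS0 hSe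
  have h64 : 64 ≤ D := by
    refine le_trans ?_ hD
    have h1 : (1 : ℝ) ≤ ((n₁ : ℝ) + 1) ^ 22 := one_le_pow₀ (by linarith)
    linarith
  have hD0 : 0 < D := by linarith
  -- the number `n`
  obtain ⟨t, ht⟩ : ∃ t : ℝ, t = (D / 2 ^ 10) ^ (1 / 22 : ℝ) := ⟨_, rfl⟩
  have ht0 : 0 ≤ t := by
    rw [ht]
    positivity
  have ht22 : t ^ 22 = D / 2 ^ 10 := by
    rw [ht, ← Real.rpow_natCast, ← Real.rpow_mul (by positivity)]
    norm_num
  obtain ⟨n, hn⟩ : ∃ n : ℕ, n = ⌊t⌋₊ := ⟨_, rfl⟩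
  have hn1 : (n : ℝ) ≤ t := by
    rw [hn]
    exact Nat.floor_le ht0
  have hn2 : t < n + 1 := by
    rw [hn]
    exact Nat.lt_floor_add_one t
  have ht1 : (n₁ : ℝ) + 1 ≤ t := by
    by_contra h1
    have h2 : t ^ 22 < ((n₁ : ℝ) + 1) ^ 22 :=
      pow_lt_pow_left₀ (not_le.1 h1) ht0 (by norm_num)
    rw [ht22] at h2
    linarith
  have hn3 : n₁ ≤ n := by
    rw [hn]
    exact Nat.le_floor (by linarith)
  have hnR : (10 : ℝ) ^ 21 ≤ n := hn₁'.trans (by exact_mod_cast hn3)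
  -- the number `ρ`
  obtain ⟨w, hw⟩ : ∃ w : ℝ, w = S / Real.sqrt D := ⟨_, rfl⟩
  have hsD : 0 < Real.sqrt D := Real.sqrt_pos.2 hD0
  have hw0 : 0 < w := by
    rw [hw]
    positivity
  have hw2 : w ^ 2 = S ^ 2 / D := by
    rw [hw, div_pow, Real.sq_sqrt hD0.le]
  have hw1 : 2 ≤ w := by
    have h1 : (2 : ℝ) ^ 2 ≤ w ^ 2 := by
      rw [hw2, le_div_iff₀ hD0]
      linarith
    exact (sq_le_sq₀ (by norm_num) hw0.le).1 h1
  have hwS : 2 * w ≤ S := by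
    have h1 : 2 ≤ Real.sqrt D := by
      apply Real.le_sqrt_of_sq_le
      linarith
    have h2 : w * Real.sqrt D = S := by
      rw [hw]
      exact div_mul_cancel₀ S hsD.ne'
    rw [← h2, mul_comm]
    exact mul_le_mul_of_nonneg_left h1 hw0.le
  obtain ⟨ρ, hρ⟩ : ∃ ρ : ℕ, ρ = ⌈w⌉₊ := ⟨_, rfl⟩
  have hρ1 : w ≤ (ρ : ℝ) := by
    rw [hρ]
    exact Nat.le_ceil w
  have hρ2 : (ρ : ℝ) < w + 1 := by
    rw [hρ]
    exact Nat.ceil_lt_add_one (by linarith)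
  have hρ0 : (0 : ℝ) < ρ := by linarith
  have hρ8 : (ρ : ℝ) ^ 2 ≤ 4 * S ^ 2 / D := by
    have h1 : (ρ : ℝ) ^ 2 ≤ (2 * w) ^ 2 := pow_le_pow_left₀ hρ0.le (by linarith) 2
    have h2 : (2 * w) ^ 2 = 4 * S ^ 2 / D := by
      rw [mul_pow, hw2]
      ring
    rwa [h2] at h1
  refine ⟨n, ρ, hn₀.trans hn3, ?_, ?_, hρ8, ?_, ?_⟩
  · have h1 : (1 : ℝ) ≤ ρ := by linarith
    exact_mod_cast h1
  · rw [← hw2]
    exact pow_le_pow_left₀ (by linarith) hρ1 2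
  · have h1 : (n : ℝ) ^ 22 ≤ t ^ 22 := pow_le_pow_left₀ (by positivity) hn1 22
    rw [ht22, le_div_iff₀ (by positivity)] at h1
    linarith
  · obtain ⟨y, hy⟩ : ∃ y : ℝ, y = D ^ (1 / 12 : ℝ) := ⟨_, rfl⟩
    rw [← hy] at hSe
    have hy12 : y ^ 12 = D := by
      rw [hy, ← Real.rpow_natCast, ← Real.rpow_mul hD0.le]
      norm_num
    have h1 : Real.log ρ ≤ y := by
      rw [Real.log_le_iff_le_exp hρ0]
      linarith
    have h2 : y ≤ (n : ℝ) ^ 2 / 400 := by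
      by_contra h3
      have h4 : ((n : ℝ) ^ 2 / 400) ^ 12 < y ^ 12 :=
        pow_lt_pow_left₀ (not_le.1 h3) (by positivity) (by norm_num)
      rw [hy12] at h4
      have h5 : D < 2 ^ 10 * ((n : ℝ) + 1) ^ 22 := by
        have h6 : t ^ 22 < ((n : ℝ) + 1) ^ 22 := pow_lt_pow_left₀ hn2 ht0 (by norm_num)
        rw [ht22, div_lt_iff₀ (by positivity)] at h6
        linarith
      have h6 : ((n : ℝ) + 1) ^ 22 ≤ (2 * n) ^ 22 :=
        pow_le_pow_left₀ (by positivity) (by linarith) 22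
      have h7 : ((n : ℝ) ^ 2 / 400) ^ 12 = (n : ℝ) ^ 22 * ((n : ℝ) ^ 2 / 400 ^ 12) := by ring
      have h8 : (2 * (n : ℝ)) ^ 22 = 2 ^ 22 * (n : ℝ) ^ 22 := by ring
      have h9 : (2 : ℝ) ^ 32 ≤ (n : ℝ) ^ 2 / 400 ^ 12 := by
        rw [le_div_iff₀ (by positivity)]
        have h10 : ((10 : ℝ) ^ 21) ^ 2 ≤ (n : ℝ) ^ 2 := pow_le_pow_left₀ (by positivity) hnR 2
        refine le_trans ?_ h10
        norm_num
      have h10 : (n : ℝ) ^ 22 * 2 ^ 32 ≤ (n : ℝ) ^ 22 * ((n : ℝ) ^ 2 / 400 ^ 12) :=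
        mul_le_mul_of_nonneg_left h9 (by positivity)
      rw [h7] at h4
      rw [h8] at h6
      have h11 : 2 ^ 10 * ((n : ℝ) + 1) ^ 22 ≤ (n : ℝ) ^ 22 * 2 ^ 32 := by
        refine (mul_le_mul_of_nonneg_left h6 (by norm_num)).trans (le_of_eq ?_)
        ring
      linarith
    linarith

end

end Pool.Agent.SLE
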