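import Pool.Agent.Lib.MP_c17912_pr_LN.Base
import Pool.Agent.Lib.MP_c17912_pr.OneB

set_option autoImplicit false

open MeasureTheory ProbabilityTheory Filter
open scoped NNReal ENNReal Topology Real

namespace Pool.Agent.SLE

noncomputable section

variable {Ω : Type*} [MeasurableSpace Ω] {μ : Measure Ω}

private theorem os_point {F : ℂ → ℝ} {A₁ A₂ : ℂ → ℂ} {A₃ : ℂ → ℝ} {δ R C B M : ℝ}
    (hδ : 0 < δ) (hF0 : ∀ z, 0 ≤ F z) (hFB : ∀ z, F z ≤ B) (hM : 0 ≤ M)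
    (hexp : Exp2 F A₁ A₂ A₃ δ R C) {z : ℂ} (h1 : δ ≤ ‖z‖) (h2 : ‖z‖ ≤ R)
    (hA1 : ‖A₁ z‖ ≤ M) (hA2 : ‖A₂ z‖ ≤ M) (hA3 : |A₃ z| ≤ M) (w : ℂ) :
    F (z + w) ≤ F z + (A₁ z * w).re + (A₂ z * w ^ 2).re + A₃ z * ‖w‖ ^ 2 + |C| * ‖w‖ ^ 3
      + (B * (2 / δ) ^ 4 + M * (2 / δ) ^ 3 + 2 * M * (2 / δ) ^ 2) * ‖w‖ ^ 4 := by
  have hB : 0 ≤ B := (hF0 0).trans (hFB 0)
  have hC2 : 0 ≤ B * (2 / δ) ^ 4 + M * (2 / δ) ^ 3 + 2 * M * (2 / δ) ^ 2 := by positivity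
  have h4 : 0 ≤ ‖w‖ ^ 4 := by positivity
  rcases le_or_gt ‖w‖ (δ / 2) with hw | hw
  · have h3 := hexp z h1 h2 w hw
    have h5 := (le_abs_self _).trans h3
    have h6 : C * ‖w‖ ^ 3 ≤ |C| * ‖w‖ ^ 3 :=
      mul_le_mul_of_nonneg_right (le_abs_self C) (by positivity)
    have h7 := mul_nonneg hC2 h4
    linarith
  · obtain ⟨t, ht⟩ : ∃ t, t = ‖w‖ := ⟨_, rfl⟩
    obtain ⟨s, hs⟩ : ∃ s, s = 2 / δ := ⟨_, rfl⟩
    have hs0 : 0 < s := by rw [hs]; positivity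
    have ht0 : 0 ≤ t := by rw [ht]; positivity
    have hst : 1 ≤ s * t := by
      rw [hs, ht, div_mul_eq_mul_div, le_div_iff₀ hδ]
      linarith
    have a1 : -(M * t) ≤ (A₁ z * w).re := by
      have e1 : |(A₁ z * w).re| ≤ M * t := by
        refine (Complex.abs_re_le_norm _).trans ?_
        rw [norm_mul, ht]
        exact mul_le_mul_of_nonneg_right hA1 (norm_nonneg _)
      exact (abs_le.1 e1).1
    have a2 : -(M * t ^ 2) ≤ (A₂ z * w ^ 2).re := by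
      have e1 : |(A₂ z * w ^ 2).re| ≤ M * t ^ 2 := by
        refine (Complex.abs_re_le_norm _).trans ?_
        rw [norm_mul, norm_pow, ht]
        exact mul_le_mul_of_nonneg_right hA2 (by positivity)
      exact (abs_le.1 e1).1
    have a3 : -(M * t ^ 2) ≤ A₃ z * ‖w‖ ^ 2 := by
      rw [← ht]
      have e1 : -M ≤ A₃ z := (abs_le.1 hA3).1
      have e2 := mul_le_mul_of_nonneg_right e1 (by positivity : 0 ≤ t ^ 2)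
      linarith
    have p2 : 1 ≤ (s * t) ^ 2 := one_le_pow₀ hst
    have p3 : 1 ≤ (s * t) ^ 3 := one_le_pow₀ hst
    have p4 : 1 ≤ (s * t) ^ 4 := one_le_pow₀ hst
    have b1 : B ≤ B * s ^ 4 * t ^ 4 := by
      have := mul_le_mul_of_nonneg_left p4 hB
      calc B = B * 1 := (mul_one _).symm
        _ ≤ B * (s * t) ^ 4 := this
        _ = _ := by ring
    have b2 : M * t ≤ M * s ^ 3 * t ^ 4 := by
      have := mul_le_mul_of_nonneg_left p3 (mul_nonneg hM ht0)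
      calc M * t = M * t * 1 := (mul_one _).symm
        _ ≤ M * t * (s * t) ^ 3 := this
        _ = _ := by ring
    have b3 : M * t ^ 2 ≤ M * s ^ 2 * t ^ 4 := by
      have := mul_le_mul_of_nonneg_left p2 (mul_nonneg hM (sq_nonneg t))
      calc M * t ^ 2 = M * t ^ 2 * 1 := (mul_one _).symm
        _ ≤ M * t ^ 2 * (s * t) ^ 2 := this
        _ = _ := by ring
    have b4 : 0 ≤ |C| * ‖w‖ ^ 3 := by positivity
    have b5 : (B * s ^ 4 + M * s ^ 3 + 2 * M * s ^ 2) * t ^ 4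
        = B * s ^ 4 * t ^ 4 + M * s ^ 3 * t ^ 4 + 2 * (M * s ^ 2 * t ^ 4) := by ring
    rw [← hs, ← ht, b5]
    rw [← ht] at b4 a3
    have c1 := hFB (z + w)
    have c2 := hF0 z
    linarith

/-- the pointwise bound, expanded -/
private theorem os_point2 {F : ℂ → ℝ} {A₁ A₂ : ℂ → ℂ} {A₃ : ℂ → ℝ} {δ R C B M : ℝ}
    (hδ : 0 < δ) (hF0 : ∀ z, 0 ≤ F z) (hFB : ∀ z, F z ≤ B) (hM : 0 ≤ M)
    (hexp : Exp2 F A₁ A₂ A₃ δ R C) {z : ℂ} (h1 : δ ≤ ‖z‖) (h2 : ‖z‖ ≤ R)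
    (hA1 : ‖A₁ z‖ ≤ M) (hA2 : ‖A₂ z‖ ≤ M) (hA3 : |A₃ z| ≤ M) {r : ℝ} (hr : 0 < r) {C₂ : ℝ}
    (hC₂ : C₂ = B * (2 / δ) ^ 4 + M * (2 / δ) ^ 3 + 2 * M * (2 / δ) ^ 2) (u ζ : ℂ) :
    F (z + u - ζ) ≤
      (F z + (A₁ z * u).re + (A₂ z * u ^ 2).re + A₃ z * ‖u‖ ^ 2
        + |C| * r * ‖u‖ ^ 2 + (4 * |C| / r + 8 * C₂) * ‖u‖ ^ 4)
      + ((-(A₁ z).re - 2 * (A₂ z * u).re - 2 * A₃ z * u.re) * ζ.re
      + (((A₁ z).im + 2 * (A₂ z * u).im - 2 * A₃ z * u.im) * ζ.im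
      + (((A₂ z).re + A₃ z) * ζ.re ^ 2
      + ((-2 * (A₂ z).im) * (ζ.re * ζ.im)
      + ((A₃ z - (A₂ z).re) * ζ.im ^ 2
      + ((|C| * r) * ‖ζ‖ ^ 2 + (4 * |C| / r + 8 * C₂) * ‖ζ‖ ^ 4)))))) := by
  have hB : 0 ≤ B := (hF0 0).trans (hFB 0)
  have hC2 : 0 ≤ C₂ := by rw [hC₂]; positivity
  have h3 := os_point hδ hF0 hFB hM hexp h1 h2 hA1 hA2 hA3 (u - ζ)
  rw [← hC₂] at h3
  have e0 : z + u - ζ = z + (u - ζ) := by ring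
  rw [e0]
  have e1 : (A₁ z * (u - ζ)).re
      = (A₁ z * u).re - (A₁ z).re * ζ.re + (A₁ z).im * ζ.im := by
    rw [mul_sub, Complex.sub_re, Complex.mul_re (A₁ z) ζ]
    ring
  have e2 : (A₂ z * (u - ζ) ^ 2).re
      = (A₂ z * u ^ 2).re - 2 * ((A₂ z * u).re * ζ.re - (A₂ z * u).im * ζ.im)
        + (A₂ z).re * (ζ.re ^ 2 - ζ.im ^ 2) - 2 * (A₂ z).im * (ζ.re * ζ.im) := by
    have e3 : A₂ z * (u - ζ) ^ 2 = A₂ z * u ^ 2 - (A₂ z * u * ζ + A₂ z * u * ζ)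
        + A₂ z * (ζ * ζ) := by ring
    rw [e3, Complex.add_re, Complex.sub_re, Complex.add_re, Complex.mul_re (A₂ z * u) ζ,
      Complex.mul_re (A₂ z) (ζ * ζ), Complex.mul_re ζ ζ, Complex.mul_im ζ ζ]
    ring
  have e4 : ‖u - ζ‖ ^ 2 = ‖u‖ ^ 2 - 2 * (u.re * ζ.re + u.im * ζ.im) + (ζ.re ^ 2 + ζ.im ^ 2) := by
    rw [OneBAux.norm_sq_eq, OneBAux.norm_sq_eq u, Complex.sub_re, Complex.sub_im]
    ring
  have e5 : ‖u - ζ‖ ^ 2 ≤ 2 * ‖u‖ ^ 2 + 2 * ‖ζ‖ ^ 2 := by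
    have := norm_sub_le u ζ
    have h5 : ‖u - ζ‖ ^ 2 ≤ (‖u‖ + ‖ζ‖) ^ 2 := pow_le_pow_left₀ (norm_nonneg _) this 2
    nlinarith [sq_nonneg (‖u‖ - ‖ζ‖)]
  have e6 : ‖u - ζ‖ ^ 4 ≤ 8 * ‖u‖ ^ 4 + 8 * ‖ζ‖ ^ 4 := by
    have h5 : (‖u - ζ‖ ^ 2) ^ 2 ≤ (2 * ‖u‖ ^ 2 + 2 * ‖ζ‖ ^ 2) ^ 2 :=
      pow_le_pow_left₀ (by positivity) e5 2
    nlinarith [sq_nonneg (‖u‖ ^ 2 - ‖ζ‖ ^ 2)]
  have e7 : ‖u - ζ‖ ^ 3 ≤ r / 2 * ‖u - ζ‖ ^ 2 + 1 / (2 * r) * ‖u - ζ‖ ^ 4 := by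
    have h5 : ‖u - ζ‖ ≤ r / 2 + ‖u - ζ‖ ^ 2 / (2 * r) := by
      rw [div_add_div _ _ (by norm_num) (by positivity), le_div_iff₀ (by positivity)]
      nlinarith [sq_nonneg (‖u - ζ‖ - r)]
    have h6 : ‖u - ζ‖ ^ 2 * ‖u - ζ‖ ≤ ‖u - ζ‖ ^ 2 * (r / 2 + ‖u - ζ‖ ^ 2 / (2 * r)) :=
      mul_le_mul_of_nonneg_left h5 (by positivity)
    have h7 : ‖u - ζ‖ ^ 2 * (r / 2 + ‖u - ζ‖ ^ 2 / (2 * r))
        = r / 2 * ‖u - ζ‖ ^ 2 + 1 / (2 * r) * ‖u - ζ‖ ^ 4 := by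
      field_simp
    calc ‖u - ζ‖ ^ 3 = ‖u - ζ‖ ^ 2 * ‖u - ζ‖ := by ring
      _ ≤ _ := h6
      _ = _ := h7
  have hC : 0 ≤ |C| := abs_nonneg C
  have e8 : |C| * ‖u - ζ‖ ^ 3 ≤ |C| * r * ‖u‖ ^ 2 + |C| * r * ‖ζ‖ ^ 2
      + 4 * |C| / r * ‖u‖ ^ 4 + 4 * |C| / r * ‖ζ‖ ^ 4 := by
    have h5 := mul_le_mul_of_nonneg_left e7 hC
    have h6 : |C| * (r / 2 * ‖u - ζ‖ ^ 2) ≤ |C| * (r / 2 * (2 * ‖u‖ ^ 2 + 2 * ‖ζ‖ ^ 2)) := by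
      refine mul_le_mul_of_nonneg_left (mul_le_mul_of_nonneg_left e5 (by positivity)) hC
    have h7 : |C| * (1 / (2 * r) * ‖u - ζ‖ ^ 4)
        ≤ |C| * (1 / (2 * r) * (8 * ‖u‖ ^ 4 + 8 * ‖ζ‖ ^ 4)) := by
      refine mul_le_mul_of_nonneg_left (mul_le_mul_of_nonneg_left e6 (by positivity)) hC
    have h8 : |C| * (1 / (2 * r) * (8 * ‖u‖ ^ 4 + 8 * ‖ζ‖ ^ 4))
        = 4 * |C| / r * ‖u‖ ^ 4 + 4 * |C| / r * ‖ζ‖ ^ 4 := by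
      field_simp
      ring
    nlinarith
  have e9 := mul_le_mul_of_nonneg_left e6 hC2
  rw [e1, e2] at h3
  have e10 : A₃ z * ‖u - ζ‖ ^ 2 = A₃ z * ‖u‖ ^ 2 - 2 * A₃ z * (u.re * ζ.re + u.im * ζ.im)
      + A₃ z * (ζ.re ^ 2 + ζ.im ^ 2) := by
    rw [e4]
    ring
  rw [e10] at h3
  linarith

/-- OS. One step inequality for a general function. -/
theorem one_step_gen [IsProbabilityMeasure μ] {a b c K : ℝ} (ha : 0 ≤ a) (hb : 0 ≤ b)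
    (hK : 0 ≤ K) {F k : ℂ → ℝ} {A₁ A₂ : ℂ → ℂ} {A₃ : ℂ → ℝ} {δ R C B c₀ M : ℝ} (hδ : 0 < δ)
    (hδR : δ ≤ R) (hFm : Measurable F) (hF0 : ∀ z, 0 ≤ F z) (hFB : ∀ z, F z ≤ B)
    (hc₀ : 0 < c₀) (hexp : Exp2 F A₁ A₂ A₃ δ R C)
    (hann : ∀ z : ℂ, δ ≤ ‖z‖ → ‖z‖ ≤ R → c₀ ≤ F z ∧ ‖A₁ z‖ ≤ M ∧ ‖A₂ z‖ ≤ M ∧ |A₃ z| ≤ M ∧
      |k z| ≤ M ∧
      (2 * A₁ z / z).re + (A₂ z * sg a b c).re + A₃ z * (a + b) + k z * F z ≤ 0) :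
    ∃ C' > 0, ∃ h₀ > 0, ∀ h : ℝ, 0 < h → h ≤ h₀ → ∀ z : ℂ, δ ≤ ‖z‖ → ‖z‖ ≤ R →
      ∀ ζ : Ω → ℂ, Measurable ζ → Integrable (fun ω => ‖ζ ω‖ ^ 4) μ →
        ∫ ω, (ζ ω).re ∂μ = 0 → ∫ ω, (ζ ω).im ∂μ = 0 → ∫ ω, (ζ ω).re ^ 2 ∂μ = a * h →
        ∫ ω, (ζ ω).im ^ 2 ∂μ = b * h → ∫ ω, (ζ ω).re * (ζ ω).im ∂μ = c * h →
        ∫ ω, ‖ζ ω‖ ^ 4 ∂μ ≤ K * h ^ 2 →
        ∫⁻ ω, ENNReal.ofReal (F (z + 2 * h / z - ζ ω)) ∂μ
          ≤ ENNReal.ofReal ((1 + C' * (h * √h)) * Real.exp (-(h * k z)) * F z) := by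
  obtain ⟨M', hM'⟩ : ∃ M', M' = |M| := ⟨_, rfl⟩
  have hM'0 : 0 ≤ M' := by rw [hM']; exact abs_nonneg _
  have hMM : M ≤ M' := by rw [hM']; exact le_abs_self _
  have hB : 0 ≤ B := (hF0 0).trans (hFB 0)
  obtain ⟨C₂, hC₂⟩ : ∃ C₂, C₂ = B * (2 / δ) ^ 4 + M' * (2 / δ) ^ 3 + 2 * M' * (2 / δ) ^ 2 :=
    ⟨_, rfl⟩
  have hC₂0 : 0 ≤ C₂ := by rw [hC₂]; positivity
  obtain ⟨C₃, hC₃⟩ : ∃ C₃, C₃ = 8 * M' / δ ^ 2 + |C| * (4 / δ ^ 2 + a + b)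
      + (4 * |C| + 8 * C₂) * (16 / δ ^ 4 + K) := ⟨_, rfl⟩
  have hC₃0 : 0 ≤ C₃ := by rw [hC₃]; positivity
  refine ⟨(C₃ + 1) * Real.exp M' / c₀, by positivity, 1, one_pos, ?_⟩
  intro h hh hh1 z hz1 hz2 ζ hζm hζ4 hx hy hxx hyy hxy h4
  obtain ⟨hcF, hA1, hA2, hA3, hkM, hgen⟩ := hann z hz1 hz2
  have hz : z ≠ 0 := by
    intro h0
    rw [h0, norm_zero] at hz1
    linarith
  have hzn : 0 < ‖z‖ := lt_of_lt_of_le hδ hz1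
  obtain ⟨r, hr, hr0⟩ : ∃ r, r = √h ∧ 0 < r := ⟨_, rfl, Real.sqrt_pos.2 hh⟩
  have hr2 : h = r ^ 2 := by rw [hr, Real.sq_sqrt hh.le]
  have hr1 : r ≤ 1 := by rw [hr]; exact Real.sqrt_le_one.2 hh1
  have hI1 : Integrable (fun ω => 1 + ‖ζ ω‖ ^ 4) μ := (integrable_const 1).add hζ4
  have hζre : Measurable fun ω => (ζ ω).re := Complex.measurable_re.comp hζm
  have hζim : Measurable fun ω => (ζ ω).im := Complex.measurable_im.comp hζm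
  have hIx : Integrable (fun ω => (ζ ω).re) μ := by
    refine hI1.mono' hζre.aestronglyMeasurable (Eventually.of_forall fun ω => ?_)
    exact (Complex.abs_re_le_norm _).trans (OneBAux.t_le _)
  have hIy : Integrable (fun ω => (ζ ω).im) μ := by
    refine hI1.mono' hζim.aestronglyMeasurable (Eventually.of_forall fun ω => ?_)
    exact (Complex.abs_im_le_norm _).trans (OneBAux.t_le _)
  have hIxx : Integrable (fun ω => (ζ ω).re ^ 2) μ := by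
    refine hI1.mono' (hζre.pow_const 2).aestronglyMeasurable (Eventually.of_forall fun ω => ?_)
    rw [Real.norm_eq_abs, abs_of_nonneg (sq_nonneg _)]
    exact (OneBAux.re_sq_le _).trans (OneBAux.t2_le _)
  have hIyy : Integrable (fun ω => (ζ ω).im ^ 2) μ := by
    refine hI1.mono' (hζim.pow_const 2).aestronglyMeasurable (Eventually.of_forall fun ω => ?_)
    rw [Real.norm_eq_abs, abs_of_nonneg (sq_nonneg _)]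
    exact (OneBAux.im_sq_le _).trans (OneBAux.t2_le _)
  have hIxy : Integrable (fun ω => (ζ ω).re * (ζ ω).im) μ := by
    refine hI1.mono' (hζre.mul hζim).aestronglyMeasurable (Eventually.of_forall fun ω => ?_)
    rw [Real.norm_eq_abs, abs_mul]
    refine le_trans ?_ (OneBAux.t2_le ‖ζ ω‖)
    rw [sq]
    exact mul_le_mul (Complex.abs_re_le_norm _) (Complex.abs_im_le_norm _) (abs_nonneg _)
      (norm_nonneg _)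
  have hI2 : Integrable (fun ω => ‖ζ ω‖ ^ 2) μ := by
    have e : (fun ω => ‖ζ ω‖ ^ 2) = fun ω => (ζ ω).re ^ 2 + (ζ ω).im ^ 2 :=
      funext fun ω => OneBAux.norm_sq_eq _
    rw [e]
    exact hIxx.add hIyy
  have hm2 : ∫ ω, ‖ζ ω‖ ^ 2 ∂μ = (a + b) * h := by
    have e : (fun ω => ‖ζ ω‖ ^ 2) = fun ω => (ζ ω).re ^ 2 + (ζ ω).im ^ 2 :=
      funext fun ω => OneBAux.norm_sq_eq _
    rw [e, integral_add hIxx hIyy, hxx, hyy]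
    ring
  obtain ⟨u, hu⟩ : ∃ u : ℂ, u = 2 * h / z := ⟨_, rfl⟩
  have hun : ‖u‖ = 2 * h / ‖z‖ := by
    rw [hu, norm_div, norm_mul, Complex.norm_real, Real.norm_eq_abs, abs_of_pos hh]
    norm_num
  have hun2 : ‖u‖ ^ 2 ≤ 4 / δ ^ 2 * r ^ 4 := by
    rw [hun, div_pow, hr2]
    have e1 : (2 * r ^ 2) ^ 2 / ‖z‖ ^ 2 ≤ (2 * r ^ 2) ^ 2 / δ ^ 2 :=
      div_le_div_of_nonneg_left (by positivity) (by positivity)
        (pow_le_pow_left₀ hδ.le hz1 2)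
    refine e1.trans (le_of_eq ?_)
    ring
  have hun4 : ‖u‖ ^ 4 ≤ 16 / δ ^ 4 * r ^ 8 := by
    have e1 : (‖u‖ ^ 2) ^ 2 ≤ (4 / δ ^ 2 * r ^ 4) ^ 2 :=
      pow_le_pow_left₀ (by positivity) hun2 2
    calc ‖u‖ ^ 4 = (‖u‖ ^ 2) ^ 2 := by ring
      _ ≤ _ := e1
      _ = _ := by field_simp; ring
  rw [← hu]
  obtain ⟨l1, hl1⟩ : ∃ l1, l1 = -(A₁ z).re - 2 * (A₂ z * u).re - 2 * A₃ z * u.re := ⟨_, rfl⟩
  obtain ⟨l2, hl2⟩ : ∃ l2, l2 = (A₁ z).im + 2 * (A₂ z * u).im - 2 * A₃ z * u.im := ⟨_, rfl⟩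
  obtain ⟨q1, hq1⟩ : ∃ q1, q1 = (A₂ z).re + A₃ z := ⟨_, rfl⟩
  obtain ⟨q2, hq2⟩ : ∃ q2, q2 = -2 * (A₂ z).im := ⟨_, rfl⟩
  obtain ⟨q3, hq3⟩ : ∃ q3, q3 = A₃ z - (A₂ z).re := ⟨_, rfl⟩
  obtain ⟨c6, hc6⟩ : ∃ c6, c6 = |C| * r := ⟨_, rfl⟩
  obtain ⟨c7, hc7⟩ : ∃ c7, c7 = 4 * |C| / r + 8 * C₂ := ⟨_, rfl⟩
  obtain ⟨T, hT⟩ : ∃ T, T = F z + (A₁ z * u).re + (A₂ z * u ^ 2).re + A₃ z * ‖u‖ ^ 2
        + c6 * ‖u‖ ^ 2 + c7 * ‖u‖ ^ 4 := ⟨_, rfl⟩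
  have hc70 : 0 ≤ c7 := by rw [hc7]; positivity
  have hc60 : 0 ≤ c6 := by rw [hc6]; positivity
  have hpt : ∀ ω, F (z + u - ζ ω) ≤ T + (l1 * (ζ ω).re + (l2 * (ζ ω).im + (q1 * (ζ ω).re ^ 2
        + (q2 * ((ζ ω).re * (ζ ω).im) + (q3 * (ζ ω).im ^ 2
        + (c6 * ‖ζ ω‖ ^ 2 + c7 * ‖ζ ω‖ ^ 4)))))) := by
    intro ω
    have := os_point2 hδ hF0 hFB hM'0 hexp hz1 hz2 (hA1.trans hMM) (hA2.trans hMM)
      (hA3.trans hMM) hr0 hC₂ u (ζ ω)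
    rw [hT, hl1, hl2, hq1, hq2, hq3, hc6, hc7]
    exact this
  have hFFm : Measurable fun ω => F (z + u - ζ ω) := hFm.comp (measurable_const.sub hζm)
  have hFF0 : ∀ ω, 0 ≤ F (z + u - ζ ω) := fun ω => hF0 _
  have hFFi : Integrable (fun ω => F (z + u - ζ ω)) μ := by
    refine (integrable_const B).mono' hFFm.aestronglyMeasurable
      (Eventually.of_forall fun ω => ?_)
    rw [Real.norm_eq_abs, abs_of_nonneg (hFF0 ω)]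
    exact hFB _
  rw [← ofReal_integral_eq_lintegral_ofReal hFFi (Eventually.of_forall hFF0)]
  refine ENNReal.ofReal_le_ofReal ?_
  have i7 : Integrable (fun ω => c7 * ‖ζ ω‖ ^ 4) μ := hζ4.const_mul _
  have i6 : Integrable (fun ω => c6 * ‖ζ ω‖ ^ 2) μ := hI2.const_mul _
  have i5 : Integrable (fun ω => q3 * (ζ ω).im ^ 2) μ := hIyy.const_mul _
  have i4 : Integrable (fun ω => q2 * ((ζ ω).re * (ζ ω).im)) μ := hIxy.const_mul _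
  have i3 : Integrable (fun ω => q1 * (ζ ω).re ^ 2) μ := hIxx.const_mul _
  have i2 : Integrable (fun ω => l2 * (ζ ω).im) μ := hIy.const_mul _
  have i1 : Integrable (fun ω => l1 * (ζ ω).re) μ := hIx.const_mul _
  have i67 : Integrable (fun ω => c6 * ‖ζ ω‖ ^ 2 + c7 * ‖ζ ω‖ ^ 4) μ := i6.add i7
  have i567 : Integrable (fun ω => q3 * (ζ ω).im ^ 2 + (c6 * ‖ζ ω‖ ^ 2 + c7 * ‖ζ ω‖ ^ 4)) μ :=
    i5.add i67
  have i4567 : Integrable (fun ω => q2 * ((ζ ω).re * (ζ ω).im) + (q3 * (ζ ω).im ^ 2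
      + (c6 * ‖ζ ω‖ ^ 2 + c7 * ‖ζ ω‖ ^ 4))) μ := i4.add i567
  have i34567 : Integrable (fun ω => q1 * (ζ ω).re ^ 2 + (q2 * ((ζ ω).re * (ζ ω).im)
      + (q3 * (ζ ω).im ^ 2 + (c6 * ‖ζ ω‖ ^ 2 + c7 * ‖ζ ω‖ ^ 4)))) μ := i3.add i4567
  have i234567 : Integrable (fun ω => l2 * (ζ ω).im + (q1 * (ζ ω).re ^ 2
      + (q2 * ((ζ ω).re * (ζ ω).im) + (q3 * (ζ ω).im ^ 2
      + (c6 * ‖ζ ω‖ ^ 2 + c7 * ‖ζ ω‖ ^ 4))))) μ := i2.add i34567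
  have i1234567 : Integrable (fun ω => l1 * (ζ ω).re + (l2 * (ζ ω).im + (q1 * (ζ ω).re ^ 2
      + (q2 * ((ζ ω).re * (ζ ω).im) + (q3 * (ζ ω).im ^ 2
      + (c6 * ‖ζ ω‖ ^ 2 + c7 * ‖ζ ω‖ ^ 4)))))) μ := i1.add i234567
  have hle := integral_mono hFFi ((integrable_const _).add i1234567) hpt
  simp only [Pi.add_apply] at hle
  have hval : ∫ ω, (T + (l1 * (ζ ω).re + (l2 * (ζ ω).im + (q1 * (ζ ω).re ^ 2
        + (q2 * ((ζ ω).re * (ζ ω).im) + (q3 * (ζ ω).im ^ 2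
        + (c6 * ‖ζ ω‖ ^ 2 + c7 * ‖ζ ω‖ ^ 4))))))) ∂μ
      = T + (q1 * (a * h) + (q2 * (c * h) + (q3 * (b * h)
        + (c6 * ((a + b) * h) + c7 * ∫ ω, ‖ζ ω‖ ^ 4 ∂μ)))) := by
    rw [integral_add (integrable_const _) i1234567, integral_add i1 i234567,
      integral_add i2 i34567, integral_add i3 i4567, integral_add i4 i567, integral_add i5 i67,
      integral_add i6 i7]
    simp only [integral_const_mul, hx, hy, hxx, hyy, hxy, hm2, integral_const, probReal_univ,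
      one_smul, mul_zero, zero_add]
  rw [hval] at hle
  -- the generator
  have hA1u : (A₁ z * u).re = h * (2 * A₁ z / z).re := by
    have e1 : A₁ z * u = ((h : ℝ) : ℂ) * (2 * A₁ z / z) := by
      rw [hu]
      ring
    rw [e1, Complex.re_ofReal_mul]
  have hsg : (A₂ z * sg a b c).re = (A₂ z).re * (a - b) - (A₂ z).im * (2 * c) := by
    unfold sg
    rw [Complex.mul_re]
    simp
  have hq : q1 * (a * h) + q2 * (c * h) + q3 * (b * h)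
      = h * ((A₂ z * sg a b c).re + A₃ z * (a + b)) := by
    rw [hq1, hq2, hq3, hsg]
    ring
  have hgen2 : h * ((2 * A₁ z / z).re + (A₂ z * sg a b c).re + A₃ z * (a + b))
      ≤ -(h * k z) * F z := by
    have := mul_le_mul_of_nonneg_left hgen hh.le
    linarith
  -- errors
  have hr34 : r ^ 4 ≤ r ^ 3 := pow_le_pow_of_le_one hr0.le hr1 (by norm_num)
  have hr30 : 0 ≤ r ^ 3 := by positivity
  have er1 : (A₂ z * u ^ 2).re ≤ M' * (4 / δ ^ 2) * r ^ 3 := by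
    have e1 : |(A₂ z * u ^ 2).re| ≤ M' * (4 / δ ^ 2 * r ^ 4) := by
      refine (Complex.abs_re_le_norm _).trans ?_
      rw [norm_mul, norm_pow]
      exact mul_le_mul (hA2.trans hMM) hun2 (by positivity) hM'0
    have e2 : M' * (4 / δ ^ 2 * r ^ 4) ≤ M' * (4 / δ ^ 2 * r ^ 3) :=
      mul_le_mul_of_nonneg_left (mul_le_mul_of_nonneg_left hr34 (by positivity)) hM'0
    have e3 := (le_abs_self _).trans e1
    linarith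
  have er2 : A₃ z * ‖u‖ ^ 2 ≤ M' * (4 / δ ^ 2) * r ^ 3 := by
    have e1 : A₃ z * ‖u‖ ^ 2 ≤ M' * ‖u‖ ^ 2 :=
      mul_le_mul_of_nonneg_right ((le_abs_self _).trans (hA3.trans hMM)) (by positivity)
    have e2 : M' * ‖u‖ ^ 2 ≤ M' * (4 / δ ^ 2 * r ^ 3) :=
      mul_le_mul_of_nonneg_left (hun2.trans
        (mul_le_mul_of_nonneg_left hr34 (by positivity))) hM'0
    linarith
  have er3 : c6 * (‖u‖ ^ 2 + (a + b) * h) ≤ |C| * (4 / δ ^ 2 + a + b) * r ^ 3 := by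
    have e1 : ‖u‖ ^ 2 ≤ 4 / δ ^ 2 * r ^ 2 := by
      refine hun2.trans (mul_le_mul_of_nonneg_left ?_ (by positivity))
      exact pow_le_pow_of_le_one hr0.le hr1 (by norm_num)
    have e2 : c6 * (‖u‖ ^ 2 + (a + b) * h) ≤ c6 * (4 / δ ^ 2 * r ^ 2 + (a + b) * h) :=
      mul_le_mul_of_nonneg_left (by linarith) hc60
    refine e2.trans (le_of_eq ?_)
    rw [hc6, hr2]
    ring
  have er4 : c7 * (‖u‖ ^ 4 + ∫ ω, ‖ζ ω‖ ^ 4 ∂μ)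
      ≤ (4 * |C| + 8 * C₂) * (16 / δ ^ 4 + K) * r ^ 3 := by
    have e1 : ‖u‖ ^ 4 ≤ 16 / δ ^ 4 * r ^ 4 := by
      refine hun4.trans (mul_le_mul_of_nonneg_left ?_ (by positivity))
      exact pow_le_pow_of_le_one hr0.le hr1 (by norm_num)
    have e2 : ∫ ω, ‖ζ ω‖ ^ 4 ∂μ ≤ K * r ^ 4 := by
      refine h4.trans (le_of_eq ?_)
      rw [hr2]
      ring
    have e3 : c7 * (‖u‖ ^ 4 + ∫ ω, ‖ζ ω‖ ^ 4 ∂μ) ≤ c7 * ((16 / δ ^ 4 + K) * r ^ 4) :=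
      mul_le_mul_of_nonneg_left (by linarith) hc70
    have e4 : c7 * r ≤ 4 * |C| + 8 * C₂ := by
      rw [hc7, add_mul, div_mul_cancel₀ _ hr0.ne']
      have : 8 * C₂ * r ≤ 8 * C₂ * 1 := mul_le_mul_of_nonneg_left hr1 (by positivity)
      linarith
    calc c7 * (‖u‖ ^ 4 + ∫ ω, ‖ζ ω‖ ^ 4 ∂μ) ≤ c7 * ((16 / δ ^ 4 + K) * r ^ 4) := e3
      _ = (c7 * r) * ((16 / δ ^ 4 + K) * r ^ 3) := by ring
      _ ≤ (4 * |C| + 8 * C₂) * ((16 / δ ^ 4 + K) * r ^ 3) :=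
          mul_le_mul_of_nonneg_right e4 (by positivity)
      _ = _ := by ring
  have hmain : ∫ ω, F (z + u - ζ ω) ∂μ ≤ F z * (1 + -(h * k z)) + C₃ * r ^ 3 := by
    have e1 : C₃ * r ^ 3 = M' * (4 / δ ^ 2) * r ^ 3 + M' * (4 / δ ^ 2) * r ^ 3
        + |C| * (4 / δ ^ 2 + a + b) * r ^ 3
        + (4 * |C| + 8 * C₂) * (16 / δ ^ 4 + K) * r ^ 3 := by
      rw [hC₃]
      ring
    rw [e1]
    have e2 : T + (q1 * (a * h) + (q2 * (c * h) + (q3 * (b * h)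
        + (c6 * ((a + b) * h) + c7 * ∫ ω, ‖ζ ω‖ ^ 4 ∂μ))))
        = F z + (h * ((2 * A₁ z / z).re + (A₂ z * sg a b c).re + A₃ z * (a + b)))
          + (A₂ z * u ^ 2).re + A₃ z * ‖u‖ ^ 2 + c6 * (‖u‖ ^ 2 + (a + b) * h)
          + c7 * (‖u‖ ^ 4 + ∫ ω, ‖ζ ω‖ ^ 4 ∂μ) := by
      rw [hT, hA1u]
      linarith [hq]
    rw [e2] at hle
    linarith
  refine hmain.trans ?_
  have hr3 : h * √h = r ^ 3 := by
    rw [← hr, hr2]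
    ring
  rw [hr3]
  have hexp1 : 1 + -(h * k z) ≤ Real.exp (-(h * k z)) := by
    rw [add_comm]
    exact Real.add_one_le_exp _
  have hlow : Real.exp (-M') ≤ Real.exp (-(h * k z)) := by
    refine Real.exp_le_exp.2 (neg_le_neg ?_)
    calc h * k z ≤ h * M' :=
          mul_le_mul_of_nonneg_left ((le_abs_self _).trans (hkM.trans hMM)) hh.le
      _ ≤ 1 * M' := mul_le_mul_of_nonneg_right hh1 hM'0
      _ = M' := one_mul _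
  obtain ⟨E, hE⟩ : ∃ E, E = Real.exp (-(h * k z)) := ⟨_, rfl⟩
  rw [← hE] at hexp1 hlow ⊢
  have hF00 : 0 < F z := lt_of_lt_of_le hc₀ hcF
  have hprod : Real.exp (-M') * c₀ ≤ E * F z :=
    mul_le_mul hlow hcF hc₀.le (by rw [hE]; positivity)
  have h5 : C₃ * r ^ 3 ≤ (C₃ + 1) * Real.exp M' / c₀ * r ^ 3 * (E * F z) := by
    have e : (C₃ + 1) * Real.exp M' / c₀ * r ^ 3 * (Real.exp (-M') * c₀) = (C₃ + 1) * r ^ 3 := by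
      have e3 : Real.exp M' * Real.exp (-M') = 1 := by
        rw [← Real.exp_add, add_neg_cancel, Real.exp_zero]
      calc (C₃ + 1) * Real.exp M' / c₀ * r ^ 3 * (Real.exp (-M') * c₀)
          = (C₃ + 1) * r ^ 3 * (Real.exp M' * Real.exp (-M')) * (c₀ / c₀) := by ring
        _ = _ := by rw [e3, div_self hc₀.ne']; ring
    have e2 : (C₃ + 1) * Real.exp M' / c₀ * r ^ 3 * (Real.exp (-M') * c₀)
        ≤ (C₃ + 1) * Real.exp M' / c₀ * r ^ 3 * (E * F z) :=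
      mul_le_mul_of_nonneg_left hprod (by positivity)
    rw [e] at e2
    linarith
  have h6 : F z * (1 + -(h * k z)) ≤ F z * E := mul_le_mul_of_nonneg_left hexp1 hF00.le
  linarith

end

end Pool.Agent.SLE
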