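import Pool.Agent.Lib.MP_c17912_pr_LN.DF2
import Pool.Agent.Lib.MP_c17912_pr_LN.NG
import Pool.Agent.Lib.MP_c17912_pr.Maxi

set_option autoImplicit false

open MeasureTheory ProbabilityTheory Filter
open scoped NNReal ENNReal Topology Real

namespace Pool.Agent.SLE

noncomputable section

universe u

/-- PA2. The first phase when the determinant is large: the survivors of the unit disc are near
the disc, the tip is away. -/
theorem phase_one_two : ∃ κ₀ > (0 : ℝ), ∀ (Ω : Type u)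
    [MeasurableSpace Ω] (μ : Measure Ω) [IsProbabilityMeasure μ] (a b c K : ℝ),
    0 < a → 0 < b → κ₀ ≤ a * b - c ^ 2 →
    a + b ≤ Real.exp ((a * b - c ^ 2) ^ (1 / 12 : ℝ)) →
    ∃ T₁ > 0, ∃ K₁ > 0, ∀ W : ℝ → Ω → ℂ, Gau a b c K W μ →
      ∃ G, MeasurableSet[Blk W 0 T₁] G ∧ ENNReal.ofReal (1 / 4) ≤ μ G ∧
        ∀ ω ∈ G, 10 ≤ (W T₁ ω).re ∧ ‖W T₁ ω‖ ≤ K₁ ∧ ∀ (z : ℂ) (g : ℝ → ℂ), ‖z‖ < 1 →
          Sol (fun t => W t ω) z T₁ g → ‖g T₁‖ ≤ 2 := by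
  obtain ⟨κ₀, hκ₀, h0⟩ := disp_final_two.{u} (10 ^ 4) (1 / 20) (by norm_num)
  refine ⟨κ₀, hκ₀, fun Ω _ μ _ a b c K ha hb hdet hab => ?_⟩
  obtain ⟨T₁, hT₁, haT, hD⟩ := h0 Ω μ a b c K ha hb hdet hab
  have hpos : 0 < 10 * ((a + b) * T₁) := by positivity
  have hK₁ : 0 < √(10 * ((a + b) * T₁)) := Real.sqrt_pos.2 hpos
  refine ⟨T₁, hT₁, √(10 * ((a + b) * T₁)), hK₁, fun W hW => ?_⟩
  obtain ⟨A, hAm, hAμ, hA⟩ := hD W hW
  obtain ⟨A₂, hA₂m, hA₂μ, hA₂⟩ := maximal hW.toDrv hT₁ hK₁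
  have hA₂μ' : μ A₂ ≤ ENNReal.ofReal (1 / 10) := by
    refine hA₂μ.trans (ENNReal.ofReal_le_ofReal (le_of_eq ?_))
    rw [Real.sq_sqrt hpos.le]
    have h1 : (a + b) * T₁ ≠ 0 := by positivity
    field_simp
  have hBm : MeasurableSet[Blk W 0 T₁] {ω | 10 ≤ (W T₁ ω).re} :=
    (Complex.measurable_re.comp (MaxiAux.meas_Blk hW.toDrv hT₁.le (le_refl T₁)))
      measurableSet_Ici
  have hBμ := gauss_tail hW hT₁ ha (x := 10) (by norm_num)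
  have hsq : (100 : ℝ) ≤ √(a * T₁) := by
    rw [show (100 : ℝ) = √(10 ^ 4) by
      rw [show (10 : ℝ) ^ 4 = 100 ^ 2 by norm_num, Real.sqrt_sq (by norm_num)]]
    exact Real.sqrt_le_sqrt haT
  have hBμ' : ENNReal.ofReal (9 / 20) ≤ μ {ω | 10 ≤ (W T₁ ω).re} := by
    refine (ENNReal.ofReal_le_ofReal ?_).trans hBμ
    have h2 : 10 / (2 * √(a * T₁)) ≤ 10 / (2 * 100) := by gcongr
    linarith
  refine ⟨Aᶜ ∩ (A₂ᶜ ∩ {ω | 10 ≤ (W T₁ ω).re}), ?_, ?_, ?_⟩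
  · exact @MeasurableSet.inter _ (Blk W 0 T₁) _ _ (@MeasurableSet.compl _ _ (Blk W 0 T₁) hAm)
      (@MeasurableSet.inter _ (Blk W 0 T₁) _ _ (@MeasurableSet.compl _ _ (Blk W 0 T₁) hA₂m) hBm)
  · have hsub : {ω | 10 ≤ (W T₁ ω).re} ⊆
        (Aᶜ ∩ (A₂ᶜ ∩ {ω | 10 ≤ (W T₁ ω).re})) ∪ (A ∪ A₂) := by
      intro ω hω
      by_cases h1 : ω ∈ A
      · exact Or.inr (Or.inl h1)
      · by_cases h2 : ω ∈ A₂
        · exact Or.inr (Or.inr h2)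
        · exact Or.inl ⟨h1, h2, hω⟩
    have h3 : μ {ω | 10 ≤ (W T₁ ω).re} ≤
        μ (Aᶜ ∩ (A₂ᶜ ∩ {ω | 10 ≤ (W T₁ ω).re})) + (μ A + μ A₂) :=
      (measure_mono hsub).trans ((measure_union_le _ _).trans
        (add_le_add_right (measure_union_le _ _) _))
    set G : Set Ω := Aᶜ ∩ (A₂ᶜ ∩ {ω | 10 ≤ (W T₁ ω).re}) with hG
    have hGf : μ G ≠ ⊤ := measure_ne_top μ G
    have h4 : ENNReal.ofReal (9 / 20) ≤ ENNReal.ofReal ((μ G).toReal + (1 / 20 + 1 / 10)) := by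
      rw [ENNReal.ofReal_add ENNReal.toReal_nonneg (by norm_num),
        ENNReal.ofReal_add (by norm_num) (by norm_num), ENNReal.ofReal_toReal hGf]
      exact hBμ'.trans (h3.trans (add_le_add_right (add_le_add hAμ hA₂μ') _))
    have h5 : (9 / 20 : ℝ) ≤ (μ G).toReal + (1 / 20 + 1 / 10) :=
      (ENNReal.ofReal_le_ofReal_iff (add_nonneg ENNReal.toReal_nonneg (by norm_num))).1 h4
    rw [← ENNReal.ofReal_toReal hGf]
    exact ENNReal.ofReal_le_ofReal (by linarith)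
  · rintro ω ⟨h1, h2, h3⟩
    refine ⟨h3, hA₂ ω h2 T₁ (Set.right_mem_Icc.2 hT₁.le), fun z g hz hg => ?_⟩
    have h4 := hA ω h1 z T₁ g hT₁.le le_rfl hg
    have h5 : ‖g T₁‖ ≤ ‖g T₁ - z‖ + ‖z‖ := by
      have := norm_add_le (g T₁ - z) z
      rwa [sub_add_cancel] at this
    linarith

end

end Pool.Agent.SLE
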