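import Pool.Agent.Lib.MP_c17912_pr_LN.PA
import Pool.Agent.Lib.MP_c17912_pr_LN.LD4
import Pool.Agent.Lib.MP_c17912_pr_LN2.MAB
import Pool.Agent.Lib.MP_c17912_pr_LN2.ZOC
import Mathlib.Analysis.Complex.Exponential

set_option autoImplicit false

open MeasureTheory ProbabilityTheory Filter
open scoped NNReal ENNReal Topology Real

namespace Pool.Agent.SLE

noncomputable section

universe u

private theorem RS2_exp {lam : ℝ} (h : (Nat.factorial 22 : ℝ) ^ 7 ≤ lam) :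
    lam ^ 3 ≤ Real.exp (lam ^ (1 / 7 : ℝ)) := by
  obtain ⟨F, hF⟩ : ∃ F : ℝ, F = (Nat.factorial 22 : ℝ) := ⟨_, rfl⟩
  have hF1 : 1 ≤ F := by
    rw [hF]
    exact_mod_cast Nat.factorial_pos 22
  rw [← hF] at h
  have hl0 : 0 ≤ lam := le_trans (by positivity) h
  obtain ⟨y, hy⟩ : ∃ y : ℝ, y = lam ^ (1 / 7 : ℝ) := ⟨_, rfl⟩
  have hy0 : 0 ≤ y := by
    rw [hy]
    positivity
  have hy7 : y ^ 7 = lam := by
    rw [hy, ← Real.rpow_natCast, ← Real.rpow_mul hl0]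
    norm_num
  have hyF : F ≤ y := by
    by_contra h1
    have h2 : y ^ 7 < F ^ 7 := pow_lt_pow_left₀ (not_le.1 h1) hy0 (by norm_num)
    rw [hy7] at h2
    linarith
  have h1 := Real.pow_div_factorial_le_exp y hy0 22
  rw [← hy]
  refine le_trans ?_ h1
  rw [← hF, ← hy7, le_div_iff₀ (by linarith)]
  calc (y ^ 7) ^ 3 * F = y ^ 21 * F := by ring
    _ ≤ y ^ 21 * y := mul_le_mul_of_nonneg_left hyF (by positivity)
    _ = y ^ 22 := by ring

/-- RS2. Large noise, all covariance matrices outside the space filling phase: transience for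
the continuous version of the driving process. -/
theorem transient_gen : ∃ κ₀ > (0 : ℝ), ∀ (Ω : Type u)
    [MeasurableSpace Ω] (μ : Measure Ω) [IsProbabilityMeasure μ] (a b c K lam : ℝ)
    (W : ℝ → Ω → ℂ), κ₀ ≤ lam → Ell a b c lam →
    κ₀ * (a + b) ^ 2 ≤ (8 + b - a) * lam ^ 3 → Gau a b c K W μ →
    ∀ᵐ ω ∂μ, Transient (fun t => W t ω) := by
  obtain ⟨κ₁, hκ₁, H1⟩ := phase_one.{u}
  obtain ⟨κ₂, hκ₂, H2⟩ := hasAng2_gen
  obtain ⟨κ₀, hκ₀⟩ : ∃ κ₀ : ℝ, κ₀ = max (max κ₁ κ₂) (max 4 ((Nat.factorial 22 : ℝ) ^ 7)) :=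
    ⟨_, rfl⟩
  have h1 : κ₁ ≤ κ₀ := by rw [hκ₀]; exact (le_max_left _ _).trans (le_max_left _ _)
  have h2 : κ₂ ≤ κ₀ := by rw [hκ₀]; exact (le_max_right _ _).trans (le_max_left _ _)
  have h3 : 4 ≤ κ₀ := by rw [hκ₀]; exact (le_max_left _ _).trans (le_max_right _ _)
  have h4 : (Nat.factorial 22 : ℝ) ^ 7 ≤ κ₀ := by
    rw [hκ₀]; exact (le_max_right _ _).trans (le_max_right _ _)
  refine ⟨κ₀, by linarith, ?_⟩
  intro Ω _ μ _ a b c K lam W hlam hE hS hW
  have hl4 : 4 ≤ lam := h3.trans hlam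
  have hl0 : 0 < lam := by linarith
  have hla := hE.le_a
  have hlb := hE.le_b
  have ha : 0 < a := by linarith
  have hb : 0 < b := by linarith
  have hS0 : 0 < a + b := by linarith
  have hSe : a + b ≤ Real.exp (lam ^ (1 / 7 : ℝ)) := by
    refine le_trans ?_ (RS2_exp (h4.trans hlam))
    have h5 : (8 + b - a) * lam ^ 3 ≤ (2 * (a + b)) * lam ^ 3 :=
      mul_le_mul_of_nonneg_right (by linarith) (by positivity)
    have h6 : 2 * (a + b) ^ 2 ≤ κ₀ * (a + b) ^ 2 :=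
      mul_le_mul_of_nonneg_right (by linarith) (sq_nonneg _)
    have h7 : (a + b) * (a + b) ≤ (a + b) * lam ^ 3 := by nlinarith
    exact le_of_mul_le_mul_left h7 hS0
  have hang : HasAngB a b c := by
    refine H2 a b c lam (h2.trans hlam) hE (le_trans ?_ hS)
    exact mul_le_mul_of_nonneg_right h2 (sq_nonneg _)
  obtain ⟨T₁, hT₁, K₁, hK₁, HP⟩ := H1 Ω μ a b c K lam (h1.trans hlam) hE hSe
  obtain ⟨p, hp, H⟩ := main_event4 ha hb.le hW.toDrv.c_sq hang hT₁ hK₁ HP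
  exact ae_transient3 hW hp H

end

end Pool.Agent.SLE
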