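import Pool.Agent.Lib.MP_c17912_pr_LN.PA2
import Pool.Agent.Lib.MP_c17912_pr_LN2.MAB
import Pool.Agent.Lib.MP_c17912_pr_LN2.ZOC
import Pool.Agent.Lib.MP_c17912_pr_LN2.ADG

set_option autoImplicit false

open MeasureTheory ProbabilityTheory Filter
open scoped NNReal ENNReal Topology Real

namespace Pool.Agent.SLE

noncomputable section

universe u

/-- RS3. Diagonal covariance matrices with large determinant, outside the space filling phase:
transience for the continuous version of the driving process. -/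
theorem transient_diag : ∃ κ₀ > (0 : ℝ), ∀ (Ω : Type u)
    [MeasurableSpace Ω] (μ : Measure Ω) [IsProbabilityMeasure μ] (a b K : ℝ)
    (W : ℝ → Ω → ℂ), 0 < a → 0 < b → κ₀ ≤ a * b →
    a + b ≤ Real.exp ((a * b) ^ (1 / 12 : ℝ)) → a - b < 8 → Gau a b 0 K W μ →
    ∀ᵐ ω ∂μ, Transient (fun t => W t ω) := by
  obtain ⟨κ₁, hκ₁, H1⟩ := phase_one_two.{u}
  refine ⟨κ₁, hκ₁, ?_⟩
  intro Ω _ μ _ a b K W ha hb hdet hS hab hW
  have he : a * b - (0 : ℝ) ^ 2 = a * b := by ring
  obtain ⟨T₁, hT₁, K₁, hK₁, HP⟩ := H1 Ω μ a b 0 K ha hb (by rw [he]; exact hdet)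
    (by rw [he]; exact hS)
  obtain ⟨p, hp, H⟩ := main_event4 ha hb.le hW.toDrv.c_sq (hasAngB_diag ha hb hab) hT₁ hK₁ HP
  exact ae_transient3 hW hp H

end

end Pool.Agent.SLE
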