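import Pool.Agent.Lib.MP_c17912_pr_LN.PA
import Pool.Agent.Lib.MP_c17912_pr_LN.LD5
import Pool.Agent.Lib.MP_c17912_pr_LN2.MAB
import Pool.Agent.Lib.MP_c17912_pr_LN2.ZOC

set_option autoImplicit false

open MeasureTheory ProbabilityTheory Filter
open scoped NNReal ENNReal Topology Real

namespace Pool.Agent.SLE

noncomputable section

universe u

/-- RS4. Large noise, all covariance matrices outside the space filling phase: transience for
the continuous version of the driving process. -/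
theorem transient_wide : ∃ κ₀ > (0 : ℝ), ∀ (Ω : Type u)
    [MeasurableSpace Ω] (μ : Measure Ω) [IsProbabilityMeasure μ] (a b c K lam : ℝ)
    (W : ℝ → Ω → ℂ), κ₀ ≤ lam → Ell a b c lam → a + b ≤ Real.exp (lam ^ (1 / 7 : ℝ)) →
    a - b < 8 → κ₀ * (a + b) ≤ (8 + b - a) ^ 2 * lam ^ 2 → Gau a b c K W μ →
    ∀ᵐ ω ∂μ, Transient (fun t => W t ω) := by
  obtain ⟨κ₁, hκ₁, H1⟩ := phase_one.{u}
  obtain ⟨κ₂, hκ₂, H2⟩ := hasAng2_wide
  refine ⟨max κ₁ κ₂, lt_of_lt_of_le hκ₁ (le_max_left _ _), ?_⟩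
  intro Ω _ μ _ a b c K lam W hlam hE hS hab hS2 hW
  have hl0 : 0 < lam := lt_of_lt_of_le (lt_of_lt_of_le hκ₁ (le_max_left _ _)) hlam
  have ha : 0 < a := lt_of_lt_of_le hl0 hE.le_a
  have hb : 0 < b := lt_of_lt_of_le hl0 hE.le_b
  have hang : HasAngB a b c := by
    refine H2 a b c lam ((le_max_right _ _).trans hlam) hE hS hab (le_trans ?_ hS2)
    exact mul_le_mul_of_nonneg_right (le_max_right _ _) (by linarith)
  obtain ⟨T₁, hT₁, K₁, hK₁, HP⟩ := H1 Ω μ a b c K lam ((le_max_left _ _).trans hlam) hE hS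
  obtain ⟨p, hp, H⟩ := main_event4 ha hb.le hW.toDrv.c_sq hang hT₁ hK₁ HP
  exact ae_transient3 hW hp H

end

end Pool.Agent.SLE
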