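import Pool.Agent.Lib.MP_c17912_pr_LN.DE
import Pool.Agent.Lib.MP_c17912_pr_LN.AL
import Pool.Agent.Lib.MP_c17912_pr_LN.BA

set_option autoImplicit false

open MeasureTheory ProbabilityTheory Filter
open scoped NNReal ENNReal Topology Real

namespace Pool.Agent.SLE

noncomputable section

variable {Ω : Type*} [MeasurableSpace Ω]

/-- SD. A small disc is never hit with probability at least `1/2`. -/
theorem small_disc {a b c : ℝ} (ha : 0 ≤ a) (hb : 0 ≤ b) (hc : c ^ 2 ≤ a * b)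
    (h : HasAng a b c) : ∃ q > 0, ∀ (K : ℝ) (μ : Measure Ω) [IsProbabilityMeasure μ]
      (W : ℝ → Ω → ℂ), Drv a b c K W μ → ∀ z₀ : ℂ, z₀ ≠ 0 →
        ∃ A, MeasurableSet[Fut W 0] A ∧ μ A ≤ ENNReal.ofReal (1 / 2) ∧
          ∀ ω ∉ A, ∀ w : ℂ, ‖w - z₀‖ ≤ q * ‖z₀‖ → ∀ t : ℝ, 0 ≤ t →
            ∃ g, Sol (fun t => W t ω) w t g := by
  obtain ⟨⟨ψ₁, h1⟩, ψ₂, m, hm, h2⟩ := h
  obtain ⟨β, hβ, t, ht, ht2, C, hC, hder⟩ := der_event (Ω := Ω) ha hb hc h2 hm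
  have hM : 0 < (2 * C) ^ (1 / β) := Real.rpow_pos_of_pos (by linarith) _
  have hMβ : ((2 * C) ^ (1 / β)) ^ β = 2 * C := by
    rw [← Real.rpow_mul (by linarith), one_div_mul_cancel hβ.ne', Real.rpow_one]
  set M : ℝ := (2 * C) ^ (1 / β) with hMdef
  refine ⟨t / (16 * M), by positivity, ?_⟩
  intro K μ _ W hW z₀ hz
  obtain ⟨A₁, hA₁m, hA₁, hA₁b⟩ := hder K μ W hW z₀ hz M hM
  obtain ⟨A₂, hA₂m, hA₂, hA₂b⟩ := alive_ae hW h1 hz
  refine ⟨A₁ ∪ A₂, hA₁m.union hA₂m, ?_, ?_⟩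
  · refine (measure_union_le A₁ A₂).trans ?_
    rw [hA₂, add_zero]
    refine hA₁.trans (ENNReal.ofReal_le_ofReal ?_)
    rw [hMβ, div_le_div_iff₀ (by linarith) (by norm_num)]
    linarith
  · intro ω hω w hw s hs
    have h3 : ω ∉ A₁ := fun h => hω (Or.inl h)
    have h4 : ω ∉ A₂ := fun h => hω (Or.inr h)
    refine ball_alive_small (U := fun t => W t ω) (hW.cont ω) (hW.zero 0 le_rfl ω) hz
      (ρ := t / (16 * M)) (M := M) (θ := t) (by positivity) ht ht2 ?_ (hA₂b ω h4)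
      (fun s g hs hg => hA₁b ω h3 s g hs hg) hw s hs
    have h5 : 16 * (t / (16 * M)) * M = t := by
      field_simp
    exact h5.le

end

end Pool.Agent.SLE
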