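import Pool.Agent.Lib.MP_c17912_pr_LN.DT2

set_option autoImplicit false

open MeasureTheory ProbabilityTheory Filter
open scoped NNReal ENNReal Topology Real

namespace Pool.Agent.SLE

noncomputable section

variable {Ω : Type*} [MeasurableSpace Ω] {μ : Measure Ω} {a b c K : ℝ}

/-- ST2. One step of the recursion over the scales: at most one bad block. -/
theorem disp_step_two [IsProbabilityMeasure μ] {T η cut p s₁ r Kf : ℝ} {m L k1 : ℕ} (hm : 1 ≤ m)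
    (hT : 0 < T) (hη : 0 < η) (hr : 0 < r) (hrη : r ≤ η) (hp : 0 ≤ p) (hs₁ : 0 ≤ s₁)
    (hKf : 0 ≤ Kf) (hk1 : 1 ≤ η * 2 ^ k1)
    (h1 : 2 * T * (Kf * k1 + 1) + L * (η / m) + 5 * r < η) (h2 : 2 * (T / (m : ℝ) ^ 2) ≤ r ^ 2)
    (hG : ∀ W : ℝ → Ω → ℂ, Gau a b c K W μ → ∃ A, MeasurableSet[Blk W 0 T] A ∧
      μ A ≤ ENNReal.ofReal s₁ ∧
      ∀ ω ∉ A, GoodPath2 (fun t => W t ω) (m ^ 2) (T / (m : ℝ) ^ 2) r η L Kf k1)
    (hP : DispP μ a b c K T η cut p) :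
    DispP μ a b c K T η (cut / m) (s₁ + (m : ℝ) ^ 4 * p ^ 2) := by
  intro W hW
  have hm0 : (0 : ℝ) < m := by exact_mod_cast hm
  have hmi : (0 : ℝ) < (m : ℝ)⁻¹ := inv_pos.mpr hm0
  obtain ⟨A₀, hA₀m, hA₀p, hA₀⟩ := hG W hW
  obtain ⟨h, hh⟩ : ∃ h : ℝ, h = T / (m : ℝ) ^ 2 := ⟨_, rfl⟩
  rw [← hh] at h2 hA₀
  have hhpos : 0 < h := by rw [hh]; positivity
  have hNh : (m : ℝ) ^ 2 * h = T := by rw [hh]; field_simp
  have hmh : ((m : ℝ)⁻¹) ^ 2 * T = h := by rw [hh]; field_simp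
  have hj0 : ∀ j : ℕ, 0 ≤ (j : ℝ) * h := fun j => by positivity
  have hex : ∀ j : ℕ, ∃ A, MeasurableSet[Blk (subP W ((j : ℝ) * h) (m : ℝ)⁻¹) 0 T] A ∧
      μ A ≤ ENNReal.ofReal p ∧
      ∀ ω ∉ A, DispOn (fun t => subP W ((j : ℝ) * h) (m : ℝ)⁻¹ t ω) T η cut :=
    fun j => hP _ (hW.subP (hj0 j) hmi)
  choose A hAm hAp hAd using hex
  have hblk : ∀ j : ℕ, MeasurableSet[Blk W ((j : ℝ) * h) (((j : ℝ) + 1) * h)] (A j) := by
    intro j
    have h3 := Blk_sub_le (W := W) (s := (j : ℝ) * h) (r := (m : ℝ)⁻¹) (hj0 j) hmi T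
    have e : (j : ℝ) * h + ((m : ℝ)⁻¹) ^ 2 * T = ((j : ℝ) + 1) * h := by rw [hmh]; ring
    rw [e] at h3
    exact h3 _ (hAm j)
  have hend : ∀ j : ℕ, j < m ^ 2 → ((j : ℝ) + 1) * h ≤ T := by
    intro j hj
    rw [← hNh]
    refine mul_le_mul_of_nonneg_right ?_ hhpos.le
    exact_mod_cast hj
  obtain ⟨P, hPdef⟩ : ∃ P : Finset (ℕ × ℕ), P =
      (Finset.range (m ^ 2) ×ˢ Finset.range (m ^ 2)).filter (fun q => q.1 < q.2) := ⟨_, rfl⟩
  have hmemP : ∀ q : ℕ × ℕ, q ∈ P ↔ (q.1 < m ^ 2 ∧ q.2 < m ^ 2) ∧ q.1 < q.2 := by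
    intro q
    rw [hPdef, Finset.mem_filter, Finset.mem_product, Finset.mem_range, Finset.mem_range]
  have hcard : (P.card : ℝ) ≤ (m : ℝ) ^ 4 := by
    have h3 : P.card ≤ (Finset.range (m ^ 2) ×ˢ Finset.range (m ^ 2)).card := by
      rw [hPdef]
      exact Finset.card_filter_le _ _
    rw [Finset.card_product, Finset.card_range] at h3
    have h4 : (P.card : ℝ) ≤ ((m ^ 2 * m ^ 2 : ℕ) : ℝ) := by exact_mod_cast h3
    refine h4.trans (le_of_eq ?_)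
    push_cast
    ring
  have hpair : ∀ q ∈ P, μ (A q.1 ∩ A q.2) ≤ ENNReal.ofReal (p ^ 2) := by
    rintro ⟨i, j⟩ hq
    obtain ⟨⟨hi, hj⟩, hij⟩ := (hmemP _).1 hq
    simp only at hi hj hij ⊢
    have hij' : ((i : ℝ) + 1) * h ≤ (j : ℝ) * h := by
      refine mul_le_mul_of_nonneg_right ?_ hhpos.le
      exact_mod_cast hij
    have hi1 : MeasurableSet[Blk W 0 (((i : ℝ) + 1) * h)] (A i) :=
      (Blk_le_Blk (W := W) (hj0 i) le_rfl) _ (hblk i)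
    have hj1 : MeasurableSet[Fut W (((i : ℝ) + 1) * h)] (A j) :=
      (Fut_anti (W := W) hij') _ ((Blk_le_Fut (W := W) _ _) _ (hblk j))
    have hind := indep_Blk_Fut hW.toDrv (s := ((i : ℝ) + 1) * h) (by positivity)
    rw [(Indep_iff _ _ μ).1 hind _ _ hi1 hj1, pow_two, ENNReal.ofReal_mul hp]
    exact mul_le_mul' (hAp i) (hAp j)
  refine ⟨A₀ ∪ ⋃ q ∈ P, (A q.1 ∩ A q.2), ?_, ?_, ?_⟩
  · refine MeasurableSet.union hA₀m ?_
    refine Finset.measurableSet_biUnion _ ?_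
    intro q hq
    obtain ⟨⟨hi, hj⟩, -⟩ := (hmemP _).1 hq
    exact MeasurableSet.inter ((Blk_le_Blk (W := W) (hj0 _) (hend _ hi)) _ (hblk _))
      ((Blk_le_Blk (W := W) (hj0 _) (hend _ hj)) _ (hblk _))
  · refine (measure_union_le _ _).trans ?_
    rw [ENNReal.ofReal_add hs₁ (by positivity)]
    refine add_le_add hA₀p ?_
    refine (measure_biUnion_finset_le _ _).trans ?_
    refine (Finset.sum_le_sum hpair).trans ?_
    rw [Finset.sum_const, nsmul_eq_mul, ENNReal.ofReal_mul (by positivity)]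
    refine mul_le_mul' ?_ le_rfl
    rw [← ENNReal.ofReal_natCast]
    exact ENNReal.ofReal_le_ofReal hcard
  · intro ω hω
    rw [Set.mem_union, not_or] at hω
    obtain ⟨hω0, hω1⟩ := hω
    intro z s g hs hsT hsol hcut
    have hone : ∃ j₀ : ℕ, ∀ j : ℕ, j < m ^ 2 → j ≠ j₀ → ω ∉ A j := by
      by_cases hc : ∃ j₀, j₀ < m ^ 2 ∧ ω ∈ A j₀
      · obtain ⟨j₀, hj₀, hωj⟩ := hc
        refine ⟨j₀, fun j hj hne hωj' => hω1 ?_⟩
        simp only [Set.mem_iUnion]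
        rcases lt_or_gt_of_ne hne with hlt | hgt
        · exact ⟨(j, j₀), (hmemP _).2 ⟨⟨hj, hj₀⟩, hlt⟩, hωj', hωj⟩
        · exact ⟨(j₀, j), (hmemP _).2 ⟨⟨hj₀, hj⟩, hgt⟩, hωj, hωj'⟩
      · exact ⟨0, fun j hj _ hωj => hc ⟨j, hj, hωj⟩⟩
    obtain ⟨j₀, hj₀⟩ := hone
    have hNc : ((m ^ 2 : ℕ) : ℝ) * h = T := by
      push_cast
      exact hNh
    refine disp_det_two (U := fun t => W t ω) (hW.cont ω) (h := h) (r := r) (κ := η / m)
      (N := m ^ 2) (L := L) hhpos hs (by rw [hNc]; exact hsT) hsol hη hr hrη (by positivity)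
      hKf (hA₀ ω hω0) hk1 ⟨j₀, ?_⟩ (by rw [hNc]; exact h1) h2
    intro j hj hne u hu hus
    have hd := hAd j ω (hj₀ j hj hne)
    have hsh := hsol.shift (s := (j : ℝ) * h) (r := (m : ℝ)⁻¹) (hj0 j) (hu.1.trans hus) hmi
    have hi2 : (0 : ℝ) < ((m : ℝ)⁻¹) ^ 2 := by positivity
    have hres := hsh.restrict (s := (u - (j : ℝ) * h) / ((m : ℝ)⁻¹) ^ 2)
      (div_le_div_of_nonneg_right (by linarith) hi2.le)
    have hτ0 : 0 ≤ (u - (j : ℝ) * h) / ((m : ℝ)⁻¹) ^ 2 :=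
      div_nonneg (by linarith [hu.1]) hi2.le
    have hτT : (u - (j : ℝ) * h) / ((m : ℝ)⁻¹) ^ 2 ≤ T := by
      rw [div_le_iff₀ hi2, mul_comm T, hmh]
      have := hu.2
      linarith
    have hfin := hd _ _ _ hτ0 hτT hres ?_
    · have e1 : (j : ℝ) * h + ((m : ℝ)⁻¹) ^ 2 * ((u - (j : ℝ) * h) / ((m : ℝ)⁻¹) ^ 2) = u := by
        field_simp
        ring
      simp only [e1, inv_inv] at hfin
      rw [← smul_sub, sub_sub_sub_cancel_right, norm_smul, Real.norm_of_nonneg hm0.le] at hfin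
      rw [le_div_iff₀ hm0, mul_comm]
      exact hfin
    · intro v hv
      have hmax : max v 0 = v := max_eq_left hv.1
      have hv2 : (j : ℝ) * h + ((m : ℝ)⁻¹) ^ 2 * v ∈ Set.Icc 0 s := by
        have h3 : 0 ≤ ((m : ℝ)⁻¹) ^ 2 * v := mul_nonneg hi2.le hv.1
        have h4 : ((m : ℝ)⁻¹) ^ 2 * v ≤ u - (j : ℝ) * h := by
          have h5 := (le_div_iff₀ hi2).1 hv.2
          linarith [mul_comm v (((m : ℝ)⁻¹) ^ 2)]
        exact ⟨add_nonneg (hj0 j) h3, by linarith⟩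
      have h6 := hcut _ hv2
      rw [div_le_iff₀ hm0] at h6
      simp only [subP, psub, hmax, inv_inv]
      rw [← smul_sub, sub_sub_sub_cancel_right, norm_smul, Real.norm_of_nonneg hm0.le, mul_comm]
      exact h6

end

end Pool.Agent.SLE
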